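import Pool.Agent.Helper46.Tor.Core

/-!
# TVR / AbsCore: the multiplicity argument in abstract form

This is `Tor.core` (Pool/Agent/Helper46/Tor/Core.lean) for an abstract cost function; `B` = blocks, states in `Fin 3`
(`0` = lowered, `2` = not lowered; the state `1` has probability `0`), `β = 1 - α`.

`abs_geo_unique` (as `Tor.geo_unique`): let `c1 = raise R c u`, `c2 = raise univ c u`, `g1 = geo c1`, `g2 = geo c2`.
For every `g`: `cost c1 g ≤ cost c2 g` (`hmono`: the two configurations differ only outside of `R`, where `c1 b = 0` is raised to `2`),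
and `cost c1 g1 = cost c2 g1` (`hloc`: they agree on `tch g1 ⊆ R`). So `g1` is a minimiser for `c2` and `g2` one for `c1`;
compare the ranks.

`abs_core`: `main_ineq` (Cube) with `ι`, `labels`, `Rg`, `reg c = if A c then some (lab (geo c)) else none`,
`B c := cost c (geo c) ≤ μ - c1 (ε h/2)`, `p`:
* `mult`: if `reg (raise (Rg l) c' u) = some l` and `reg (raise (Rg l') c' u) = some l'` then by `abs_geo_unique` both geodesics
  are `geo (raise univ c' u)`, so `l = l'`.
* `hdrop`: for `A c`, `l = lab (geo c)`, take `S` from the hypothesis `hdrop`; for `u` with `ε h/2 < #(S.filter (u · = true))` there is `g` with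
  `cost (lower (Rg l) c u) (geo (lower ..)) ≤ cost (lower ..) g ≤ cost c (geo c) - c1 * # ≤ μ - c1 (ε h/2)`; `drop_prob` (Geo).
-/

set_option autoImplicit false

namespace Pool.Agent.TVR

open Finset Pool.Agent.Helper46.Tor

variable {B : Type} [Fintype B] [DecidableEq B] {Γ : Type}

theorem abs_geo_unique {ρ : Type} [LinearOrder ρ] (cost : (B → Fin 3) → Γ → ℝ)
    (tch : Γ → Finset B)
    (hloc : ∀ c c' g, (∀ b ∈ tch g, c b = c' b) → cost c g = cost c' g)
    (hmono : ∀ c c' g, (∀ b, c b = c' b ∨ (c b = 0 ∧ c' b = 2)) → cost c g ≤ cost c' g)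
    (rank : Γ → ρ) (hrank : Function.Injective rank) (geo : (B → Fin 3) → Γ)
    (hmin : ∀ c g, cost c (geo c) ≤ cost c g)
    (hleast : ∀ c g, (∀ g', cost c g ≤ cost c g') → rank (geo c) ≤ rank g)
    (R : Finset B) (c : B → Fin 3) (u : B → Bool) (hR : tch (geo (raise R c u)) ⊆ R) :
    geo (raise R c u) = geo (raise Finset.univ c u) := by
  set c1 := raise R c u with hc1
  set c2 := raise Finset.univ c u with hc2
  set g1 := geo c1 with hg1
  set g2 := geo c2 with hg2
  have hle : ∀ g, cost c1 g ≤ cost c2 g := by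
    intro g
    apply hmono
    intro b
    by_cases hb : b ∈ R
    · left
      rw [hc1, hc2, raise_univ_eq R c u b hb]
    · simp only [hc1, hc2, raise, hb, if_false, Finset.mem_univ, if_true, raiseE]
      split_ifs with h
      · right
        exact ⟨h.2, rfl⟩
      · left
        rfl
  have heq : cost c1 g1 = cost c2 g1 := by
    apply hloc
    intro b hb
    rw [hc1, hc2, raise_univ_eq R c u b (hR hb)]
  have hg1min2 : ∀ g', cost c2 g1 ≤ cost c2 g' := by
    intro g'
    rw [← heq]
    exact (hmin c1 g').trans (hle g')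
  have hg2min1 : ∀ g', cost c1 g2 ≤ cost c1 g' := by
    intro g'
    calc cost c1 g2 ≤ cost c2 g2 := hle g2
      _ ≤ cost c2 g1 := hmin c2 g1
      _ = cost c1 g1 := heq.symm
      _ ≤ _ := hmin c1 g'
  apply hrank
  exact le_antisymm (hleast c1 g2 hg2min1) (hleast c2 g1 hg1min2)

open Classical in
theorem abs_core {ι ρ : Type} [LinearOrder ρ] {α ε C0 c1 h μ : ℝ} (hα : 0 < α) (hα1 : α < 1)
    (hε : 0 ≤ ε) (hε1 : ε ≤ 1) (hC0 : 0 ≤ C0) (hc1 : 0 ≤ c1)
    (cost : (B → Fin 3) → Γ → ℝ) (tch : Γ → Finset B)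
    (hloc : ∀ c c' g, (∀ b ∈ tch g, c b = c' b) → cost c g = cost c' g)
    (hmono : ∀ c c' g, (∀ b, c b = c' b ∨ (c b = 0 ∧ c' b = 2)) → cost c g ≤ cost c' g)
    (rank : Γ → ρ) (hrank : Function.Injective rank) (geo : (B → Fin 3) → Γ)
    (hmin : ∀ c g, cost c (geo c) ≤ cost c g)
    (hleast : ∀ c g, (∀ g', cost c g ≤ cost c g') → rank (geo c) ≤ rank g)
    (labels : Finset ι) (Rg : ι → Finset B) (lab : Γ → ι) (A : (B → Fin 3) → Prop)
    (hlab : ∀ c, A c → lab (geo c) ∈ labels ∧ tch (geo c) ⊆ Rg (lab (geo c)))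
    (p : ι → ℕ) (hp : ∀ l ∈ labels, 1 ≤ p l)
    (hh : 0 ≤ h) (hεh : 5 ≤ ε * h)
    (hAμ : ∀ c, A c → cost c (geo c) ≤ μ)
    (hdrop : ∀ c, A c → ∃ S : Finset B, S ⊆ Rg (lab (geo c)) ∧ h ≤ #S ∧ ∀ u : B → Bool, ∃ g,
      cost (lower (Rg (lab (geo c))) c u) g ≤
        cost c (geo c) - c1 * #(S.filter fun b => u b = true)) :
    1 / 2 * ∑ c, PP α (1 - α) c * (if A c then (1 : ℝ) else 0) ≤
      Real.exp C0 * ∑ c, PP α (1 - α) c *
        (if cost c (geo c) ≤ μ - c1 * (ε * h / 2) then (1 : ℝ) else 0) +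
      ∑ l ∈ labels, Real.exp (-((p l : ℝ) - 1) * C0) *
        (∑ s, wt α (1 - α) s * rho α (1 - α) ε s ^ (p l)) ^ #(Rg l) := by
  let reg : (B → Fin 3) → Option ι := fun c => if A c then some (lab (geo c)) else none
  have hregsome : ∀ c l, reg c = some l → A c ∧ lab (geo c) = l := by
    intro c l hc
    by_cases hA : A c
    · simp only [reg, if_pos hA, Option.some.injEq] at hc
      exact ⟨hA, hc⟩
    · simp [reg, hA] at hc
  have hreg : ∀ c l, reg c = some l → l ∈ labels := by
    intro c l hc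
    obtain ⟨hA, hl⟩ := hregsome c l hc
    rw [← hl]
    exact (hlab c hA).1
  have mult : ∀ c' u l l', reg (raise (Rg l) c' u) = some l →
      reg (raise (Rg l') c' u) = some l' → l = l' := by
    intro c' u l l' h1 h2
    obtain ⟨hA1, hl1⟩ := hregsome _ _ h1
    obtain ⟨hA2, hl2⟩ := hregsome _ _ h2
    have e1 := abs_geo_unique cost tch hloc hmono rank hrank geo hmin hleast (Rg l) c' u (by
      have := (hlab _ hA1).2
      rwa [hl1] at this)
    have e2 := abs_geo_unique cost tch hloc hmono rank hrank geo hmin hleast (Rg l') c' u (by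
      have := (hlab _ hA2).2
      rwa [hl2] at this)
    rw [← hl1, ← hl2, e1, e2]
  have hdrop' : ∀ c l, reg c = some l →
      1 / 2 ≤ ∑ u : B → Bool, Ber ε u *
        (if (fun c => cost c (geo c) ≤ μ - c1 * (ε * h / 2)) (lower (Rg l) c u)
          then (1 : ℝ) else 0) := by
    intro c l hc
    obtain ⟨hA, hl⟩ := hregsome c l hc
    obtain ⟨S, -, hS, hg⟩ := hdrop c hA
    apply drop_prob hε hε1 S h hh hS hεh
    intro u hu
    obtain ⟨g, hgu⟩ := hg u
    rw [hl] at hgu
    have h1 := hmin (lower (Rg l) c u) g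
    have h2 := hAμ c hA
    have h3 : c1 * (ε * h / 2) ≤ c1 * #(S.filter fun b => u b = true) :=
      mul_le_mul_of_nonneg_left hu.le hc1
    linarith
  have hmain := main_ineq (C0 := C0) hα (by linarith : (0 : ℝ) < 1 - α)
    (by linarith : α + (1 - α) ≤ 1) hε hε1 hC0 labels Rg reg hreg mult
    (fun c => cost c (geo c) ≤ μ - c1 * (ε * h / 2)) p hp hdrop'
  have hind : ∀ c : B → Fin 3,
      (if (reg c).isSome then (1 : ℝ) else 0) = (if A c then (1 : ℝ) else 0) := by
    intro c
    by_cases hA : A c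
    · have : reg c = some (lab (geo c)) := by simp only [reg, if_pos hA]
      rw [this, if_pos hA]
      simp
    · have : reg c = none := by simp only [reg, if_neg hA]
      rw [this, if_neg hA]
      simp
  simp_rw [hind] at hmain
  exact hmain

end Pool.Agent.TVR
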