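import Mathlib

/-!
# TVR / Fkg0: Harris' inequality for decreasing events, general product measure
-/

set_option autoImplicit false

namespace Pool.Agent.TVR

open MeasureTheory
open scoped NNReal ENNReal

namespace Fkg0Aux

/-- the rearrangement inequality for two pairs -/
theorem harris_pair {a b c d : ℝ≥0∞} (hab : b ≤ a) (hcd : d ≤ c) :
    a * d + b * c ≤ a * c + b * d := by
  obtain ⟨e, rfl⟩ := exists_add_of_le hab
  obtain ⟨f, rfl⟩ := exists_add_of_le hcd
  have h1 : (b + e) * (d + f) + b * d = ((b + e) * d + b * (d + f)) + e * f := by ring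
  rw [h1]
  exact le_self_add

/-- the case of one coordinate -/
theorem harris_one (ν : Measure ℝ≥0) [IsProbabilityMeasure ν] {F G : ℝ≥0 → ℝ≥0∞}
    (hF : Antitone F) (hG : Antitone G) :
    (∫⁻ x, F x ∂ν) * (∫⁻ x, G x ∂ν) ≤ ∫⁻ x, F x * G x ∂ν := by
  have mF : Measurable F := hF.measurable
  have mG : Measurable G := hG.measurable
  have mFG : Measurable fun x => F x * G x := mF.mul mG
  have hpt : ∀ x y, F x * G y + F y * G x ≤ F x * G x + F y * G y := by
    intro x y
    rcases le_total x y with h | h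
    · exact harris_pair (hF h) (hG h)
    · have h1 := harris_pair (hF h) (hG h)
      calc F x * G y + F y * G x = F y * G x + F x * G y := add_comm _ _
        _ ≤ F y * G y + F x * G x := h1
        _ = _ := add_comm _ _
  have h1 : ∫⁻ x, ∫⁻ y, (F x * G y + F y * G x) ∂ν ∂ν ≤
      ∫⁻ x, ∫⁻ y, (F x * G x + F y * G y) ∂ν ∂ν :=
    lintegral_mono fun x => lintegral_mono fun y => hpt x y
  have h2 : ∀ x, ∫⁻ y, (F x * G y + F y * G x) ∂ν =
      F x * (∫⁻ y, G y ∂ν) + (∫⁻ y, F y ∂ν) * G x := by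
    intro x
    rw [lintegral_add_left (mG.const_mul (F x)), lintegral_const_mul _ mG,
      lintegral_mul_const _ mF]
  have h3 : ∀ x, ∫⁻ y, (F x * G x + F y * G y) ∂ν = F x * G x + ∫⁻ y, F y * G y ∂ν := by
    intro x
    rw [lintegral_add_left measurable_const, lintegral_const, measure_univ, mul_one]
  simp only [h2, h3] at h1
  rw [lintegral_add_left (mF.mul_const _), lintegral_mul_const _ mF, lintegral_const_mul _ mG,
    lintegral_add_left mFG, lintegral_const, measure_univ, mul_one] at h1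
  by_contra hlt
  rw [not_le] at hlt
  exact absurd h1 (not_le.2 (ENNReal.add_lt_add hlt hlt))

theorem harris {N : ℕ} (ν : Fin N → Measure ℝ≥0) [∀ i, IsProbabilityMeasure (ν i)]
    {f g : (Fin N → ℝ≥0) → ℝ≥0∞} (hf : Measurable f) (hg : Measurable g) (hf' : Antitone f)
    (hg' : Antitone g) :
    (∫⁻ x, f x ∂(Measure.pi ν)) * (∫⁻ x, g x ∂(Measure.pi ν)) ≤
      ∫⁻ x, f x * g x ∂(Measure.pi ν) := by
  have hfg : Measurable fun x => f x * g x := hf.mul hg
  revert hfg
  induction N with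
  | zero =>
    intro hfg
    rw [Measure.pi_of_empty, lintegral_dirac' _ hf, lintegral_dirac' _ hg,
      lintegral_dirac' _ hfg]
  | succ N ih =>
    intro hfg
    set e := MeasurableEquiv.piFinSuccAbove (fun _ : Fin (N + 1) => ℝ≥0) 0 with he
    have hmp := (measurePreserving_piFinSuccAbove ν 0).symm
    set ν' : Measure (Fin N → ℝ≥0) := Measure.pi fun j => ν ((0 : Fin (N + 1)).succAbove j)
      with hν'
    have hes : ∀ p, e.symm p = (Fin.cons p.1 p.2 : Fin (N + 1) → ℝ≥0) := by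
      intro p
      exact Fin.insertNth_zero' p.1 p.2
    have hmono : ∀ {x x' : ℝ≥0} {y y' : Fin N → ℝ≥0}, x ≤ x' → y ≤ y' →
        e.symm (x, y) ≤ e.symm (x', y') := by
      intro x x' y y' hx hy
      rw [hes, hes]
      intro i
      refine Fin.cases ?_ (fun j => ?_) i
      · exact hx
      · exact hy j
    have hint : ∀ {h : (Fin (N + 1) → ℝ≥0) → ℝ≥0∞}, Measurable h →
        ∫⁻ x, h x ∂(Measure.pi ν) = ∫⁻ x, ∫⁻ y, h (e.symm (x, y)) ∂ν' ∂(ν 0) := by
      intro h hh
      rw [← hmp.lintegral_comp hh]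
      exact lintegral_prod _ (hh.comp e.symm.measurable).aemeasurable
    have hslice : ∀ {h : (Fin (N + 1) → ℝ≥0) → ℝ≥0∞}, Measurable h → ∀ x,
        Measurable fun y : Fin N → ℝ≥0 => h (e.symm (x, y)) := by
      intro h hh x
      exact (hh.comp e.symm.measurable).comp measurable_prodMk_left
    rw [hint hf, hint hg, hint hfg]
    refine (harris_one (ν 0) ?_ ?_).trans (lintegral_mono fun x => ?_)
    · intro x x' hx
      exact lintegral_mono fun y => hf' (hmono hx le_rfl)
    · intro x x' hx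
      exact lintegral_mono fun y => hg' (hmono hx le_rfl)
    · exact ih (fun j => ν ((0 : Fin (N + 1)).succAbove j)) (hslice hf x) (hslice hg x)
        (fun y y' hy => hf' (hmono le_rfl hy)) (fun y y' hy => hg' (hmono le_rfl hy))
        ((hslice hf x).mul (hslice hg x))

theorem fkg_fin {N : ℕ} (F : Measure ℝ≥0) [IsProbabilityMeasure F] {A B : Set (Fin N → ℝ≥0)}
    (mA : MeasurableSet A) (mB : MeasurableSet B)
    (hA : ∀ ω ω' : Fin N → ℝ≥0, (∀ e, ω' e ≤ ω e) → ω ∈ A → ω' ∈ A)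
    (hB : ∀ ω ω' : Fin N → ℝ≥0, (∀ e, ω' e ≤ ω e) → ω ∈ B → ω' ∈ B) :
    (Measure.pi fun _ : Fin N => F) A * (Measure.pi fun _ : Fin N => F) B ≤
      (Measure.pi fun _ : Fin N => F) (A ∩ B) := by
  have anti : ∀ S : Set (Fin N → ℝ≥0),
      (∀ ω ω' : Fin N → ℝ≥0, (∀ e, ω' e ≤ ω e) → ω ∈ S → ω' ∈ S) →
      Antitone (S.indicator (fun _ => (1 : ℝ≥0∞))) := by
    intro S hS ω' ω h
    by_cases hω : ω ∈ S
    · rw [Set.indicator_of_mem hω, Set.indicator_of_mem (hS ω ω' h hω)]
    · rw [Set.indicator_of_notMem hω]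
      exact bot_le
  have h := harris (fun _ : Fin N => F) (measurable_const.indicator mA)
    (measurable_const.indicator mB) (anti A hA) (anti B hB)
  have h1 : ∀ x, A.indicator (fun _ => (1 : ℝ≥0∞)) x * B.indicator (fun _ => (1 : ℝ≥0∞)) x =
      (A ∩ B).indicator (fun _ => (1 : ℝ≥0∞)) x := by
    intro x
    by_cases h1 : x ∈ A <;> by_cases h2 : x ∈ B <;> simp [h1, h2]
  simp_rw [h1] at h
  rwa [lintegral_indicator_const mA, lintegral_indicator_const mB,
    lintegral_indicator_const (mA.inter mB), one_mul, one_mul, one_mul] at h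

end Fkg0Aux

theorem fkg_pi {E : Type} [Fintype E] (F : Measure ℝ≥0) [IsProbabilityMeasure F]
    {A B : Set (E → ℝ≥0)} (mA : MeasurableSet A) (mB : MeasurableSet B)
    (hA : ∀ ω ω' : E → ℝ≥0, (∀ e, ω' e ≤ ω e) → ω ∈ A → ω' ∈ A)
    (hB : ∀ ω ω' : E → ℝ≥0, (∀ e, ω' e ≤ ω e) → ω ∈ B → ω' ∈ B) :
    (Measure.pi fun _ : E => F) A * (Measure.pi fun _ : E => F) B ≤
      (Measure.pi fun _ : E => F) (A ∩ B) := by
  classical
  obtain ⟨g⟩ : Nonempty (Fin (Fintype.card E) ≃ E) := ⟨(Fintype.equivFin E).symm⟩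
  have hmp := measurePreserving_piCongrLeft (fun _ : E => F) g
  have hval : ∀ (u : Fin (Fintype.card E) → ℝ≥0) (i : Fin (Fintype.card E)),
      MeasurableEquiv.piCongrLeft (fun _ : E => ℝ≥0) g u (g i) = u i := by
    intro u i
    exact Equiv.piCongrLeft_apply_apply (fun _ : E => ℝ≥0) g u i
  have hle : ∀ u v : Fin (Fintype.card E) → ℝ≥0, (∀ i, v i ≤ u i) →
      ∀ e, MeasurableEquiv.piCongrLeft (fun _ : E => ℝ≥0) g v e ≤
        MeasurableEquiv.piCongrLeft (fun _ : E => ℝ≥0) g u e := by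
    intro u v h e
    obtain ⟨i, rfl⟩ := g.surjective e
    rw [hval, hval]
    exact h i
  rw [← hmp.measure_preimage mA.nullMeasurableSet, ← hmp.measure_preimage mB.nullMeasurableSet,
    ← hmp.measure_preimage (mA.inter mB).nullMeasurableSet]
  exact Fkg0Aux.fkg_fin F (hmp.measurable mA) (hmp.measurable mB)
    (fun u v h hu => hA _ _ (hle u v h) hu) (fun u v h hu => hB _ _ (hle u v h) hu)

end Pool.Agent.TVR
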