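import Pool.Agent.TVR.Chain

/-!
# TVR / Ring: a ring of four chains separates

`cross_below`: cases of the step: vertical: `p.2 < h p.1`, `h p.1 ≤ p.2 ± 1`, so `p' = (p.1, h p.1) ∈ Gr h`. To the right: `p' = (p.1 + 1, p.2)`,
`h (p.1 + 1) ≤ p.2 < h p.1`, so `p ∈ Gr h`. To the left: `p' = (p.1 - 1, p.2)`, `h (p.1 - 1) ≤ p.2 < h p.1`, so `p' ∈ Gr h`. `cross_above`: symmetric.

`exists_ring`. Put `R0 = m W`. Chains of `N = m + 1` blocks (`exists_chain`): top `h1` (`ω`, `X0 = c.1 - R0 - W`, `Y = c.2 + R0`), bottom `h2` (`Y = c.2 - R0`), right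
`h3` (`tp n ω`, `X0 = c.2 - R0 - W`, `Y = c.1 + R0`), left `h4` (`Y = c.1 - R0`). The values: `h1 ∈ [c.2 + R0, c.2 + R0 + W)`, `h2 ∈ [c.2 - R0, c.2 - R0 + W)`, `h3 ∈ [c.1 + R0, c.1 + R0 + W)`,
`h4 ∈ [c.1 - R0, c.1 - R0 + W)`. Range of the arguments covered by (3) of `exists_chain`: `[c - R0 - W, c - R0 - W + (2m+3) W] = [c - R0 - W, c + R0 + 2W]`.
`R = {p | p ∈ Gr h1 or p ∈ Gr h2, |p.1 - c.1| ≤ R0 + W} ∪ {p | p.swap ∈ Gr h3 or p.swap ∈ Gr h4, |p.2 - c.2| ≤ R0 + W}`.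
Connections: two points of the same chain: `3 chc`. Corners: by (2) with `i = 0` and `i = m`, `h1` and `h2` are constant on `[c.1 - R0, c.1 - R0 + W)` and on
`[c.1 + R0, c.1 + R0 + W)`, `h3`, `h4` on the corresponding ranges of `c.2`. Top right corner: `x1 = ` value of `h3` on `[c.2 + R0, c.2 + R0 + W)`, `y1 = ` value of
`h1` on `[c.1 + R0, c.1 + R0 + W)`; since `x1` is in the last range and `y1` in the first, `h1 x1 = y1`, `h3 y1 = x1`: `(x1, y1) ∈ Gr h1` and its swap `∈ Gr h3`. Similarly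
the other three corners. So any two points of `R` are joined using each chain at most once: cost `≤ 3 (chc_1 + chc_2 + chc_3 + chc_4) = 3 rc` (`Pw_tp`, `Pw.trans`).
Separation: call `p` inner if `h2 p.1 < p.2 < h1 p.1` and `h4 p.2 < p.1 < h3 p.2`. `Ins c ((m-1) W) p → inner`; `inner → |p.1 - c.1| < R0 + W, |p.2 - c.2| < R0 + W`, so
`Outs c ((m+1) W) p → ¬ inner`. If the path goes from an inner point to a point that is not inner there is a step from an inner `p = u + tot (w.take i)` to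
`p' = u + tot (w.take (i+1))` not inner; one of the four inequalities fails for `p'`, and `cross_below`/`cross_above` for the function (for `h3, h4` after
swapping) gives `p` or `p'` in the graph; the ranges are fine because `p` is inner and `p'` is a neighbour. If the path ends at an inner point, there is a
step from a point that is not inner to an inner one: the same lemmas for the reversed step (`IsStep` is symmetric).
-/

set_option autoImplicit false

namespace Pool.Agent.TVR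

open Finset Pool.Agent.Helper46.Tor MeasureTheory
open scoped NNReal ENNReal

theorem cross_below {h : ℤ → ℤ} {p p' : ℤ × ℤ} (hp : IsStep p p') (h1 : p.2 < h p.1)
    (h2 : h p'.1 ≤ p'.2) : p ∈ Gr h ∨ p' ∈ Gr h := by
  obtain ⟨x, y⟩ := p
  obtain ⟨s, rfl⟩ := (isStep_iff _ _).1 hp
  simp only [Gr, Set.mem_ofPred_eq] at *
  fin_cases s
  · left
    simp only [vec, Prod.fst_add, Prod.snd_add] at *
    norm_num at *
    omega
  · right
    simp only [vec, Prod.fst_add, Prod.snd_add] at *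
    norm_num at *
    omega
  · right
    simp only [vec, Prod.fst_add, Prod.snd_add] at *
    norm_num at *
    omega
  · right
    simp only [vec, Prod.fst_add, Prod.snd_add] at *
    norm_num at *
    omega

theorem cross_above {h : ℤ → ℤ} {p p' : ℤ × ℤ} (hp : IsStep p p') (h1 : h p.1 < p.2)
    (h2 : p'.2 ≤ h p'.1) : p ∈ Gr h ∨ p' ∈ Gr h := by
  obtain ⟨x, y⟩ := p
  obtain ⟨s, rfl⟩ := (isStep_iff _ _).1 hp
  simp only [Gr, Set.mem_ofPred_eq] at *
  fin_cases s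
  · left
    simp only [vec, Prod.fst_add, Prod.snd_add] at *
    norm_num at *
    omega
  · right
    simp only [vec, Prod.fst_add, Prod.snd_add] at *
    norm_num at *
    omega
  · right
    simp only [vec, Prod.fst_add, Prod.snd_add] at *
    norm_num at *
    omega
  · right
    simp only [vec, Prod.fst_add, Prod.snd_add] at *
    norm_num at *
    omega

/-- cost of a ring around `c` at distance about `m W` -/
noncomputable def rc (n W m : ℕ) (ω : Sym2 (ZMod n × ZMod n) → ℝ≥0) (c : ℤ × ℤ) : ℝ≥0 :=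
  chc n W ω (c.1 - m * W - W) (c.2 + m * W) (m + 1) +
    chc n W ω (c.1 - m * W - W) (c.2 - m * W) (m + 1) +
    (chc n W (tp n ω) (c.2 - m * W - W) (c.1 + m * W) (m + 1) +
      chc n W (tp n ω) (c.2 - m * W - W) (c.1 - m * W) (m + 1))

/-- inside of the square of radius `r` -/
def Ins (c : ℤ × ℤ) (r : ℤ) (p : ℤ × ℤ) : Prop := |p.1 - c.1| < r ∧ |p.2 - c.2| < r

/-- outside of the square of radius `r` -/
def Outs (c : ℤ × ℤ) (r : ℤ) (p : ℤ × ℤ) : Prop := r ≤ |p.1 - c.1| ∨ r ≤ |p.2 - c.2|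

namespace RingAux

theorem chain1 (n W m : ℕ) (hW : 0 < W) (ω : Sym2 (ZMod n × ZMod n) → ℝ≥0) (a b r : ℤ)
    (hr : (m : ℤ) * W = r) :
    ∃ h : ℤ → ℤ, (∀ x, b ≤ h x ∧ h x < b + W) ∧
      (∀ x, a - r ≤ x → x < a - r + W → h x = h (a - r)) ∧
      (∀ x, a + r ≤ x → x < a + r + W → h x = h (a + r)) ∧
      (∀ p ∈ Gr h, ∀ q ∈ Gr h, |p.1 - a| ≤ r + W → |q.1 - a| ≤ r + W →
        Pw n ω p q (3 * chc n W ω (a - m * W - W) b (m + 1))) := by
  obtain ⟨h, h1, h2, h3, -, -⟩ := exists_chain n W hW ω (a - m * W - W) b (m + 1) (Nat.succ_pos m)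
  have hW' : (0 : ℤ) < W := by exact_mod_cast hW
  refine ⟨h, h1, ?_, ?_, ?_⟩
  · have h4 := h2 0 (Nat.succ_pos m)
    have e1 : a - (m : ℤ) * W - W + (2 * ((0 : ℕ) : ℤ) + 1) * W = a - r := by
      rw [hr]; push_cast; ring
    have e2 : a - (m : ℤ) * W - W + (2 * ((0 : ℕ) : ℤ) + 2) * W = a - r + W := by
      rw [hr]; push_cast; ring
    rw [e1, e2] at h4
    exact h4
  · have h4 := h2 m (Nat.lt_succ_self m)
    have e1 : a - (m : ℤ) * W - W + (2 * (m : ℤ) + 1) * W = a + r := by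
      rw [← hr]; ring
    have e2 : a - (m : ℤ) * W - W + (2 * (m : ℤ) + 2) * W = a + r + W := by
      rw [← hr]; ring
    rw [e1, e2] at h4
    exact h4
  · intro p hp q hq hpa hqa
    have e1 : a - (m : ℤ) * W - W + (2 * ((m + 1 : ℕ) : ℤ) + 1) * W = a + r + 2 * W := by
      rw [← hr]; push_cast; ring
    have e2 : a - (m : ℤ) * W - W = a - r - W := by rw [hr]
    have h5 := h3 p hp q hq
    rw [e1] at h5
    rw [abs_le] at hpa hqa
    exact h5 (by rw [e2]; linarith [hpa.1]) (by linarith [hpa.2]) (by rw [e2]; linarith [hqa.1])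
      (by linarith [hqa.2])

theorem corner {h g : ℤ → ℤ} {a b W : ℤ} (hh : ∀ x, a ≤ x → x < a + W → h x = h a)
    (hg : ∀ y, b ≤ y → y < b + W → g y = g b) (h1 : b ≤ h a ∧ h a < b + W)
    (h2 : a ≤ g b ∧ g b < a + W) :
    (g b, h a) ∈ Gr h ∧ (g b, h a).swap ∈ Gr g := by
  have e1 := hh (g b) h2.1 h2.2
  have e2 := hg (h a) h1.1 h1.2
  refine ⟨⟨?_, ?_⟩, ⟨?_, ?_⟩⟩
  · show min (h (g b)) (h (g b + 1)) ≤ h a
    rw [← e1]; exact min_le_left _ _
  · show h a ≤ max (h (g b)) (h (g b + 1))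
    rw [← e1]; exact le_max_left _ _
  · show min (g (h a)) (g (h a + 1)) ≤ g b
    rw [← e2]; exact min_le_left _ _
  · show g b ≤ max (g (h a)) (g (h a + 1))
    rw [← e2]; exact le_max_left _ _

theorem isStep_symm {p q : ℤ × ℤ} (h : IsStep p q) : IsStep q p := by
  unfold IsStep at *
  rw [abs_sub_comm q.1, abs_sub_comm q.2]
  exact h

theorem isStep_swap {p q : ℤ × ℤ} (h : IsStep p q) : IsStep p.swap q.swap := by
  unfold IsStep at *
  simp only [Prod.fst_swap, Prod.snd_swap]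
  omega

/-- joining in a cycle of four sets -/
theorem join4 {n : ℕ} {ω : Sym2 (ZMod n × ZMod n) → ℝ≥0} {S1 S2 S3 S4 : Set (ℤ × ℤ)}
    {c1 c2 c3 c4 : ℝ} (p1 : 0 ≤ c1) (p2 : 0 ≤ c2) (p3 : 0 ≤ c3) (p4 : 0 ≤ c4)
    (H1 : ∀ p ∈ S1, ∀ q ∈ S1, Pw n ω p q c1) (H2 : ∀ p ∈ S2, ∀ q ∈ S2, Pw n ω p q c2)
    (H3 : ∀ p ∈ S3, ∀ q ∈ S3, Pw n ω p q c3) (H4 : ∀ p ∈ S4, ∀ q ∈ S4, Pw n ω p q c4)
    {k13 k14 k23 k24 : ℤ × ℤ} (a1 : k13 ∈ S1) (a2 : k13 ∈ S3) (a3 : k14 ∈ S1) (a4 : k14 ∈ S4)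
    (a5 : k23 ∈ S2) (a6 : k23 ∈ S3) (a7 : k24 ∈ S2) (a8 : k24 ∈ S4) {p q : ℤ × ℤ}
    (hp : p ∈ S1 ∨ p ∈ S2 ∨ p ∈ S3 ∨ p ∈ S4) (hq : q ∈ S1 ∨ q ∈ S2 ∨ q ∈ S3 ∨ q ∈ S4) :
    Pw n ω p q (c1 + c2 + (c3 + c4)) := by
  have mono : ∀ {u v : ℤ × ℤ} {c : ℝ}, Pw n ω u v c → c ≤ c1 + c2 + (c3 + c4) →
      Pw n ω u v (c1 + c2 + (c3 + c4)) := fun h hc => h.mono hc (fun _ => le_refl _)
  have W12 : ∀ p ∈ S1, ∀ q ∈ S2, Pw n ω p q (c1 + c2 + (c3 + c4)) := fun p hp q hq =>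
    mono (((H1 p hp k13 a1).trans (H3 k13 a2 k23 a6)).trans (H2 k23 a5 q hq)) (by linarith)
  have W13 : ∀ p ∈ S1, ∀ q ∈ S3, Pw n ω p q (c1 + c2 + (c3 + c4)) := fun p hp q hq =>
    mono ((H1 p hp k13 a1).trans (H3 k13 a2 q hq)) (by linarith)
  have W14 : ∀ p ∈ S1, ∀ q ∈ S4, Pw n ω p q (c1 + c2 + (c3 + c4)) := fun p hp q hq =>
    mono ((H1 p hp k14 a3).trans (H4 k14 a4 q hq)) (by linarith)
  have W23 : ∀ p ∈ S2, ∀ q ∈ S3, Pw n ω p q (c1 + c2 + (c3 + c4)) := fun p hp q hq =>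
    mono ((H2 p hp k23 a5).trans (H3 k23 a6 q hq)) (by linarith)
  have W24 : ∀ p ∈ S2, ∀ q ∈ S4, Pw n ω p q (c1 + c2 + (c3 + c4)) := fun p hp q hq =>
    mono ((H2 p hp k24 a7).trans (H4 k24 a8 q hq)) (by linarith)
  have W34 : ∀ p ∈ S3, ∀ q ∈ S4, Pw n ω p q (c1 + c2 + (c3 + c4)) := fun p hp q hq =>
    mono (((H3 p hp k13 a2).trans (H1 k13 a1 k14 a3)).trans (H4 k14 a4 q hq)) (by linarith)
  rcases hp with hp | hp | hp | hp <;> rcases hq with hq | hq | hq | hq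
  · exact mono (H1 p hp q hq) (by linarith)
  · exact W12 p hp q hq
  · exact W13 p hp q hq
  · exact W14 p hp q hq
  · exact (W12 q hq p hp).symm
  · exact mono (H2 p hp q hq) (by linarith)
  · exact W23 p hp q hq
  · exact W24 p hp q hq
  · exact (W13 q hq p hp).symm
  · exact (W23 q hq p hp).symm
  · exact mono (H3 p hp q hq) (by linarith)
  · exact W34 p hp q hq
  · exact (W14 q hq p hp).symm
  · exact (W24 q hq p hp).symm
  · exact (W34 q hq p hp).symm
  · exact mono (H4 p hp q hq) (by linarith)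

/-- a discrete intermediate value principle -/
theorem exists_change {P : ℕ → Prop} {L : ℕ} (h0 : P 0) (hL : ¬ P L) :
    ∃ i < L, P i ∧ ¬ P (i + 1) := by
  classical
  by_contra hc
  push Not at hc
  have : ∀ i ≤ L, P i := by
    intro i
    induction i with
    | zero => exact fun _ => h0
    | succ i ih => exact fun hi => hc i (by omega) (ih (by omega))
  exact hL (this L le_rfl)

end RingAux

theorem exists_ring (n W m : ℕ) (hW : 0 < W) (hm : 0 < m)
    (ω : Sym2 (ZMod n × ZMod n) → ℝ≥0) (c : ℤ × ℤ) :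
    ∃ R : Set (ℤ × ℤ), (∀ p ∈ R, ∀ q ∈ R, Pw n ω p q (3 * rc n W m ω c)) ∧
      ∀ (u : ℤ × ℤ) (w : List (Fin 4)),
        (Ins c (((m : ℤ) - 1) * W) u ∧ Outs c (((m : ℤ) + 1) * W) (u + tot w)) ∨
          (Outs c (((m : ℤ) + 1) * W) u ∧ Ins c (((m : ℤ) - 1) * W) (u + tot w)) →
        ∃ i ≤ w.length, u + tot (w.take i) ∈ R := by
  obtain ⟨r, hr⟩ : ∃ r : ℤ, (m : ℤ) * W = r := ⟨_, rfl⟩
  obtain ⟨x, y⟩ := c
  have hW' : (0 : ℤ) < W := by exact_mod_cast hW
  have hm' : (0 : ℤ) < m := by exact_mod_cast hm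
  have hr0 : 0 < r := by rw [← hr]; positivity
  have e1 : ((m : ℤ) - 1) * W = r - W := by rw [← hr]; ring
  have e2 : ((m : ℤ) + 1) * W = r + W := by rw [← hr]; ring
  rw [e1, e2]
  obtain ⟨h1, b1, l1, u1, j1⟩ := RingAux.chain1 n W m hW ω x (y + m * W) r hr
  obtain ⟨h2, b2, l2, u2, j2⟩ := RingAux.chain1 n W m hW ω x (y - m * W) r hr
  obtain ⟨h3, b3, l3, u3, j3⟩ := RingAux.chain1 n W m hW (tp n ω) y (x + m * W) r hr
  obtain ⟨h4, b4, l4, u4, j4⟩ := RingAux.chain1 n W m hW (tp n ω) y (x - m * W) r hr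
  rw [hr] at b1 b2 b3 b4
  let S1 : Set (ℤ × ℤ) := {p | p ∈ Gr h1 ∧ |p.1 - x| ≤ r + W}
  let S2 : Set (ℤ × ℤ) := {p | p ∈ Gr h2 ∧ |p.1 - x| ≤ r + W}
  let S3 : Set (ℤ × ℤ) := {p | p.swap ∈ Gr h3 ∧ |p.2 - y| ≤ r + W}
  let S4 : Set (ℤ × ℤ) := {p | p.swap ∈ Gr h4 ∧ |p.2 - y| ≤ r + W}
  refine ⟨{p | p ∈ S1 ∨ p ∈ S2 ∨ p ∈ S3 ∨ p ∈ S4}, ?_, ?_⟩
  · intro p hp q hq
    have H1 : ∀ p ∈ S1, ∀ q ∈ S1, Pw n ω p q (3 * chc n W ω (x - m * W - W) (y + m * W) (m + 1)) :=
      fun p hp q hq => j1 p hp.1 q hq.1 hp.2 hq.2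
    have H2 : ∀ p ∈ S2, ∀ q ∈ S2, Pw n ω p q (3 * chc n W ω (x - m * W - W) (y - m * W) (m + 1)) :=
      fun p hp q hq => j2 p hp.1 q hq.1 hp.2 hq.2
    have H3 : ∀ p ∈ S3, ∀ q ∈ S3,
        Pw n ω p q (3 * chc n W (tp n ω) (y - m * W - W) (x + m * W) (m + 1)) := by
      intro p hp q hq
      have := Pw_tp (j3 p.swap hp.1 q.swap hq.1 hp.2 hq.2)
      rwa [Prod.swap_swap, Prod.swap_swap] at this
    have H4 : ∀ p ∈ S4, ∀ q ∈ S4,
        Pw n ω p q (3 * chc n W (tp n ω) (y - m * W - W) (x - m * W) (m + 1)) := by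
      intro p hp q hq
      have := Pw_tp (j4 p.swap hp.1 q.swap hq.1 hp.2 hq.2)
      rwa [Prod.swap_swap, Prod.swap_swap] at this
    have K13 := RingAux.corner (W := W) u1 u3 (b1 (x + r)) (b3 (y + r))
    have K14 := RingAux.corner (W := W) l1 u4 (b1 (x - r)) (b4 (y + r))
    have K23 := RingAux.corner (W := W) u2 l3 (b2 (x + r)) (b3 (y - r))
    have K24 := RingAux.corner (W := W) l2 l4 (b2 (x - r)) (b4 (y - r))
    have ab : ∀ {t s : ℤ}, s - r - W ≤ t → t ≤ s + r + W → |t - s| ≤ r + W := by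
      intro t s h h'
      rw [abs_le]
      constructor <;> linarith
    have q1 := b1 (x + r)
    have q2 := b1 (x - r)
    have q3 := b2 (x + r)
    have q4 := b2 (x - r)
    have q5 := b3 (y + r)
    have q6 := b3 (y - r)
    have q7 := b4 (y + r)
    have q8 := b4 (y - r)
    have := RingAux.join4 (n := n) (ω := ω) (S1 := S1) (S2 := S2) (S3 := S3) (S4 := S4)
      (by positivity) (by positivity) (by positivity) (by positivity) H1 H2 H3 H4
      (k13 := (h3 (y + r), h1 (x + r))) (k14 := (h4 (y + r), h1 (x - r)))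
      (k23 := (h3 (y - r), h2 (x + r))) (k24 := (h4 (y - r), h2 (x - r)))
      ⟨K13.1, ab (by dsimp only; linarith) (by dsimp only; linarith)⟩
      ⟨K13.2, ab (by dsimp only; linarith) (by dsimp only; linarith)⟩
      ⟨K14.1, ab (by dsimp only; linarith) (by dsimp only; linarith)⟩
      ⟨K14.2, ab (by dsimp only; linarith) (by dsimp only; linarith)⟩
      ⟨K23.1, ab (by dsimp only; linarith) (by dsimp only; linarith)⟩
      ⟨K23.2, ab (by dsimp only; linarith) (by dsimp only; linarith)⟩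
      ⟨K24.1, ab (by dsimp only; linarith) (by dsimp only; linarith)⟩
      ⟨K24.2, ab (by dsimp only; linarith) (by dsimp only; linarith)⟩ hp hq
    refine this.mono (le_of_eq ?_) (fun _ => le_refl _)
    unfold rc
    push_cast
    ring
  · intro u w huw
    let In : ℤ × ℤ → Prop := fun p => h2 p.1 < p.2 ∧ p.2 < h1 p.1 ∧ h4 p.2 < p.1 ∧ p.1 < h3 p.2
    have hIn : ∀ p, Ins (x, y) (r - W) p → In p := by
      rintro ⟨p1, p2⟩ ⟨a, b⟩
      simp only at a b
      rw [abs_lt] at a b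
      have q1 := b1 p1
      have q2 := b2 p1
      have q3 := b3 p2
      have q4 := b4 p2
      refine ⟨?_, ?_, ?_, ?_⟩ <;> dsimp only <;> linarith [a.1, a.2, b.1, b.2]
    have hlt : ∀ p, In p → |p.1 - x| < r + W ∧ |p.2 - y| < r + W := by
      rintro ⟨p1, p2⟩ ⟨a1, a2, a3, a4⟩
      simp only at a1 a2 a3 a4
      have q1 := b1 p1
      have q2 := b2 p1
      have q3 := b3 p2
      have q4 := b4 p2
      simp only
      rw [abs_lt, abs_lt]
      refine ⟨⟨?_, ?_⟩, ⟨?_, ?_⟩⟩ <;> linarith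
    have hOut : ∀ p, Outs (x, y) (r + W) p → ¬ In p := by
      intro p hp hpi
      have := hlt p hpi
      rcases hp with hp | hp
      · exact absurd this.1 (not_lt.2 hp)
      · exact absurd this.2 (not_lt.2 hp)
    have key : ∀ p p', IsStep p p' → In p → ¬ In p' →
        (p ∈ S1 ∨ p ∈ S2 ∨ p ∈ S3 ∨ p ∈ S4) ∨ (p' ∈ S1 ∨ p' ∈ S2 ∨ p' ∈ S3 ∨ p' ∈ S4) := by
      intro p p' hs hp hp'
      have hb := hlt p hp
      have hb' : |p'.1 - x| ≤ r + W ∧ |p'.2 - y| ≤ r + W := by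
        have h0 := hs
        unfold IsStep at h0
        have n1 := abs_nonneg (p.1 - p'.1)
        have n2 := abs_nonneg (p.2 - p'.2)
        have t1 : |p'.1 - x| ≤ |p.1 - x| + |p.1 - p'.1| := by
          have := abs_sub (p.1 - x) (p.1 - p'.1)
          rwa [show p.1 - x - (p.1 - p'.1) = p'.1 - x by ring] at this
        have t2 : |p'.2 - y| ≤ |p.2 - y| + |p.2 - p'.2| := by
          have := abs_sub (p.2 - y) (p.2 - p'.2)
          rwa [show p.2 - y - (p.2 - p'.2) = p'.2 - y by ring] at this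
        have v1 := Int.add_one_le_iff.2 hb.1
        have v2 := Int.add_one_le_iff.2 hb.2
        constructor <;> linarith
      by_cases c1 : h2 p'.1 < p'.2
      · by_cases c2 : p'.2 < h1 p'.1
        · by_cases c3 : h4 p'.2 < p'.1
          · by_cases c4 : p'.1 < h3 p'.2
            · exact absurd ⟨c1, c2, c3, c4⟩ hp'
            · rcases cross_below (RingAux.isStep_swap hs) (h := h3) hp.2.2.2 (not_lt.1 c4) with h | h
              · exact Or.inl (Or.inr (Or.inr (Or.inl ⟨h, hb.2.le⟩)))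
              · exact Or.inr (Or.inr (Or.inr (Or.inl ⟨h, hb'.2⟩)))
          · rcases cross_above (RingAux.isStep_swap hs) (h := h4) hp.2.2.1 (not_lt.1 c3) with h | h
            · exact Or.inl (Or.inr (Or.inr (Or.inr ⟨h, hb.2.le⟩)))
            · exact Or.inr (Or.inr (Or.inr (Or.inr ⟨h, hb'.2⟩)))
        · rcases cross_below hs (h := h1) hp.2.1 (not_lt.1 c2) with h | h
          · exact Or.inl (Or.inl ⟨h, hb.1.le⟩)
          · exact Or.inr (Or.inl ⟨h, hb'.1⟩)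
      · rcases cross_above hs (h := h2) hp.1 (not_lt.1 c1) with h | h
        · exact Or.inl (Or.inr (Or.inl ⟨h, hb.1.le⟩))
        · exact Or.inr (Or.inr (Or.inl ⟨h, hb'.1⟩))
    have hst := (path_of_word n u w).1
    have e0 : u + tot (w.take 0) = u := by rw [List.take_zero, tot_nil, add_zero]
    have eL : u + tot (w.take w.length) = u + tot w := by rw [List.take_length]
    rcases huw with ⟨ha, hb⟩ | ⟨ha, hb⟩
    · obtain ⟨i, hi, hi1, hi2⟩ := RingAux.exists_change (P := fun i => In (u + tot (w.take i)))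
        (L := w.length) (by rw [e0]; exact hIn _ ha) (by rw [eL]; exact hOut _ hb)
      rcases key _ _ (hst i hi) hi1 hi2 with h | h
      · exact ⟨i, hi.le, h⟩
      · exact ⟨i + 1, hi, h⟩
    · obtain ⟨i, hi, hi1, hi2⟩ := RingAux.exists_change (P := fun i => ¬ In (u + tot (w.take i)))
        (L := w.length) (by rw [e0]; exact hOut _ ha) (by rw [eL, not_not]; exact hIn _ hb)
      rcases key _ _ (RingAux.isStep_symm (hst i hi)) (not_not.1 hi2) hi1 with h | h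
      · exact ⟨i + 1, hi, h⟩
      · exact ⟨i, hi.le, h⟩

end Pool.Agent.TVR
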