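import Pool.Agent.TVR.HalfT
import Pool.Agent.TVR.Ring

/-!
# TVR / Loop: two half crossings and two rings give a cheap loop

Rings `R0` (center `(0, 0)`) and `R1` (center `(h, A)`) from `exists_ring`. Right crossing: `u = (0, y0)`, `v = (h, y1)`, word `w1` (`Pw`). `Ins (0,0) ((m-1) W) u` (`0 ≤ y0 < w ≤ (m-1) W`),
`Outs (0,0) ((m+1) W) v` (`h ≥ (m+1) W`): an index `i` with `P0 = u + tot (w1.take i) ∈ R0`. `Outs (h, A) ((m+1) W) u` (`|0 - h| ≥ (m+1) W`), `Ins (h, A) ((m-1) W) v` (`|y1 - A| < w`):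
an index `j` with `P1 = u + tot (w1.take j) ∈ R1`. `Pw_sub`: `Pw P0 P1 C`.
Left crossing, shifted by `-n` (`Pw.shift` with `z = (-1, 0)`): word from `u' = (0, y0')` to `v' = (-h, y1')`: `Ins (0,0) .. u'`, `Outs (0,0) .. v'`: a vertex `P0' ∈ R0`; and unshifted, the
same word from `(n, y0')` to `(n - h, y1')`: `Outs (h, A) .. (n, y0')` (`n - h ≥ h ≥ (m+1) W`), `Ins (h, A) .. (n - h, y1')` (`0 ≤ n - 2h ≤ 1 < (m-1) W`): a vertex `P1' ∈ R1`.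
By `Pw_sub` (for the word from `(n, y0')`, with `P0' + (n, 0)`): `Pw P1' (P0' + (n,0)) C`. Loop: `P0 → P1` (`C`), `P1 → P1'` (`3 rc1`), `P1' → P0' + (n,0)` (`C`),
`P0' + (n,0) → P0 + (n,0)` (`3 rc0`, `Pw.shift` with `z = (1, 0)`): `T_le_of_Pw` gives `T n ω ≤ 2 C + 3 (rc0 + rc1) ≤ 2 C + 6 cr`.
-/

set_option autoImplicit false

namespace Pool.Agent.TVR

open Finset Pool.Agent.Helper46.Tor MeasureTheory
open scoped NNReal ENNReal

theorem T_le_loop {n h w W m : ℕ} [NeZero n] (hW : 0 < W) (hm : 3 ≤ m) (hw : w ≤ (m - 1) * W)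
    (hh : (m + 1) * W ≤ h) (hn : 2 * h ≤ n) (hn' : n ≤ 2 * h + 1) {A : ℤ} {C cr : ℝ}
    {ω : Sym2 (ZMod n × ZMod n) → ℝ≥0} (h1 : ω ∈ HR n h w A C) (h2 : ω ∈ HL n h w A C)
    (h3 : (rc n W m ω (0, 0) : ℝ) ≤ cr) (h4 : (rc n W m ω (h, A) : ℝ) ≤ cr) :
    T n ω ≤ 2 * C + 6 * cr := by
  have hW1 : (1 : ℤ) ≤ W := by exact_mod_cast hW
  have hm1 : (3 : ℤ) ≤ m := by exact_mod_cast hm
  have hB : (2 : ℤ) ≤ ((m : ℤ) - 1) * W := by nlinarith
  have hw' : (w : ℤ) ≤ ((m : ℤ) - 1) * W := by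
    have h5 : ((w : ℕ) : ℤ) ≤ (((m - 1) * W : ℕ) : ℤ) := by exact_mod_cast hw
    rwa [Nat.cast_mul, Nat.cast_sub (by omega : 1 ≤ m), Nat.cast_one] at h5
  have hh' : ((m : ℤ) + 1) * W ≤ h := by exact_mod_cast hh
  have hn1 : 2 * (h : ℤ) ≤ n := by exact_mod_cast hn
  have hn2 : (n : ℤ) ≤ 2 * h + 1 := by exact_mod_cast hn'
  have hh0 : (0 : ℤ) ≤ h := Int.natCast_nonneg h
  generalize hBd : ((m : ℤ) - 1) * W = B at *
  generalize hDd : ((m : ℤ) + 1) * W = D at *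
  obtain ⟨R0, hR0, hS0⟩ := exists_ring n W m hW (by omega) ω (0, 0)
  obtain ⟨R1, hR1, hS1⟩ := exists_ring n W m hW (by omega) ω (h, A)
  rw [hBd, hDd] at hS0 hS1
  obtain ⟨y0, y1, a1, a2, a3, a4, w1, hw1, hc1⟩ := h1
  obtain ⟨z0, z1, b1, b2, b3, b4, w2, hw2, hc2⟩ := h2
  -- the crossing to the right
  have e1 : ((0 : ℤ), y0) + tot w1 = ((h : ℤ), y1) := by rw [hw1, add_sub_cancel]
  obtain ⟨i, hi, hPi⟩ := hS0 (0, y0) w1 (Or.inl (by
    rw [e1]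
    refine ⟨⟨?_, ?_⟩, Or.inl ?_⟩
    · show |(0 : ℤ) - 0| < B
      rw [sub_zero, abs_zero]
      omega
    · show |y0 - 0| < B
      rw [abs_lt]
      omega
    · show D ≤ |(h : ℤ) - 0|
      rw [le_abs]
      omega))
  obtain ⟨j, hj, hPj⟩ := hS1 (0, y0) w1 (Or.inr (by
    rw [e1]
    refine ⟨Or.inl ?_, ⟨?_, ?_⟩⟩
    · show D ≤ |(0 : ℤ) - h|
      rw [le_abs]
      omega
    · show |(h : ℤ) - h| < B
      rw [sub_self, abs_zero]
      omega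
    · show |y1 - A| < B
      rw [abs_lt]
      omega))
  -- the crossing to the left
  have e2 : ((n : ℤ), z0) + tot w2 = ((n : ℤ) - h, z1) := by rw [hw2, add_sub_cancel]
  have e3 : ((0 : ℤ), z0) + tot w2 = (-(h : ℤ), z1) := by
    rw [hw2]
    refine Prod.ext ?_ ?_
    · show (0 : ℤ) + ((n : ℤ) - h - n) = -h
      ring
    · show z0 + (z1 - z0) = z1
      ring
  obtain ⟨j', hj', hPj'⟩ := hS1 (n, z0) w2 (Or.inr (by
    rw [e2]
    refine ⟨Or.inl ?_, ⟨?_, ?_⟩⟩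
    · show D ≤ |(n : ℤ) - h|
      rw [le_abs]
      omega
    · show |(n : ℤ) - h - h| < B
      rw [abs_lt]
      omega
    · show |z1 - A| < B
      rw [abs_lt]
      omega))
  obtain ⟨i', hi', hPi'⟩ := hS0 (0, z0) w2 (Or.inl (by
    rw [e3]
    refine ⟨⟨?_, ?_⟩, Or.inl ?_⟩
    · show |(0 : ℤ) - 0| < B
      rw [sub_zero, abs_zero]
      omega
    · show |z0 - 0| < B
      rw [abs_lt]
      omega
    · show D ≤ |-(h : ℤ) - 0|
      rw [le_abs]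
      omega))
  have p1 := Pw_sub w1 hc1 hi hj
  have p2 := hR1 _ hPj _ hPj'
  have p3 := Pw_sub w2 hc2 hj' hi'
  have p4 := (hR0 _ hPi' _ hPi).shift (1, 0)
  have e4 : ((n : ℤ) * ((1 : ℤ), (0 : ℤ)).1, (n : ℤ) * ((1 : ℤ), (0 : ℤ)).2) = ((n : ℤ), 0) := by
    rw [mul_one, mul_zero]
  rw [e4] at p4
  have e5 : ((0 : ℤ), z0) + tot (w2.take i') + ((n : ℤ), 0) = ((n : ℤ), z0) + tot (w2.take i') := by
    rw [add_right_comm]
    congr 1
    refine Prod.ext ?_ ?_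
    · show (0 : ℤ) + n = n
      ring
    · show z0 + 0 = z0
      ring
  rw [e5] at p4
  have p5 := T_le_of_Pw (((p1.trans p2).trans p3).trans p4)
  linarith

end Pool.Agent.TVR
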