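import Pool.Agent.TVR.Chain

/-!
# TVR / TUp: the winding time is bounded by the cost of a chain around the torus

`exists_chain` with `X0 = Y = 0`, `N = I + 1`: `h`, the last column `c ∈ [2 I W, (2I+1) W)`, so `0 ≤ c - n < 3 W`. Let `P = (c - n, h W)`.
`Pw P (W, h W) chc` (row of block `0`, property (5), `X0 + W = W`), `(W, h W) ∈ Gr h` and `(c, h c) ∈ Gr h` (any `(x, h x) ∈ Gr h`), so `Pw (W, h W) (c, h c) (3 chc)`;
`Pw (c, h c) (c, h W) chc` (property (4): all values of `h` are in `[0, W)`). Total `5 chc` from `P` to `(c, h W) = P + (n, 0)`: `T_le_of_Pw`.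
-/

set_option autoImplicit false

namespace Pool.Agent.TVR

open Finset Pool.Agent.Helper46.Tor MeasureTheory
open scoped NNReal ENNReal

theorem T_le_chc (n W : ℕ) [NeZero n] (hW : 0 < W) (ω : Sym2 (ZMod n × ZMod n) → ℝ≥0) (I : ℕ)
    (h1 : n ≤ 2 * I * W) (h2 : 2 * I * W ≤ n + 2 * W) :
    T n ω ≤ 5 * chc n W ω 0 0 (I + 1) := by
  obtain ⟨h, hb, _, hg, ⟨c, hc1, hc2, hcol⟩, hrow⟩ :=
    exists_chain n W hW ω 0 0 (I + 1) (Nat.succ_pos I)
  have hW' : (0 : ℤ) < W := by exact_mod_cast hW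
  have h1' : (n : ℤ) ≤ 2 * I * W := by exact_mod_cast h1
  have h2' : 2 * (I : ℤ) * W ≤ n + 2 * W := by exact_mod_cast h2
  have hn0 : (0 : ℤ) ≤ n := Int.natCast_nonneg n
  have hI0 : (0 : ℤ) ≤ I := Int.natCast_nonneg I
  have hIW : (0 : ℤ) ≤ I * W := mul_nonneg hI0 hW'.le
  push_cast at hc1 hc2 hg hcol hrow
  have a1 : 2 * (I : ℤ) * W ≤ c := by
    have : (0 : ℤ) + 2 * ((I : ℤ) + 1 - 1) * W = 2 * I * W := by ring
    rw [this] at hc1
    exact hc1
  have a2 : c < 2 * (I : ℤ) * W + W := by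
    have : (0 : ℤ) + (2 * ((I : ℤ) + 1) - 1) * W = 2 * I * W + W := by ring
    rw [this] at hc2
    exact hc2
  have hGr : ∀ x : ℤ, ((x, h x) : ℤ × ℤ) ∈ Gr h := fun x => ⟨min_le_left _ _, le_max_left _ _⟩
  have e1 := hrow (c - n) W (by linarith) (by linarith) hW'.le (by linarith)
  have e2 := hg (W, h W) (hGr W) (c, h c) (hGr c) hW'.le
    (by show (W : ℤ) ≤ 0 + (2 * ((I : ℤ) + 1) + 1) * W; nlinarith)
    (by show (0 : ℤ) ≤ c; linarith)
    (by show c ≤ 0 + (2 * ((I : ℤ) + 1) + 1) * W; nlinarith)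
  have e3 := hcol (h c) (h W) (hb c).1 (by linarith [(hb c).2]) (hb W).1
    (by linarith [(hb W).2])
  rw [zero_add] at e1
  have e4 := (e1.trans e2).trans e3
  have e5 : ((c, h W) : ℤ × ℤ) = (c - n, h W) + ((n : ℤ), 0) := by
    rw [Prod.mk_add_mk, sub_add_cancel, add_zero]
  rw [e5] at e4
  have e6 := T_le_of_Pw e4
  linarith

end Pool.Agent.TVR
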