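import Pool.Agent.TVR.MeanA
import Pool.Agent.TVR.TUp
import Pool.Agent.TVR.Ring

/-!
# TVR / MeanB: linear upper bound for the winding time, cheap rings

Hypothesis `hm` = the conclusion of `exists_mean`. `E chc ≤ 2 m0 N` (`lintegral_finset_sum`, `lintegral_add_left`), also for `tp n ω` (`tp_mp`, `measurable_tp`).
`up_lin`: for `n` large (`n > 3 W`, `n ≥ 2 W` ...) let `I = n / (2 W) + 1`: `n ≤ 2 I W ≤ n + 2 W`, `I + 1 ≤ 2 n`. `T n ≤ 5 chc` (`T_le_chc`), Markov: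
`P(5 chc > C1 n) ≤ 5 * 2 m0 (I+1) / (C1 n) ≤ 1/2` for `C1 = 40 m0 + 1`. So `P(T ≤ C1 n) ≥ 1/2`.
`ring_prob`: `E rc ≤ 8 m0 (m + 1) ≤ 16 m0 m`, Markov: `P(rc > CR m) ≤ 1/2` for `CR = 32 m0 + 1`.
`ring_meas`, `ring_low`: `rc` is measurable (`measurable_hmin`, `measurable_tp`) and monotone in `ω` (`ciInf_mono`, `OrderBot.bddBelow`, sums).
-/

set_option autoImplicit false

namespace Pool.Agent.TVR

open Finset Pool.Agent.Helper46.Tor MeasureTheory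
open scoped NNReal ENNReal

private theorem measurable_chc42 (n W : ℕ) (X0 Y : ℤ) (N : ℕ) :
    Measurable fun ω : Sym2 (ZMod n × ZMod n) → ℝ≥0 => chc n W ω X0 Y N := by
  unfold chc
  exact Finset.measurable_fun_sum _ fun i _ =>
    (measurable_hmin n W _ _).add (measurable_vmin n W _ _)

private theorem chc_mono42 {n W : ℕ} {ω ω' : Sym2 (ZMod n × ZMod n) → ℝ≥0}
    (h : ∀ e, ω' e ≤ ω e) (X0 Y : ℤ) (N : ℕ) : chc n W ω' X0 Y N ≤ chc n W ω X0 Y N := by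
  unfold chc hmin vmin
  exact Finset.sum_le_sum fun i _ => add_le_add
    (ciInf_mono (OrderBot.bddBelow _) fun k => Finset.sum_le_sum fun j _ => h _)
    (ciInf_mono (OrderBot.bddBelow _) fun k => Finset.sum_le_sum fun j _ => h _)

private theorem lint_chc42 {F : Measure ℝ≥0} [IsProbabilityMeasure F] {W : ℕ} {m0 : ℝ≥0} {n : ℕ}
    [NeZero n]
    (hm : ∀ X Y : ℤ,
      ∫⁻ ω, (hmin n W ω X Y : ℝ≥0∞) ∂(Measure.pi fun _ : Sym2 (ZMod n × ZMod n) => F) ≤ m0 ∧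
      ∫⁻ ω, (vmin n W ω X Y : ℝ≥0∞) ∂(Measure.pi fun _ : Sym2 (ZMod n × ZMod n) => F) ≤ m0)
    (X0 Y : ℤ) (N : ℕ) :
    ∫⁻ ω, (chc n W ω X0 Y N : ℝ≥0∞) ∂(Measure.pi fun _ : Sym2 (ZMod n × ZMod n) => F) ≤
      ((2 * m0 * N : ℝ≥0) : ℝ≥0∞) := by
  have h1 : ∀ ω : Sym2 (ZMod n × ZMod n) → ℝ≥0, (chc n W ω X0 Y N : ℝ≥0∞) =
      ∑ i ∈ range N, ((hmin n W ω (X0 + 2 * i * W) Y : ℝ≥0∞) +
        (vmin n W ω (X0 + 2 * i * W) Y : ℝ≥0∞)) := by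
    intro ω
    unfold chc
    push_cast
    rfl
  simp_rw [h1]
  have h3 : ∀ i ∈ range N, Measurable fun ω : Sym2 (ZMod n × ZMod n) → ℝ≥0 =>
      (hmin n W ω (X0 + 2 * i * W) Y : ℝ≥0∞) + (vmin n W ω (X0 + 2 * i * W) Y : ℝ≥0∞) :=
    fun i _ => (measurable_hmin n W _ _).coe_nnreal_ennreal.add
      (measurable_vmin n W _ _).coe_nnreal_ennreal
  rw [lintegral_finsetSum _ h3]
  have h2 : ∀ i ∈ range N, ∫⁻ ω, ((hmin n W ω (X0 + 2 * i * W) Y : ℝ≥0∞) +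
        (vmin n W ω (X0 + 2 * i * W) Y : ℝ≥0∞))
          ∂(Measure.pi fun _ : Sym2 (ZMod n × ZMod n) => F) ≤ ((2 * m0 : ℝ≥0) : ℝ≥0∞) := by
    intro i _
    rw [lintegral_add_left (measurable_hmin n W _ _).coe_nnreal_ennreal]
    refine (add_le_add (hm _ _).1 (hm _ _).2).trans (le_of_eq ?_)
    rw [two_mul]
    push_cast
    rfl
  refine (Finset.sum_le_sum h2).trans (le_of_eq ?_)
  rw [Finset.sum_const, card_range, nsmul_eq_mul]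
  push_cast
  ring

private theorem lint_chc_tp42 {F : Measure ℝ≥0} [IsProbabilityMeasure F] {W : ℕ} {m0 : ℝ≥0}
    {n : ℕ} [NeZero n]
    (hm : ∀ X Y : ℤ,
      ∫⁻ ω, (hmin n W ω X Y : ℝ≥0∞) ∂(Measure.pi fun _ : Sym2 (ZMod n × ZMod n) => F) ≤ m0 ∧
      ∫⁻ ω, (vmin n W ω X Y : ℝ≥0∞) ∂(Measure.pi fun _ : Sym2 (ZMod n × ZMod n) => F) ≤ m0)
    (X0 Y : ℤ) (N : ℕ) :
    ∫⁻ ω, (chc n W (tp n ω) X0 Y N : ℝ≥0∞)
      ∂(Measure.pi fun _ : Sym2 (ZMod n × ZMod n) => F) ≤ ((2 * m0 * N : ℝ≥0) : ℝ≥0∞) := by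
  have h1 := (tp_mp n F).lintegral_comp
    (f := fun ω : Sym2 (ZMod n × ZMod n) → ℝ≥0 => (chc n W ω X0 Y N : ℝ≥0∞))
    (measurable_chc42 n W X0 Y N).coe_nnreal_ennreal
  rw [h1]
  exact lint_chc42 hm X0 Y N

private theorem markov42 {Ω : Type*} [MeasurableSpace Ω] (P : Measure Ω) [IsProbabilityMeasure P]
    {X : Ω → ℝ≥0} (hX : Measurable X) {a b : ℝ≥0} (h : ∫⁻ ω, (X ω : ℝ≥0∞) ∂P ≤ a)
    (hb : 0 < b) (hab : 2 * a ≤ b) : ENNReal.ofReal (1 / 2) ≤ P {ω | X ω ≤ b} := by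
  have h1 := mul_meas_ge_le_lintegral (μ := P) hX.coe_nnreal_ennreal (b : ℝ≥0∞)
  have h2 : P {ω | b < X ω} ≤ ENNReal.ofReal (1 / 2) := by
    have h3 : P {ω | b < X ω} ≤ P {ω | (b : ℝ≥0∞) ≤ X ω} :=
      measure_mono fun ω (hω : b < X ω) => by
        show (b : ℝ≥0∞) ≤ X ω
        exact_mod_cast hω.le
    have h4 : (b : ℝ≥0∞) * P {ω | (b : ℝ≥0∞) ≤ X ω} ≤ (b : ℝ≥0∞) * ENNReal.ofReal (1 / 2) := by
      refine (h1.trans h).trans ?_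
      rw [← ENNReal.ofReal_coe_nnreal, ← ENNReal.ofReal_coe_nnreal,
        ← ENNReal.ofReal_mul b.coe_nonneg]
      apply ENNReal.ofReal_le_ofReal
      have : 2 * (a : ℝ) ≤ b := by exact_mod_cast hab
      linarith
    exact h3.trans ((ENNReal.mul_le_mul_iff_right (by exact_mod_cast hb.ne')
      ENNReal.coe_ne_top).1 h4)
  have h5 : {ω | X ω ≤ b} = {ω | b < X ω}ᶜ := by
    ext ω
    simp
  rw [h5, prob_compl_eq_one_sub (measurableSet_lt measurable_const hX)]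
  calc ENNReal.ofReal (1 / 2) = 1 - ENNReal.ofReal (1 / 2) := by
        rw [← ENNReal.ofReal_one, ← ENNReal.ofReal_sub _ (by norm_num)]
        norm_num
    _ ≤ _ := tsub_le_tsub_left h2 1

theorem measurable_rc (n W m : ℕ) (c : ℤ × ℤ) :
    Measurable fun ω : Sym2 (ZMod n × ZMod n) → ℝ≥0 => rc n W m ω c := by
  unfold rc
  exact ((measurable_chc42 n W _ _ _).add (measurable_chc42 n W _ _ _)).add
    (((measurable_chc42 n W _ _ _).comp (measurable_tp n)).add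
      ((measurable_chc42 n W _ _ _).comp (measurable_tp n)))

theorem rc_mono {n W m : ℕ} {ω ω' : Sym2 (ZMod n × ZMod n) → ℝ≥0} (h : ∀ e, ω' e ≤ ω e)
    (c : ℤ × ℤ) : rc n W m ω' c ≤ rc n W m ω c := by
  unfold rc
  have h' : ∀ e, tp n ω' e ≤ tp n ω e := fun e => h _
  exact add_le_add (add_le_add (chc_mono42 h _ _ _) (chc_mono42 h _ _ _))
    (add_le_add (chc_mono42 h' _ _ _) (chc_mono42 h' _ _ _))

theorem up_lin (F : Measure ℝ≥0) [IsProbabilityMeasure F] {W : ℕ} (hW : 0 < W) {m0 : ℝ≥0}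
    (hm : ∀ (n : ℕ) [NeZero n], 3 * W < n → ∀ X Y : ℤ,
      ∫⁻ ω, (hmin n W ω X Y : ℝ≥0∞) ∂(Measure.pi fun _ : Sym2 (ZMod n × ZMod n) => F) ≤ m0 ∧
      ∫⁻ ω, (vmin n W ω X Y : ℝ≥0∞) ∂(Measure.pi fun _ : Sym2 (ZMod n × ZMod n) => F) ≤ m0) :
    ∃ C1 : ℝ, 0 < C1 ∧ ∃ N : ℕ, ∀ n : ℕ, N ≤ n → ∀ [NeZero n], ENNReal.ofReal (1 / 2) ≤
      (Measure.pi fun _ : Sym2 (ZMod n × ZMod n) => F) {ω | T n ω ≤ C1 * n} := by
  refine ⟨5 * (4 * m0 + 1 : ℝ≥0), by positivity, 3 * W + 4, ?_⟩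
  intro n hn _
  have hn3 : 3 * W < n := by omega
  set q := n / (2 * W) with hq
  have hq1 : 2 * W * q ≤ n := Nat.mul_div_le n (2 * W)
  have hq2 : n < 2 * W * (q + 1) := Nat.lt_mul_div_succ n (by omega)
  have hq3 : 2 * q ≤ n := by nlinarith
  have hI1 : n ≤ 2 * (q + 1) * W := by nlinarith
  have hI2 : 2 * (q + 1) * W ≤ n + 2 * W := by nlinarith
  have hI3 : (q + 1) + 1 ≤ n := by omega
  have hmk := markov42 (Measure.pi fun _ : Sym2 (ZMod n × ZMod n) => F)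
    (measurable_chc42 n W 0 0 (q + 1 + 1)) (lint_chc42 (hm n hn3) 0 0 (q + 1 + 1))
    (b := (4 * m0 + 1) * n) (by
      have : 0 < n := by omega
      positivity) (by
      have h1 : ((q + 1 + 1 : ℕ) : ℝ≥0) ≤ n := by exact_mod_cast hI3
      calc 2 * (2 * m0 * ((q + 1 + 1 : ℕ) : ℝ≥0)) ≤ 2 * (2 * m0 * n) := by gcongr
        _ ≤ (4 * m0 + 1) * n := by
          have h2 : (4 * m0 + 1) * (n : ℝ≥0) = 2 * (2 * m0 * n) + n := by ring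
          rw [h2]
          exact le_self_add)
  refine hmk.trans (measure_mono fun ω hω => ?_)
  have h1 : chc n W ω 0 0 (q + 1 + 1) ≤ (4 * m0 + 1) * n := hω
  have h2 := T_le_chc n W hW ω (q + 1) hI1 hI2
  have h3 : (chc n W ω 0 0 (q + 1 + 1) : ℝ) ≤ ((4 * m0 + 1 : ℝ≥0) : ℝ) * n := by
    exact_mod_cast h1
  show T n ω ≤ 5 * ((4 * m0 + 1 : ℝ≥0) : ℝ) * n
  linarith

theorem ring_prob (F : Measure ℝ≥0) [IsProbabilityMeasure F] {W : ℕ} (hW : 0 < W) {m0 : ℝ≥0}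
    (hm : ∀ (n : ℕ) [NeZero n], 3 * W < n → ∀ X Y : ℤ,
      ∫⁻ ω, (hmin n W ω X Y : ℝ≥0∞) ∂(Measure.pi fun _ : Sym2 (ZMod n × ZMod n) => F) ≤ m0 ∧
      ∫⁻ ω, (vmin n W ω X Y : ℝ≥0∞) ∂(Measure.pi fun _ : Sym2 (ZMod n × ZMod n) => F) ≤ m0) :
    ∃ CR : ℝ, 0 < CR ∧ ∀ (n : ℕ) [NeZero n], 3 * W < n → ∀ m : ℕ, 0 < m → ∀ c : ℤ × ℤ,
      ENNReal.ofReal (1 / 2) ≤ (Measure.pi fun _ : Sym2 (ZMod n × ZMod n) => F)
        {ω | (rc n W m ω c : ℝ) ≤ CR * m} := by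
  refine ⟨(32 * m0 + 1 : ℝ≥0), by positivity, ?_⟩
  intro n _ hn m hm0 c
  have hlin : ∫⁻ ω, (rc n W m ω c : ℝ≥0∞) ∂(Measure.pi fun _ : Sym2 (ZMod n × ZMod n) => F) ≤
      ((4 * (2 * m0 * (m + 1 : ℕ)) : ℝ≥0) : ℝ≥0∞) := by
    have h1 : ∀ ω : Sym2 (ZMod n × ZMod n) → ℝ≥0, (rc n W m ω c : ℝ≥0∞) =
        ((chc n W ω (c.1 - m * W - W) (c.2 + m * W) (m + 1) : ℝ≥0∞) +
          (chc n W ω (c.1 - m * W - W) (c.2 - m * W) (m + 1) : ℝ≥0∞)) +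
        ((chc n W (tp n ω) (c.2 - m * W - W) (c.1 + m * W) (m + 1) : ℝ≥0∞) +
          (chc n W (tp n ω) (c.2 - m * W - W) (c.1 - m * W) (m + 1) : ℝ≥0∞)) := by
      intro ω
      unfold rc
      push_cast
      rfl
    simp_rw [h1]
    have h3 : Measurable fun ω : Sym2 (ZMod n × ZMod n) → ℝ≥0 =>
        (chc n W ω (c.1 - m * W - W) (c.2 + m * W) (m + 1) : ℝ≥0∞) +
          (chc n W ω (c.1 - m * W - W) (c.2 - m * W) (m + 1) : ℝ≥0∞) :=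
      (measurable_chc42 n W _ _ _).coe_nnreal_ennreal.add
        (measurable_chc42 n W _ _ _).coe_nnreal_ennreal
    have h4 : Measurable fun ω : Sym2 (ZMod n × ZMod n) → ℝ≥0 =>
        (chc n W (tp n ω) (c.2 - m * W - W) (c.1 + m * W) (m + 1) : ℝ≥0∞) :=
      ((measurable_chc42 n W _ _ _).comp (measurable_tp n)).coe_nnreal_ennreal
    rw [lintegral_add_left h3,
      lintegral_add_left (measurable_chc42 n W _ _ _).coe_nnreal_ennreal,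
      lintegral_add_left h4]
    refine (add_le_add (add_le_add (lint_chc42 (hm n hn) _ _ _) (lint_chc42 (hm n hn) _ _ _))
      (add_le_add (lint_chc_tp42 (hm n hn) _ _ _)
        (lint_chc_tp42 (hm n hn) _ _ _))).trans (le_of_eq ?_)
    push_cast
    ring
  have hmk := markov42 (Measure.pi fun _ : Sym2 (ZMod n × ZMod n) => F)
    (measurable_rc n W m c) hlin (b := (32 * m0 + 1) * m) (by positivity) (by
      have h1 : ((m + 1 : ℕ) : ℝ≥0) ≤ 2 * m := by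
        have : m + 1 ≤ 2 * m := by omega
        exact_mod_cast this
      calc 2 * (4 * (2 * m0 * ((m + 1 : ℕ) : ℝ≥0))) ≤ 2 * (4 * (2 * m0 * (2 * m))) := by gcongr
        _ ≤ (32 * m0 + 1) * m := by
          have h2 : (32 * m0 + 1) * (m : ℝ≥0) = 2 * (4 * (2 * m0 * (2 * m))) + m := by ring
          rw [h2]
          exact le_self_add)
  refine hmk.trans (measure_mono fun ω hω => ?_)
  have h1 : rc n W m ω c ≤ (32 * m0 + 1) * m := hω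
  show (rc n W m ω c : ℝ) ≤ ((32 * m0 + 1 : ℝ≥0) : ℝ) * m
  exact_mod_cast h1

end Pool.Agent.TVR
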