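import Pool.Agent.TVR.Dout
import Pool.Agent.TVR.Loop
import Pool.Agent.TVR.MeanB
import Pool.Agent.TVR.Fkg0

/-!
# TVR / Cheap: the winding time is smaller than `(r / v) n` by a linear amount with positive probability

`dout` gives `ρ < r / v`, `c > 0`, `τ`, `h0`; `exists_mean` gives `W, m0`; `ring_prob` gives `CR > 0`. Put `g = r/v - ρ > 0`, `δ = g/2`, `ε > 0` with `ε ≤ 1/4`, `12 CR ε ≤ g`,
`Nc = ⌈4/ε⌉` (so `4 ≤ ε Nc`). For `n` large let `h = n / 2` (`2 h ≤ n ≤ 2h + 1`), `w = ⌈ε h⌉` (`ε h ≤ w ≤ ε h + 1`, `1 ≤ w`), `m = w / W + 3`: `w ≤ (m - 1) W` (`w < (w/W + 1) W`),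
`(m+1) W ≤ w + 4 W ≤ ε h + 1 + 4 W ≤ h`, `m ≤ w + 3 ≤ ε h + 4`. `s` from `dout` (`h ≥ h0`): `s ≤ h/v + τ ≤ 2h + τ`, so `s < Nc w + h` (`Nc w ≥ 4 h > h + τ` for `h > τ`) and `s < n + h`
(`n + h ≥ 3 h > 2h + τ`). `exists_ab` (with `C = ρ h`): `a, b` with `c' = c / Nc^2 ≤ P(Cr)`; `half_right`, `half_left`: `P(HR), P(HL) ≥ c'` with `A = (b - a) w`.
Ring events `{rc n W m ω (0,0) ≤ CR m}`, `{rc n W m ω (h, A) ≤ CR m}`: probability `≥ 1/2`, decreasing, measurable (`rc_mono`, `measurable_rc`).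
`fkg_pi` three times (intersections of decreasing measurable events are such): the four events hold together with probability `≥ c'^2 / 4 =: c0` (with `c ≤ 1` WLOG, `ofReal` algebra).
Then `T_le_loop`: `T ≤ 2 ρ h + 6 CR m ≤ ρ n + 6 CR (ε n/2 + 4) ≤ ρ n + (g/4) n + 24 CR ≤ (r/v - δ) n` as `3 CR ε ≤ g/4` and `24 CR ≤ (g/4) n` for large `n`.
-/

set_option autoImplicit false

namespace Pool.Agent.TVR

open Finset Pool.Agent.Helper46.Tor MeasureTheory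
open scoped NNReal ENNReal

private theorem four_events {E : Type} [Fintype E] (F : Measure ℝ≥0) [IsProbabilityMeasure F]
    {A B C D : Set (E → ℝ≥0)} (mA : MeasurableSet A) (mB : MeasurableSet B)
    (mC : MeasurableSet C) (mD : MeasurableSet D)
    (hA : ∀ ω ω' : E → ℝ≥0, (∀ e, ω' e ≤ ω e) → ω ∈ A → ω' ∈ A)
    (hB : ∀ ω ω' : E → ℝ≥0, (∀ e, ω' e ≤ ω e) → ω ∈ B → ω' ∈ B)
    (hC : ∀ ω ω' : E → ℝ≥0, (∀ e, ω' e ≤ ω e) → ω ∈ C → ω' ∈ C)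
    (hD : ∀ ω ω' : E → ℝ≥0, (∀ e, ω' e ≤ ω e) → ω ∈ D → ω' ∈ D) {x y : ℝ} (hx : 0 ≤ x)
    (hy : 0 ≤ y)
    (pA : ENNReal.ofReal x ≤ (Measure.pi fun _ : E => F) A)
    (pB : ENNReal.ofReal x ≤ (Measure.pi fun _ : E => F) B)
    (pC : ENNReal.ofReal y ≤ (Measure.pi fun _ : E => F) C)
    (pD : ENNReal.ofReal y ≤ (Measure.pi fun _ : E => F) D) :
    ENNReal.ofReal ((x * x) * (y * y)) ≤ (Measure.pi fun _ : E => F) ((A ∩ B) ∩ (C ∩ D)) := by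
  have h1 := fkg_pi F mA mB hA hB
  have h2 := fkg_pi F mC mD hC hD
  have h3 := fkg_pi F (mA.inter mB) (mC.inter mD)
    (fun ω ω' h hω => ⟨hA ω ω' h hω.1, hB ω ω' h hω.2⟩)
    (fun ω ω' h hω => ⟨hC ω ω' h hω.1, hD ω ω' h hω.2⟩)
  rw [ENNReal.ofReal_mul (mul_nonneg hx hx), ENNReal.ofReal_mul hx, ENNReal.ofReal_mul hy]
  exact (mul_le_mul' ((mul_le_mul' pA pB).trans h1) ((mul_le_mul' pC pD).trans h2)).trans h3

theorem cheap (F : Measure ℝ≥0) [IsProbabilityMeasure F] {B κ : ℝ} (hκ : 0 < κ)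
    (hB : ∀ z : ℝ, 1 ≤ z → F {x | z < (x : ℝ)} ≤ ENNReal.ofReal (B * z ^ (-κ)))
    {r K0 : ℝ≥0} (hr : 0 < r) (hp : F (Set.Iic r) ≠ 0) (hq : F (Set.Ioc r K0) ≠ 0) {v : ℝ}
    (hv1 : 1 / 2 ≤ v) (hv2 : v ≤ 1)
    (hv : ∀ θ : ℝ, 0 < θ → θ ≤ 1 → ∀ t : ℕ, 0 < t →
      ENNReal.ofReal (Real.exp (θ * v * t)) ≤ psi F (Set.Iic r) θ t) :
    ∃ δ : ℝ, 0 < δ ∧ ∃ c0 : ℝ, 0 < c0 ∧ ∃ N : ℕ, ∀ n : ℕ, N ≤ n → ∀ [NeZero n],
      ENNReal.ofReal c0 ≤ (Measure.pi fun _ : Sym2 (ZMod n × ZMod n) => F)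
        {ω | T n ω ≤ (r / v - δ) * n} := by
  obtain ⟨ρ, hρ0, hρ, c, hc, τ, h0, hd⟩ := dout F hr hp hq hv1 hv2 hv
  obtain ⟨W, hW, m0, hm⟩ := exists_mean F hκ hB
  obtain ⟨CR, hCR, hring⟩ := ring_prob F hW hm
  set g : ℝ := r / v - ρ with hg
  have hg0 : 0 < g := by rw [hg]; linarith
  obtain ⟨ε, hε0, hε1, hε2⟩ : ∃ ε : ℝ, 0 < ε ∧ ε ≤ 1 / 4 ∧ 12 * CR * ε ≤ g := by
    refine ⟨min (1 / 4) (g / (12 * CR)), by positivity, min_le_left _ _, ?_⟩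
    have h1 : min (1 / 4) (g / (12 * CR)) ≤ g / (12 * CR) := min_le_right _ _
    rw [le_div_iff₀ (by positivity)] at h1
    linarith
  set Nc : ℕ := ⌈4 / ε⌉₊ with hNc
  have hNc1 : 4 ≤ ε * Nc := by
    have h1 : 4 / ε ≤ Nc := Nat.le_ceil _
    rw [div_le_iff₀ hε0] at h1
    linarith
  have hNc0 : 0 < Nc := Nat.ceil_pos.2 (by positivity)
  have hNcR : (0 : ℝ) < Nc := Nat.cast_pos.2 hNc0
  obtain ⟨n1, hn1⟩ := exists_nat_ge (96 * CR / g)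
  refine ⟨g / 2, by positivity, (c / Nc ^ 2) * (c / Nc ^ 2) * (1 / 2 * (1 / 2)), by positivity,
    2 * (h0 + τ + 8 * W + n1 + 2) + 2, ?_⟩
  intro n hn _
  obtain ⟨h, hh1, hh2⟩ : ∃ h : ℕ, 2 * h ≤ n ∧ n ≤ 2 * h + 1 := ⟨n / 2, by omega, by omega⟩
  have hH : h0 + τ + 8 * W + n1 + 2 ≤ h := by omega
  have hhR : (0 : ℝ) < h := by
    have : 0 < h := by omega
    exact_mod_cast this
  set w : ℕ := ⌈ε * h⌉₊ with hwdef
  have hw1 : ε * h ≤ w := Nat.le_ceil _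
  have hw2 : (w : ℝ) < ε * h + 1 := Nat.ceil_lt_add_one (by positivity)
  have hw0 : 0 < w := Nat.ceil_pos.2 (by positivity)
  obtain ⟨s, hs1, hs2⟩ := hd h (by omega)
  have hsv : (s : ℝ) ≤ 2 * h + τ := by
    have h1 : (h : ℝ) / v ≤ 2 * h := by
      rw [div_le_iff₀ (by linarith)]
      nlinarith
    linarith
  have hτh : (τ : ℝ) < h := by
    have : τ < h := by omega
    exact_mod_cast this
  have hnR : 2 * (h : ℝ) ≤ n := by exact_mod_cast hh1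
  have hsN : s < Nc * w + h := by
    have h1 : 4 * (h : ℝ) ≤ Nc * w := by
      calc 4 * (h : ℝ) ≤ (ε * Nc) * h := mul_le_mul_of_nonneg_right hNc1 hhR.le
        _ = Nc * (ε * h) := by ring
        _ ≤ Nc * w := mul_le_mul_of_nonneg_left hw1 hNcR.le
    have h2 : (s : ℝ) < Nc * w + h := by linarith
    exact_mod_cast h2
  have hsn : s < n + h := by
    have h2 : (s : ℝ) < n + h := by linarith
    exact_mod_cast h2
  have hhn : h < n := by omega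
  obtain ⟨a, b, hab⟩ := exists_ab F hw0 hNc0 hsN (ρ * h) hs2
  have hR := hab.trans (half_right F hhn hsn a b (ρ * h))
  have hL := hab.trans (half_left F hhn hsn a b (ρ * h))
  set A : ℤ := ((b : ℤ) - a) * w with hA
  have hdm : w < (w / W + 1) * W := by
    have h1 := Nat.div_add_mod w W
    have h2 := Nat.mod_lt w hW
    have h3 : (w / W + 1) * W = W * (w / W) + W := by ring
    omega
  have hdm2 : w / W * W ≤ w := Nat.div_mul_le_self w W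
  have hdm3 : w / W ≤ w := Nat.div_le_self w W
  obtain ⟨k, hk⟩ : ∃ k : ℕ, k = w / W := ⟨_, rfl⟩
  rw [← hk] at hdm hdm2 hdm3
  obtain ⟨m, hmdef⟩ : ∃ m : ℕ, m = k + 3 := ⟨_, rfl⟩
  have hmw : w ≤ (m - 1) * W := by
    have h1 : m - 1 = k + 1 + 1 := by omega
    rw [h1, add_mul]
    omega
  have hwh : w + 4 * W ≤ h := by
    have h1 : ε * h ≤ 1 / 4 * h := mul_le_mul_of_nonneg_right hε1 hhR.le
    have h2 : ((8 * W + 2 : ℕ) : ℝ) ≤ h := by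
      have : 8 * W + 2 ≤ h := by omega
      exact_mod_cast this
    push_cast at h2
    have h3 : ((w + 4 * W : ℕ) : ℝ) ≤ h := by
      push_cast
      linarith
    exact_mod_cast h3
  have hmh : (m + 1) * W ≤ h := by
    have h1 : (m + 1) * W = k * W + 4 * W := by rw [hmdef]; ring
    rw [h1]
    omega
  have hr0 := hring n (by omega) m (by omega) (0, 0)
  have hr1 := hring n (by omega) m (by omega) ((h : ℤ), A)
  have mring : ∀ cc : ℤ × ℤ, MeasurableSet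
      {ω : Sym2 (ZMod n × ZMod n) → ℝ≥0 | (rc n W m ω cc : ℝ) ≤ CR * m} := fun cc =>
    measurableSet_le (measurable_rc n W m cc).coe_nnreal_real measurable_const
  have lring : ∀ (cc : ℤ × ℤ) (ω ω' : Sym2 (ZMod n × ZMod n) → ℝ≥0), (∀ e, ω' e ≤ ω e) →
      ω ∈ {ω : Sym2 (ZMod n × ZMod n) → ℝ≥0 | (rc n W m ω cc : ℝ) ≤ CR * m} →
      ω' ∈ {ω : Sym2 (ZMod n × ZMod n) → ℝ≥0 | (rc n W m ω cc : ℝ) ≤ CR * m} := by
    intro cc ω ω' hle hω
    have h1 : (rc n W m ω' cc : ℝ) ≤ rc n W m ω cc := by exact_mod_cast rc_mono hle cc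
    exact h1.trans hω
  have hfour := four_events F (half_meas n h w A (ρ * h)).1 (half_meas n h w A (ρ * h)).2
    (mring (0, 0)) (mring ((h : ℤ), A)) (fun ω ω' hle => (half_low hle).1)
    (fun ω ω' hle => (half_low hle).2) (lring (0, 0)) (lring ((h : ℤ), A))
    (x := c / Nc ^ 2) (y := 1 / 2) (by positivity) (by norm_num) hR hL hr0 hr1
  refine hfour.trans (measure_mono ?_)
  rintro ω ⟨⟨e1, e2⟩, e3, e4⟩
  have hT := T_le_loop hW (by omega) hmw hmh hh1 hh2 e1 e2 e3 e4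
  refine hT.trans ?_
  have hmR : (m : ℝ) ≤ ε * h + 4 := by
    have h2 : (m : ℝ) ≤ w + 3 := by
      have : m ≤ w + 3 := by omega
      exact_mod_cast this
    linarith
  have h1 : 2 * (ρ * h) ≤ ρ * n := by nlinarith
  have h2 : CR * m ≤ CR * (ε * h + 4) := mul_le_mul_of_nonneg_left hmR hCR.le
  have h3 : 12 * CR * ε * h ≤ g * h := mul_le_mul_of_nonneg_right hε2 hhR.le
  have h4 : 96 * CR ≤ g * h := by
    have h5 : 96 * CR / g ≤ h := hn1.trans (by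
      have : n1 ≤ h := by omega
      exact_mod_cast this)
    rw [div_le_iff₀ hg0] at h5
    linarith
  have h6 : g * (2 * h) ≤ g * n := mul_le_mul_of_nonneg_left hnR hg0.le
  have h7 : (r / v - g / 2) * n = ρ * n + g / 2 * n := by rw [hg]; ring
  rw [h7]
  nlinarith
end Pool.Agent.TVR
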