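import Pool.Agent.TVR.GoodA

/-!
# TVR / GoodB: the good event, deterministic part (fast staircases)

Let `g = (x, w)` be the least minimiser, `L = |w|`, `n ≤ L ≤ T/r ≤ (1/v - δ/r) n < 2 n` (`len_ge`, `len_le`, `v ≥ 1/2`).
(Note `1/v - δ/r ≥ L/n ≥ 1 > 0`.) The average horizontal speed: `n/L ≥ 1/(1/v - δ/r) ≥ v + v^2 δ/r ≥ v + δ/(4 r) = v + 4 φ`
(`1/(1/v - y) = v/(1 - v y) ≥ v (1 + v y)` for `0 ≤ v y < 1`; `v ≥ 1/2`).
Split `w` into three consecutive pieces `w = w1 ++ w2 ++ w3` with lengths `L/3`, `L/3`, `L - 2 (L/3)` (Nat division); all lengths are between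
`n/3 - 1` and `(2n)/3 + 2 < n`. The sum of the horizontal displacements is `n ≥ (v+4φ) L`, so one piece, of length `l`, starting at position `i0`, has
horizontal displacement `≥ (v + 4φ) l`. Let `M = l / K` (Nat division); `M K ≤ l < n`, `l - M K < K`; the truncated piece `seg = (w.drop i0).take (M K)`
has horizontal displacement `≥ (v+4φ) l - K ≥ (v + 4φ) M K - K` (one letter changes it by at most `1`), and
`M ≥ l/K - 1 ≥ n/(3K) - 2 - .. ≥ n/(4K) ≥ 1/φ` by `hn`.
Windows of `seg` (`tot_take_win`: `tot seg = ∑ j < M, tot (win K seg j)`; each has `|tot.1| ≤ K`): let `f` be the number of windows perfect for `Fast (v+φ)`,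
`I = M - cPft` the number of windows not perfect for `Stc`. A window perfect for `Stc` but not for `Fast (v+φ)` has `tot.1 < (v+φ) K`. So
`(v + 4φ) M K - K ≤ f K + (v+φ) K M + I K`, `f < φ M` (`Few`, `M ≥ n/(4K)`, `M K < n`, `SA seg`), hence `I ≥ (4φ - φ - φ) M - 1 ≥ φ M ≥ φ n/(4K)`
(`1 ≤ φ M`).
-/

set_option autoImplicit false

namespace Pool.Agent.TVR

open Finset Pool.Agent.Helper46.Tor MeasureTheory
open scoped NNReal ENNReal

private theorem tot1_le (w : List (Fin 4)) : |((tot w).1 : ℝ)| ≤ w.length := by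
  have h1 := tot_abs w
  have h2 := abs_nonneg (tot w).2
  have h3 : |(tot w).1| ≤ (w.length : ℤ) := by linarith
  exact_mod_cast h3

/-- counting windows -/
private theorem count {n K M : ℕ} {b : ℝ≥0} {s : ℝ} (hs : 0 ≤ s)
    (ω : Sym2 (ZMod n × ZMod n) → ℝ≥0) (x : ZMod n × ZMod n) {w : List (Fin 4)}
    (hw : w.length = M * K) :
    ((tot w).1 : ℝ) ≤ K * cPft n K (Fast s) b ω x w M + s * K * M +
      K * (M - cPft n K Stc b ω x w M) := by
  classical
  have h1 : tot w = ∑ j ∈ range M, tot (win K w j) := by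
    rw [← tot_take_win, ← hw, List.take_length]
  have h2 : ((tot w).1 : ℝ) = ∑ j ∈ range M, ((tot (win K w j)).1 : ℝ) := by
    rw [h1, Prod.fst_sum]
    push_cast
    rfl
  have h3 : (cPft n K (Fast s) b ω x w M : ℝ) =
      ∑ j ∈ range M, if Pft n (Fast s) b ω (wst n K x w j) (win K w j) then (1 : ℝ) else 0 := by
    rw [Finset.sum_boole]
    unfold cPft
    congr
  have h4 : (cPft n K Stc b ω x w M : ℝ) =
      ∑ j ∈ range M, if Pft n Stc b ω (wst n K x w j) (win K w j) then (1 : ℝ) else 0 := by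
    rw [Finset.sum_boole]
    unfold cPft
    congr
  have h5 : s * K * M = ∑ j ∈ range M, s * K := by
    rw [Finset.sum_const, Finset.card_range, nsmul_eq_mul]
    ring
  have h6 : (M : ℝ) = ∑ j ∈ range M, (1 : ℝ) := by
    rw [Finset.sum_const, Finset.card_range, nsmul_eq_mul, mul_one]
  rw [h2, h3, h4, h5, h6, ← Finset.sum_sub_distrib, Finset.mul_sum, Finset.mul_sum,
    ← Finset.sum_add_distrib, ← Finset.sum_add_distrib]
  refine Finset.sum_le_sum fun j hj => ?_
  have hlen := win_length hw (Finset.mem_range.1 hj)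
  have h7 := tot1_le (win K w j)
  rw [hlen] at h7
  have h8 := le_abs_self ((tot (win K w j)).1 : ℝ)
  have hK : (0 : ℝ) ≤ K := Nat.cast_nonneg K
  have hsK : 0 ≤ s * K := mul_nonneg hs hK
  by_cases hP : Pft n Stc b ω (wst n K x w j) (win K w j)
  · by_cases hQ : Pft n (Fast s) b ω (wst n K x w j) (win K w j)
    · rw [if_pos hP, if_pos hQ]
      linarith
    · rw [if_pos hP, if_neg hQ]
      have h9 : ((tot (win K w j)).1 : ℝ) < s * K := by
        by_contra h
        push Not at h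
        exact hQ ⟨⟨hP.1, by rw [hlen]; exact h⟩, hP.2⟩
      linarith
  · rw [if_neg hP]
    have h9 : (0 : ℝ) ≤ if Pft n (Fast s) b ω (wst n K x w j) (win K w j) then (1 : ℝ) else 0 := by
      split_ifs <;> norm_num
    have h10 := mul_nonneg hK h9
    linarith

/-- one of three pieces is fast -/
private theorem piece {L : ℕ} {w : List (Fin 4)} (hL : w.length = L) {s : ℝ}
    (h : s * L ≤ ((tot w).1 : ℝ)) :
    ∃ i l : ℕ, i + l ≤ L ∧ L ≤ 3 * l + 2 ∧ 3 * l ≤ L + 4 ∧
      s * l ≤ ((tot ((w.drop i).take l)).1 : ℝ) := by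
  set k := L / 3 with hk
  have hk1 : 3 * k ≤ L := by omega
  have hk2 : L ≤ 3 * k + 2 := by omega
  have h1 : tot w = tot ((w.drop 0).take k) + tot ((w.drop k).take k) +
      tot ((w.drop (2 * k)).take (L - 2 * k)) := by
    have e1 : (w.drop (2 * k)).take (L - 2 * k) = (w.drop k).drop k := by
      rw [List.drop_drop, List.take_of_length_le]
      · congr 1
        omega
      · rw [List.length_drop]
        omega
    rw [e1, List.drop_zero, add_assoc, ← tot_append, List.take_append_drop, ← tot_append,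
      List.take_append_drop]
  by_contra hc
  push Not at hc
  have c1 := hc 0 k (by omega) (by omega) (by omega)
  have c2 := hc k k (by omega) (by omega) (by omega)
  have c3 := hc (2 * k) (L - 2 * k) (by omega) (by omega) (by omega)
  have h2 : ((tot w).1 : ℝ) = ((tot ((w.drop 0).take k)).1 : ℝ) +
      ((tot ((w.drop k).take k)).1 : ℝ) + ((tot ((w.drop (2 * k)).take (L - 2 * k))).1 : ℝ) := by
    rw [h1, Prod.fst_add, Prod.fst_add]
    push_cast
    ring
  have h3 : ((L - 2 * k : ℕ) : ℝ) = L - 2 * k := by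
    rw [Nat.cast_sub (by omega)]
    push_cast
    ring
  rw [h3] at c3
  nlinarith

theorem goodB {n K : ℕ} [NeZero n] (hK : 0 < K) {r b : ℝ≥0} (hr : 0 < r) {v δ φ : ℝ}
    (hv : 1 / 2 ≤ v) (hv1 : v ≤ 1) (hδ : 0 < δ) (hφ : φ = δ / (16 * r))
    (hn : 100 * (K : ℝ) / φ ≤ n) (hn2 : 100 * K ≤ n) {ω : Sym2 (ZMod n × ZMod n) → ℝ≥0}
    (h1 : ∀ e, r ≤ ω e) (h2 : T n ω ≤ (r / v - δ) * n)
    (h3 : Few n K (Fast (v + φ)) b φ (n / (4 * K)) ω) :
    GoodSeg n K Stc r b 2 (φ / (4 * K)) ω := by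
  have hr' : (0 : ℝ) < r := by exact_mod_cast hr
  have hφ0 : 0 < φ := by rw [hφ]; positivity
  have hK' : (1 : ℝ) ≤ K := by exact_mod_cast hK
  have hK0 : (0 : ℝ) < K := by linarith
  have hn100 : 100 ≤ n := by nlinarith
  have hn0 : (0 : ℝ) < n := by
    have : (100 : ℝ) ≤ n := by exact_mod_cast hn100
    linarith
  refine ⟨h1, fun g hg => ?_⟩
  set w := g.1.2 with hw
  set L := w.length with hL
  have hLn : n ≤ L := len_ge g
  have hLn' : (n : ℝ) ≤ L := by exact_mod_cast hLn
  have hLT : (r : ℝ) * L ≤ T n ω := len_le h1 hg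
  have htot : tot w = ((n : ℤ), 0) := g.2
  have hδr : δ = 16 * φ * r := by
    rw [hφ]
    field_simp
  have hL2 : (L : ℝ) ≤ (1 / v - 16 * φ) * n := by
    have h4 : (r : ℝ) * L ≤ r * ((1 / v - 16 * φ) * n) := by
      calc (r : ℝ) * L ≤ (r / v - δ) * n := hLT.trans h2
        _ = r * ((1 / v - 16 * φ) * n) := by rw [hδr]; ring
    exact le_of_mul_le_mul_left h4 hr'
  have hv0 : 0 < v := by linarith
  have h1v : 1 / v ≤ 2 := by
    rw [div_le_iff₀ hv0]
    linarith
  have hL3 : (L : ℝ) ≤ 2 * n := by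
    refine hL2.trans (mul_le_mul_of_nonneg_right ?_ hn0.le)
    linarith
  have hspeed : (v + 4 * φ) * L ≤ ((tot w).1 : ℝ) := by
    have h4 : (v + 4 * φ) * (1 / v - 16 * φ) ≤ 1 := by
      have h5 : v * (1 / v) = 1 := mul_one_div_cancel hv0.ne'
      nlinarith
    rw [htot]
    push_cast
    calc (v + 4 * φ) * L ≤ (v + 4 * φ) * ((1 / v - 16 * φ) * n) :=
          mul_le_mul_of_nonneg_left hL2 (by positivity)
      _ = ((v + 4 * φ) * (1 / v - 16 * φ)) * n := by ring
      _ ≤ 1 * n := mul_le_mul_of_nonneg_right h4 hn0.le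
      _ = n := one_mul _
  refine ⟨hL3, ?_⟩
  obtain ⟨i0, l, hil, hl1, hl2, hl3⟩ := piece hL.symm hspeed
  have hL2n : L ≤ 2 * n := by exact_mod_cast hL3
  have hln : l < n := by omega
  obtain ⟨M, hM⟩ : ∃ M, M = l / K := ⟨_, rfl⟩
  have hMK : M * K ≤ l := by rw [hM]; exact Nat.div_mul_le_self l K
  have hMK2 : l < M * K + K := by
    have := Nat.lt_div_mul_add (a := l) hK
    rw [hM]
    exact this
  refine ⟨i0, M, by omega, by omega, ?_⟩
  set seg := (w.drop i0).take (M * K) with hseg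
  have hslen : seg.length = M * K := by
    rw [hseg, List.length_take, List.length_drop]
    omega
  have hSA : SA seg := SA_take (SA_drop (least_SA hg) _) _
  set x := g.1.1 + proj n (tot (w.take i0)) with hx
  have hM0 : n / (4 * K) ≤ M := by
    rw [hM, ← Nat.div_div_eq_div_mul]
    exact Nat.div_le_div_right (by omega)
  have hfew := h3 M hM0 (by omega) x seg hslen hSA
  have hcnt := count (b := b) (s := v + φ) (by positivity) ω x hslen
  have htr : ((tot ((w.drop i0).take l)).1 : ℝ) - K ≤ ((tot seg).1 : ℝ) := by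
    obtain ⟨c, hc⟩ : ∃ c, l = M * K + c := ⟨l - M * K, by omega⟩
    have e1 : (w.drop i0).take l = seg ++ ((w.drop i0).drop (M * K)).take c := by
      rw [hc, List.take_add]
    have h5 := tot1_le (((w.drop i0).drop (M * K)).take c)
    have h6 : ((((w.drop i0).drop (M * K)).take c).length : ℝ) ≤ K := by
      have : (((w.drop i0).drop (M * K)).take c).length ≤ K := by
        rw [List.length_take]
        omega
      exact_mod_cast this
    have h7 := le_abs_self ((tot (((w.drop i0).drop (M * K)).take c)).1 : ℝ)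
    rw [e1, tot_append, Prod.fst_add]
    push_cast
    linarith
  have hMl : (M : ℝ) * K ≤ l := by exact_mod_cast hMK
  have hlM : (l : ℝ) < M * K + K := by exact_mod_cast hMK2
  have hln3 : (n : ℝ) ≤ 3 * l + 2 := by
    have : n ≤ 3 * l + 2 := by omega
    exact_mod_cast this
  set f : ℝ := (cPft n K (Fast (v + φ)) b ω x seg M : ℝ) with hf
  set I : ℝ := (M : ℝ) - cPft n K Stc b ω x seg M with hI
  have hM00 : (0 : ℝ) ≤ M := Nat.cast_nonneg M
  have hmain : (v + 4 * φ) * (M * K) - K ≤ K * f + (v + φ) * K * M + K * I := by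
    have h8 : (v + 4 * φ) * (M * K) ≤ (v + 4 * φ) * l :=
      mul_le_mul_of_nonneg_left hMl (by positivity)
    linarith
  have hmain2 : 3 * φ * M - 1 ≤ f + I := by
    have h8 : K * (3 * φ * M - 1) ≤ K * (f + I) := by
      have e : (v + 4 * φ) * (M * K) - K - (v + φ) * K * M = K * (3 * φ * M - 1) := by ring
      linarith
    exact le_of_mul_le_mul_left h8 hK0
  have ht : 100 ≤ φ * (n / K) := by
    rw [div_le_iff₀ hφ0] at hn
    rw [← mul_div_assoc, le_div_iff₀ hK0]
    linarith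
  have ht2 : (100 : ℝ) ≤ n / K := by
    rw [le_div_iff₀ hK0]
    exact_mod_cast hn2
  have hMt : ((n : ℝ) / K) / 3 - 2 / 3 - 1 ≤ M := by
    have h9 : (n : ℝ) ≤ (3 * M + 3 + 2) * K := by nlinarith
    have h10 : (n : ℝ) / K ≤ 3 * M + 3 + 2 := by
      rw [div_le_iff₀ hK0]
      exact h9
    linarith
  have e : φ / (4 * K) * n = φ * (n / K) / 4 := by
    field_simp
  rw [e]
  have h11 : φ * (((n : ℝ) / K) / 3 - 2 / 3 - 1) ≤ φ * M := mul_le_mul_of_nonneg_left hMt hφ0.le
  nlinarith

end Pool.Agent.TVR
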