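import Pool.Agent.TVR.WDefs

/-!
# TVR / Imp: imperfect windows can be improved

`exists_stc`: `z.1.natAbs` letters `0` or `1` followed by `z.2.natAbs` letters `2` or `3` (`tot_append`, `List.replicate`, see `tot_horizontal`).
`parity`: induction on `w`, each letter changes `tot.1 + tot.2` by `±1`.

`impr_pos`: let `w'` be the word of `exists_stc (tot w)`; `|w'| = |tot w|₁ ≤ |w| = K` (`tot_abs`), all its edges have both end points near `y`
(`near_edge`), so `ω' ≤ a0` there and `cw n ω' y w' ≤ a0 |w'|`. If `w` is not a staircase, `|w'| ≤ K - 2` (`parity`), and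
`a0 (K - 2) ≤ r K + (a0 - r) K - 2 r ≤ r K + c1 - 2 r ≤ r K - c1 ≤ cw n ω y w - c1`. Otherwise there is an edge of `w` with `ω e ≥ b`, so
`cw n ω y w ≥ r (K-1) + b` (sum over the list `edgesL`, of length `K`), and `a0 K ≤ r K + c1 ≤ r (K - 1) + b - c1`.
`impr_zero`: `w' = w`: there is an edge `e0 ∈ edgesL n y w` with `b ≤ ω e0`; `ω' e0 ≤ a0` (`near_edge`), and `ω' ≤ ω` on the others.
-/

set_option autoImplicit false

namespace Pool.Agent.TVR

open Finset Pool.Agent.Helper46.Tor
open scoped NNReal

namespace Imp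

theorem tot_rep (n : ℕ) (s : Fin 4) :
    tot (List.replicate n s) = ((n : ℤ) * (vec s).1, (n : ℤ) * (vec s).2) := by
  induction n with
  | zero =>
    rw [List.replicate_zero, tot_nil]
    refine Prod.ext ?_ ?_ <;> simp
  | succ n ih =>
    rw [List.replicate_succ, tot_cons, ih]
    refine Prod.ext ?_ ?_
    · show (vec s).1 + (n : ℤ) * (vec s).1 = ((n + 1 : ℕ) : ℤ) * (vec s).1
      push_cast
      ring
    · show (vec s).2 + (n : ℤ) * (vec s).2 = ((n + 1 : ℕ) : ℤ) * (vec s).2
      push_cast
      ring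

theorem lsum_ge {α : Type*} (l : List α) (f : α → ℝ) (r : ℝ) (h : ∀ e ∈ l, r ≤ f e) :
    r * l.length ≤ (l.map f).sum := by
  induction l with
  | nil => simp
  | cons a l ih =>
    have h1 := ih fun e he => h e (List.mem_cons_of_mem _ he)
    have h2 := h a List.mem_cons_self
    simp only [List.map_cons, List.sum_cons, List.length_cons]
    push_cast
    linarith

theorem lsum_le {α : Type*} (l : List α) (f : α → ℝ) (r : ℝ) (h : ∀ e ∈ l, f e ≤ r) :
    (l.map f).sum ≤ r * l.length := by
  induction l with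
  | nil => simp
  | cons a l ih =>
    have h1 := ih fun e he => h e (List.mem_cons_of_mem _ he)
    have h2 := h a List.mem_cons_self
    simp only [List.map_cons, List.sum_cons, List.length_cons]
    push_cast
    linarith

theorem lsum_mono {α : Type*} (l : List α) (f g : α → ℝ) (h : ∀ e, f e ≤ g e) :
    (l.map f).sum ≤ (l.map g).sum := by
  induction l with
  | nil => simp
  | cons a l ih =>
    have h2 := h a
    simp only [List.map_cons, List.sum_cons]
    linarith

theorem lsum_ge' {α : Type*} (l : List α) (f : α → ℝ) (r b : ℝ) {e : α} (he : e ∈ l)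
    (hb : b ≤ f e) (h : ∀ e, r ≤ f e) : r * l.length - r + b ≤ (l.map f).sum := by
  obtain ⟨l1, l2, hl⟩ := List.append_of_mem he
  rw [hl]
  simp only [List.map_append, List.map_cons, List.sum_append, List.sum_cons, List.length_append,
    List.length_cons]
  have h1 := lsum_ge l1 f r fun e _ => h e
  have h2 := lsum_ge l2 f r fun e _ => h e
  push_cast
  linarith

end Imp

theorem exists_stc (z : ℤ × ℤ) :
    ∃ w : List (Fin 4), tot w = z ∧ (w.length : ℤ) = |z.1| + |z.2| := by
  have h1 : ∀ a : ℤ, ∃ w : List (Fin 4), tot w = (a, 0) ∧ (w.length : ℤ) = |a| := by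
    intro a
    rcases le_total 0 a with h | h
    · refine ⟨List.replicate a.natAbs 0, ?_, ?_⟩
      · rw [tot_horizontal]
        refine Prod.ext ?_ rfl
        show ((a.natAbs : ℕ) : ℤ) = a
        omega
      · rw [List.length_replicate]
        exact Int.natCast_natAbs a
    · refine ⟨List.replicate a.natAbs 1, ?_, ?_⟩
      · rw [Imp.tot_rep]
        refine Prod.ext ?_ ?_
        · show ((a.natAbs : ℕ) : ℤ) * (vec 1).1 = a
          have : (vec 1).1 = -1 := rfl
          rw [this]
          omega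
        · show ((a.natAbs : ℕ) : ℤ) * (vec 1).2 = 0
          have : (vec 1).2 = 0 := rfl
          rw [this, mul_zero]
      · rw [List.length_replicate]
        exact Int.natCast_natAbs a
  have h2 : ∀ a : ℤ, ∃ w : List (Fin 4), tot w = (0, a) ∧ (w.length : ℤ) = |a| := by
    intro a
    rcases le_total 0 a with h | h
    · refine ⟨List.replicate a.natAbs 2, ?_, ?_⟩
      · rw [Imp.tot_rep]
        refine Prod.ext ?_ ?_
        · show ((a.natAbs : ℕ) : ℤ) * (vec 2).1 = 0
          have : (vec 2).1 = 0 := rfl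
          rw [this, mul_zero]
        · show ((a.natAbs : ℕ) : ℤ) * (vec 2).2 = a
          have : (vec 2).2 = 1 := rfl
          rw [this]
          omega
      · rw [List.length_replicate]
        exact Int.natCast_natAbs a
    · refine ⟨List.replicate a.natAbs 3, ?_, ?_⟩
      · rw [Imp.tot_rep]
        refine Prod.ext ?_ ?_
        · show ((a.natAbs : ℕ) : ℤ) * (vec 3).1 = 0
          have : (vec 3).1 = 0 := rfl
          rw [this, mul_zero]
        · show ((a.natAbs : ℕ) : ℤ) * (vec 3).2 = a
          have : (vec 3).2 = -1 := rfl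
          rw [this]
          omega
      · rw [List.length_replicate]
        exact Int.natCast_natAbs a
  obtain ⟨u, hu1, hu2⟩ := h1 z.1
  obtain ⟨v, hv1, hv2⟩ := h2 z.2
  refine ⟨u ++ v, ?_, ?_⟩
  · rw [tot_append, hu1, hv1]
    refine Prod.ext ?_ ?_ <;> simp
  · rw [List.length_append]
    push_cast
    rw [hu2, hv2]

theorem parity (w : List (Fin 4)) : ∃ k : ℤ, (w.length : ℤ) = (tot w).1 + (tot w).2 + 2 * k := by
  induction w with
  | nil => exact ⟨0, rfl⟩
  | cons s w ih =>
    obtain ⟨k, hk⟩ := ih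
    rw [tot_cons, List.length_cons]
    push_cast
    rw [hk]
    have hs : (vec s).1 + (vec s).2 = 1 ∨ (vec s).1 + (vec s).2 = -1 := by
      fin_cases s <;> simp [vec]
    simp only [Prod.fst_add, Prod.snd_add]
    rcases hs with hs | hs
    · exact ⟨k, by linarith⟩
    · exact ⟨k + 1, by linarith⟩

theorem impr_pos {K : ℕ} {r b a0 : ℝ≥0} {c1 : ℝ} (hra : r ≤ a0) (h1 : c1 ≤ r)
    (h2 : 2 * c1 ≤ (b : ℝ) - r) (h3 : ((a0 : ℝ) - r) * K ≤ c1) : Impr K Stc r b a0 c1 := by
  intro n ω ω' y w hr hle hw hP hn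
  obtain ⟨w', hw1, hw2⟩ := exists_stc (tot w)
  have hlen : w'.length ≤ K := by
    have := tot_abs w
    rw [← hw2, hw] at this
    exact_mod_cast this
  refine ⟨w', hw1, ?_⟩
  have hra' : (r : ℝ) ≤ a0 := by exact_mod_cast hra
  have hr0 : (0 : ℝ) ≤ r := r.2
  have ha0 : (0 : ℝ) ≤ a0 := a0.2
  have hup : cw n ω' y w' ≤ a0 * w'.length := by
    unfold cw costL
    rw [← edgesL_length n y w']
    refine Imp.lsum_le _ _ _ fun e he => ?_
    exact_mod_cast hn e (near_edge y w' hlen e he)
  by_cases hS : Stc w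
  · have h4 : ∃ e ∈ edgesL n y w, b ≤ ω e := by
      by_contra hcon
      push Not at hcon
      exact hP ⟨hS, hcon⟩
    obtain ⟨e, he, hbe⟩ := h4
    have hlow : (r : ℝ) * K - r + b ≤ cw n ω y w := by
      unfold cw costL
      rw [← hw, ← edgesL_length n y w]
      exact Imp.lsum_ge' _ _ _ _ he (by exact_mod_cast hbe) fun e => by exact_mod_cast hr e
    have h5 : (a0 : ℝ) * w'.length ≤ a0 * K :=
      mul_le_mul_of_nonneg_left (by exact_mod_cast hlen) ha0
    linarith
  · have hlow : (r : ℝ) * K ≤ cw n ω y w := by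
      unfold cw costL
      rw [← hw, ← edgesL_length n y w]
      exact Imp.lsum_ge _ _ _ fun e _ => by exact_mod_cast hr e
    have hK2 : w'.length + 2 ≤ K := by
      obtain ⟨k, hk⟩ := parity w
      obtain ⟨k', hk'⟩ := parity w'
      rw [hw1] at hk'
      have h4 : w'.length ≠ K := by
        intro h
        apply hS
        unfold Stc
        rw [← hw2, hw, h]
      rw [hw] at hk
      omega
    have hK2' : (w'.length : ℝ) ≤ K - 2 := by
      have : (w'.length : ℝ) + 2 ≤ K := by exact_mod_cast hK2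
      linarith
    have h5 : (a0 : ℝ) * w'.length ≤ a0 * (K - 2) := mul_le_mul_of_nonneg_left hK2' ha0
    linarith

theorem impr_zero {K : ℕ} {r b a0 : ℝ≥0} (h : a0 ≤ b) :
    Impr K (fun _ => True) r b a0 ((b : ℝ) - a0) := by
  intro n ω ω' y w hr hle hw hP hn
  refine ⟨w, rfl, ?_⟩
  have _ := h
  have _ := hr
  have h4 : ∃ e ∈ edgesL n y w, b ≤ ω e := by
    by_contra hcon
    push Not at hcon
    exact hP ⟨trivial, hcon⟩
  obtain ⟨e, he, hbe⟩ := h4
  have h5 : (ω' e : ℝ) ≤ a0 := by exact_mod_cast hn e (near_edge y w hw.le e he)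
  have h6 : (b : ℝ) ≤ ω e := by exact_mod_cast hbe
  unfold cw costL
  obtain ⟨l1, l2, hl⟩ := List.append_of_mem he
  rw [hl]
  simp only [List.map_append, List.map_cons, List.sum_append, List.sum_cons]
  have h7 := Imp.lsum_mono l1 (fun e => (ω' e : ℝ)) (fun e => (ω e : ℝ))
    fun e => by exact_mod_cast hle e
  have h8 := Imp.lsum_mono l2 (fun e => (ω' e : ℝ)) (fun e => (ω e : ℝ))
    fun e => by exact_mod_cast hle e
  linarith

end Pool.Agent.TVR
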