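import Pool.Agent.TVR.Fun

/-!
# TVR / Inf: the infimum of the support

`exists_inf`: `r = sInf {x | F (Iic x) ≠ 0}`; the set is nonempty because `F (Iic k) → 1`. See `Tor.exists_ab` (Fin1.lean). For `x > r` there is `x' < x` in the set.
`F (Iio r) = 0`: `Iio r` is the countable union of `Iic (r - 1/k)`-type sets, none in the set (continuity from below).
`exists_a0`: `Ioi r = ⋃ k, Ioi (r + e/(k+2))`, increasing: some `k` has `F (Ioi (r + e/(k+2))) ≠ 0` (`measure_iUnion_null`).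
`ioi_ne`: if `F (Ioi r) = 0` and `F (Iio r) = 0` then `F {r} = 1`. `exists_K0`: `Ioi r = ⋃ k, Ioc r k`. `exists_b0`: `Iio (1/(k+1)) ↓ {0}`, `F (Iio (1/(k+1))) → F {0} < 1/2`.
`iic_ne`: if `F (Iic r) = 0` then `iid`-almost surely no edge `(0, x, d)` has weight in `Iic r` (countably many edges, each null), so `reach (Iic r) η (Iic 0) 1 = ∅`, `Zf = 0` a.s. and
`psi F (Iic r) 1 1 = 0 < exp v`.
-/

set_option autoImplicit false

namespace Pool.Agent.TVR

open MeasureTheory Set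
open scoped NNReal ENNReal

theorem exists_inf (F : Measure ℝ≥0) [IsProbabilityMeasure F] :
    ∃ r : ℝ≥0, F (Iio r) = 0 ∧ ∀ x : ℝ≥0, r < x → F (Iic x) ≠ 0 := by
  have hne : {x : ℝ≥0 | F (Iic x) ≠ 0}.Nonempty := by
    by_contra h
    have h0 : ∀ x : ℝ≥0, F (Iic x) = 0 := fun x => by
      by_contra hx
      exact h ⟨x, hx⟩
    have h1 : F univ = 0 := by
      have h2 : (univ : Set ℝ≥0) = ⋃ k : ℕ, Iic (k : ℝ≥0) := by
        refine (eq_univ_of_forall fun y => ?_).symm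
        obtain ⟨k, hk⟩ := exists_nat_ge y
        exact mem_iUnion.2 ⟨k, hk⟩
      rw [h2]
      exact measure_iUnion_null fun k => h0 k
    rw [measure_univ] at h1
    exact one_ne_zero h1
  refine ⟨sInf {x : ℝ≥0 | F (Iic x) ≠ 0}, ?_, fun x hx => ?_⟩
  · rcases eq_or_lt_of_le (bot_le : (0 : ℝ≥0) ≤ sInf {x : ℝ≥0 | F (Iic x) ≠ 0}) with h0 | h0
    · rw [← h0]
      rw [Iio_bot, measure_empty]
    · obtain ⟨u, -, hu, hut⟩ := exists_seq_strictMono_tendsto' h0
      refine measure_mono_null (t := ⋃ n, Iic (u n)) (fun y hy => ?_)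
        (measure_iUnion_null fun n => ?_)
      · obtain ⟨n, hn⟩ := (hut.eventually (lt_mem_nhds hy)).exists
        exact mem_iUnion.2 ⟨n, le_of_lt hn⟩
      · by_contra hc
        exact not_lt_of_ge (csInf_le (OrderBot.bddBelow _) hc) (hu n).2
  · obtain ⟨y, hy, hyx⟩ := exists_lt_of_csInf_lt hne hx
    intro h
    exact hy (measure_mono_null (Iic_subset_Iic.2 hyx.le) h)

theorem ioi_ne (F : Measure ℝ≥0) [IsProbabilityMeasure F] {r : ℝ≥0} (h0 : F (Iio r) = 0)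
    (h1 : F {r} ≠ 1) : F (Ioi r) ≠ 0 := by
  intro h
  apply h1
  rw [← prob_compl_eq_zero_iff (measurableSet_singleton r)]
  refine measure_mono_null (t := Iio r ∪ Ioi r) (fun y hy => ?_) (measure_union_null h0 h)
  exact lt_or_gt_of_ne hy

theorem exists_a0 (F : Measure ℝ≥0) [IsProbabilityMeasure F] {r : ℝ≥0} (h : F (Ioi r) ≠ 0)
    {e : ℝ} (he : 0 < e) : ∃ a0 : ℝ≥0, r < a0 ∧ (a0 : ℝ) < r + e ∧ F (Ioi a0) ≠ 0 := by
  have hr : r < r + e.toNNReal := lt_add_of_pos_right _ (Real.toNNReal_pos.2 he)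
  obtain ⟨u, -, hu, hut⟩ := exists_seq_strictAnti_tendsto' hr
  by_contra hc
  push Not at hc
  apply h
  refine measure_mono_null (t := ⋃ n, Ioi (u n)) (fun y hy => ?_)
    (measure_iUnion_null fun n => hc (u n) (hu n).1 ?_)
  · obtain ⟨n, hn⟩ := (hut.eventually (gt_mem_nhds hy)).exists
    exact mem_iUnion.2 ⟨n, hn⟩
  · have h1 : (u n : ℝ) < ((r + e.toNNReal : ℝ≥0) : ℝ) := NNReal.coe_lt_coe.2 (hu n).2
    rw [NNReal.coe_add, Real.coe_toNNReal e he.le] at h1
    exact h1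

theorem exists_K0 (F : Measure ℝ≥0) [IsProbabilityMeasure F] {r : ℝ≥0} (h : F (Ioi r) ≠ 0) :
    ∃ K0 : ℝ≥0, F (Ioc r K0) ≠ 0 := by
  by_contra hc
  push Not at hc
  apply h
  refine measure_mono_null (t := ⋃ k : ℕ, Ioc r (k : ℝ≥0)) (fun y hy => ?_)
    (measure_iUnion_null fun n => hc n)
  obtain ⟨k, hk⟩ := exists_nat_ge y
  exact mem_iUnion.2 ⟨k, hy, hk⟩

theorem exists_b0 (F : Measure ℝ≥0) [IsProbabilityMeasure F] (h : F {0} < 1 / 2) :
    ∃ b : ℝ≥0, 0 < b ∧ F (Iio b) < 1 / 2 := by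
  by_contra hc
  push Not at hc
  obtain ⟨u, hua, hu, hut⟩ := exists_seq_strictAnti_tendsto' (zero_lt_one : (0 : ℝ≥0) < 1)
  have h1 : (⋂ n, Iio (u n)) = {(0 : ℝ≥0)} := by
    ext y
    rw [mem_iInter, mem_singleton_iff]
    constructor
    · intro hy
      by_contra h0
      obtain ⟨n, hn⟩ := (hut.eventually (gt_mem_nhds (pos_iff_ne_zero.2 h0))).exists
      exact lt_asymm hn (hy n)
    · intro hy n
      rw [hy]
      exact (hu n).1
  have h2 : Filter.Tendsto (F ∘ fun n => Iio (u n)) Filter.atTop (nhds (F (⋂ n, Iio (u n)))) :=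
    tendsto_measure_iInter_atTop (fun n => measurableSet_Iio.nullMeasurableSet)
      (fun m n hmn => Iio_subset_Iio (hua.antitone hmn)) ⟨0, measure_ne_top _ _⟩
  rw [h1] at h2
  exact not_lt_of_ge (ge_of_tendsto' h2 fun n => hc (u n) (hu n).1) h

theorem iic_ne (F : Measure ℝ≥0) [IsProbabilityMeasure F] {r : ℝ≥0} {v : ℝ}
    (h : ENNReal.ofReal (Real.exp v) ≤ psi F (Iic r) 1 1) : F (Iic r) ≠ 0 := by
  intro h0
  have hq : ∀ q : OE, ∀ᵐ η ∂(iid OE F), η q ∉ Iic r := by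
    intro q
    rw [ae_iff]
    have h1 : {η : OE → ℝ≥0 | ¬ η q ∉ Iic r} = Set.pi (({q} : Finset OE) : Set OE) fun _ => Iic r := by
      ext η
      simp
    rw [h1, iid_box _ _ fun _ _ => measurableSet_Iic, Finset.prod_singleton, h0]
  have hall : ∀ᵐ η ∂(iid OE F), ∀ q : OE, η q ∉ Iic r := ae_all_iff.2 hq
  have hz : psi F (Iic r) 1 1 = 0 := by
    unfold psi fE
    rw [lintegral_eq_zero_of_ae_eq_zero]
    filter_upwards [hall] with η hη
    have h2 : reach (Iic r) η (Iic 0) 1 = ∅ := by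
      ext y
      constructor
      · rintro (⟨-, h3⟩ | ⟨-, h3⟩)
        · exact hη _ h3
        · exact hη _ h3
      · intro h3
        exact h3.elim
    rw [h2]
    simp [Zf]
  rw [hz] at h
  have h3 : (0 : ℝ≥0∞) < ENNReal.ofReal (Real.exp v) := ENNReal.ofReal_pos.2 (Real.exp_pos v)
  exact not_lt_of_ge h h3

end Pool.Agent.TVR
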