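import Pool.Agent.TVR.WDefs

/-!
# TVR / KSel: choice of the length of the windows

From `WB`: `c, C`. Choose `K ≥ 1` with `0 ≤ c √K - C =: Λ` and `2 (2K+1)^2 exp (-(Λ φ)) ≤ 1/2` (`(2K+1)^2 exp (-φ c √K) → 0`; substitute `x = √K` and use
`tendsto_pow_mul_exp_neg_atTop_nhds_zero` or `isLittleO`). For `n > 2K` (and `n ≥ 2`) `few_prob` with `M0 = n / (4 K)` gives
`P(¬ Few) ≤ 2 n^2 (1/2)^{n/(4K)}`, which tends to `0` (`n / (4K) ≥ n/(4K) - 1` as reals, `(1/2)^{x}` decays exponentially).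
-/

set_option autoImplicit false

namespace Pool.Agent.TVR

open Finset Pool.Agent.Helper46.Tor MeasureTheory
open scoped NNReal ENNReal

private theorem exists_K {c C φ : ℝ} (hc : 0 < c) (hφ : 0 < φ) :
    ∃ K : ℕ, 0 < K ∧ 0 ≤ c * Real.sqrt K - C ∧
      2 * (2 * (K : ℝ) + 1) ^ 2 * Real.exp (-((c * Real.sqrt K - C) * φ)) ≤ 1 / 2 := by
  have hcφ : 0 < c * φ := mul_pos hc hφ
  have h0 : Filter.Tendsto (fun K : ℕ => Real.sqrt (K : ℝ)) Filter.atTop Filter.atTop :=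
    Real.tendsto_sqrt_atTop.comp tendsto_natCast_atTop_atTop
  have h1 : Filter.Tendsto (fun K : ℕ => c * φ * Real.sqrt (K : ℝ)) Filter.atTop Filter.atTop :=
    h0.const_mul_atTop hcφ
  have h2 := ((Real.tendsto_pow_mul_exp_neg_atTop_nhds_zero 4).comp h1).const_mul
    (18 * Real.exp (C * φ) / (c * φ) ^ 4)
  rw [mul_zero] at h2
  have h3 := h2.eventually (gt_mem_nhds (show (0 : ℝ) < 1 / 2 by norm_num))
  have h4 := h0.eventually (Filter.eventually_ge_atTop (C / c))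
  obtain ⟨K, ⟨h5, h6⟩, h7⟩ := ((h3.and h4).and (Filter.eventually_ge_atTop 1)).exists
  have hs : Real.sqrt (K : ℝ) ^ 2 = K := Real.sq_sqrt (Nat.cast_nonneg K)
  have hK1 : (1 : ℝ) ≤ K := by exact_mod_cast h7
  refine ⟨K, h7, ?_, ?_⟩
  · rw [div_le_iff₀ hc] at h6
    linarith
  · simp only [Function.comp_apply] at h5
    have h8 : 18 * Real.exp (C * φ) / (c * φ) ^ 4 *
        ((c * φ * Real.sqrt K) ^ 4 * Real.exp (-(c * φ * Real.sqrt K))) =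
        18 * (K : ℝ) ^ 2 * Real.exp (-((c * Real.sqrt K - C) * φ)) := by
      have h9 : Real.exp (-((c * Real.sqrt K - C) * φ)) =
          Real.exp (C * φ) * Real.exp (-(c * φ * Real.sqrt K)) := by
        rw [← Real.exp_add]
        congr 1
        ring
      have h10 : (c * φ * Real.sqrt K) ^ 4 = (c * φ) ^ 4 * (K : ℝ) ^ 2 := by
        rw [mul_pow, show (4 : ℕ) = 2 * 2 from rfl, pow_mul (Real.sqrt (K : ℝ)), hs]
      rw [h9, h10]
      field_simp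
    rw [h8] at h5
    refine le_trans ?_ h5.le
    refine mul_le_mul_of_nonneg_right ?_ (Real.exp_pos _).le
    nlinarith

private theorem tail_small {L : ℕ} (hL : 0 < L) {ε : ℝ} (hε : 0 < ε) :
    ∃ N : ℕ, ∀ n : ℕ, N ≤ n → (n : ℝ) ^ 2 * 2 * (1 / 2) ^ (n / L) ≤ ε := by
  have h1 := ((tendsto_pow_const_mul_const_pow_of_abs_lt_one 2
    (show |(1 / 2 : ℝ)| < 1 by rw [abs_of_pos] <;> norm_num)).comp
      (Filter.tendsto_add_atTop_nat 1)).const_mul (4 * (L : ℝ) ^ 2)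
  rw [mul_zero] at h1
  obtain ⟨M0, h2⟩ := Filter.eventually_atTop.1 (h1.eventually (gt_mem_nhds hε))
  refine ⟨M0 * L, fun n hn => ?_⟩
  have h3 : M0 ≤ n / L := (Nat.le_div_iff_mul_le hL).2 hn
  have h4 := h2 _ h3
  simp only [Function.comp_apply] at h4
  refine le_trans ?_ h4.le
  have h5 : n ≤ L * (n / L + 1) := (Nat.lt_mul_div_succ n hL).le
  have h6 : (n : ℝ) ≤ L * ((n / L + 1 : ℕ) : ℝ) := by exact_mod_cast h5
  have h7 : (n : ℝ) ^ 2 ≤ (L * ((n / L + 1 : ℕ) : ℝ)) ^ 2 := by gcongr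
  calc (n : ℝ) ^ 2 * 2 * (1 / 2) ^ (n / L)
      ≤ (L * ((n / L + 1 : ℕ) : ℝ)) ^ 2 * 2 * (1 / 2) ^ (n / L) := by gcongr
    _ = 4 * (L : ℝ) ^ 2 * (((n / L + 1 : ℕ) : ℝ) ^ 2 * (1 / 2) ^ (n / L + 1)) := by
        rw [mul_pow, pow_succ (1 / 2 : ℝ)]
        ring

theorem few_of_wb (F : Measure ℝ≥0) [IsProbabilityMeasure F] {Cond : List (Fin 4) → Prop}
    {b : ℝ≥0} (h : WB F Cond b) {φ : ℝ} (hφ : 0 < φ) :
    ∃ K : ℕ, 0 < K ∧ ∀ ε : ℝ, 0 < ε → ∃ N : ℕ, ∀ n : ℕ, N ≤ n → ∀ [NeZero n],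
      (Measure.pi fun _ : Sym2 (ZMod n × ZMod n) => F)
        {ω | ¬ Few n K Cond b φ (n / (4 * K)) ω} ≤ ENNReal.ofReal ε := by
  obtain ⟨c, C, hc, hW⟩ := h
  obtain ⟨K, hK, hΛ0, hΛ⟩ := exists_K (C := C) hc hφ
  refine ⟨K, hK, fun ε hε => ?_⟩
  obtain ⟨N, hN⟩ := tail_small (L := 4 * K) (by omega) hε
  refine ⟨max N (2 * K + 2), fun n hn hne => ?_⟩
  have hn1 : N ≤ n := (le_max_left _ _).trans hn
  have hn2 : 2 * K + 2 ≤ n := (le_max_right _ _).trans hn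
  have hw := hW n K (by omega)
  rw [show C - c * Real.sqrt K = -(c * Real.sqrt K - C) by ring] at hw
  exact (few_prob F (by omega) hK hΛ0 hw hΛ (n / (4 * K))).trans
    (ENNReal.ofReal_le_ofReal (hN n hn1))

end Pool.Agent.TVR
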