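import Pool.Agent.TVR.BDefs

/-!
# TVR / Tail: finite variance of the winding time forces a polynomial tail of the weights

`evariance (T n) P = ∫⁻ ‖T n ω - e0‖ₑ^2 ∂P < ∞` with the constant `e0 = ∫ T n ∂P`. So `T n - e0` is in `L^2` (`MemLp`), and so is `T n` (add the constant):
`M = ∫⁻ ofReal (T n ω ^ 2) ∂P < ∞`. If `z < ω e` for all `e` then `z < T n ω` for `z ≥ 0`: `T_eq_least`, `T n ω = cw n ω x w` is a sum of `|w| ≥ n ≥ 1` weights.
(`n ≤ |w|` from `tot w = (n, 0)`, `tot_abs`.) So for `z ≥ 1`: `F {x | z < x} ^ N = P {∀ e, z < ω e} ≤ P {z^2 ≤ T^2} ≤ M / z^2` with `N = card (Sym2 (ZMod n × ZMod n)) ≥ 1`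
(`Measure.pi_pi`, Markov). Hence `F {x | z < x} ≤ (M z^{-2})^{1/N} = M^{1/N} z^{-2/N}`: `κ = 2/N`, `B = M^{1/N}` (with `M` as a real number).
-/

set_option autoImplicit false

namespace Pool.Agent.TVR

open Finset Pool.Agent.Helper46.Tor MeasureTheory ProbabilityTheory
open scoped NNReal ENNReal

namespace TailAux

theorem T_ge {n : ℕ} [NeZero n] {ω : Sym2 (ZMod n × ZMod n) → ℝ≥0} {z : ℝ} (hz : 0 ≤ z)
    (h : ∀ e, z < (ω e : ℝ)) : z ≤ T n ω := by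
  obtain ⟨g, hg⟩ := least_exists n ω
  rw [T_eq_least hg]
  unfold cw costL
  have h1 := List.card_nsmul_le_sum ((edgesL n g.1.1 g.1.2).map fun e => (ω e : ℝ)) z (by
    intro x hx
    obtain ⟨e, _, rfl⟩ := List.mem_map.1 hx
    exact (h e).le)
  rw [List.length_map, edgesL_length, nsmul_eq_mul] at h1
  have h2 := tot_abs g.1.2
  have h3 : tot g.1.2 = ((n : ℤ), 0) := g.2
  rw [h3] at h2
  have h4 : (n : ℤ) ≤ (g.1.2.length : ℤ) := by
    have h5 : |(n : ℤ)| = n := abs_of_nonneg (by positivity)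
    simp only [h5] at h2
    have h6 : |(0 : ℤ)| = 0 := abs_zero
    rw [h6] at h2
    linarith
  have h5 : 1 ≤ n := Nat.one_le_iff_ne_zero.2 (NeZero.ne n)
  have h6 : 1 ≤ g.1.2.length := by omega
  have h7 : (1 : ℝ) ≤ (g.1.2.length : ℝ) := by exact_mod_cast h6
  calc z = 1 * z := by ring
    _ ≤ (g.1.2.length : ℝ) * z := mul_le_mul_of_nonneg_right h7 hz
    _ ≤ _ := h1

end TailAux

theorem tail_of_evar (F : Measure ℝ≥0) [IsProbabilityMeasure F] (n : ℕ) [NeZero n]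
    (h : evariance (T n) (Measure.pi fun _ : Sym2 (ZMod n × ZMod n) => F) ≠ ∞) :
    ∃ κ B : ℝ, 0 < κ ∧
      ∀ z : ℝ, 1 ≤ z → F {x | z < (x : ℝ)} ≤ ENNReal.ofReal (B * z ^ (-κ)) := by
  set P : Measure (Sym2 (ZMod n × ZMod n) → ℝ≥0) :=
    Measure.pi fun _ : Sym2 (ZMod n × ZMod n) => F with hP
  have hTm : AEStronglyMeasurable (T n) P := (measurable_T n).aestronglyMeasurable
  have hL2 : MemLp (T n) 2 P :=
    (evariance_lt_top_iff_memLp hTm).1 (lt_top_iff_ne_top.2 h)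
  have hint : Integrable (fun ω => T n ω ^ 2) P := hL2.integrable_sq
  set M : ℝ := ∫ ω, T n ω ^ 2 ∂P with hM
  have hM0 : 0 ≤ M := integral_nonneg fun ω => sq_nonneg _
  set N : ℕ := Fintype.card (Sym2 (ZMod n × ZMod n)) with hN
  have hN0 : N ≠ 0 := by
    have : Nonempty (Sym2 (ZMod n × ZMod n)) := ⟨s((0, 0), (0, 0))⟩
    exact Fintype.card_ne_zero
  have hNr : (0 : ℝ) < (N : ℝ) := by
    exact_mod_cast Nat.pos_of_ne_zero hN0
  refine ⟨2 * (N : ℝ)⁻¹, M ^ ((N : ℝ)⁻¹), by positivity, fun z hz => ?_⟩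
  have hz0 : 0 < z := by linarith
  have hS : F {x : ℝ≥0 | z < (x : ℝ)} ^ N = P {ω | ∀ e, z < (ω e : ℝ)} := by
    have e1 : {ω : Sym2 (ZMod n × ZMod n) → ℝ≥0 | ∀ e, z < (ω e : ℝ)} =
        Set.univ.pi fun _ => {x : ℝ≥0 | z < (x : ℝ)} := by
      ext ω
      constructor
      · intro hω e _
        exact hω e
      · intro hω e
        exact hω e (Set.mem_univ e)
    rw [e1, hP, Measure.pi_pi, Finset.prod_const, Finset.card_univ]
  have hsub : {ω : Sym2 (ZMod n × ZMod n) → ℝ≥0 | ∀ e, z < (ω e : ℝ)} ⊆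
      {ω | z ^ 2 ≤ T n ω ^ 2} := by
    intro ω hω
    exact pow_le_pow_left₀ hz0.le (TailAux.T_ge hz0.le hω) 2
  have hmk : z ^ 2 * P.real {ω | z ^ 2 ≤ T n ω ^ 2} ≤ M :=
    mul_meas_ge_le_integral_of_nonneg (Filter.Eventually.of_forall fun ω => sq_nonneg _) hint _
  have hle : P.real {ω | ∀ e, z < (ω e : ℝ)} ≤ M / z ^ 2 := by
    rw [le_div_iff₀ (by positivity)]
    have h1 : P.real {ω | ∀ e, z < (ω e : ℝ)} ≤ P.real {ω | z ^ 2 ≤ T n ω ^ 2} :=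
      measureReal_mono hsub
    calc P.real {ω | ∀ e, z < (ω e : ℝ)} * z ^ 2 ≤
          P.real {ω | z ^ 2 ≤ T n ω ^ 2} * z ^ 2 :=
          mul_le_mul_of_nonneg_right h1 (by positivity)
      _ = z ^ 2 * P.real {ω | z ^ 2 ≤ T n ω ^ 2} := by ring
      _ ≤ M := hmk
  set p : ℝ := F.real {x : ℝ≥0 | z < (x : ℝ)} with hp
  have hp0 : 0 ≤ p := measureReal_nonneg
  have hpN : p ^ N ≤ M / z ^ 2 := by
    have e2 : p ^ N = P.real {ω | ∀ e, z < (ω e : ℝ)} := by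
      rw [hp, Measure.real, Measure.real, ← hS, ENNReal.toReal_pow]
    rw [e2]
    exact hle
  have hp1 : p ≤ M ^ ((N : ℝ)⁻¹) * z ^ (-(2 * (N : ℝ)⁻¹)) := by
    have h1 : (p ^ N) ^ ((N : ℝ)⁻¹) ≤ (M / z ^ 2) ^ ((N : ℝ)⁻¹) :=
      Real.rpow_le_rpow (by positivity) hpN (by positivity)
    rw [Real.pow_rpow_inv_natCast hp0 hN0, Real.div_rpow hM0 (by positivity)] at h1
    have h2 : (z ^ 2) ^ ((N : ℝ)⁻¹) = z ^ (2 * (N : ℝ)⁻¹) := by
      rw [Real.rpow_mul hz0.le, Real.rpow_two]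
    rw [h2] at h1
    rw [Real.rpow_neg hz0.le]
    rwa [div_eq_mul_inv] at h1
  have e3 : F {x : ℝ≥0 | z < (x : ℝ)} = ENNReal.ofReal p := by
    rw [hp, ofReal_measureReal]
  rw [e3]
  exact ENNReal.ofReal_le_ofReal hp1

end Pool.Agent.TVR
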