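import Pool.Agent.TVR.Fun

/-!
# TVR / Cont: right continuity in the threshold

`b n = r + 1/(n+1) ↓ r`, the sets `Iio (b n)` decrease to `Iic r`.
1. For all `t`: `⋂ n, reach (Iio (b n)) η W t = reach (Iic r) η W t` (induction on `t`: if `y` is in all
   `reach (Iio (b n)) (t+1)` then one of the two alternatives of `step` holds for infinitely many `n`,
   hence for all `n` by monotonicity (`reach_mono`), and `l < b n` for all `n` means `l ≤ r`).
2. For decreasing sets `W n ⊆ Iic t` with intersection `W∞`: `Zf θ (W n) → Zf θ W∞` for `θ > 0`: for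
   every `y0` the sets `W n ∩ [y0, t]` are eventually constant `= W∞ ∩ [y0, t]` (finite, decreasing), so
   eventually `Zf θ (W n) ≤ max (Zf θ W∞) (exp (θ y0))`, and `exp (θ y0) → 0` as `y0 → -∞`; and
   `Zf θ W∞ ≤ Zf θ (W n)`.
3. Dominated convergence (`tendsto_lintegral_of_dominated_convergence`, bound `exp (θ t)`):
   `psi (Iio (b n)) θ t → psi (Iic r) θ t`; so `psi (Iio (b n)) θ t < c` for some `n`.
-/

set_option autoImplicit false

namespace Pool.Agent.TVR

open MeasureTheory Set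
open scoped NNReal ENNReal

open Filter Topology in
private theorem Zf_tendsto {θ : ℝ} (hθ : 0 < θ) {W : ℕ → Set ℤ} {V : Set ℤ} {T : ℤ}
    (hW : ∀ m n, m ≤ n → W n ⊆ W m) (hT : ∀ n, ∀ y ∈ W n, y ≤ T) (hV : ∀ n, V ⊆ W n)
    (hV' : ∀ y, (∀ n, y ∈ W n) → y ∈ V) :
    Tendsto (fun n => Zf θ (W n)) atTop (𝓝 (Zf θ V)) := by
  rw [tendsto_order]
  refine ⟨fun a ha => Eventually.of_forall fun n => lt_of_lt_of_le ha (Zf_mono (hV n)), ?_⟩
  intro a ha
  have ha0 : 0 < a := lt_of_le_of_lt zero_le ha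
  have h1 : Tendsto (fun k : ℕ => ENNReal.ofReal (Real.exp (θ * (-(k : ℤ) : ℤ)))) atTop (𝓝 0) := by
    have h2 : Tendsto (fun k : ℕ => Real.exp (θ * (-(k : ℤ) : ℤ))) atTop (𝓝 0) := by
      apply Real.tendsto_exp_atBot.comp
      have h3 : Tendsto (fun k : ℕ => -(θ * (k : ℝ))) atTop atBot :=
        tendsto_neg_atTop_atBot.comp (tendsto_natCast_atTop_atTop.const_mul_atTop hθ)
      refine h3.congr fun k => ?_
      push_cast
      ring
    have h4 := ENNReal.tendsto_ofReal h2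
    rwa [ENNReal.ofReal_zero] at h4
  obtain ⟨k, hk⟩ := (h1.eventually_lt_const ha0).exists
  have h5 : ∀ᶠ n in atTop, ∀ y ∈ Set.Icc (-(k : ℤ)) T, y ∈ W n → y ∈ V := by
    rw [Filter.eventually_all_finite (Set.finite_Icc _ _)]
    intro y _
    by_cases hy : y ∈ V
    · exact Eventually.of_forall fun _ _ => hy
    · have h6 : ∃ n, y ∉ W n := by
        by_contra hc
        push Not at hc
        exact hy (hV' y hc)
      obtain ⟨n₀, hn₀⟩ := h6
      filter_upwards [eventually_ge_atTop n₀] with n hn hyn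
      exact absurd (hW n₀ n hn hyn) hn₀
  filter_upwards [h5] with n hn
  refine lt_of_le_of_lt ?_ (max_lt ha hk)
  unfold Zf
  refine iSup₂_le fun y hy => ?_
  rcases lt_or_ge y (-(k : ℤ)) with h | h
  · refine le_max_of_le_right ?_
    apply ENNReal.ofReal_le_ofReal
    apply Real.exp_le_exp.2
    apply mul_le_mul_of_nonneg_left _ hθ.le
    exact_mod_cast h.le
  · refine le_max_of_le_left ?_
    exact le_iSup₂ (f := fun (y : ℤ) (_ : y ∈ V) => ENNReal.ofReal (Real.exp (θ * y))) y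
      (hn y ⟨h, hT n y hy⟩ hy)

private theorem reach_iInter {b : ℕ → ℝ≥0} {r : ℝ≥0} (hb : ∀ m n, m ≤ n → b n ≤ b m)
    (hr : ∀ l, (∀ n, l < b n) → l ≤ r) (η : Env) (W : Set ℤ) (t : ℕ) :
    ∀ y, (∀ n, y ∈ reach (Iio (b n)) η W t) → y ∈ reach (Iic r) η W t := by
  induction t with
  | zero =>
    intro y h
    exact h 0
  | succ t ih =>
    intro y h
    have hmono : ∀ m n, m ≤ n → reach (Iio (b n)) η W t ⊆ reach (Iio (b m)) η W t := fun m n hmn =>
      reach_mono (Iio_subset_Iio (hb m n hmn)) (Subset.refl _) t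
    have h' : ∀ n, (y ∈ reach (Iio (b n)) η W t ∧ η (t, y, false) < b n) ∨
        (y - 1 ∈ reach (Iio (b n)) η W t ∧ η (t, y - 1, true) < b n) := h
    change (y ∈ reach (Iic r) η W t ∧ η (t, y, false) ≤ r) ∨
        (y - 1 ∈ reach (Iic r) η W t ∧ η (t, y - 1, true) ≤ r)
    by_cases hc : ∀ n, y ∈ reach (Iio (b n)) η W t ∧ η (t, y, false) < b n
    · exact Or.inl ⟨ih y fun n => (hc n).1, hr _ fun n => (hc n).2⟩
    · push Not at hc
      obtain ⟨n₀, hn₀⟩ := hc
      have h2 : ∀ n, n₀ ≤ n → y - 1 ∈ reach (Iio (b n)) η W t ∧ η (t, y - 1, true) < b n := by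
        intro n hn
        rcases h' n with h3 | h3
        · exact absurd (h3.2.trans_le (hb n₀ n hn)) (not_lt.2 (hn₀ (hmono n₀ n hn h3.1)))
        · exact h3
      have h4 : ∀ n, y - 1 ∈ reach (Iio (b n)) η W t ∧ η (t, y - 1, true) < b n := by
        intro n
        have h5 := h2 (max n n₀) (le_max_right _ _)
        exact ⟨hmono n _ (le_max_left _ _) h5.1, h5.2.trans_le (hb n _ (le_max_left _ _))⟩
      exact Or.inr ⟨ih (y - 1) fun n => (h4 n).1, hr _ fun n => (h4 n).2⟩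

theorem cont_right (F : Measure ℝ≥0) [IsProbabilityMeasure F] {θ : ℝ} (hθ : 0 < θ) (r : ℝ≥0)
    (t : ℕ) {c : ℝ≥0∞} (h : psi F (Iic r) θ t < c) :
    ∃ b : ℝ≥0, r < b ∧ psi F (Iio b) θ t < c := by
  have hb1 : ∀ n : ℕ, r < r + 1 / ((n : ℝ≥0) + 1) := fun n => lt_add_of_pos_right r (by positivity)
  have hb2 : ∀ m n : ℕ, m ≤ n → r + 1 / ((n : ℝ≥0) + 1) ≤ r + 1 / ((m : ℝ≥0) + 1) := by
    intro m n hmn
    have : (m : ℝ≥0) ≤ n := by exact_mod_cast hmn
    gcongr
  have hb3 : Filter.Tendsto (fun n : ℕ => r + 1 / ((n : ℝ≥0) + 1)) Filter.atTop (nhds r) := by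
    have h1 : Filter.Tendsto (fun n : ℕ => (1 : ℝ≥0) / ((n : ℝ≥0) + 1)) Filter.atTop (nhds 0) := by
      rw [← NNReal.tendsto_coe]
      have h2 := tendsto_one_div_add_atTop_nhds_zero_nat (𝕜 := ℝ)
      refine h2.congr fun n => ?_
      push_cast
      rfl
    have h3 := h1.const_add r
    rwa [add_zero] at h3
  have hb4 : ∀ l : ℝ≥0, (∀ n : ℕ, l < r + 1 / ((n : ℝ≥0) + 1)) → l ≤ r := fun l hl =>
    ge_of_tendsto' hb3 fun n => (hl n).le
  generalize hbd : (fun n : ℕ => r + 1 / ((n : ℝ≥0) + 1)) = b at hb3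
  have hbd' : ∀ n : ℕ, r + 1 / ((n : ℝ≥0) + 1) = b n := fun n => congrFun hbd n
  simp only [hbd'] at hb1 hb2 hb4
  have hreach : ∀ (S : Set ℝ≥0) (η : Env), ∀ y ∈ reach S η (Iic 0) t, y ≤ (t : ℤ) := by
    intro S η y hy
    have := reach_le (b := 0) (fun y hy => hy) t y hy
    rwa [zero_add] at this
  have hlim : Filter.Tendsto (fun n => psi F (Iio (b n)) θ t) Filter.atTop
      (nhds (psi F (Iic r) θ t)) := by
    unfold psi fE
    refine tendsto_lintegral_of_dominated_convergence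
      (fun _ => ENNReal.ofReal (Real.exp (θ * t))) ?_ ?_ ?_ ?_
    · intro n
      exact measurable_Zf fun y => measurableSet_reach measurableSet_Iio _ t y
    · intro n
      refine Filter.Eventually.of_forall fun η => ?_
      have h1 : Zf θ (reach (Iio (b n)) η (Iic 0) t) ≤ Zf θ (Iic (t : ℤ)) :=
        Zf_mono fun y hy => hreach _ η y hy
      rw [Zf_Iic hθ.le] at h1
      exact_mod_cast h1
    · rw [lintegral_const, measure_univ, mul_one]
      exact ENNReal.ofReal_ne_top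
    · refine Filter.Eventually.of_forall fun η => ?_
      refine Zf_tendsto hθ (T := (t : ℤ)) ?_ (fun n => hreach _ η) ?_ ?_
      · intro m n hmn
        exact reach_mono (Iio_subset_Iio (hb2 m n hmn)) (Subset.refl _) t
      · intro n
        exact reach_mono (fun l hl => lt_of_le_of_lt hl (hb1 n)) (Subset.refl _) t
      · exact reach_iInter hb2 hb4 η _ t
  obtain ⟨n, hn⟩ := (hlim.eventually_lt_const h).exists
  exact ⟨b n, hb1 n, hn⟩

end Pool.Agent.TVR
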