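import Pool.Agent.TVR.Fun

/-!
# TVR / LD: large deviations above the edge speed

* `psi_geom`: write `K = j t + i`, `i < t`. `psi K ≤ (psi t)^j * psi i` (induction on `j` with
  `psi_add`), `(psi t)^j ≤ exp (θ v t j)`, `psi i ≤ exp (θ i) ≤ exp (θ t)` (`psi_le`),
  and `t j ≤ K`, `0 ≤ θ v`.
* `ld`: Markov's inequality (`mul_meas_ge_le_lintegral` / `meas_ge_le_lintegral_div`): on the event
  `Zf θ (reach S η (Iic 0) K) ≥ exp (θ v' K)` (as `{0} ⊆ Iic 0`, `reach_mono`), so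
  `exp (θ v' K) * P ≤ psi K ≤ exp (θ t) * exp (θ v K)`.
-/

set_option autoImplicit false

namespace Pool.Agent.TVR

open MeasureTheory Set
open scoped NNReal ENNReal

variable {F : Measure ℝ≥0} [IsProbabilityMeasure F] {S : Set ℝ≥0} {θ v : ℝ}

theorem psi_geom (hS : MeasurableSet S) (hθ : 0 ≤ θ) (hv : 0 ≤ v) {t : ℕ} (ht : 0 < t)
    (h : psi F S θ t ≤ ENNReal.ofReal (Real.exp (θ * v * t))) (K : ℕ) :
    psi F S θ K ≤ ENNReal.ofReal (Real.exp (θ * t)) * ENNReal.ofReal (Real.exp (θ * v * K)) := by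
  have h1 : ∀ j i : ℕ, psi F S θ (t * j + i) ≤ (psi F S θ t) ^ j * psi F S θ i := by
    intro j i
    induction j with
    | zero => simp
    | succ j ih =>
      have e1 : t * (j + 1) + i = t + (t * j + i) := by ring
      rw [e1]
      calc psi F S θ (t + (t * j + i)) ≤ psi F S θ t * psi F S θ (t * j + i) := psi_add hS hθ _ _
        _ ≤ psi F S θ t * ((psi F S θ t) ^ j * psi F S θ i) := mul_le_mul_right ih _
        _ = (psi F S θ t) ^ (j + 1) * psi F S θ i := by rw [pow_succ']; ring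
  have h2 := h1 (K / t) (K % t)
  rw [Nat.div_add_mod] at h2
  refine h2.trans ?_
  have h3 : (psi F S θ t) ^ (K / t) ≤ ENNReal.ofReal (Real.exp (θ * v * K)) := by
    calc (psi F S θ t) ^ (K / t) ≤ (ENNReal.ofReal (Real.exp (θ * v * t))) ^ (K / t) :=
          pow_le_pow_left' h _
      _ = ENNReal.ofReal ((Real.exp (θ * v * t)) ^ (K / t)) := by
          rw [ENNReal.ofReal_pow (Real.exp_pos _).le]
      _ = ENNReal.ofReal (Real.exp (((K / t : ℕ) : ℝ) * (θ * v * t))) := by rw [Real.exp_nat_mul]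
      _ ≤ ENNReal.ofReal (Real.exp (θ * v * K)) := by
          refine ENNReal.ofReal_le_ofReal (Real.exp_le_exp.mpr ?_)
          have h4 : ((t * (K / t) : ℕ) : ℝ) ≤ (K : ℝ) := by exact_mod_cast Nat.mul_div_le K t
          push_cast at h4
          have h5 : 0 ≤ θ * v := mul_nonneg hθ hv
          calc ((K / t : ℕ) : ℝ) * (θ * v * t) = θ * v * ((t : ℝ) * ((K / t : ℕ) : ℝ)) := by ring
            _ ≤ θ * v * K := mul_le_mul_of_nonneg_left h4 h5
  have h6 : psi F S θ (K % t) ≤ ENNReal.ofReal (Real.exp (θ * t)) := by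
    refine (psi_le hθ _).trans (ENNReal.ofReal_le_ofReal (Real.exp_le_exp.mpr ?_))
    refine mul_le_mul_of_nonneg_left ?_ hθ
    exact_mod_cast (Nat.mod_lt K ht).le
  rw [mul_comm]
  exact mul_le_mul' h6 h3

theorem ld (hS : MeasurableSet S) (hθ : 0 ≤ θ) (hv : 0 ≤ v) {t : ℕ} (ht : 0 < t)
    (h : psi F S θ t ≤ ENNReal.ofReal (Real.exp (θ * v * t))) (v' : ℝ) (K : ℕ) :
    iid OE F {η | ∃ y ∈ reach S η {0} K, v' * K ≤ y} ≤
      ENNReal.ofReal (Real.exp (θ * t) * Real.exp (-(θ * (v' - v) * K))) := by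
  have hm : Measurable fun η : Env => Zf θ (reach S η (Iic 0) K) :=
    measurable_Zf fun y => measurableSet_reach hS (Iic 0) K y
  set E : ℝ≥0∞ := ENNReal.ofReal (Real.exp (θ * (v' * K))) with hE
  have hE0 : E ≠ 0 := by
    rw [hE]
    exact (ENNReal.ofReal_pos.mpr (Real.exp_pos _)).ne'
  have hEt : E ≠ ∞ := ENNReal.ofReal_ne_top
  have h1 : {η : Env | ∃ y ∈ reach S η {0} K, v' * K ≤ y} ⊆
      {η : Env | E ≤ Zf θ (reach S η (Iic 0) K)} := by
    rintro η ⟨y, hy, hvy⟩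
    have hy' : y ∈ reach S η (Iic 0) K := reach_mono (Set.Subset.refl S) (by
      intro z hz
      have : z = 0 := hz
      rw [this]
      exact Set.self_mem_Iic) K hy
    show E ≤ Zf θ (reach S η (Iic 0) K)
    refine le_trans ?_ (le_iSup₂ (f := fun (y : ℤ) (_ : y ∈ reach S η (Iic 0) K) =>
      ENNReal.ofReal (Real.exp (θ * y))) y hy')
    exact ENNReal.ofReal_le_ofReal (Real.exp_le_exp.mpr (mul_le_mul_of_nonneg_left hvy hθ))
  have h2 : E * iid OE F {η : Env | E ≤ Zf θ (reach S η (Iic 0) K)} ≤ psi F S θ K :=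
    mul_meas_ge_le_lintegral hm E
  have h3 := h2.trans (psi_geom hS hθ hv ht h K)
  have h4 : iid OE F {η : Env | E ≤ Zf θ (reach S η (Iic 0) K)} ≤
      (ENNReal.ofReal (Real.exp (θ * t)) * ENNReal.ofReal (Real.exp (θ * v * K))) / E := by
    rw [ENNReal.le_div_iff_mul_le (Or.inl hE0) (Or.inl hEt), mul_comm]
    exact h3
  refine (measure_mono h1).trans (h4.trans ?_)
  rw [hE, ← ENNReal.ofReal_mul (Real.exp_pos _).le, ← ENNReal.ofReal_div_of_pos (Real.exp_pos _)]
  refine ENNReal.ofReal_le_ofReal (le_of_eq ?_)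
  rw [← Real.exp_add, ← Real.exp_add, ← Real.exp_sub]
  congr 1
  ring

end Pool.Agent.TVR
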