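import Pool.Agent.TVR.WinReach
import Pool.Agent.TVR.LD
import Pool.Agent.TVR.Cont

/-!
# TVR / WinPos: window bounds for a positive essential infimum, and the dichotomy

`wb_A`: by continuity there is `v ∈ [0, 1/2)` with `psi F (Iic r) θ t < exp (θ v t)` (`psi < exp (θ t/2)`; if `x < exp (θ t / 2)` then for `v` close to `1/2`
still `x < exp (θ v t)`; or via `ENNReal` order density / `Real.log`). `cont_right`: `b > r` with `psi F (Iio b) θ t < exp (θ v t)`. `ld` with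
`v' = 1/2`: `iid {η | ∃ y ∈ reach (Iio b) η {0} K, (1/2) K ≤ y} ≤ exp (θ t) exp (-(θ (1/2 - v) K))`. WinBound: given `y0`, `v0 : ℤ × ℤ`: if
`|v0.1| + |v0.2| ≠ K` the event is empty (`Stc`, length `K`, `tot = v0`); otherwise `|v0.1| ≥ K/2` or `|v0.2| ≥ K/2`, and `win_reach` or `win_reach2` bounds the
probability by the one of `ld` (monotonicity). Finally `exp (θ t - c' K) ≤ exp (θ t - c' √K)`, `c' = θ (1/2 - v) > 0`, because `√K ≤ K` for naturals `K`.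
`wb_B`: the same with `psi F (Iic r) θ t ≤ exp (θ (v+φ/3) t) < exp (θ (v + 2φ/3) t)` (`t ≥ 1`, `θ > 0`), `cont_right`, `ld` with `v' = v + φ`, `win_reach` only
(`(v+φ) K ≤ (tot w).1 = v0.1 ≤ |v0.1|`; the event is empty unless this holds).
`dichotomy`: if (A) fails, let `V = {v : ℝ | ∃ θ, 0 < θ ∧ θ ≤ 1 ∧ ∃ t, 0 < t ∧ psi F (Iic r) θ t ≤ ofReal (exp (θ * v * t))}`. `1 ∈ V` (`psi_le`), and every `v ∈ V` is
`≥ 1/2` (not (A)). `v* = sInf V`. First property: if `psi < exp (θ v* t)` then `psi ≤ exp (θ v t)` for some `v < v*` (continuity), `v ∈ V`, contradiction.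
Second: there is `v' ∈ V` with `v' < v* + φ`; `exp` is monotone.
-/

set_option autoImplicit false

namespace Pool.Agent.TVR

open Finset Pool.Agent.Helper46.Tor MeasureTheory
open scoped NNReal ENNReal

private theorem cts42 {θ : ℝ} {t : ℕ} {x : ℝ≥0∞} {v : ℝ}
    (h : x < ENNReal.ofReal (Real.exp (θ * v * t))) {l : ℝ} (hl : l < v) :
    ∃ v', l < v' ∧ v' < v ∧ x < ENNReal.ofReal (Real.exp (θ * v' * t)) := by
  have hc : Continuous fun v' : ℝ => ENNReal.ofReal (Real.exp (θ * v' * t)) :=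
    ENNReal.continuous_ofReal.comp (by fun_prop)
  have h1 : ∀ᶠ v' in nhds v, x < ENNReal.ofReal (Real.exp (θ * v' * t)) :=
    hc.continuousAt.eventually (lt_mem_nhds h)
  have h2 : ∀ᶠ v' in nhdsWithin v (Set.Iio v), x < ENNReal.ofReal (Real.exp (θ * v' * t)) :=
    h1.filter_mono nhdsWithin_le_nhds
  have h3 : ∀ᶠ v' in nhdsWithin v (Set.Iio v), v' ∈ Set.Ioo l v := Ioo_mem_nhdsLT hl
  obtain ⟨v', h4, h5⟩ := (h2.and h3).exists
  exact ⟨v', h5.1, h5.2, h4⟩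

private theorem exp42 {c C : ℝ} (hc : 0 ≤ c) (K : ℕ) :
    ENNReal.ofReal (Real.exp C * Real.exp (-(c * K))) ≤
      ENNReal.ofReal (Real.exp (C - c * Real.sqrt K)) := by
  rw [← Real.exp_add]
  refine ENNReal.ofReal_le_ofReal (Real.exp_le_exp.mpr ?_)
  have h1 : Real.sqrt K ≤ K := by
    rcases Nat.eq_zero_or_pos K with h | h
    · subst h
      simp
    · exact Real.sqrt_le_self_iff.mpr (Or.inr (by exact_mod_cast h))
  have h2 := mul_le_mul_of_nonneg_left h1 hc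
  linarith

theorem wb_A (F : Measure ℝ≥0) [IsProbabilityMeasure F] {r : ℝ≥0} {θ : ℝ} (hθ : 0 < θ) {t : ℕ}
    (ht : 0 < t) (h : psi F (Set.Iic r) θ t < ENNReal.ofReal (Real.exp (θ * (1 / 2) * t))) :
    ∃ b : ℝ≥0, r < b ∧ WB F Stc b := by
  obtain ⟨v, hv0, hv1, hv⟩ := cts42 h (show (0 : ℝ) < 1 / 2 by norm_num)
  obtain ⟨b, hb, hpb⟩ := cont_right F hθ r t hv
  have hld := ld (F := F) (S := Set.Iio b) measurableSet_Iio hθ.le hv0.le ht hpb.le (1 / 2)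
  have hc : 0 < θ * (1 / 2 - v) := mul_pos hθ (by linarith)
  refine ⟨b, hb, θ * (1 / 2 - v), θ * t, hc, ?_⟩
  intro n K _ hn y0 v0
  by_cases hK : |v0.1| + |v0.2| = (K : ℤ)
  · have hfin : iid OE F {η | ∃ y ∈ reach (Set.Iio b) η {0} K, 1 / 2 * (K : ℝ) ≤ y} ≤
        ENNReal.ofReal (Real.exp (θ * t - θ * (1 / 2 - v) * Real.sqrt K)) :=
      (hld K).trans (exp42 hc.le K)
    have hsub : {ω : Sym2 (ZMod n × ZMod n) → ℝ≥0 | ∃ w : List (Fin 4), w.length = K ∧ SA w ∧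
        tot w = v0 ∧ Stc w ∧ ∀ e ∈ edgesL n y0 w, ω e < b} ⊆
        {ω | ∃ w : List (Fin 4), w.length = K ∧ tot w = v0 ∧ Stc w ∧
          ∀ e ∈ edgesL n y0 w, ω e < b} := by
      rintro ω ⟨w, h1, -, h2, h3, h4⟩
      exact ⟨w, h1, h2, h3, h4⟩
    have hKr : (|v0.1| : ℝ) + |(v0.2 : ℝ)| = K := by exact_mod_cast hK
    refine (measure_mono hsub).trans ?_
    rcases le_total (1 / 2 * (K : ℝ)) |(v0.1 : ℝ)| with h5 | h5
    · refine (win_reach F hn b y0 v0).trans ((measure_mono ?_).trans hfin)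
      intro η hη
      refine ⟨|v0.1|, hη, ?_⟩
      push_cast
      exact h5
    · refine (win_reach2 F hn b y0 v0).trans ((measure_mono ?_).trans hfin)
      intro η hη
      refine ⟨|v0.2|, hη, ?_⟩
      push_cast
      linarith
  · have hempty : {ω : Sym2 (ZMod n × ZMod n) → ℝ≥0 | ∃ w : List (Fin 4), w.length = K ∧ SA w ∧
        tot w = v0 ∧ Stc w ∧ ∀ e ∈ edgesL n y0 w, ω e < b} = ∅ := by
      rw [Set.eq_empty_iff_forall_notMem]
      rintro ω ⟨w, h1, -, h2, h3, -⟩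
      apply hK
      rw [← h2, ← h1]
      exact h3
    rw [hempty, measure_empty]
    exact zero_le

theorem wb_B (F : Measure ℝ≥0) [IsProbabilityMeasure F] {r : ℝ≥0} {θ : ℝ} (hθ : 0 < θ) {t : ℕ}
    (ht : 0 < t) {v φ : ℝ} (hv : 0 ≤ v) (hφ : 0 < φ)
    (h : psi F (Set.Iic r) θ t ≤ ENNReal.ofReal (Real.exp (θ * (v + φ / 3) * t))) :
    ∃ b : ℝ≥0, r < b ∧ WB F (Fast (v + φ)) b := by
  have ht' : (0 : ℝ) < t := by exact_mod_cast ht
  have hlt : psi F (Set.Iic r) θ t < ENNReal.ofReal (Real.exp (θ * (v + 2 * φ / 3) * t)) := by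
    refine h.trans_lt ?_
    rw [ENNReal.ofReal_lt_ofReal_iff (Real.exp_pos _), Real.exp_lt_exp]
    have : 0 < θ * t * φ := by positivity
    nlinarith
  obtain ⟨b, hb, hpb⟩ := cont_right F hθ r t hlt
  have hld := ld (F := F) (S := Set.Iio b) measurableSet_Iio hθ.le (by positivity) ht hpb.le
    (v + φ)
  have hc : 0 < θ * (v + φ - (v + 2 * φ / 3)) := mul_pos hθ (by linarith)
  refine ⟨b, hb, θ * (v + φ - (v + 2 * φ / 3)), θ * t, hc, ?_⟩
  intro n K _ hn y0 v0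
  by_cases hK : (v + φ) * (K : ℝ) ≤ (v0.1 : ℝ)
  · have hfin : iid OE F {η | ∃ y ∈ reach (Set.Iio b) η {0} K, (v + φ) * (K : ℝ) ≤ y} ≤
        ENNReal.ofReal (Real.exp (θ * t - θ * (v + φ - (v + 2 * φ / 3)) * Real.sqrt K)) :=
      (hld K).trans (exp42 hc.le K)
    have hsub : {ω : Sym2 (ZMod n × ZMod n) → ℝ≥0 | ∃ w : List (Fin 4), w.length = K ∧ SA w ∧
        tot w = v0 ∧ Fast (v + φ) w ∧ ∀ e ∈ edgesL n y0 w, ω e < b} ⊆
        {ω | ∃ w : List (Fin 4), w.length = K ∧ tot w = v0 ∧ Stc w ∧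
          ∀ e ∈ edgesL n y0 w, ω e < b} := by
      rintro ω ⟨w, h1, -, h2, h3, h4⟩
      exact ⟨w, h1, h2, h3.1, h4⟩
    refine (measure_mono hsub).trans ?_
    refine (win_reach F hn b y0 v0).trans ((measure_mono ?_).trans hfin)
    intro η hη
    refine ⟨|v0.1|, hη, ?_⟩
    push_cast
    exact hK.trans (le_abs_self _)
  · have hempty : {ω : Sym2 (ZMod n × ZMod n) → ℝ≥0 | ∃ w : List (Fin 4), w.length = K ∧ SA w ∧
        tot w = v0 ∧ Fast (v + φ) w ∧ ∀ e ∈ edgesL n y0 w, ω e < b} = ∅ := by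
      rw [Set.eq_empty_iff_forall_notMem]
      rintro ω ⟨w, h1, -, h2, h3, -⟩
      apply hK
      rw [← h2, ← h1]
      exact h3.2
    rw [hempty, measure_empty]
    exact zero_le

theorem dichotomy (F : Measure ℝ≥0) [IsProbabilityMeasure F] (r : ℝ≥0) :
    (∃ θ : ℝ, 0 < θ ∧ ∃ t : ℕ, 0 < t ∧
      psi F (Set.Iic r) θ t < ENNReal.ofReal (Real.exp (θ * (1 / 2) * t))) ∨
    ∃ v : ℝ, 1 / 2 ≤ v ∧ v ≤ 1 ∧
      (∀ θ : ℝ, 0 < θ → θ ≤ 1 → ∀ t : ℕ, 0 < t →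
        ENNReal.ofReal (Real.exp (θ * v * t)) ≤ psi F (Set.Iic r) θ t) ∧
      ∀ φ : ℝ, 0 < φ → ∃ θ : ℝ, 0 < θ ∧ ∃ t : ℕ, 0 < t ∧
        psi F (Set.Iic r) θ t ≤ ENNReal.ofReal (Real.exp (θ * (v + φ) * t)) := by
  by_cases hA : ∃ θ : ℝ, 0 < θ ∧ ∃ t : ℕ, 0 < t ∧
      psi F (Set.Iic r) θ t < ENNReal.ofReal (Real.exp (θ * (1 / 2) * t))
  · exact Or.inl hA
  right
  push Not at hA
  set V : Set ℝ := {v | ∃ θ : ℝ, 0 < θ ∧ θ ≤ 1 ∧ ∃ t : ℕ, 0 < t ∧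
    psi F (Set.Iic r) θ t ≤ ENNReal.ofReal (Real.exp (θ * v * t))} with hV
  have h1V : (1 : ℝ) ∈ V := by
    refine ⟨1, one_pos, le_rfl, 1, one_pos, ?_⟩
    have := psi_le (F := F) (S := Set.Iic r) (θ := 1) zero_le_one 1
    simpa using this
  have hlow : ∀ v ∈ V, (1 / 2 : ℝ) ≤ v := by
    rintro v ⟨θ, hθ, -, t, ht, h⟩
    have h2 := (hA θ hθ t ht).trans h
    rw [ENNReal.ofReal_le_ofReal_iff (Real.exp_pos _).le, Real.exp_le_exp] at h2
    have ht' : (0 : ℝ) < t := by exact_mod_cast ht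
    have h3 : 0 < θ * t := mul_pos hθ ht'
    by_contra h4
    push Not at h4
    have h5 : θ * t * v < θ * t * (1 / 2) := mul_lt_mul_of_pos_left h4 h3
    linarith [mul_right_comm θ v (t : ℝ), mul_right_comm θ (1 / 2) (t : ℝ)]
  have hbdd : BddBelow V := ⟨1 / 2, hlow⟩
  refine ⟨sInf V, le_csInf ⟨1, h1V⟩ hlow, csInf_le hbdd h1V, ?_, ?_⟩
  · intro θ hθ hθ1 t ht
    by_contra h
    push Not at h
    obtain ⟨v, -, hv1, hv2⟩ := cts42 h (sub_one_lt (sInf V))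
    exact absurd (csInf_le hbdd (show v ∈ V from ⟨θ, hθ, hθ1, t, ht, hv2.le⟩)) (not_le.mpr hv1)
  · intro φ hφ
    obtain ⟨v', ⟨θ, hθ, -, t, ht, h⟩, hv'⟩ := exists_lt_of_csInf_lt (s := V) ⟨1, h1V⟩
      (show sInf V < sInf V + φ by linarith)
    refine ⟨θ, hθ, t, ht, h.trans (ENNReal.ofReal_le_ofReal (Real.exp_le_exp.mpr ?_))⟩
    gcongr

end Pool.Agent.TVR
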