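import Mathlib

/-!
# TVR / Law: proof of `mix_mp`

Measurability: `measurable_pi_iff`, each coordinate is `p.1 (ι b)` or `p.2 b`.
`map_eq`: use `iid_eq`. For a box `(s, t)`, with `s₁ = s.filter (· ∈ I)`, `s₂ = s.filter (· ∉ I)`:
the preimage of `Set.pi s t` is `(Set.pi (s₁.image ι) t') ×ˢ (Set.pi s₂ t)` where
`t' a = if h : ∃ b ∈ s, b ∈ I ∧ ι b = a then t h.choose else univ` (`h.choose = b` for `a = ι b`
by injectivity on `I`). `Measure.prod_prod`, `iid_box` twice, `Finset.prod_image` (injective on `s₁`),
`Finset.prod_filter_mul_prod_filter_not`.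
-/

set_option autoImplicit false

namespace Pool.Agent.TVR

open MeasureTheory Set
open scoped NNReal ENNReal

/-- independent weights with law `F` -/
noncomputable def iid (A : Type) (F : Measure ℝ≥0) [IsProbabilityMeasure F] :
    Measure (A → ℝ≥0) := Measure.infinitePi (fun _ : A => F)

variable {A B : Type} {F : Measure ℝ≥0} [IsProbabilityMeasure F]

instance : IsProbabilityMeasure (iid A F) := by
  unfold iid
  infer_instance

theorem iid_box (s : Finset A) (t : A → Set ℝ≥0) (ht : ∀ i ∈ s, MeasurableSet (t i)) :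
    iid A F (Set.pi s t) = ∏ i ∈ s, F (t i) := by
  unfold iid
  exact Measure.infinitePi_pi _ ht

theorem iid_eq {m : Measure (A → ℝ≥0)}
    (h : ∀ (s : Finset A) (t : A → Set ℝ≥0), (∀ i, MeasurableSet (t i)) →
      m (Set.pi s t) = ∏ i ∈ s, F (t i)) : m = iid A F := by
  unfold iid
  exact Measure.eq_infinitePi _ (fun s t ht => h s t ht)

theorem iid_pi [Fintype A] : iid A F = Measure.pi (fun _ : A => F) := by
  unfold iid
  exact Measure.infinitePi_eq_pi _

open Classical in
/-- fresh weights outside of `I`, weights of `A` on `I` -/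
noncomputable def mixf (I : Set B) (ι : B → A) (p : (A → ℝ≥0) × (B → ℝ≥0)) : B → ℝ≥0 :=
  fun b => if b ∈ I then p.1 (ι b) else p.2 b

/-- the relabelling lemma -/
theorem mix_mp (I : Set B) (ι : B → A) (hι : InjOn ι I) :
    MeasurePreserving (mixf I ι) ((iid A F).prod (iid B F)) (iid B F) := by
  classical
  have hm : Measurable (mixf I ι : (A → ℝ≥0) × (B → ℝ≥0) → B → ℝ≥0) := by
    refine measurable_pi_iff.2 fun b => ?_
    unfold mixf
    by_cases hb : b ∈ I
    · simp only [hb, if_true]
      exact (measurable_pi_apply _).comp measurable_fst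
    · simp only [hb, if_false]
      exact (measurable_pi_apply _).comp measurable_snd
  refine ⟨hm, iid_eq fun s t ht => ?_⟩
  rw [Measure.map_apply hm (MeasurableSet.pi s.countable_toSet (fun i _ => ht i))]
  set t' : A → Set ℝ≥0 := fun a => ⋂ b ∈ s.filter (· ∈ I), ⋂ (_ : ι b = a), t b with ht'
  have ht'm : ∀ a, MeasurableSet (t' a) := fun a =>
    Finset.measurableSet_biInter _ fun b _ => MeasurableSet.iInter fun _ => ht b
  have ht'b : ∀ b ∈ s.filter (· ∈ I), t' (ι b) = t b := by
    intro b hb
    apply Subset.antisymm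
    · intro x hx
      rw [ht'] at hx
      simp only [mem_iInter] at hx
      exact hx b hb rfl
    · intro x hx
      rw [ht']
      simp only [mem_iInter]
      intro c hc hcb
      have : c = b := hι (Finset.mem_filter.1 hc).2 (Finset.mem_filter.1 hb).2 hcb
      rw [this]
      exact hx
  have hpre : (mixf I ι : (A → ℝ≥0) × (B → ℝ≥0) → B → ℝ≥0) ⁻¹' (Set.pi s t) =
      (Set.pi ((s.filter (· ∈ I)).image ι : Finset A) t') ×ˢ
        (Set.pi (s.filter (· ∉ I) : Finset B) t) := by
    ext p
    simp only [mem_preimage, mem_prod, Set.mem_pi]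
    constructor
    · intro h
      constructor
      · intro a ha
        obtain ⟨b, hb, rfl⟩ := Finset.mem_image.1 (Finset.mem_coe.1 ha)
        rw [ht'b b hb]
        have h1 := h b (Finset.mem_coe.2 (Finset.mem_filter.1 hb).1)
        unfold mixf at h1
        rwa [if_pos (Finset.mem_filter.1 hb).2] at h1
      · intro b hb
        have hb' := Finset.mem_filter.1 (Finset.mem_coe.1 hb)
        have h1 := h b (Finset.mem_coe.2 hb'.1)
        unfold mixf at h1
        rwa [if_neg hb'.2] at h1
    · rintro ⟨h1, h2⟩ b hb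
      unfold mixf
      by_cases hbI : b ∈ I
      · rw [if_pos hbI]
        have hb' : b ∈ s.filter (· ∈ I) := Finset.mem_filter.2 ⟨Finset.mem_coe.1 hb, hbI⟩
        have h3 := h1 (ι b) (Finset.mem_coe.2 (Finset.mem_image_of_mem ι hb'))
        rwa [ht'b b hb'] at h3
      · rw [if_neg hbI]
        exact h2 b (Finset.mem_coe.2 (Finset.mem_filter.2 ⟨Finset.mem_coe.1 hb, hbI⟩))
  rw [hpre, Measure.prod_prod, iid_box _ _ (fun i _ => ht'm i), iid_box _ _ (fun i _ => ht i),
    Finset.prod_image (fun b hb c hc hbc => hι (Finset.mem_filter.1 hb).2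
      (Finset.mem_filter.1 hc).2 hbc),
    Finset.prod_congr rfl (fun b hb => by rw [ht'b b hb]),
    Finset.prod_filter_mul_prod_filter_not]

end Pool.Agent.TVR
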