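import Pool.Agent.TVR.Win
import Pool.Agent.TVR.Law

/-!
# TVR / BDefs: definitions for the adaptive lowering in blocks

Simple lemmas: `bx_rl_inj`: `v = bx a v + (rl a v)` in `(ZMod n)^2`. `least_exists`: existence of a minimiser
(`exists_min` with `cntW`, `costL_eq_count`), then `Function.argminOn (rankW n)` as in `exists_geo`.
`least_SA`: `geo_SA` (apply it with the constant label function, or copy its proof). `T_eq_least`: `T_eq`, `T_le`, `T_attained`.
`measurableSet_least`: `Wind n` is countable; `ω ↦ costL n ω x w` is measurable (a finite sum of coordinates).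
-/

set_option autoImplicit false

namespace Pool.Agent.TVR

open Finset Pool.Agent.Helper46.Tor MeasureTheory
open scoped NNReal ENNReal

variable {n : ℕ}

/-- real cost of a word in the environment `ω` -/
noncomputable def cw (n : ℕ) (ω : Sym2 (ZMod n × ZMod n) → ℝ≥0) (x : ZMod n × ZMod n)
    (w : List (Fin 4)) : ℝ := costL n (fun e => (ω e : ℝ)) x w

/-- `g` is the minimiser of least rank -/
def Least (n : ℕ) [NeZero n] (ω : Sym2 (ZMod n × ZMod n) → ℝ≥0) (g : Wind n) : Prop :=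
  (∀ g' : Wind n, cw n ω g.1.1 g.1.2 ≤ cw n ω g'.1.1 g'.1.2) ∧
  ∀ g' : Wind n, (∀ g'' : Wind n, cw n ω g'.1.1 g'.1.2 ≤ cw n ω g''.1.1 g''.1.2) →
    rankW n g ≤ rankW n g'

theorem least_exists (n : ℕ) [NeZero n] (ω : Sym2 (ZMod n × ZMod n) → ℝ≥0) :
    ∃ g, Least n ω g := by
  obtain ⟨g0, hg0⟩ : ∃ g0 : Wind n, ∀ g' : Wind n,
      cw n ω g0.1.1 g0.1.2 ≤ cw n ω g'.1.1 g'.1.2 := by
    obtain ⟨g, hg⟩ := exists_min (cntW n) (fun e => (ω e : ℝ)) (fun e => (ω e).2)
    refine ⟨g, fun g' => ?_⟩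
    unfold cw
    rw [costL_eq_count, costL_eq_count]
    exact hg g'
  let S : Set (Wind n) := {g | ∀ g' : Wind n, cw n ω g.1.1 g.1.2 ≤ cw n ω g'.1.1 g'.1.2}
  have hS : S.Nonempty := ⟨g0, hg0⟩
  exact ⟨Function.argminOn (rankW n) S hS, Function.argminOn_mem (rankW n) S hS,
    fun g' hg' => Function.argminOn_le (rankW n) S hg'⟩

theorem least_unique {n : ℕ} [NeZero n] {ω : Sym2 (ZMod n × ZMod n) → ℝ≥0} {g g' : Wind n}
    (h : Least n ω g) (h' : Least n ω g') : g = g' := by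
  exact rankW_injective n (le_antisymm (h.2 g' h'.1) (h'.2 g h.1))

theorem least_SA {n : ℕ} [NeZero n] {ω : Sym2 (ZMod n × ZMod n) → ℝ≥0} {g : Wind n}
    (h : Least n ω g) : SA g.1.2 := by
  apply geo_SA n (fun e _ => (ω e : ℝ)) (fun e _ => (ω e).2) (fun _ => 0) g
  · intro g'
    rw [cst_eq_costL, cst_eq_costL]
    exact h.1 g'
  · intro g' hg'
    apply h.2
    intro g''
    have := hg' g''
    rw [cst_eq_costL, cst_eq_costL] at this
    exact this

theorem T_eq_least {n : ℕ} [NeZero n] {ω : Sym2 (ZMod n × ZMod n) → ℝ≥0} {g : Wind n}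
    (h : Least n ω g) : T n ω = cw n ω g.1.1 g.1.2 := by
  obtain ⟨g0, hg0⟩ := T_attained n ω
  refine le_antisymm (T_le n ω g) ?_
  rw [hg0]
  exact h.1 g0

theorem T_le_cw {n : ℕ} [NeZero n] (ω : Sym2 (ZMod n × ZMod n) → ℝ≥0) (g : Wind n) :
    T n ω ≤ cw n ω g.1.1 g.1.2 := by
  exact T_le n ω g

theorem measurable_cw (n : ℕ) (x : ZMod n × ZMod n) (w : List (Fin 4)) :
    Measurable fun ω : Sym2 (ZMod n × ZMod n) → ℝ≥0 => cw n ω x w := by
  unfold cw costL
  generalize edgesL n x w = l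
  induction l with
  | nil =>
    simp only [List.map_nil, List.sum_nil]
    exact measurable_const
  | cons e l ih =>
    simp only [List.map_cons, List.sum_cons]
    exact ((measurable_pi_apply e).coe_nnreal_real).add ih

theorem measurableSet_least (n : ℕ) [NeZero n] (g : Wind n) :
    MeasurableSet {ω : Sym2 (ZMod n × ZMod n) → ℝ≥0 | Least n ω g} := by
  have h1 : ∀ g g' : Wind n, MeasurableSet {ω : Sym2 (ZMod n × ZMod n) → ℝ≥0 |
      cw n ω g.1.1 g.1.2 ≤ cw n ω g'.1.1 g'.1.2} := fun g g' =>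
    measurableSet_le (measurable_cw n _ _) (measurable_cw n _ _)
  have h2 : ∀ g : Wind n, MeasurableSet {ω : Sym2 (ZMod n × ZMod n) → ℝ≥0 |
      ∀ g' : Wind n, cw n ω g.1.1 g.1.2 ≤ cw n ω g'.1.1 g'.1.2} := by
    intro g
    rw [Set.ofPred_forall]
    exact MeasurableSet.iInter fun g' => h1 g g'
  have h3 : {ω : Sym2 (ZMod n × ZMod n) → ℝ≥0 | Least n ω g} =
      {ω : Sym2 (ZMod n × ZMod n) → ℝ≥0 |
        ∀ g' : Wind n, cw n ω g.1.1 g.1.2 ≤ cw n ω g'.1.1 g'.1.2} ∩
      ⋂ g' : Wind n, {ω : Sym2 (ZMod n × ZMod n) → ℝ≥0 |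
        (∀ g'' : Wind n, cw n ω g'.1.1 g'.1.2 ≤ cw n ω g''.1.1 g''.1.2) →
          rankW n g ≤ rankW n g'} := by
    ext ω
    rw [Set.mem_inter_iff, Set.mem_iInter]
    exact Iff.rfl
  rw [h3]
  refine (h2 g).inter (MeasurableSet.iInter fun g' => ?_)
  by_cases hr : rankW n g ≤ rankW n g'
  · have h4 : {ω : Sym2 (ZMod n × ZMod n) → ℝ≥0 |
        (∀ g'' : Wind n, cw n ω g'.1.1 g'.1.2 ≤ cw n ω g''.1.1 g''.1.2) →
          rankW n g ≤ rankW n g'} = Set.univ := by
      ext ω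
      exact ⟨fun _ => Set.mem_univ _, fun _ _ => hr⟩
    rw [h4]
    exact MeasurableSet.univ
  · have h4 : {ω : Sym2 (ZMod n × ZMod n) → ℝ≥0 |
        (∀ g'' : Wind n, cw n ω g'.1.1 g'.1.2 ≤ cw n ω g''.1.1 g''.1.2) →
          rankW n g ≤ rankW n g'} = {ω : Sym2 (ZMod n × ZMod n) → ℝ≥0 |
        (∀ g'' : Wind n, cw n ω g'.1.1 g'.1.2 ≤ cw n ω g''.1.1 g''.1.2)}ᶜ := by
      ext ω
      exact ⟨fun h h' => hr (h h'), fun h h' => absurd h' h⟩
    rw [h4]
    exact (h2 g').compl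

instance (n : ℕ) [NeZero n] : Countable (Wind n) := by
  unfold Wind
  infer_instance

/-- `v` is at distance at most `K` from `y` -/
def Near (n K : ℕ) (y v : ZMod n × ZMod n) : Prop :=
  ∃ z : ℤ × ℤ, |z.1| + |z.2| ≤ K ∧ v = y + proj n z

/-- the corner of the box of `v`, for the partition into boxes of side `D` shifted by `a` -/
def bx (n D : ℕ) (a v : ZMod n × ZMod n) : ZMod n × ZMod n :=
  (v.1 - (((v.1 - a.1).val % D : ℕ) : ZMod n), v.2 - (((v.2 - a.2).val % D : ℕ) : ZMod n))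

/-- the position of `v` in its box -/
def rl (n D : ℕ) [NeZero D] (a v : ZMod n × ZMod n) : Fin D × Fin D :=
  (Fin.ofNat D (v.1 - a.1).val, Fin.ofNat D (v.2 - a.2).val)

/-- the `K`-neighbourhood of `v` is contained in the box of `v` -/
def InBox (n K D : ℕ) (a v : ZMod n × ZMod n) : Prop :=
  ∀ u, Near n K v u → bx n D a u = bx n D a v

theorem bx_rl_inj {n D : ℕ} [NeZero D] (a : ZMod n × ZMod n) {u v : ZMod n × ZMod n}
    (h1 : bx n D a u = bx n D a v) (h2 : rl n D a u = rl n D a v) : u = v := by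
  have h3 := congrArg Prod.fst h1
  have h4 := congrArg Prod.snd h1
  have h5 := congrArg (fun q => (q.1 : ℕ)) h2
  have h6 := congrArg (fun q => (q.2 : ℕ)) h2
  simp only [bx, rl, Fin.val_ofNat] at h3 h4 h5 h6
  rw [h5] at h3
  rw [h6] at h4
  exact Prod.ext (sub_left_injective h3) (sub_left_injective h4)

/-- all vertices of a word are within distance `length` of its start -/
theorem near_take {n : ℕ} (x : ZMod n × ZMod n) (w : List (Fin 4)) {K i : ℕ} (hw : w.length ≤ K) :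
    Near n K x (x + proj n (tot (w.take i))) := by
  refine ⟨tot (w.take i), ?_, rfl⟩
  have h1 := tot_abs (w.take i)
  have h2 : ((w.take i).length : ℤ) ≤ K := by
    rw [List.length_take]
    exact_mod_cast (min_le_right _ _).trans hw
  exact h1.trans h2

/-- both end points of an edge of a word are within distance `length` of its start -/
theorem near_edge {n : ℕ} (x : ZMod n × ZMod n) (w : List (Fin 4)) {K : ℕ} (hw : w.length ≤ K)
    (e : Sym2 (ZMod n × ZMod n)) (he : e ∈ edgesL n x w) : ∀ v ∈ e, Near n K x v := by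
  intro v hv
  obtain ⟨i, _, rfl⟩ := edgesL_mem n x w e he v hv
  exact near_take x w hw

open Classical in
/-- boxes that contain a window (at any position of the word) which is not perfect, well inside of the box -/
noncomputable def Sbox (n K D : ℕ) [NeZero n] (Cond : List (Fin 4) → Prop) (b : ℝ≥0)
    (a : ZMod n × ZMod n) (ω : Sym2 (ZMod n × ZMod n) → ℝ≥0) (x : ZMod n × ZMod n)
    (w : List (Fin 4)) : Finset (ZMod n × ZMod n) :=
  univ.filter fun β => ∃ i, i + K ≤ w.length ∧ InBox n K D a (x + proj n (tot (w.take i))) ∧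
    bx n D a (x + proj n (tot (w.take i))) = β ∧
    ¬ Pft n Cond b ω (x + proj n (tot (w.take i))) ((w.drop i).take K)

/-- A window of length `K` that is not perfect can be improved by `c1` when all weights near it are
lowered below `a0` (in environments with weights `≥ r`). -/
def Impr (K : ℕ) (Cond : List (Fin 4) → Prop) (r b a0 : ℝ≥0) (c1 : ℝ) : Prop :=
  ∀ (n : ℕ) (ω ω' : Sym2 (ZMod n × ZMod n) → ℝ≥0) (y : ZMod n × ZMod n) (w : List (Fin 4)),
    (∀ e, r ≤ ω e) → (∀ e, ω' e ≤ ω e) → w.length = K → ¬ Pft n Cond b ω y w →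
    (∀ e : Sym2 (ZMod n × ZMod n), (∀ v ∈ e, Near n K y v) → ω' e ≤ a0) →
    ∃ w' : List (Fin 4), tot w' = tot w ∧ cw n ω' y w' ≤ cw n ω y w - c1

/-- the good event: the minimiser is short and has a segment with many imperfect windows -/
def GoodSeg (n K : ℕ) [NeZero n] (Cond : List (Fin 4) → Prop) (r b : ℝ≥0) (C η : ℝ)
    (ω : Sym2 (ZMod n × ZMod n) → ℝ≥0) : Prop :=
  (∀ e, r ≤ ω e) ∧ ∀ g : Wind n, Least n ω g → (g.1.2.length : ℝ) ≤ C * n ∧
    ∃ i0 M : ℕ, M * K < n ∧ i0 + M * K ≤ g.1.2.length ∧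
      η * n ≤ (M : ℝ) - cPft n K Cond b ω (g.1.1 + proj n (tot (g.1.2.take i0)))
        ((g.1.2.drop i0).take (M * K)) M

end Pool.Agent.TVR
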