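import Pool.Agent.TVR.Skel
import Pool.Agent.TVR.BDefs

/-!
# TVR / WDefs: staircases, fast staircases, the common form of the window bounds
-/

set_option autoImplicit false

namespace Pool.Agent.TVR

open Finset Pool.Agent.Helper46.Tor MeasureTheory
open scoped NNReal ENNReal

/-- staircase: a word that uses only letters of one quadrant (a shortest path) -/
def Stc (w : List (Fin 4)) : Prop := |(tot w).1| + |(tot w).2| = w.length

/-- a staircase with horizontal speed at least `v` -/
def Fast (v : ℝ) (w : List (Fin 4)) : Prop := Stc w ∧ v * w.length ≤ ((tot w).1 : ℝ)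

/-- perfect windows of length `K` with `Cond` are exponentially unlikely in `√K` -/
def WB (F : Measure ℝ≥0) (Cond : List (Fin 4) → Prop) (b : ℝ≥0) : Prop :=
  ∃ c C : ℝ, 0 < c ∧ ∀ (n K : ℕ) [NeZero n], 2 * K < n →
    WinBound n K F Cond b (Real.exp (C - c * Real.sqrt K))

end Pool.Agent.TVR
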