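import Pool.Agent.TVR.Xfer
import Pool.Agent.TVR.WDefs
import Pool.Agent.TVR.G.Fin

/-!
# TVR / WinZero: window bound when the weights below `b` do not percolate

Let `q = (F (Iio b)).toReal < 1/2 ≤ pc 2` (`G.half_le_pc`), so `th 2 q k ≤ A exp (-c k)` for all `k` (`RC.decay_of_lt_pc`).
1. `far_eq`: `iid (Edge 2) F {ω | far {e | ω e < b} 0 k} = PE 2 unif {u | far {e | u e < q} 0 k}`. Both sides are the probability of
   `{s : Edge 2 → Prop/Bool | far {e | s e} 0 k}` under the law of the family of the indicators, and these laws agree: both are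
   `Measure.infinitePi` of the Bernoulli law `q` (`Measure.eq_infinitePi` on boxes, the preimage of a box is a box; `PE d μ` is `Measure.infinitePi (fun _ => μ)`,
   `F (Iio b) = ofReal q`, `unif (Iio q) = ofReal q` for `0 ≤ q ≤ 1`; `Measure.infinitePi_pi`). Measurability of `{far ..}`: see CMeas.lean of RC
   (or: it is a countable union of finite intersections of the events `s e`).
2. Torus: fix `y0`, `v`, `2K < n`. `ι : Edge 2 → Sym2 V`, `e ↦ s(y0 + proj n (src e 0, src e 1), y0 + proj n (tgt e 0, tgt e 1))` is injective on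
   `I = {e | both end points have coordinates in [-K, K]}` (differences of coordinates are `≤ 2K < n`; as in `emb_inj`). Let `k = ⌊√K / 2⌋` (or any
   `k` with `(2k - 1)^2 < K + 1` and `k ≥ √K/2 - 1`). `E = {ω | y reached from 0 with n ≤ sn, inside the box}`: use
   `E = {η | far {e | e ∈ I ∧ η e < b} 0 k}`: it depends only on the coordinates in `I`, `E ⊆ {far {e | η e < b} 0 k}`.
   If `w` is self-avoiding of length `K` with all weights `< b`, the `K+1` points `tot (w.take i)` are distinct; at most `(2k-1)^2 < K+1` of them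
   have `sn ≤ k - 1` (as elements of `Site 2`), so one has `k ≤ sn`, and the path up to it connects (`Relation.ReflTransGen`) inside `I` through edges with
   `ω (ι e) < b`. So the event of `WinBound` is contained in `{ω | (fun e => ω (ι e)) ∈ E}`; `transfer`.
3. `A exp (-c k) ≤ A exp (c - c √K / 2) = exp (C - c' √K)`, `C = log A + c`, `c' = c/2`.
-/

set_option autoImplicit false

namespace Pool.Agent.TVR

open Finset Pool.Agent.Helper46.Tor MeasureTheory
open scoped NNReal ENNReal

namespace WZ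

open RC Pool.Agent.Helper3.Anderson Pool.Agent.Helper3.Crit

/-- connected to distance `k` by the edges of a Boolean configuration -/
def FB (k : ℕ) : Set (Edge 2 → Bool) := {s | far {e | s e = true} 0 k}

theorem measurableSet_far {Ω : Type*} [MeasurableSpace Ω] {σ : Ω → Set (Edge 2)}
    (h : ∀ e, MeasurableSet {ω | e ∈ σ ω}) (k : ℕ) : MeasurableSet {ω | far (σ ω) 0 k} := by
  have : {ω | far (σ ω) 0 k} = ⋃ y : Site 2, ({ω | Conn (σ ω) 0 y} ∩
      {_ω : Ω | k ≤ sn (y - 0)}) := by
    ext ω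
    simp only [far, Set.mem_iUnion, Set.mem_inter_iff]
    constructor
    · rintro ⟨y, h1, h2⟩
      exact ⟨y, h2, h1⟩
    · rintro ⟨y, h1, h2⟩
      exact ⟨y, h2, h1⟩
  rw [this]
  exact MeasurableSet.iUnion fun y => (measurableSet_Conn h 0 y).inter (MeasurableSet.const _)

theorem measurableSet_FB (k : ℕ) : MeasurableSet (FB k) := by
  refine measurableSet_far (σ := fun s : Edge 2 → Bool => {e | s e = true}) (fun e => ?_) k
  have h : Measurable fun s : Edge 2 → Bool => s e := measurable_pi_apply e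
  exact h (measurableSet_singleton true)

theorem unif_Iio {p : ℝ} (hp1 : p ≤ 1) : unif (Set.Iio p) = ENNReal.ofReal p := by
  unfold unif
  rw [Measure.restrict_apply measurableSet_Iio]
  have : Set.Iio p ∩ Set.Icc (0 : ℝ) 1 = Set.Ico 0 p := by
    ext t
    simp only [Set.mem_inter_iff, Set.mem_Iio, Set.mem_Icc, Set.mem_Ico]
    constructor
    · rintro ⟨h1, h2, h3⟩
      exact ⟨h2, h1⟩
    · rintro ⟨h1, h2⟩
      exact ⟨h2, h1, by linarith⟩
  rw [this, Real.volume_Ico, sub_zero]

theorem bool_eq {μ ν : Measure Bool} [IsProbabilityMeasure μ] [IsProbabilityMeasure ν]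
    (h : μ {true} = ν {true}) : μ = ν := by
  refine Measure.ext_of_singleton fun a => ?_
  cases a
  swap
  · exact h
  · have h1 : ({false} : Set Bool) = {true}ᶜ := by
      ext x; cases x <;> simp
    rw [h1, prob_compl_eq_one_sub (measurableSet_singleton true),
      prob_compl_eq_one_sub (measurableSet_singleton true), h]

theorem far_eq (F : Measure ℝ≥0) [IsProbabilityMeasure F] (b : ℝ≥0) (k : ℕ) {q : ℝ}
    (hq1 : q ≤ 1) (hq : F (Set.Iio b) = ENNReal.ofReal q) :
    iid (Edge 2) F {η | far {e | η e < b} 0 k} = PE 2 unif {u | far {e | u e < q} 0 k} := by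
  classical
  have m1 : Measurable (fun t : ℝ≥0 => decide (t < b)) :=
    measurable_to_bool (by
      have : (fun t : ℝ≥0 => decide (t < b)) ⁻¹' {true} = Set.Iio b := by ext t; simp
      rw [this]; exact measurableSet_Iio)
  have m2 : Measurable (fun t : ℝ => decide (t < q)) :=
    measurable_to_bool (by
      have : (fun t : ℝ => decide (t < q)) ⁻¹' {true} = Set.Iio q := by ext t; simp
      rw [this]; exact measurableSet_Iio)
  have e1 : {η : Edge 2 → ℝ≥0 | far {e | η e < b} 0 k} =
      (fun (η : Edge 2 → ℝ≥0) e => decide (η e < b)) ⁻¹' FB k := by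
    ext η
    simp [FB]
  have e2 : {u : Edge 2 → ℝ | far {e | u e < q} 0 k} =
      (fun (u : Edge 2 → ℝ) e => decide (u e < q)) ⁻¹' FB k := by
    ext u
    simp [FB]
  have h1 := Measure.infinitePi_map_pi (μ := fun _ : Edge 2 => F)
    (f := fun _ (t : ℝ≥0) => decide (t < b)) (fun _ => m1)
  have h2 := Measure.infinitePi_map_pi (μ := fun _ : Edge 2 => unif)
    (f := fun _ (t : ℝ) => decide (t < q)) (fun _ => m2)
  have hp1 : IsProbabilityMeasure (F.map fun t : ℝ≥0 => decide (t < b)) :=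
    Measure.isProbabilityMeasure_map m1.aemeasurable
  have hp2 : IsProbabilityMeasure (unif.map fun t : ℝ => decide (t < q)) :=
    Measure.isProbabilityMeasure_map m2.aemeasurable
  have h3 : F.map (fun t : ℝ≥0 => decide (t < b)) = unif.map (fun t : ℝ => decide (t < q)) := by
    apply bool_eq
    rw [Measure.map_apply m1 (measurableSet_singleton true),
      Measure.map_apply m2 (measurableSet_singleton true)]
    have a1 : (fun t : ℝ≥0 => decide (t < b)) ⁻¹' {true} = Set.Iio b := by ext t; simp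
    have a2 : (fun t : ℝ => decide (t < q)) ⁻¹' {true} = Set.Iio q := by ext t; simp
    rw [a1, a2, unif_Iio hq1, hq]
  have M1 : Measurable (fun (η : Edge 2 → ℝ≥0) (e : Edge 2) => decide (η e < b)) :=
    measurable_pi_iff.2 fun e => m1.comp (measurable_pi_apply e)
  have M2 : Measurable (fun (u : Edge 2 → ℝ) (e : Edge 2) => decide (u e < q)) :=
    measurable_pi_iff.2 fun e => m2.comp (measurable_pi_apply e)
  rw [e1, e2, ← Measure.map_apply M1 (measurableSet_FB k),
    ← Measure.map_apply M2 (measurableSet_FB k)]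
  unfold iid PE
  rw [h1, h2]
  simp only [h3]

/-- the site of a point of the lattice -/
def st (z : ℤ × ℤ) : Site 2 := ![z.1, z.2]

theorem st_0 (z : ℤ × ℤ) : st z 0 = z.1 := rfl
theorem st_1 (z : ℤ × ℤ) : st z 1 = z.2 := rfl

theorem st_inj {z z' : ℤ × ℤ} (h : st z = st z') : z = z' :=
  Prod.ext (congrFun h 0) (congrFun h 1)

/-- the torus vertex of a site -/
def tv (n : ℕ) (y : ZMod n × ZMod n) (x : Site 2) : ZMod n × ZMod n := y + proj n (x 0, x 1)

theorem tv_st (n : ℕ) (y : ZMod n × ZMod n) (z : ℤ × ℤ) : tv n y (st z) = y + proj n z := rfl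

/-- the torus edge of an edge -/
def te (n : ℕ) (y : ZMod n × ZMod n) (e : Edge 2) : Sym2 (ZMod n × ZMod n) :=
  s(tv n y (src e), tv n y (tgt e))

/-- the edges of the box of radius `K` -/
def EI (K : ℕ) : Set (Edge 2) := {e | sn (src e) ≤ K ∧ sn (tgt e) ≤ K}

theorem tv_inj {n K : ℕ} (hK : 2 * K < n) (y : ZMod n × ZMod n) {u v : Site 2} (hu : sn u ≤ K)
    (hv : sn v ≤ K) (h : tv n y u = tv n y v) : u = v := by
  unfold tv at h
  have h1 := add_left_cancel h
  have a1 : ((u 0 : ℤ) : ZMod n) = ((v 0 : ℤ) : ZMod n) := congrArg Prod.fst h1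
  have a2 : ((u 1 : ℤ) : ZMod n) = ((v 1 : ℤ) : ZMod n) := congrArg Prod.snd h1
  have key : ∀ i : Fin 2, ((u i : ℤ) : ZMod n) = ((v i : ℤ) : ZMod n) → u i = v i := by
    intro i hi
    have b1 := sn_le_iff.1 hu i
    have b2 := sn_le_iff.1 hv i
    have h2 : ((u i - v i : ℤ) : ZMod n) = 0 := by
      push_cast
      rw [hi, sub_self]
    rw [ZMod.intCast_zmod_eq_zero_iff_dvd] at h2
    have h3 : u i - v i = 0 := by
      apply Int.eq_zero_of_abs_lt_dvd h2
      rw [abs_lt]
      constructor <;> omega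
    omega
  funext i
  fin_cases i
  · exact key 0 a1
  · exact key 1 a2

theorem te_inj {n K : ℕ} (hK : 2 * K < n) (y : ZMod n × ZMod n) : Set.InjOn (te n y) (EI K) := by
  rintro e ⟨h1, h2⟩ e' ⟨h3, h4⟩ h
  unfold te at h
  rw [Sym2.eq_iff] at h
  rcases h with ⟨h5, h6⟩ | ⟨h5, h6⟩
  · have a1 := tv_inj hK y h1 h3 h5
    have a2 := tv_inj hK y h2 h4 h6
    unfold src at a1
    unfold tgt at a2
    rw [a1] at a2
    have a3 := add_left_cancel a2
    have a4 : e.2 = e'.2 := by
      by_contra hne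
      have := congrFun a3 e.2
      rw [Pi.single_eq_same, Pi.single_eq_of_ne hne] at this
      exact one_ne_zero this
    exact Prod.ext a1 a4
  · exfalso
    have a1 := tv_inj hK y h1 h4 h5
    have a2 := tv_inj hK y h2 h3 h6
    unfold src tgt at a1 a2
    have a3 := congrFun a1 e.2
    have a4 := congrFun a2 e.2
    simp only [Pi.add_apply, Pi.single_eq_same] at a3 a4
    have a5 : (0 : ℤ) ≤ (Pi.single e'.2 (1 : ℤ) : Site 2) e.2 := by
      by_cases h : e.2 = e'.2
      · rw [h, Pi.single_eq_same]; exact zero_le_one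
      · rw [Pi.single_eq_of_ne h]
    omega

/-- the event in the box -/
def EE (K k : ℕ) (b : ℝ≥0) : Set (Edge 2 → ℝ≥0) := {η | far {e | e ∈ EI K ∧ η e < b} 0 k}

theorem measurableSet_EE (K k : ℕ) (b : ℝ≥0) : MeasurableSet (EE K k b) := by
  refine measurableSet_far (σ := fun η : Edge 2 → ℝ≥0 => {e | e ∈ EI K ∧ η e < b})
    (fun e => ?_) k
  have h : Measurable fun η : Edge 2 → ℝ≥0 => η e := measurable_pi_apply e
  have h2 : MeasurableSet {η : Edge 2 → ℝ≥0 | η e < b} := measurableSet_lt h measurable_const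
  exact (MeasurableSet.const (e ∈ EI K)).inter h2

theorem far_mono {σ σ' : Set (Edge 2)} (h : σ ⊆ σ') {x : Site 2} {k : ℕ} (hf : far σ x k) :
    far σ' x k := by
  obtain ⟨y, hy, hc⟩ := hf
  exact ⟨y, hy, Conn.mono h hc⟩

theorem st_add (z z' : ℤ × ℤ) : st (z + z') = st z + st z' := by
  funext i
  fin_cases i <;> rfl

theorem sn_st_le {z : ℤ × ℤ} {K : ℕ} (h : |z.1| + |z.2| ≤ K) : sn (st z) ≤ K := by
  rw [sn_le_iff]
  have a1 := abs_nonneg z.1
  have a2 := abs_nonneg z.2
  intro i
  fin_cases i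
  · change (z.1).natAbs ≤ K
    have : |z.1| ≤ K := by linarith
    rw [Int.abs_eq_natAbs] at this
    exact_mod_cast this
  · change (z.2).natAbs ≤ K
    have : |z.2| ≤ K := by linarith
    rw [Int.abs_eq_natAbs] at this
    exact_mod_cast this

/-- every letter is an edge -/
theorem edge_of_letter (n : ℕ) (y : ZMod n × ZMod n) (z : ℤ × ℤ) (s : Fin 4) :
    ∃ e : Edge 2, ((src e = st z ∧ tgt e = st (z + vec s)) ∨
      (src e = st (z + vec s) ∧ tgt e = st z)) ∧
      te n y e = s(y + proj n z, y + proj n z + proj n (vec s)) := by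
  have hadd : y + proj n z + proj n (vec s) = y + proj n (z + vec s) := by
    rw [proj_add, add_assoc]
  rw [hadd, ← tv_st, ← tv_st]
  have key : ∀ e : Edge 2, ((src e = st z ∧ tgt e = st (z + vec s)) ∨
      (src e = st (z + vec s) ∧ tgt e = st z)) →
      te n y e = s(tv n y (st z), tv n y (st (z + vec s))) := by
    rintro e (⟨h1, h2⟩ | ⟨h1, h2⟩)
    · unfold te; rw [h1, h2]
    · unfold te; rw [h1, h2, Sym2.eq_swap]
  have hex : ∃ e : Edge 2, ((src e = st z ∧ tgt e = st (z + vec s)) ∨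
      (src e = st (z + vec s) ∧ tgt e = st z)) := by
    fin_cases s
    · refine ⟨(st z, 0), Or.inl ⟨rfl, ?_⟩⟩
      funext i
      fin_cases i <;> simp [tgt, st, vec]
    · refine ⟨(st (z + vec 1), 0), Or.inr ⟨rfl, ?_⟩⟩
      funext i
      fin_cases i <;> simp [tgt, st, vec]
    · refine ⟨(st z, 1), Or.inl ⟨rfl, ?_⟩⟩
      funext i
      fin_cases i <;> simp [tgt, st, vec]
    · refine ⟨(st (z + vec 3), 1), Or.inr ⟨rfl, ?_⟩⟩
      funext i
      fin_cases i <;> simp [tgt, st, vec]
  obtain ⟨e, he⟩ := hex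
  exact ⟨e, he, key e he⟩

theorem tot_take_succ (w : List (Fin 4)) {i : ℕ} (hi : i < w.length) :
    tot (w.take (i + 1)) = tot (w.take i) + vec w[i] := by
  rw [← List.take_concat_get' w i hi, tot_append, tot_cons, tot_nil, add_zero]

theorem edge_mem (n : ℕ) (y : ZMod n × ZMod n) (w : List (Fin 4)) {i : ℕ} (hi : i < w.length) :
    s(y + proj n (tot (w.take i)), y + proj n (tot (w.take i)) + proj n (vec w[i])) ∈
      edgesL n y w := by
  have h1 : w = w.take i ++ w[i] :: w.drop (i + 1) := by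
    rw [← List.drop_eq_getElem_cons hi, List.take_append_drop]
  have h2 : edgesL n y w = edgesL n y (w.take i ++ w[i] :: w.drop (i + 1)) := congrArg _ h1
  rw [h2, edgesL_append]
  refine List.mem_append_right _ ?_
  unfold edgesL
  exact List.mem_cons_self

theorem reach {n K : ℕ} (y : ZMod n × ZMod n) (ω : Sym2 (ZMod n × ZMod n) → ℝ≥0) (b : ℝ≥0)
    {w : List (Fin 4)} (hlen : w.length ≤ K) (hb : ∀ e ∈ edgesL n y w, ω e < b) {i : ℕ}
    (hi : i ≤ w.length) :
    Conn {e | e ∈ EI K ∧ ω (te n y e) < b} 0 (st (tot (w.take i))) := by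
  have hsn : ∀ j, j ≤ w.length → sn (st (tot (w.take j))) ≤ K := by
    intro j hj
    refine sn_st_le ((tot_abs _).trans ?_)
    rw [List.length_take]
    exact_mod_cast (min_le_right _ _).trans hlen
  induction i with
  | zero =>
    rw [List.take_zero, tot_nil]
    have : st 0 = 0 := by
      funext i
      fin_cases i <;> rfl
    rw [this]
    exact Relation.ReflTransGen.refl
  | succ i ih =>
    have hi' : i < w.length := hi
    refine Relation.ReflTransGen.tail (ih hi'.le) ?_
    obtain ⟨e, he1, he2⟩ := edge_of_letter n y (tot (w.take i)) w[i]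
    rw [← tot_take_succ w hi'] at he1
    refine ⟨e, ⟨?_, ?_⟩, he1⟩
    · rcases he1 with ⟨h1, h2⟩ | ⟨h1, h2⟩
      · exact ⟨by rw [h1]; exact hsn i hi'.le, by rw [h2]; exact hsn (i + 1) hi⟩
      · exact ⟨by rw [h1]; exact hsn (i + 1) hi, by rw [h2]; exact hsn i hi'.le⟩
    · rw [he2]
      exact hb _ (edge_mem n y w hi')

/-- a self-avoiding word of length `K` reaches distance `k` if `4 k² ≤ K` -/
theorem far_of_SA {w : List (Fin 4)} {k : ℕ} (hSA : SA w) (hk : 4 * k ^ 2 ≤ w.length) :
    ∃ i ≤ w.length, k ≤ sn (st (tot (w.take i))) := by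
  by_contra hcon
  push Not at hcon
  have h0 := hcon 0 (Nat.zero_le _)
  have hk0 : 0 < k := by omega
  have hmaps : ∀ i ∈ Finset.range (w.length + 1), st (tot (w.take i)) ∈ box (0 : Site 2) (k - 1) := by
    intro i hi
    rw [mem_box, sub_zero]
    have := hcon i (by rw [Finset.mem_range] at hi; omega)
    omega
  have hinj : Set.InjOn (fun i => st (tot (w.take i))) (Finset.range (w.length + 1) : Set ℕ) := by
    intro i hi j hj hij
    rw [Finset.mem_coe, Finset.mem_range] at hi hj
    have h1 := st_inj hij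
    by_contra hne
    rcases lt_or_gt_of_ne hne with h | h
    · exact hSA i j h (by omega) h1
    · exact hSA j i h (by omega) h1.symm
  have hc := Finset.card_le_card_of_injOn (fun i => st (tot (w.take i))) hmaps hinj
  rw [card_box, Finset.card_range] at hc
  have h2 : 2 * (k - 1) + 1 ≤ 2 * k := by omega
  have h3 : (2 * (k - 1) + 1) ^ 2 ≤ (2 * k) ^ 2 := Nat.pow_le_pow_left h2 2
  have h4 : (2 * k) ^ 2 = 4 * k ^ 2 := by ring
  omega

theorem window_sub {n K k : ℕ} (hk : 4 * k ^ 2 ≤ K) (y : ZMod n × ZMod n) (v : ℤ × ℤ) (b : ℝ≥0) :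
    {ω : Sym2 (ZMod n × ZMod n) → ℝ≥0 | ∃ w : List (Fin 4), w.length = K ∧ SA w ∧ tot w = v ∧
      (fun _ => True) w ∧ ∀ e ∈ edgesL n y w, ω e < b} ⊆
    {ω | (fun q => ω (te n y q)) ∈ EE K k b} := by
  rintro ω ⟨w, h1, h2, -, -, h3⟩
  obtain ⟨i, hi, hi'⟩ := far_of_SA (k := k) h2 (by rw [h1]; exact hk)
  exact ⟨st (tot (w.take i)), by rw [sub_zero]; exact hi', reach y ω b h1.le h3 hi⟩

end WZ

theorem wb_zero (F : Measure ℝ≥0) [IsProbabilityMeasure F] {b : ℝ≥0}
    (hb : F (Set.Iio b) < 1 / 2) : WB F (fun _ => True) b := by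
  obtain ⟨q, hq⟩ : ∃ q : ℝ, q = (F (Set.Iio b)).toReal := ⟨_, rfl⟩
  have hq0 : 0 ≤ q := by rw [hq]; exact ENNReal.toReal_nonneg
  have hFq : F (Set.Iio b) = ENNReal.ofReal q := by
    rw [hq, ENNReal.ofReal_toReal (measure_ne_top F _)]
  have hq1 : q < 1 / 2 := by
    rw [hFq] at hb
    have h1 : (1 / 2 : ℝ≥0∞) = ENNReal.ofReal (1 / 2) := by
      rw [ENNReal.ofReal_div_of_pos (by norm_num)]
      simp
    rw [h1] at hb
    exact (ENNReal.ofReal_lt_ofReal_iff (by norm_num)).1 hb
  obtain ⟨A, c, hA, hc, hth⟩ := G.decay hq0 hq1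
  refine ⟨c / 2, Real.log A + c, by positivity, fun n K _ hK y v => ?_⟩
  obtain ⟨k, hk⟩ : ∃ k : ℕ, k = Nat.sqrt K / 2 := ⟨_, rfl⟩
  have hk1 : 4 * k ^ 2 ≤ K := by
    have h1 : 2 * k ≤ Nat.sqrt K := by omega
    have h2 : Nat.sqrt K ^ 2 ≤ K := Nat.sqrt_le' K
    have h3 : (2 * k) ^ 2 ≤ Nat.sqrt K ^ 2 := Nat.pow_le_pow_left h1 2
    have h4 : (2 * k) ^ 2 = 4 * k ^ 2 := by ring
    omega
  have hk2 : Real.sqrt K / 2 - 1 ≤ k := by
    have h1 : Real.sqrt K < Nat.sqrt K + 1 := by
      rw [Real.sqrt_lt' (by positivity)]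
      have h2 : K < (Nat.sqrt K + 1) ^ 2 := Nat.lt_succ_sqrt' K
      exact_mod_cast h2
    have h2 : Nat.sqrt K ≤ 2 * k + 1 := by omega
    have h3 : (Nat.sqrt K : ℝ) ≤ 2 * k + 1 := by exact_mod_cast h2
    linarith
  refine (measure_mono (WZ.window_sub hk1 y v b)).trans ?_
  rw [← transfer F (WZ.EI K) (WZ.te n y) (WZ.te_inj hK y) (WZ.measurableSet_EE K k b)]
  swap
  · intro η η' h1 h2
    refine WZ.far_mono (fun e he => ?_) h2
    exact ⟨he.1, by rw [← h1 e he.1]; exact he.2⟩
  refine (measure_mono (t := {η | RC.far {e | η e < b} 0 k}) fun η hη =>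
    WZ.far_mono (fun e he => he.2) hη).trans ?_
  rw [WZ.far_eq F b k (by linarith) hFq]
  have h1 : (RC.PE 2 RC.unif) {u | RC.far {e | u e < q} 0 k} = ENNReal.ofReal (RC.th 2 q k) := by
    unfold RC.th
    rw [Measure.real, ENNReal.ofReal_toReal (measure_ne_top _ _)]
  rw [h1]
  refine ENNReal.ofReal_le_ofReal ((hth k).trans ?_)
  have h2 : A = Real.exp (Real.log A) := (Real.exp_log hA).symm
  calc A * Real.exp (-(c * k)) = Real.exp (Real.log A + -(c * k)) := by
        rw [Real.exp_add, ← h2]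
    _ ≤ Real.exp (Real.log A + c - c / 2 * Real.sqrt K) := by
        apply Real.exp_le_exp.2
        nlinarith [mul_le_mul_of_nonneg_left hk2 hc.le]

end Pool.Agent.TVR
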