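import Pool.Agent.TVR.MainA
import Pool.Agent.TVR.Imp
import Pool.Agent.TVR.WinPos
import Pool.Agent.TVR.WinZero
import Pool.Agent.TVR.KSel
import Pool.Agent.TVR.GoodB
import Pool.Agent.TVR.Cheap
import Pool.Agent.TVR.Tail
import Pool.Agent.TVR.Inf

/-!
# TVR / Asm: final assembly
-/

set_option autoImplicit false

namespace Pool.Agent.TVR

open Finset Pool.Agent.Helper46.Tor MeasureTheory ProbabilityTheory
open scoped NNReal ENNReal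

theorem ae_ge (F : Measure ℝ≥0) [IsProbabilityMeasure F] {r : ℝ≥0} (h : F (Set.Iio r) = 0)
    (n : ℕ) [NeZero n] :
    (Measure.pi fun _ : Sym2 (ZMod n × ZMod n) => F) {ω | ¬ ∀ e, r ≤ ω e} = 0 := by
  have h1 : {ω : Sym2 (ZMod n × ZMod n) → ℝ≥0 | ¬ ∀ e, r ≤ ω e} =
      ⋃ e, (fun ω : Sym2 (ZMod n × ZMod n) → ℝ≥0 => ω e) ⁻¹' (Set.Iio r) := by
    ext ω
    simp
  rw [h1]
  refine measure_iUnion_null fun e => ?_
  rw [(measurePreserving_eval (fun _ : Sym2 (ZMod n × ZMod n) => F) e).measure_preimage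
    measurableSet_Iio.nullMeasurableSet]
  exact h

theorem seg_prob {Ω : Type*} [MeasurableSpace Ω] (P : Measure Ω) {A G B Z : Set Ω} {c0 : ℝ}
    (h0 : 0 < c0) (hA : ENNReal.ofReal c0 ≤ P A) (hB : P B ≤ ENNReal.ofReal (c0 / 2))
    (hZ : P Z = 0) (hsub : A ⊆ G ∪ (B ∪ Z)) : ENNReal.ofReal (c0 / 2) ≤ P G := by
  have h1 : ENNReal.ofReal c0 ≤ P G + ENNReal.ofReal (c0 / 2) := by
    calc ENNReal.ofReal c0 ≤ P A := hA
      _ ≤ P (G ∪ (B ∪ Z)) := measure_mono hsub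
      _ ≤ P G + (P B + P Z) := (measure_union_le _ _).trans (by gcongr; exact measure_union_le _ _)
      _ ≤ P G + ENNReal.ofReal (c0 / 2) := by rw [hZ, add_zero]; gcongr
  have h2 : ENNReal.ofReal c0 = ENNReal.ofReal (c0 / 2) + ENNReal.ofReal (c0 / 2) := by
    rw [← ENNReal.ofReal_add (by positivity) (by positivity)]
    congr 1
    ring
  rw [h2] at h1
  exact (ENNReal.add_le_add_iff_right ENNReal.ofReal_ne_top).1 h1

/-- a positive number `a0 > r` close to `r`, for windows of length `K` -/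
theorem exists_a1 (F : Measure ℝ≥0) [IsProbabilityMeasure F] {r : ℝ≥0} (h : F (Set.Ioi r) ≠ 0)
    {c1 : ℝ} (hc1 : 0 < c1) {K : ℕ} (hK : 0 < K) :
    ∃ a0 : ℝ≥0, r < a0 ∧ ((a0 : ℝ) - r) * K ≤ c1 ∧ F (Set.Ioi a0) ≠ 0 := by
  have hK' : (0 : ℝ) < K := by exact_mod_cast hK
  obtain ⟨a0, h1, h2, h3⟩ := exists_a0 F h (e := c1 / K) (by positivity)
  refine ⟨a0, h1, ?_, h3⟩
  have h4 : (a0 : ℝ) - r ≤ c1 / K := by linarith
  calc ((a0 : ℝ) - r) * K ≤ c1 / K * K := by gcongr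
    _ = c1 := by field_simp

section cases

variable (F : Measure ℝ≥0) [IsProbabilityMeasure F]

theorem case_zero (hb0 : F {0} < 1 / 2) (hinf : ∀ x : ℝ≥0, 0 < x → F (Set.Iic x) ≠ 0)
    {C1 : ℝ} {N1 : ℕ} (hup : ∀ n : ℕ, N1 ≤ n → ∀ [NeZero n],
      ENNReal.ofReal (1 / 2) ≤
      (Measure.pi fun _ : Sym2 (ZMod n × ZMod n) => F) {ω | T n ω ≤ C1 * n}) (Q : ℝ) :
    ∃ N : ℕ, ∀ n : ℕ, N ≤ n → ∀ [NeZero n], ENNReal.ofReal Q ≤
      evariance (T n) (Measure.pi fun _ : Sym2 (ZMod n × ZMod n) => F) := by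
  obtain ⟨b, hb, hbF⟩ := exists_b0 F hb0
  obtain ⟨K, hK, hfew⟩ := few_of_wb F (wb_zero F hbF) (φ := 1 / 2) (by norm_num)
  obtain ⟨N2, hN2⟩ := hfew (1 / 4) (by norm_num)
  have hbR : (0 : ℝ) < b := by exact_mod_cast hb
  have himp : Impr K (fun _ => True) 0 b (b / 2) ((b : ℝ) - (b / 2 : ℝ≥0)) :=
    impr_zero (half_le_self b.2)
  have hc1 : (0 : ℝ) < (b : ℝ) - (b / 2 : ℝ≥0) := by
    rw [NNReal.coe_div]
    norm_num
    linarith
  have hF0 : F (Set.Iic (b / 2)) ≠ 0 := hinf _ (by positivity)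
  have hF1 : F (Set.Ioi (b / 2)) ≠ 0 := by
    intro h
    have h1 : F (Set.Iic (b / 2)) = 1 := by
      have h2 := prob_compl_eq_one_sub (μ := F) (measurableSet_Ioi (a := b / 2))
      rw [Set.compl_Ioi, h, tsub_zero] at h2
      exact h2
    have h2 : F (Set.Iic (b / 2)) ≤ F (Set.Iio b) :=
      measure_mono fun x hx => lt_of_le_of_lt hx (NNReal.half_lt_self hb.ne')
    rw [h1] at h2
    have h3 : (1 : ℝ≥0∞) < 1 / 2 := h2.trans_lt hbF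
    exact absurd h3 (by simp)
  refine mainA F hK hc1 himp hF0 hF1 (C := 1 + 2 * C1 * K / b) (η := 1 / (4 * K))
    (c0 := 1 / 2 / 2) (by positivity) (by norm_num) (n0 := max (max N1 N2) (8 * K)) ?_ Q
  intro n hn _
  refine seg_prob _ (A := {ω | T n ω ≤ C1 * n})
    (B := {ω | ¬ Few n K (fun _ => True) b (1 / 2) (n / (4 * K)) ω}) (Z := ∅) (by norm_num)
    (hup n (by omega)) ?_ measure_empty ?_
  · refine (hN2 n (by omega)).trans (ENNReal.ofReal_le_ofReal (by norm_num))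
  · intro ω hω
    by_cases hf : Few n K (fun _ => True) b (1 / 2) (n / (4 * K)) ω
    · exact Or.inl (good0 hK (by omega) hb hω hf)
    · exact Or.inr (Or.inl hf)

theorem case_A {r : ℝ≥0} (hr : 0 < r) (hr0 : F (Set.Iio r) = 0)
    (hinf : ∀ x : ℝ≥0, r < x → F (Set.Iic x) ≠ 0) (hioi : F (Set.Ioi r) ≠ 0)
    {θ : ℝ} (hθ : 0 < θ) {t : ℕ} (ht : 0 < t)
    (hpsi : psi F (Set.Iic r) θ t < ENNReal.ofReal (Real.exp (θ * (1 / 2) * t)))
    {C1 : ℝ} {N1 : ℕ} (hup : ∀ n : ℕ, N1 ≤ n → ∀ [NeZero n],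
      ENNReal.ofReal (1 / 2) ≤
      (Measure.pi fun _ : Sym2 (ZMod n × ZMod n) => F) {ω | T n ω ≤ C1 * n}) (Q : ℝ) :
    ∃ N : ℕ, ∀ n : ℕ, N ≤ n → ∀ [NeZero n], ENNReal.ofReal Q ≤
      evariance (T n) (Measure.pi fun _ : Sym2 (ZMod n × ZMod n) => F) := by
  obtain ⟨b, hrb, hwb⟩ := wb_A F hθ ht hpsi
  obtain ⟨K, hK, hfew⟩ := few_of_wb F hwb (φ := 1 / 2) (by norm_num)
  obtain ⟨N2, hN2⟩ := hfew (1 / 4) (by norm_num)
  have hrR : (0 : ℝ) < r := by exact_mod_cast hr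
  have hrbR : (r : ℝ) < b := by exact_mod_cast hrb
  obtain ⟨c1, hc1, hc1r, hc1b⟩ : ∃ c1 : ℝ, 0 < c1 ∧ c1 ≤ r ∧ 2 * c1 ≤ (b : ℝ) - r :=
    ⟨min (r : ℝ) (((b : ℝ) - r) / 2), lt_min hrR (by linarith), min_le_left _ _, by
      have := min_le_right (r : ℝ) (((b : ℝ) - r) / 2)
      linarith⟩
  obtain ⟨a0, ha0, ha0K, hF1⟩ := exists_a1 F hioi hc1 hK
  have himp : Impr K Stc r b a0 c1 := impr_pos ha0.le hc1r hc1b ha0K
  refine mainA F hK hc1 himp (hinf _ ha0) hF1 (C := C1 / r) (η := 1 / (4 * K))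
    (c0 := 1 / 2 / 2) (by positivity) (by norm_num) (n0 := max (max N1 N2) (8 * K)) ?_ Q
  intro n hn _
  refine seg_prob _ (A := {ω | T n ω ≤ C1 * n})
    (B := {ω | ¬ Few n K Stc b (1 / 2) (n / (4 * K)) ω}) (Z := {ω | ¬ ∀ e, r ≤ ω e})
    (by norm_num) (hup n (by omega)) ?_ (ae_ge F hr0 n) ?_
  · refine (hN2 n (by omega)).trans (ENNReal.ofReal_le_ofReal (by norm_num))
  · intro ω hω
    by_cases hf : Few n K Stc b (1 / 2) (n / (4 * K)) ω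
    · by_cases hz : ∀ e, r ≤ ω e
      · exact Or.inl (goodA hK (by omega) hr hz hω hf)
      · exact Or.inr (Or.inr hz)
    · exact Or.inr (Or.inl hf)

theorem case_B {r : ℝ≥0} (hr : 0 < r) (hr0 : F (Set.Iio r) = 0)
    (hinf : ∀ x : ℝ≥0, r < x → F (Set.Iic x) ≠ 0) (hioi : F (Set.Ioi r) ≠ 0)
    {v : ℝ} (hv1 : 1 / 2 ≤ v) (hv2 : v ≤ 1)
    (hphi : ∀ φ : ℝ, 0 < φ → ∃ θ : ℝ, 0 < θ ∧ ∃ t : ℕ, 0 < t ∧
        psi F (Set.Iic r) θ t ≤ ENNReal.ofReal (Real.exp (θ * (v + φ) * t)))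
    {δ c0 : ℝ} (hδ : 0 < δ) (hc0 : 0 < c0) {N1 : ℕ} (hup : ∀ n : ℕ, N1 ≤ n → ∀ [NeZero n],
      ENNReal.ofReal c0 ≤
      (Measure.pi fun _ : Sym2 (ZMod n × ZMod n) => F) {ω | T n ω ≤ (r / v - δ) * n}) (Q : ℝ) :
    ∃ N : ℕ, ∀ n : ℕ, N ≤ n → ∀ [NeZero n], ENNReal.ofReal Q ≤
      evariance (T n) (Measure.pi fun _ : Sym2 (ZMod n × ZMod n) => F) := by
  have hrR : (0 : ℝ) < r := by exact_mod_cast hr
  obtain ⟨φ, hφ⟩ : ∃ φ : ℝ, φ = δ / (16 * r) := ⟨_, rfl⟩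
  have hφ0 : 0 < φ := by rw [hφ]; positivity
  obtain ⟨θ, hθ, t, ht, hpsi⟩ := hphi (φ / 3) (by positivity)
  obtain ⟨b, hrb, hwb⟩ := wb_B F hθ ht (by linarith) hφ0 hpsi
  obtain ⟨K, hK, hfew⟩ := few_of_wb F hwb hφ0
  obtain ⟨N2, hN2⟩ := hfew (c0 / 2) (by positivity)
  have hrbR : (r : ℝ) < b := by exact_mod_cast hrb
  have hKR : (0 : ℝ) < K := by exact_mod_cast hK
  obtain ⟨c1, hc1, hc1r, hc1b⟩ : ∃ c1 : ℝ, 0 < c1 ∧ c1 ≤ r ∧ 2 * c1 ≤ (b : ℝ) - r :=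
    ⟨min (r : ℝ) (((b : ℝ) - r) / 2), lt_min hrR (by linarith), min_le_left _ _, by
      have := min_le_right (r : ℝ) (((b : ℝ) - r) / 2)
      linarith⟩
  obtain ⟨a0, ha0, ha0K, hF1⟩ := exists_a1 F hioi hc1 hK
  have himp : Impr K Stc r b a0 c1 := impr_pos ha0.le hc1r hc1b ha0K
  obtain ⟨N3, hN3⟩ := exists_nat_ge (100 * (K : ℝ) / φ)
  refine mainA F hK hc1 himp (hinf _ ha0) hF1 (C := 2) (η := φ / (4 * K))
    (c0 := c0 / 2) (by positivity) (by positivity) (n0 := max (max N1 N2) (max (100 * K) N3)) ?_ Q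
  intro n hn _
  refine seg_prob _ (A := {ω | T n ω ≤ (r / v - δ) * n})
    (B := {ω | ¬ Few n K (Fast (v + φ)) b φ (n / (4 * K)) ω}) (Z := {ω | ¬ ∀ e, r ≤ ω e})
    hc0 (hup n (by omega)) (hN2 n (by omega)) (ae_ge F hr0 n) ?_
  intro ω hω
  by_cases hf : Few n K (Fast (v + φ)) b φ (n / (4 * K)) ω
  · by_cases hz : ∀ e, r ≤ ω e
    · refine Or.inl (goodB hK hr hv1 hv2 hδ hφ ?_ (by omega) hz hω hf)
      refine hN3.trans ?_
      have : N3 ≤ n := by omega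
      exact_mod_cast this
    · exact Or.inr (Or.inr hz)
  · exact Or.inr (Or.inl hf)

end cases

/-- the variance of the winding passage time diverges, for every admissible law -/
theorem main (F : Measure ℝ≥0) [IsProbabilityMeasure F] (hnd : ∀ x, F {x} ≠ 1)
    (h0 : F {0} < 1 / 2) (Q : ℝ) :
    ∃ N : ℕ, ∀ n : ℕ, N ≤ n → ∀ [NeZero n], ENNReal.ofReal Q ≤
      evariance (T n) (Measure.pi fun _ : Sym2 (ZMod n × ZMod n) => F) := by
  by_cases hfin : ∀ n : ℕ, ∀ [NeZero n],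
      evariance (T n) (Measure.pi fun _ : Sym2 (ZMod n × ZMod n) => F) = ∞
  · exact ⟨0, fun n _ _ => by rw [hfin n]; exact le_top⟩
  push Not at hfin
  obtain ⟨n1, hn1, hev⟩ := hfin
  obtain ⟨κ, B, hκ, hB⟩ := tail_of_evar F n1 hev
  obtain ⟨W, hW, m0, hm0⟩ := exists_mean F hκ hB
  obtain ⟨C1, hC1, N1, hN1⟩ := up_lin F hW hm0
  obtain ⟨r, hr0, hinf⟩ := exists_inf F
  rcases eq_or_ne r 0 with hr | hr
  · subst hr
    exact case_zero F h0 hinf hN1 Q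
  · have hr : 0 < r := pos_iff_ne_zero.2 hr
    have hioi := ioi_ne F hr0 (hnd r)
    rcases dichotomy F r with ⟨θ, hθ, t, ht, hpsi⟩ | ⟨v, hv1, hv2, hv, hphi⟩
    · exact case_A F hr hr0 hinf hioi hθ ht hpsi hN1 Q
    · have hp : F (Set.Iic r) ≠ 0 := by
        have h1 := hv 1 one_pos le_rfl 1 one_pos
        refine iic_ne F (v := v) ?_
        simpa using h1
      obtain ⟨K0, hK0⟩ := exists_K0 F hioi
      obtain ⟨δ, hδ, c0, hc0, N2, hN2⟩ := cheap F hκ hB hr hp hK0 hv1 hv2 hv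
      exact case_B F hr hr0 hinf hioi hv1 hv2 hphi hδ hc0 hN2 Q

end Pool.Agent.TVR
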