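import Pool.Agent.Helper46.Tor.Cube

/-!
# TVR / BKa: the BK inequality for two families (van den Berg, Kesten), by doubling the coordinates

`occ 𝒜 u`: some `A ∈ 𝒜` is contained in `{e : u e = true}`.

Proof of `bk_two`. For `D : Finset E` and `u, v : E → Bool` let
`CD D u v := ∃ A ∈ 𝒜, ∃ B ∈ ℬ, A ∩ B ⊆ D ∧ (∀ e ∈ A, u e = true) ∧ (∀ e ∈ B, (if e ∈ D then v e else u e) = true)`,
`q D := ∑ u, ∑ v, Ber p u * Ber p v * 1[CD D u v]`.
* `q ∅` is the left side (sum over `v` is `1`, `Ber_sum`), `q univ` is the right side (a product).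
* `q D ≤ q (insert e D)` for `e ∉ D`. Fix all coordinates of `u, v` except those at `e` (reindex the sum
  over `u` as a sum over `Function.update u e i`, `i : Bool`; `Ber p (update u e i)` = `ber p i` times the rest). For
  `i j : Bool` let `a i j := ∃ A ∈ 𝒜, ∃ B ∈ ℬ, A ∩ B ⊆ insert e D ∧ (∀ f ∈ A, f ≠ e → u f) ∧ (∀ f ∈ B, f ≠ e → (if f ∈ D then v f else u f)) ∧
  (e ∈ A → i = true) ∧ (e ∈ B → j = true)`; it is monotone in `i, j`. Then
  `CD (insert e D) (update u e i) (update v e j) ↔ a i j`,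
  `CD D (update u e false) _ → a false false`, `CD D (update u e true) _ → a true false ∨ a false true`
  (`e` is not in both `A` and `B`), and
  `(1-p) a00 + p max(a10, a01) ≤ (1-p)^2 a00 + p(1-p)(a10 + a01) + p^2 a11` for indicators
  `a00 ≤ a10, a01 ≤ a11` (cases: `a00 = 1` all are `1`; `a00 = 0`: `a10 = a01 = 1`: `p ≤ 2p - p^2`; exactly one of them is `1`:
  `p ≤ p(1-p) + p^2`; none: `0 ≤ ..`).
* Induction over `D = univ` (`Finset.induction_on`).
A convenient way to isolate the coordinate `e`: `Fintype.sum_equiv` with `Equiv.funSplitAt e Bool`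
(or `Equiv.piSplitAt`), or prove the one-step inequality as: for every function `Φ`,
`∑ u, Ber p u * Φ u = ∑ u, Ber p u * ∑ i, ber p i * Φ (update u e i)` (resampling identity).
-/

set_option autoImplicit false

namespace Pool.Agent.TVR

open Finset Pool.Agent.Helper46.Tor

variable {E : Type} [Fintype E] [DecidableEq E]

/-- some set of the family is open -/
def occ (𝒜 : Set (Finset E)) (u : E → Bool) : Prop := ∃ A ∈ 𝒜, ∀ e ∈ A, u e = true

/-- sets of the two families occur disjointly -/
def occ2 (𝒜 ℬ : Set (Finset E)) (u : E → Bool) : Prop :=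
  ∃ A ∈ 𝒜, ∃ B ∈ ℬ, Disjoint A B ∧ (∀ e ∈ A, u e = true) ∧ (∀ e ∈ B, u e = true)

/-- resampling identity -/
theorem ber_resample (p : ℝ) (e : E) (Φ : (E → Bool) → ℝ) :
    ∑ u : E → Bool, Ber p u * Φ u =
      ∑ u : E → Bool, Ber p u * ∑ i : Bool, ber p i * Φ (Function.update u e i) := by
  have hB : ∀ (u : E → Bool) (i : Bool),
      Ber p (Function.update u e i) * ber p (u e) = Ber p u * ber p i := by
    intro u i
    unfold Ber
    rw [← Finset.mul_prod_erase univ (fun f => ber p (Function.update u e i f)) (mem_univ e),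
      ← Finset.mul_prod_erase univ (fun f => ber p (u f)) (mem_univ e), Function.update_self]
    have h : ∏ x ∈ univ.erase e, ber p (Function.update u e i x) =
        ∏ x ∈ univ.erase e, ber p (u x) :=
      prod_congr rfl fun x hx => by rw [Function.update_of_ne (ne_of_mem_erase hx)]
    rw [h]
    ring
  let σ : (E → Bool) × Bool → (E → Bool) × Bool := fun x => (Function.update x.1 e x.2, x.1 e)
  have hσ : Function.Involutive σ := by
    rintro ⟨u, i⟩
    simp [σ]
  have h1 : ∑ u : E → Bool, Ber p u * Φ u =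
      ∑ x : (E → Bool) × Bool, Ber p x.1 * ber p x.2 * Φ x.1 := by
    rw [Fintype.sum_prod_type]
    refine sum_congr rfl fun u _ => ?_
    have h2 : ∀ j : Bool, Ber p u * ber p j * Φ u = ber p j * (Ber p u * Φ u) := fun j => by ring
    simp only [h2]
    rw [← sum_mul, ber_sum, one_mul]
  rw [h1, ← Equiv.sum_comp (hσ.toPerm σ), Fintype.sum_prod_type]
  refine sum_congr rfl fun u _ => ?_
  rw [mul_sum]
  refine sum_congr rfl fun i _ => ?_
  show Ber p (Function.update u e i) * ber p (u e) * Φ (Function.update u e i) = _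
  rw [hB]
  ring

namespace BKaAux

/-- the mixed event -/
def CD (𝒜 ℬ : Set (Finset E)) (D : Finset E) (u v : E → Bool) : Prop :=
  ∃ A ∈ 𝒜, ∃ B ∈ ℬ, A ∩ B ⊆ D ∧ (∀ f ∈ A, u f = true) ∧
    ∀ f ∈ B, (if f ∈ D then v f else u f) = true

omit [Fintype E] in
theorem cd_mono {𝒜 ℬ : Set (Finset E)} {D : Finset E} {u v u' v' : E → Bool}
    (hu : ∀ f, u f = true → u' f = true) (hv : ∀ f, v f = true → v' f = true)
    (h : CD 𝒜 ℬ D u v) : CD 𝒜 ℬ D u' v' := by
  obtain ⟨A, hA, B, hB, h1, h2, h3⟩ := h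
  refine ⟨A, hA, B, hB, h1, fun f hf => hu f (h2 f hf), fun f hf => ?_⟩
  have h4 := h3 f hf
  split_ifs at h4 ⊢ with h5
  · exact hv f h4
  · exact hu f h4

omit [Fintype E] in
theorem upd_mono (u : E → Bool) (e : E) {i j : Bool} (h : i = true → j = true) (f : E)
    (hf : Function.update u e i f = true) : Function.update u e j f = true := by
  by_cases hfe : f = e
  · subst hfe
    rw [Function.update_self] at hf ⊢
    exact h hf
  · rw [Function.update_of_ne hfe] at hf ⊢
    exact hf

omit [Fintype E] in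
theorem cd_false {𝒜 ℬ : Set (Finset E)} {D : Finset E} {e : E} (he : e ∉ D) {u v : E → Bool}
    {j : Bool} (h : CD 𝒜 ℬ D (Function.update u e false) (Function.update v e j)) :
    CD 𝒜 ℬ (insert e D) (Function.update u e false) (Function.update v e false) := by
  obtain ⟨A, hA, B, hB, h1, h2, h3⟩ := h
  refine ⟨A, hA, B, hB, h1.trans (subset_insert _ _), h2, fun f hf => ?_⟩
  have h4 := h3 f hf
  by_cases hfe : f = e
  · subst hfe
    rw [if_neg he, Function.update_self] at h4
    exact absurd h4 (by simp)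
  · rw [Function.update_of_ne hfe, Function.update_of_ne hfe] at h4 ⊢
    by_cases hfD : f ∈ D
    · rw [if_pos hfD] at h4
      rw [if_pos (mem_insert_of_mem hfD)]
      exact h4
    · rw [if_neg hfD] at h4
      rw [if_neg (by simp [hfe, hfD])]
      exact h4

omit [Fintype E] in
theorem cd_true {𝒜 ℬ : Set (Finset E)} {D : Finset E} {e : E} (he : e ∉ D) {u v : E → Bool}
    {j : Bool} (h : CD 𝒜 ℬ D (Function.update u e true) (Function.update v e j)) :
    CD 𝒜 ℬ (insert e D) (Function.update u e true) (Function.update v e false) ∨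
      CD 𝒜 ℬ (insert e D) (Function.update u e false) (Function.update v e true) := by
  obtain ⟨A, hA, B, hB, h1, h2, h3⟩ := h
  have h5 : ∀ (i j' : Bool), ∀ f ∈ B, f ≠ e →
      (if f ∈ insert e D then Function.update v e j' f else Function.update u e i f) = true := by
    intro i j' f hf hfe
    have h4 := h3 f hf
    rw [Function.update_of_ne hfe, Function.update_of_ne hfe] at h4 ⊢
    by_cases hfD : f ∈ D
    · rw [if_pos hfD] at h4
      rw [if_pos (mem_insert_of_mem hfD)]
      exact h4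
    · rw [if_neg hfD] at h4
      rw [if_neg (by simp [hfe, hfD])]
      exact h4
  by_cases heB : e ∈ B
  · right
    have heA : e ∉ A := fun heA => he (h1 (mem_inter.2 ⟨heA, heB⟩))
    refine ⟨A, hA, B, hB, h1.trans (subset_insert _ _), fun f hf => ?_, fun f hf => ?_⟩
    · have hfe : f ≠ e := fun h => heA (h ▸ hf)
      have h6 := h2 f hf
      rw [Function.update_of_ne hfe] at h6 ⊢
      exact h6
    · by_cases hfe : f = e
      · subst hfe
        rw [if_pos (mem_insert_self _ _), Function.update_self]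
      · exact h5 false true f hf hfe
  · left
    refine ⟨A, hA, B, hB, h1.trans (subset_insert _ _), h2, fun f hf => ?_⟩
    have hfe : f ≠ e := fun h => heB (h ▸ hf)
    exact h5 true false f hf hfe

open Classical in
/-- indicator -/
noncomputable def I (P : Prop) : ℝ := if P then 1 else 0

theorem I_le {P Q : Prop} (h : P → Q) : I P ≤ I Q := by
  unfold I
  split_ifs with h1 h2
  · exact le_rfl
  · exact absurd (h h1) h2
  · exact zero_le_one
  · exact le_rfl

theorem I_nonneg (P : Prop) : 0 ≤ I P := by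
  unfold I
  split_ifs
  · exact zero_le_one
  · exact le_rfl

theorem I_and (P Q : Prop) : I (P ∧ Q) = I P * I Q := by
  unfold I
  by_cases hP : P <;> by_cases hQ : Q <;> simp [hP, hQ]

theorem num {p : ℝ} (h0 : 0 ≤ p) (h1 : p ≤ 1) {c00 c01 c10 c11 a00 a01 a10 a11 : Prop}
    (e1 : c00 → a00) (e2 : c01 → a00) (e3 : c10 → a10 ∨ a01) (e4 : c11 → a10 ∨ a01)
    (m1 : a00 → a10) (m2 : a00 → a01) (m3 : a10 → a11) (m4 : a01 → a11) :
    (1 - p) * ((1 - p) * I c00 + p * I c01) + p * ((1 - p) * I c10 + p * I c11) ≤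
      (1 - p) * ((1 - p) * I a00 + p * I a01) + p * ((1 - p) * I a10 + p * I a11) := by
  have hq : 0 ≤ 1 - p := by linarith
  have hb1 : (1 - p) * I c00 + p * I c01 ≤ I a00 := by
    have := mul_le_mul_of_nonneg_left (I_le e1) hq
    have := mul_le_mul_of_nonneg_left (I_le e2) h0
    linarith
  have hb2 : (1 - p) * I c10 + p * I c11 ≤ I (a10 ∨ a01) := by
    have := mul_le_mul_of_nonneg_left (I_le e3) hq
    have := mul_le_mul_of_nonneg_left (I_le e4) h0
    linarith
  have hb3 := mul_le_mul_of_nonneg_left hb1 hq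
  have hb4 := mul_le_mul_of_nonneg_left hb2 h0
  refine (add_le_add hb3 hb4).trans ?_
  have hpq : 0 ≤ p * (1 - p) := mul_nonneg h0 hq
  by_cases q00 : a00
  · have q10 := m1 q00
    have q01 := m2 q00
    have q11 := m3 q10
    simp only [I, q00, q10, q01, q11, or_self, if_true]
    nlinarith
  · by_cases q10 : a10
    · have q11 := m3 q10
      by_cases q01 : a01
      · simp only [I, q00, q10, q01, q11, or_self, if_true, if_false]
        nlinarith
      · simp only [I, q00, q10, q01, q11, true_or, if_true, if_false]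
        nlinarith
    · by_cases q01 : a01
      · have q11 := m4 q01
        simp only [I, q00, q10, q01, q11, or_true, if_true, if_false]
        nlinarith
      · simp only [I, q00, q10, q01, or_self, if_false]
        have := I_nonneg a11
        have h3 : 0 ≤ p * (p * I a11) := mul_nonneg h0 (mul_nonneg h0 this)
        simp only [I] at h3
        linarith

/-- the interpolating quantity -/
noncomputable def q (p : ℝ) (𝒜 ℬ : Set (Finset E)) (D : Finset E) : ℝ :=
  ∑ u : E → Bool, Ber p u * ∑ v : E → Bool, Ber p v * I (CD 𝒜 ℬ D u v)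

omit [DecidableEq E] in
theorem Ber_nonneg {p : ℝ} (h0 : 0 ≤ p) (h1 : p ≤ 1) (u : E → Bool) : 0 ≤ Ber p u := by
  unfold Ber
  refine prod_nonneg fun e _ => ?_
  unfold ber
  split_ifs
  · exact h0
  · linarith

theorem q_resample (p : ℝ) (𝒜 ℬ : Set (Finset E)) (D : Finset E) (e : E) :
    q p 𝒜 ℬ D = ∑ u : E → Bool, Ber p u * ∑ v : E → Bool, Ber p v *
      ((1 - p) * ((1 - p) * I (CD 𝒜 ℬ D (Function.update u e false) (Function.update v e false)) +
        p * I (CD 𝒜 ℬ D (Function.update u e false) (Function.update v e true))) +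
      p * ((1 - p) * I (CD 𝒜 ℬ D (Function.update u e true) (Function.update v e false)) +
        p * I (CD 𝒜 ℬ D (Function.update u e true) (Function.update v e true)))) := by
  unfold q
  rw [ber_resample p e]
  refine sum_congr rfl fun u _ => ?_
  congr 1
  have h3 : ∀ i : Bool, ∑ v : E → Bool, Ber p v * I (CD 𝒜 ℬ D (Function.update u e i) v) =
      ∑ v : E → Bool, Ber p v * ∑ j : Bool, ber p j *
        I (CD 𝒜 ℬ D (Function.update u e i) (Function.update v e j)) := fun i =>
    ber_resample p e _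
  simp only [h3, Fintype.sum_bool, ber, if_true, Bool.false_eq_true, if_false]
  rw [mul_sum, mul_sum, ← sum_add_distrib]
  refine sum_congr rfl fun v _ => ?_
  ring

theorem q_step {p : ℝ} (h0 : 0 ≤ p) (h1 : p ≤ 1) (𝒜 ℬ : Set (Finset E)) {D : Finset E} {e : E}
    (he : e ∉ D) : q p 𝒜 ℬ D ≤ q p 𝒜 ℬ (insert e D) := by
  rw [q_resample p 𝒜 ℬ D e, q_resample p 𝒜 ℬ (insert e D) e]
  refine sum_le_sum fun u _ => mul_le_mul_of_nonneg_left (sum_le_sum fun v _ =>
    mul_le_mul_of_nonneg_left ?_ (Ber_nonneg h0 h1 v)) (Ber_nonneg h0 h1 u)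
  refine num h0 h1 (cd_false he) (cd_false he) (cd_true he) (cd_true he) ?_ ?_ ?_ ?_
  · exact cd_mono (upd_mono u e (by simp)) (fun f hf => hf)
  · exact cd_mono (fun f hf => hf) (upd_mono v e (by simp))
  · exact cd_mono (fun f hf => hf) (upd_mono v e (by simp))
  · exact cd_mono (upd_mono u e (by simp)) (fun f hf => hf)

theorem q_le {p : ℝ} (h0 : 0 ≤ p) (h1 : p ≤ 1) (𝒜 ℬ : Set (Finset E)) (D : Finset E) :
    q p 𝒜 ℬ ∅ ≤ q p 𝒜 ℬ D := by
  induction D using Finset.induction_on with
  | empty => exact le_rfl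
  | insert e D he ih => exact ih.trans (q_step h0 h1 𝒜 ℬ he)

end BKaAux

open BKaAux in
open Classical in
theorem bk_two {p : ℝ} (h0 : 0 ≤ p) (h1 : p ≤ 1) (𝒜 ℬ : Set (Finset E)) :
    ∑ u : E → Bool, Ber p u * (if occ2 𝒜 ℬ u then (1 : ℝ) else 0) ≤
      (∑ u : E → Bool, Ber p u * (if occ 𝒜 u then (1 : ℝ) else 0)) *
        ∑ u : E → Bool, Ber p u * (if occ ℬ u then (1 : ℝ) else 0) := by
  have e1 : q p 𝒜 ℬ ∅ = ∑ u : E → Bool, Ber p u * (if occ2 𝒜 ℬ u then (1 : ℝ) else 0) := by
    unfold q
    refine sum_congr rfl fun u _ => ?_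
    congr 1
    have h2 : ∀ v : E → Bool, CD 𝒜 ℬ ∅ u v ↔ occ2 𝒜 ℬ u := by
      intro v
      unfold CD occ2
      simp only [notMem_empty, if_false, subset_empty, disjoint_iff_inter_eq_empty]
    simp only [h2]
    rw [← sum_mul, Ber_sum, one_mul]
    rfl
  have e2 : q p 𝒜 ℬ univ = (∑ u : E → Bool, Ber p u * (if occ 𝒜 u then (1 : ℝ) else 0)) *
        ∑ u : E → Bool, Ber p u * (if occ ℬ u then (1 : ℝ) else 0) := by
    unfold q
    rw [sum_mul]
    refine sum_congr rfl fun u _ => ?_
    rw [mul_assoc]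
    congr 1
    rw [mul_sum]
    refine sum_congr rfl fun v _ => ?_
    have h2 : CD 𝒜 ℬ univ u v ↔ occ 𝒜 u ∧ occ ℬ v := by
      unfold CD occ
      simp only [mem_univ, if_true, subset_univ, true_and]
      constructor
      · rintro ⟨A, hA, B, hB, h3, h4⟩
        exact ⟨⟨A, hA, h3⟩, ⟨B, hB, h4⟩⟩
      · rintro ⟨⟨A, hA, h3⟩, ⟨B, hB, h4⟩⟩
        exact ⟨A, hA, B, hB, h3, h4⟩
    rw [h2, I_and]
    unfold I
    ring
  rw [← e1, ← e2]
  exact q_le h0 h1 𝒜 ℬ univ

end Pool.Agent.TVR
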