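import Pool.Agent.TVR.BKa

/-!
# TVR / BKb: BK for finitely many families, in terms of iid weights

`bk_many`: induction on the finite index set `J` (`Finset.induction_on`): for `insert j J` apply `bk_two` to
`𝒜 j` and `ℬ := {B | ∃ A : ι → Finset E, (∀ i ∈ J, A i ∈ 𝒜 i) ∧ pairwise disjoint on J ∧ B = J.biUnion A}`:
`occ ℬ u` is the event for `J`, and the event for `insert j J` implies `occ2 (𝒜 j) ℬ`.
Sums are nonnegative (`Ber_nonneg`).

`bk_pi`: let `p = (F S).toReal`, `u ω e = decide (ω e ∈ S)`. For every `Q : (E → Bool) → Prop`,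
`(Measure.pi fun _ => F) {ω | Q (u ω)} = ENNReal.ofReal (∑ u, Ber p u * 1[Q u])`: the set is the disjoint union over `u` with
`Q u` of the boxes `{ω | ∀ e, ω e ∈ if u e then S else Sᶜ}` with measure `∏ e, (if u e then F S else F Sᶜ)`
(`Measure.pi_pi`), `F Sᶜ = 1 - F S`. Apply to the events and use `bk_many`, `ENNReal.ofReal_prod_of_nonneg`.
-/

set_option autoImplicit false

namespace Pool.Agent.TVR

open Finset Pool.Agent.Helper46.Tor MeasureTheory
open scoped NNReal ENNReal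

variable {E ι : Type} [Fintype E] [DecidableEq E] [DecidableEq ι]

open Classical in
private theorem ind_mono {P Q : Prop} (h : P → Q) :
    (if P then (1 : ℝ) else 0) ≤ (if Q then (1 : ℝ) else 0) := by
  by_cases hP : P
  · rw [if_pos hP, if_pos (h hP)]
  · rw [if_neg hP]
    split_ifs <;> norm_num

open Classical in
theorem bk_many {p : ℝ} (h0 : 0 ≤ p) (h1 : p ≤ 1) (J : Finset ι) (𝒜 : ι → Set (Finset E)) :
    ∑ u : E → Bool, Ber p u * (if (∃ A : ι → Finset E,
        (∀ i ∈ J, A i ∈ 𝒜 i ∧ ∀ e ∈ A i, u e = true) ∧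
        (∀ i ∈ J, ∀ j ∈ J, i ≠ j → Disjoint (A i) (A j))) then (1 : ℝ) else 0) ≤
      ∏ i ∈ J, ∑ u : E → Bool, Ber p u * (if occ (𝒜 i) u then (1 : ℝ) else 0) := by
  induction J using Finset.induction_on with
  | empty =>
    rw [Finset.prod_empty]
    refine le_trans (Finset.sum_le_sum fun u _ => ?_) (le_of_eq (Ber_sum (E := E) p))
    have := Ber_nonneg h0 h1 u
    split_ifs
    · rw [mul_one]
    · rw [mul_zero]
      exact this
  | insert j J hj ih =>
    rw [Finset.prod_insert hj]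
    set ℬ : Set (Finset E) := {B | ∃ A : ι → Finset E, (∀ i ∈ J, A i ∈ 𝒜 i) ∧
      (∀ i ∈ J, ∀ l ∈ J, i ≠ l → Disjoint (A i) (A l)) ∧ B = J.biUnion A} with hℬ
    have hpos : 0 ≤ ∑ u : E → Bool, Ber p u * (if occ (𝒜 j) u then (1 : ℝ) else 0) :=
      Finset.sum_nonneg fun u _ => mul_nonneg (Ber_nonneg h0 h1 u) (by split_ifs <;> norm_num)
    refine le_trans (Finset.sum_le_sum fun u _ => mul_le_mul_of_nonneg_left ?_ (Ber_nonneg h0 h1 u))
      (le_trans (bk_two h0 h1 (𝒜 j) ℬ) (mul_le_mul_of_nonneg_left (le_trans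
        (Finset.sum_le_sum fun u _ => mul_le_mul_of_nonneg_left ?_ (Ber_nonneg h0 h1 u)) ih) hpos))
    · refine ind_mono ?_
      rintro ⟨A, hA, hd⟩
      refine ⟨A j, (hA j (Finset.mem_insert_self _ _)).1, J.biUnion A,
        ⟨A, fun i hi => (hA i (Finset.mem_insert_of_mem hi)).1, fun i hi l hl =>
          hd i (Finset.mem_insert_of_mem hi) l (Finset.mem_insert_of_mem hl), rfl⟩, ?_,
        (hA j (Finset.mem_insert_self _ _)).2, ?_⟩
      · rw [Finset.disjoint_biUnion_right]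
        intro i hi
        exact hd j (Finset.mem_insert_self _ _) i (Finset.mem_insert_of_mem hi)
          (fun h => hj (h ▸ hi))
      · intro e he
        rw [Finset.mem_biUnion] at he
        obtain ⟨i, hi, he⟩ := he
        exact (hA i (Finset.mem_insert_of_mem hi)).2 e he
    · refine ind_mono ?_
      rintro ⟨B, ⟨A, hA, hd, rfl⟩, hB⟩
      exact ⟨A, fun i hi => ⟨hA i hi, fun e he => hB e (Finset.mem_biUnion.2 ⟨i, hi, he⟩)⟩, hd⟩

open Classical in
private theorem pi_event (F : Measure ℝ≥0) [IsProbabilityMeasure F] {S : Set ℝ≥0}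
    (hS : MeasurableSet S) (Q : (E → Bool) → Prop) :
    (Measure.pi fun _ : E => F) {ω | Q (fun e => decide (ω e ∈ S))} =
      ENNReal.ofReal (∑ u : E → Bool, Ber (F S).toReal u * (if Q u then (1 : ℝ) else 0)) := by
  have hF0 : 0 ≤ (F S).toReal := ENNReal.toReal_nonneg
  have hF1 : (F S).toReal ≤ 1 := by
    have h1 : F S ≤ 1 := prob_le_one
    have h2 := ENNReal.toReal_mono ENNReal.one_ne_top h1
    rwa [ENNReal.toReal_one] at h2
  have hS' : F Sᶜ = ENNReal.ofReal (1 - (F S).toReal) := by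
    rw [prob_compl_eq_one_sub hS, ENNReal.ofReal_sub _ hF0, ENNReal.ofReal_one,
      ENNReal.ofReal_toReal (measure_ne_top F S)]
  have hS'' : F S = ENNReal.ofReal (F S).toReal := (ENNReal.ofReal_toReal (measure_ne_top F S)).symm
  let Bx : (E → Bool) → Set (E → ℝ≥0) := fun u =>
    Set.univ.pi fun e => if u e = true then S else Sᶜ
  have hmem : ∀ u ω, ω ∈ Bx u ↔ (fun e => decide (ω e ∈ S)) = u := by
    intro u ω
    constructor
    · intro h
      funext e
      have h1 : ω e ∈ (if u e = true then S else Sᶜ) := h e (Set.mem_univ e)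
      by_cases hu : u e = true
      · rw [if_pos hu] at h1
        rw [hu, decide_eq_true_eq]
        exact h1
      · rw [if_neg hu] at h1
        rw [Bool.not_eq_true] at hu
        rw [hu, decide_eq_false_iff_not]
        exact h1
    · rintro rfl e -
      show ω e ∈ (if decide (ω e ∈ S) = true then S else Sᶜ)
      by_cases hu : ω e ∈ S
      · rw [if_pos (decide_eq_true hu)]
        exact hu
      · rw [if_neg (by rw [decide_eq_true_eq]; exact hu)]
        exact hu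
  have hset : {ω : E → ℝ≥0 | Q (fun e => decide (ω e ∈ S))} =
      ⋃ u ∈ (univ.filter (fun u : E → Bool => Q u)), Bx u := by
    ext ω
    rw [Set.mem_ofPred_eq, Set.mem_iUnion₂]
    constructor
    · intro h
      exact ⟨_, Finset.mem_filter.2 ⟨Finset.mem_univ _, h⟩, (hmem _ ω).2 rfl⟩
    · rintro ⟨u, hu, hω⟩
      rw [(hmem u ω).1 hω]
      exact (Finset.mem_filter.1 hu).2
  have hmeas : ∀ u, MeasurableSet (Bx u) := fun u =>
    MeasurableSet.univ_pi fun e => by
      split_ifs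
      · exact hS
      · exact hS.compl
  rw [hset, measure_biUnion_finset]
  · rw [ENNReal.ofReal_sum_of_nonneg (fun u _ => mul_nonneg (Ber_nonneg hF0 hF1 u)
      (by split_ifs <;> norm_num)), Finset.sum_filter]
    refine Finset.sum_congr rfl fun u _ => ?_
    by_cases hQ : Q u
    · rw [if_pos hQ, if_pos hQ, mul_one, Measure.pi_pi]
      unfold Ber
      rw [ENNReal.ofReal_prod_of_nonneg (fun e _ => ber_nonneg hF0 hF1 (u e))]
      refine Finset.prod_congr rfl fun e _ => ?_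
      unfold ber
      by_cases hu : u e = true
      · rw [if_pos hu, if_pos hu]
        exact hS''
      · rw [if_neg hu, if_neg hu]
        exact hS'
    · rw [if_neg hQ, if_neg hQ, mul_zero, ENNReal.ofReal_zero]
  · intro u _ v _ huv
    rw [Function.onFun, Set.disjoint_left]
    intro ω h1 h2
    exact huv (((hmem u ω).1 h1).symm.trans ((hmem v ω).1 h2))
  · exact fun u _ => hmeas u

theorem bk_pi (F : Measure ℝ≥0) [IsProbabilityMeasure F] {S : Set ℝ≥0} (hS : MeasurableSet S)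
    (J : Finset ι) (𝒜 : ι → Set (Finset E)) :
    (Measure.pi fun _ : E => F) {ω | ∃ A : ι → Finset E,
        (∀ i ∈ J, A i ∈ 𝒜 i ∧ ∀ e ∈ A i, ω e ∈ S) ∧
        (∀ i ∈ J, ∀ j ∈ J, i ≠ j → Disjoint (A i) (A j))} ≤
      ∏ i ∈ J, (Measure.pi fun _ : E => F) {ω | ∃ A ∈ 𝒜 i, ∀ e ∈ A, ω e ∈ S} := by
  classical
  have hF0 : 0 ≤ (F S).toReal := ENNReal.toReal_nonneg
  have hF1 : (F S).toReal ≤ 1 := by
    have h1 : F S ≤ 1 := prob_le_one
    have h2 := ENNReal.toReal_mono ENNReal.one_ne_top h1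
    rwa [ENNReal.toReal_one] at h2
  have e1 : {ω : E → ℝ≥0 | ∃ A : ι → Finset E,
        (∀ i ∈ J, A i ∈ 𝒜 i ∧ ∀ e ∈ A i, ω e ∈ S) ∧
        (∀ i ∈ J, ∀ j ∈ J, i ≠ j → Disjoint (A i) (A j))} =
      {ω : E → ℝ≥0 | (fun u : E → Bool => ∃ A : ι → Finset E,
        (∀ i ∈ J, A i ∈ 𝒜 i ∧ ∀ e ∈ A i, u e = true) ∧
        (∀ i ∈ J, ∀ j ∈ J, i ≠ j → Disjoint (A i) (A j))) (fun e => decide (ω e ∈ S))} := by
    ext ω
    simp only [Set.mem_ofPred_eq, decide_eq_true_eq]
  have e2 : ∀ i, {ω : E → ℝ≥0 | ∃ A ∈ 𝒜 i, ∀ e ∈ A, ω e ∈ S} =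
      {ω : E → ℝ≥0 | (fun u : E → Bool => occ (𝒜 i) u) (fun e => decide (ω e ∈ S))} := by
    intro i
    ext ω
    simp only [Set.mem_ofPred_eq, occ, decide_eq_true_eq]
  have h2 := pi_event (E := E) F hS (fun u : E → Bool => ∃ A : ι → Finset E,
        (∀ i ∈ J, A i ∈ 𝒜 i ∧ ∀ e ∈ A i, u e = true) ∧
        (∀ i ∈ J, ∀ j ∈ J, i ≠ j → Disjoint (A i) (A j)))
  rw [e1]
  refine (le_of_eq h2).trans ?_
  have e3 : ∏ i ∈ J, (Measure.pi fun _ : E => F) {ω | ∃ A ∈ 𝒜 i, ∀ e ∈ A, ω e ∈ S} =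
      ENNReal.ofReal (∏ i ∈ J, ∑ u : E → Bool, Ber (F S).toReal u *
        (if occ (𝒜 i) u then (1 : ℝ) else 0)) := by
    rw [ENNReal.ofReal_prod_of_nonneg (fun i _ => Finset.sum_nonneg fun u _ =>
      mul_nonneg (Ber_nonneg hF0 hF1 u) (by split_ifs <;> norm_num))]
    refine Finset.prod_congr rfl fun i _ => ?_
    rw [e2 i]
    exact pi_event F hS (fun u : E → Bool => occ (𝒜 i) u)
  rw [e3]
  refine ENNReal.ofReal_le_ofReal ?_
  convert bk_many hF0 hF1 J 𝒜 using 1

end Pool.Agent.TVR
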