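import Pool.Agent.TVR.BlockFix

/-!
# TVR / BlockCore: the core inequality for the product measure

Write `V = ZMod n × ZMod n`, `P = Measure.pi fun _ : Sym2 V => F`.

`measurableSet_EvA`: `EvA` = `⋂ e, {r ≤ ω e}` ∩ `{T ≤ μ}` (`measurable_T`) ∩ `⋃ g : Wind n` (countable) of
`{Least n ω g}` (`measurableSet_least`) with `|g| ≤ 2^m` and `{ω | h ≤ #(Sbox .. ω ..)}`. The function `ω ↦ (#(Sbox ..) : ℝ)` is measurable: it is
`∑ β, if (∃ i, ..) then 1 else 0`, and for each `β` the set of `ω` with `∃ i, ..` is a countable union over `i` of sets of the form `{ω | ¬ Pft ..}`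
(or empty), and `{ω | Pft n Cond b ω x w}` is measurable (a finite intersection of `{ω | ω e < b}`, or empty).

`block_core`: let `α` be as in the statement; `0 < α` since `F (Iic a0) ≠ 0`, `α < 1` since `F (Iic a0) < 1` (as `F (Ioi a0) ≠ 0`) and
`card (Sl D) ≠ 0`. Take `π` from `exists_coupling (Sl D) F hF0 hF1`. By `pi_eq_envB` (with `S = {EvA}` and `S = {T ≤ μ - ..}`), for
`Q = (pi π).prod (pi F)`: `P {EvA} = ∫⁻ q, ofReal (∑ c, PP c * (if EvA .. then 1 else 0)) ∂Q`, and similarly for the other event.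
For `Q`-almost all `q = (z, Y)`: `∀ β s, (z β).1 s ≤ a0 ∧ (z β).1 s ≤ (z β).2 s` (`Measure.ae_...`: `ae_all_iff` over `β`, and
`(measurePreserving_eval _ β).quasiMeasurePreserving.ae`, first projection `quasiMeasurePreserving_fst`; see `ae_nu3` and its use in `prob_main`, Prob.lean).
For such `q`, `block_fix` holds; in its left side the condition `∀ β, c β ≠ 1` may be dropped since `PP α (1-α) c = 0` if some
`c β = 1` (`wt α (1-α) 1 = 0`). So pointwise: `∑ PP * (if EvA) ≤ 2 exp C0 * ∑ PP * (if T ≤ ..) + 2 exp (-C0)`; take `ofReal`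
(`ENNReal.ofReal_add`, `ENNReal.ofReal_mul`) and integrate (`lintegral_mono_ae`, `lintegral_add_right`, `lintegral_const_mul`, `lintegral_const`).
-/

set_option autoImplicit false

namespace Pool.Agent.TVR

open Finset Pool.Agent.Helper46.Tor MeasureTheory
open scoped NNReal ENNReal

private theorem meas_Pft (n : ℕ) [NeZero n] (Cond : List (Fin 4) → Prop) (b : ℝ≥0)
    (x : ZMod n × ZMod n) (w : List (Fin 4)) :
    Measurable fun ω : Sym2 (ZMod n × ZMod n) → ℝ≥0 => Pft n Cond b ω x w := by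
  unfold Pft
  refine Measurable.and measurable_const ?_
  refine Measurable.forall fun e => ?_
  refine Measurable.imp measurable_const ?_
  exact measurableSet_setOfPred.1 (measurableSet_lt (measurable_pi_apply e) measurable_const)

private theorem meas_mem_Sbox (n K D : ℕ) [NeZero n] (Cond : List (Fin 4) → Prop) (b : ℝ≥0)
    (a x : ZMod n × ZMod n) (w : List (Fin 4)) (β : ZMod n × ZMod n) :
    Measurable fun ω : Sym2 (ZMod n × ZMod n) → ℝ≥0 => β ∈ Sbox n K D Cond b a ω x w := by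
  classical
  have h1 : (fun ω : Sym2 (ZMod n × ZMod n) → ℝ≥0 => β ∈ Sbox n K D Cond b a ω x w) =
      fun ω => ∃ i, i + K ≤ w.length ∧ InBox n K D a (x + proj n (tot (w.take i))) ∧
        bx n D a (x + proj n (tot (w.take i))) = β ∧
        ¬ Pft n Cond b ω (x + proj n (tot (w.take i))) ((w.drop i).take K) := by
    funext ω
    unfold Sbox
    rw [mem_filter]
    simp only [mem_univ, true_and]
  rw [h1]
  refine Measurable.exists fun i => ?_
  exact measurable_const.and (measurable_const.and (measurable_const.and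
    (meas_Pft n Cond b _ _).not))

private theorem meas_card_Sbox (n K D : ℕ) [NeZero n] (Cond : List (Fin 4) → Prop) (b : ℝ≥0)
    (a x : ZMod n × ZMod n) (w : List (Fin 4)) (h : ℝ) :
    Measurable fun ω : Sym2 (ZMod n × ZMod n) → ℝ≥0 => h ≤ #(Sbox n K D Cond b a ω x w) := by
  classical
  have h1 : (fun ω : Sym2 (ZMod n × ZMod n) → ℝ≥0 => h ≤ #(Sbox n K D Cond b a ω x w)) =
      fun ω => ∃ S : Finset (ZMod n × ZMod n), h ≤ #S ∧
        ∀ β, (β ∈ Sbox n K D Cond b a ω x w ↔ β ∈ S) := by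
    funext ω
    apply propext
    constructor
    · intro h2
      exact ⟨_, h2, fun β => Iff.rfl⟩
    · rintro ⟨S, h2, h3⟩
      rwa [Finset.ext h3]
  rw [h1]
  refine Measurable.exists fun S => ?_
  refine measurable_const.and (Measurable.forall fun β => ?_)
  exact (meas_mem_Sbox n K D Cond b a x w β).iff measurable_const

theorem measurableSet_EvA (n m K D : ℕ) [NeZero n] (Cond : List (Fin 4) → Prop) (r b : ℝ≥0)
    (a : ZMod n × ZMod n) (h μ : ℝ) :
    MeasurableSet {ω : Sym2 (ZMod n × ZMod n) → ℝ≥0 | EvA n m K D Cond r b a h μ ω} := by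
  rw [measurableSet_setOfPred]
  unfold EvA
  refine Measurable.and ?_ (Measurable.and ?_ ?_)
  · refine Measurable.forall fun e => ?_
    exact measurableSet_setOfPred.1 (measurableSet_le measurable_const (measurable_pi_apply e))
  · exact measurableSet_setOfPred.1 (measurableSet_le (measurable_T n) measurable_const)
  · refine Measurable.exists fun g => ?_
    exact (measurableSet_setOfPred.1 (measurableSet_least n g)).and
      (measurable_const.and (meas_card_Sbox n K D Cond b a g.1.1 g.1.2 h))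

private theorem PP_one {n : ℕ} [NeZero n] {α : ℝ} {c : ZMod n × ZMod n → Fin 3}
    (h : ¬ ∀ β, c β ≠ 1) : PP α (1 - α) c = 0 := by
  push Not at h
  obtain ⟨β, hβ⟩ := h
  unfold PP
  refine prod_eq_zero (mem_univ β) ?_
  rw [hβ]
  simp [wt]

theorem block_core (n m k K D : ℕ) [NeZero n] [NeZero D] (hn : n ≤ 2 ^ m)
    (hk : 3 ≤ k) (hkm : 4 ^ k * k ≤ m) {Cond : List (Fin 4) → Prop} {r b a0 : ℝ≥0} {c1 : ℝ}
    (hc1 : 0 < c1) (himp : Impr K Cond r b a0 c1) (F : Measure ℝ≥0) [IsProbabilityMeasure F]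
    (hF0 : F (Set.Iic a0) ≠ 0) (hF1 : F (Set.Ioi a0) ≠ 0) {α ε C0 : ℝ}
    (hα : α = (F (Set.Iic a0)).toReal ^ Fintype.card (Sl D))
    (hε : 0 ≤ ε) (hε1 : ε ≤ 1) (hC0 : 4 ≤ C0)
    (hε2 : 7488 * k * 4 ^ m * ε ^ 2 ≤ α * 2 ^ k)
    (hε3 : ∀ l : Lb k, (pex k l : ℝ) * ε ≤ α)
    (a : ZMod n × ZMod n) (h μ : ℝ) (hh : 0 ≤ h) (hεh : 5 ≤ ε * h) :
    (Measure.pi fun _ : Sym2 (ZMod n × ZMod n) => F) {ω | EvA n m K D Cond r b a h μ ω} ≤
      ENNReal.ofReal (2 * Real.exp C0) *
        (Measure.pi fun _ : Sym2 (ZMod n × ZMod n) => F) {ω | T n ω ≤ μ - c1 * (ε * h / 2)} +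
      ENNReal.ofReal (2 * Real.exp (-C0)) := by
  classical
  have hne : Nonempty (Sl D) := ⟨s(((0 : Fin D), (0 : Fin D)), ((0 : Fin D), (0 : Fin D)))⟩
  have hα0 : 0 < α := by
    rw [hα]
    exact pow_pos (ENNReal.toReal_pos hF0 (measure_ne_top F _)) _
  have hlt : F (Set.Iic a0) < 1 := by
    rcases lt_or_ge (F (Set.Iic a0)) 1 with h1 | h1
    · exact h1
    · exfalso
      apply hF1
      have h2 : F (Set.Iic a0) = 1 := le_antisymm prob_le_one h1
      have h3 := CplH.F_sum (F := F) (a := a0)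
      rw [h2] at h3
      have h4 : (1 : ℝ≥0∞) + F (Set.Ioi a0) = 1 + 0 := by rw [h3, add_zero]
      exact (ENNReal.add_right_inj ENNReal.one_ne_top).1 h4
  have hα1 : α < 1 := by
    rw [hα]
    refine pow_lt_one₀ ENNReal.toReal_nonneg ?_ Fintype.card_ne_zero
    rw [← ENNReal.toReal_one]
    exact (ENNReal.toReal_lt_toReal (measure_ne_top F _) ENNReal.one_ne_top).2 hlt
  obtain ⟨π, hπp, hπae, hπ⟩ := exists_coupling (Sl D) F hF0 hF1
  rw [← hα] at hπ
  have mA := measurableSet_EvA n m K D Cond r b a h μ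
  have mB : MeasurableSet {ω : Sym2 (ZMod n × ZMod n) → ℝ≥0 | T n ω ≤ μ - c1 * (ε * h / 2)} :=
    measurableSet_le (measurable_T n) measurable_const
  rw [pi_eq_envB a F hα0.le hα1.le π hπ _ mA, pi_eq_envB a F hα0.le hα1.le π hπ _ mB,
    ← lintegral_const_mul' _ _ ENNReal.ofReal_ne_top]
  have hconst : ENNReal.ofReal (2 * Real.exp (-C0)) =
      ∫⁻ _q, ENNReal.ofReal (2 * Real.exp (-C0)) ∂((Measure.pi fun _ : ZMod n × ZMod n => π).prod
          (Measure.pi fun _ : Sym2 (ZMod n × ZMod n) => F)) := by simp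
  rw [hconst, ← lintegral_add_right _ measurable_const]
  apply lintegral_mono_ae
  have h1 : ∀ᵐ z ∂(Measure.pi fun _ : ZMod n × ZMod n => π),
      ∀ β : ZMod n × ZMod n, ∀ s, (z β).1 s ≤ a0 ∧ (z β).1 s ≤ (z β).2 s := by
    rw [ae_all_iff]
    intro β
    exact (Measure.tendsto_eval_ae_ae (μ := fun _ : ZMod n × ZMod n => π)
      (i := β)).eventually hπae
  have h2 := (Measure.quasiMeasurePreserving_fst (μ := Measure.pi fun _ : ZMod n × ZMod n => π)
    (ν := Measure.pi fun _ : Sym2 (ZMod n × ZMod n) => F)).ae h1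
  filter_upwards [h2] with q hq
  have hfix := block_fix n m k K D hn hk hkm hc1 himp hα0 hα1 hε hε1 hC0 hε2 hε3 a q.1 q.2 hq
    h μ hh hεh
  rw [← ENNReal.ofReal_mul (by positivity), ← ENNReal.ofReal_add]
  · apply ENNReal.ofReal_le_ofReal
    have hfin : ∀ x y z w : ℝ, 1 / 2 * x ≤ Real.exp C0 * y + Real.exp (-C0) → z = y → w = x →
        w ≤ 2 * Real.exp C0 * z + 2 * Real.exp (-C0) := by
      intro x y z w h1 h2 h3
      subst h2 h3
      linarith
    refine hfin _ _ _ _ hfix rfl ?_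
    refine sum_congr rfl fun c _ => ?_
    by_cases hc : ∀ β, c β ≠ 1
    · congr 1
      by_cases hE : EvA n m K D Cond r b a h μ (envB n D a c q.1 q.2)
      · exact (if_pos hE).trans (if_pos ⟨hc, hE⟩).symm
      · exact (if_neg hE).trans (if_neg (fun hh => hE hh.2)).symm
    · rw [PP_one hc, zero_mul, zero_mul]
  · refine mul_nonneg (by positivity) ?_
    exact sum_nonneg fun c _ => mul_nonneg (PP_nonneg hα0.le (by linarith) (by linarith) c)
      (by split_ifs <;> norm_num)
  · positivity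

end Pool.Agent.TVR
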