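import Pool.Agent.TVR.Law
import Pool.Agent.Helper46.Tor.Mix

/-!
# TVR / Cpl: monotone coupling of a block conditioned to be low and conditioned not to be low

Let `q = F (Iic a)`, `α = q^{card Λ}` (as a real), `low = {z : Λ → ℝ≥0 | ∀ s, z s ≤ a}`.
On `Ω0 = (Λ → ℝ≥0) × (Λ → ℝ≥0)` with the law `P0 = (pi F) ⊗ (pi (lawL F a))` (`lawL F a` = `F` conditioned on `Iic a`, Mix.lean)
put `x s = if z s ≤ a then z s else l s`, `y = z`, and let `π` be the law of `(x, y)` under `P0` conditioned on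
`z ∉ low` (`π = (1-α)⁻¹ • (P0.restrict {z ∉ low}).map (x, y)`).
(1) `x s ≤ a` and `x s ≤ y s`: clear for `lawL`-almost all `l` (`l s ≤ a < z s` if `z s > a`).
(2) Law of `y` under `π`: `pi F` conditioned on the complement of `low`.
(3) Law of `x` under `π`: `pi (lawL F a)`. Indeed for measurable `t s`: decompose over the pattern `T = {s | a < z s}` (nonempty finset):
`P0 (pattern T, ∀ s, x s ∈ t s) = ∏_{s ∈ T} (1-q) lawL(t s) * ∏_{s ∉ T} F (t s ∩ Iic a) = (1-q)^{#T} q^{#Tᶜ} ∏_s lawL (t s)`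
(`lawL_mul`), and the sum of `(1-q)^{#T} q^{#Tᶜ}` over the nonempty `T` is `1 - α`. (`Measure.pi_eq` / a π-system argument on boxes.)
(4) So the law of `if c = 0 then x else y` with `P(c = 0) = α`, `P(c = 2) = 1-α` (`muK α (1-α)`) is
`α • pi lawL + (1-α) • (pi F | not low) = (pi F).restrict low + (pi F).restrict lowᶜ = pi F`
(on a box `t`: `α ∏ lawL (t s) = ∏ F (t s ∩ Iic a) = (pi F)(box ∩ low)`).
-/

set_option autoImplicit false

namespace Pool.Agent.TVR

open Pool.Agent.Helper46.Tor MeasureTheory Set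
open scoped NNReal ENNReal

namespace CplH

/-- one coordinate -/
noncomputable def g1 (a : ℝ≥0) (p : ℝ≥0 × ℝ≥0) : ℝ≥0 := if p.1 ≤ a then p.1 else p.2

theorem g1_meas (a : ℝ≥0) : Measurable (g1 a) :=
  Measurable.ite (measurableSet_le measurable_fst measurable_const) measurable_fst measurable_snd

/-- all coordinates -/
noncomputable def gx {Λ : Type} (a : ℝ≥0) (p : (Λ → ℝ≥0) × (Λ → ℝ≥0)) : Λ → ℝ≥0 :=
  fun s => if p.1 s ≤ a then p.1 s else p.2 s

theorem gx_meas {Λ : Type} (a : ℝ≥0) :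
    Measurable (gx a : (Λ → ℝ≥0) × (Λ → ℝ≥0) → Λ → ℝ≥0) := by
  refine measurable_pi_iff.2 fun s => ?_
  have h1 : Measurable (fun p : (Λ → ℝ≥0) × (Λ → ℝ≥0) => (p.1 s, p.2 s)) := by fun_prop
  exact (g1_meas a).comp h1

variable {F : Measure ℝ≥0} [IsProbabilityMeasure F] {a : ℝ≥0}

theorem F_sum : F (Iic a) + F (Ioi a) = 1 := by
  rw [← compl_Iic]
  exact prob_add_prob_compl measurableSet_Iic

theorem map_g1 (h0 : F (Iic a) ≠ 0) : (F.prod (lawL F a)).map (g1 a) = lawL F a := by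
  have := lawL_prob h0
  ext S hS
  rw [Measure.map_apply (g1_meas a) hS]
  have e : g1 a ⁻¹' S = ((S ∩ Iic a) ×ˢ univ) ∪ (Ioi a ×ˢ S) := by
    ext ⟨x, y⟩
    unfold g1
    simp only [mem_preimage, mem_union, mem_prod, mem_inter_iff, mem_Iic, mem_univ, and_true,
      mem_Ioi]
    by_cases hx : x ≤ a
    · rw [if_pos hx]
      simp [hx]
    · rw [if_neg hx]
      simp [not_le.1 hx, hx]
  rw [e, measure_union _ (measurableSet_Ioi.prod hS), Measure.prod_prod, Measure.prod_prod,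
    measure_univ, mul_one, ← lawL_mul h0 S hS, ← add_mul, F_sum, one_mul]
  rw [Set.disjoint_left]
  rintro ⟨x, y⟩ hx hy
  have h1 : x ≤ a := hx.1.2
  have h2 : a < x := hy.1
  exact absurd h1 (not_le.2 h2)

theorem map_gx {Λ : Type} [Fintype Λ] (h0 : F (Iic a) ≠ 0) :
    ((Measure.pi fun _ : Λ => F).prod (Measure.pi fun _ : Λ => lawL F a)).map (gx a) =
      Measure.pi fun _ : Λ => lawL F a := by
  have := lawL_prob h0
  have h1 := measurePreserving_arrowProdEquivProdArrow ℝ≥0 ℝ≥0 Λ (fun _ => F) (fun _ => lawL F a)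
  rw [← h1.map_eq, Measure.map_map (gx_meas a) h1.measurable]
  have h2 : (gx a : (Λ → ℝ≥0) × (Λ → ℝ≥0) → Λ → ℝ≥0) ∘
      (MeasurableEquiv.arrowProdEquivProdArrow ℝ≥0 ℝ≥0 Λ) = fun x i => g1 a (x i) := rfl
  rw [h2]
  have h3 : ∀ _ : Λ, SigmaFinite ((F.prod (lawL F a)).map (g1 a)) := fun _ => by
    rw [map_g1 h0]
    infer_instance
  rw [Measure.pi_map_pi (μ := fun _ : Λ => F.prod (lawL F a)) (f := fun _ : Λ => g1 a)
    (fun _ => (g1_meas a).aemeasurable)]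
  simp only [map_g1 h0]

/-- the low configurations -/
def low (Λ : Type) (a : ℝ≥0) : Set (Λ → ℝ≥0) := Set.pi univ fun _ => Iic a

theorem low_meas (Λ : Type) [Fintype Λ] (a : ℝ≥0) : MeasurableSet (low Λ a) :=
  MeasurableSet.univ_pi fun _ => measurableSet_Iic

/-- the conditioned law -/
theorem low_law {Λ : Type} [Fintype Λ] (h0 : F (Iic a) ≠ 0) (S : Set (Λ → ℝ≥0))
    (hS : MeasurableSet S) :
    (Measure.pi fun _ : Λ => F) (S ∩ low Λ a) =
      F (Iic a) ^ Fintype.card Λ * (Measure.pi fun _ : Λ => lawL F a) S := by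
  have := lawL_prob h0
  have h1 := Measure.restrict_pi_pi (fun _ : Λ => F) (fun _ : Λ => Iic a)
  have h2 : (Measure.pi fun _ : Λ => F.restrict (Iic a)) =
      F (Iic a) ^ Fintype.card Λ • Measure.pi fun _ : Λ => lawL F a := by
    refine (Measure.pi_eq fun t ht => ?_)
    rw [Measure.smul_apply, Measure.pi_pi, smul_eq_mul, ← Finset.card_univ, ← Finset.prod_const,
      ← Finset.prod_mul_distrib]
    refine Finset.prod_congr rfl fun i _ => ?_
    rw [lawL_mul h0 _ (ht i), Measure.restrict_apply (ht i)]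
  have h3 := congrArg (fun m : Measure (Λ → ℝ≥0) => m S) (h1.trans h2)
  simp only [Measure.restrict_apply hS, Measure.smul_apply, smul_eq_mul] at h3
  exact h3

/-- law of the first component, on the configurations which are not low -/
theorem not_low_law {Λ : Type} [Fintype Λ] (h0 : F (Iic a) ≠ 0) (S : Set (Λ → ℝ≥0))
    (hS : MeasurableSet S) :
    ((Measure.pi fun _ : Λ => F).prod (Measure.pi fun _ : Λ => lawL F a))
        (gx a ⁻¹' S ∩ Prod.fst ⁻¹' (low Λ a)ᶜ) =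
      (1 - F (Iic a) ^ Fintype.card Λ) * (Measure.pi fun _ : Λ => lawL F a) S := by
  have := lawL_prob h0
  have hlow : MeasurableSet (Prod.fst ⁻¹' low Λ a : Set ((Λ → ℝ≥0) × (Λ → ℝ≥0))) :=
    measurable_fst (low_meas Λ a)
  have h1 : ((Measure.pi fun _ : Λ => F).prod (Measure.pi fun _ : Λ => lawL F a)) (gx a ⁻¹' S) =
      (Measure.pi fun _ : Λ => lawL F a) S := by
    rw [← Measure.map_apply (gx_meas a) hS, map_gx h0]
  have h2 : ((Measure.pi fun _ : Λ => F).prod (Measure.pi fun _ : Λ => lawL F a))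
      (gx a ⁻¹' S ∩ Prod.fst ⁻¹' low Λ a) =
      F (Iic a) ^ Fintype.card Λ * (Measure.pi fun _ : Λ => lawL F a) S := by
    have e : (gx a ⁻¹' S ∩ Prod.fst ⁻¹' low Λ a : Set ((Λ → ℝ≥0) × (Λ → ℝ≥0))) =
        (S ∩ low Λ a) ×ˢ univ := by
      ext ⟨z, l⟩
      simp only [mem_inter_iff, mem_preimage, mem_prod, mem_univ, and_true]
      constructor
      · rintro ⟨h1, h2⟩
        have h3 : gx a (z, l) = z := by
          funext s
          exact if_pos (h2 s (mem_univ s))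
        rw [h3] at h1
        exact ⟨h1, h2⟩
      · rintro ⟨h1, h2⟩
        have h3 : gx a (z, l) = z := by
          funext s
          exact if_pos (h2 s (mem_univ s))
        rw [h3]
        exact ⟨h1, h2⟩
    rw [e, Measure.prod_prod, measure_univ, mul_one, low_law h0 S hS]
  have h3 := measure_inter_add_sdiff (μ := (Measure.pi fun _ : Λ => F).prod
    (Measure.pi fun _ : Λ => lawL F a)) (gx a ⁻¹' S) hlow
  rw [h1, h2] at h3
  have h4 : (gx a ⁻¹' S ∩ Prod.fst ⁻¹' (low Λ a)ᶜ : Set ((Λ → ℝ≥0) × (Λ → ℝ≥0))) =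
      gx a ⁻¹' S \ Prod.fst ⁻¹' low Λ a := by
    rw [preimage_compl, sdiff_eq]
  rw [h4, ENNReal.sub_mul (fun _ _ => measure_ne_top _ _), one_mul]
  have h5 : F (Iic a) ^ Fintype.card Λ * (Measure.pi fun _ : Λ => lawL F a) S ≠ ∞ :=
    ENNReal.mul_ne_top (ENNReal.pow_ne_top (measure_ne_top _ _)) (measure_ne_top _ _)
  exact ENNReal.eq_sub_of_add_eq h5 (by rw [add_comm]; exact h3)

end CplH

open CplH

theorem exists_coupling (Λ : Type) [Fintype Λ] [Nonempty Λ] (F : Measure ℝ≥0)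
    [IsProbabilityMeasure F] {a : ℝ≥0} (h0 : F (Iic a) ≠ 0) (h1 : F (Ioi a) ≠ 0) :
    ∃ π : Measure ((Λ → ℝ≥0) × (Λ → ℝ≥0)), IsProbabilityMeasure π ∧
      (∀ᵐ p ∂π, ∀ s, p.1 s ≤ a ∧ p.1 s ≤ p.2 s) ∧
      ((muK ((F (Iic a)).toReal ^ Fintype.card Λ) (1 - (F (Iic a)).toReal ^ Fintype.card Λ)).prod
        π).map (fun q => if q.1 = 0 then q.2.1 else q.2.2) = Measure.pi fun _ : Λ => F := by
  have hL := lawL_prob h0
  obtain ⟨A, hA⟩ : ∃ A : ℝ≥0∞, A = F (Iic a) ^ Fintype.card Λ := ⟨_, rfl⟩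
  have hA1 : A < 1 := by
    have hF : F (Iic a) < 1 := by
      rcases lt_or_ge (F (Iic a)) 1 with h | h
      · exact h
      · exfalso
        apply h1
        have h2 : F (Iic a) = 1 := le_antisymm prob_le_one h
        have h3 := F_sum (F := F) (a := a)
        rw [h2] at h3
        have h4 : (1 : ℝ≥0∞) + F (Ioi a) = 1 + 0 := by rw [h3, add_zero]
        exact (ENNReal.add_right_inj ENNReal.one_ne_top).1 h4
    rw [hA]
    exact pow_lt_one₀ bot_le hF Fintype.card_ne_zero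
  have hAt : A ≠ ∞ := ne_top_of_lt hA1
  obtain ⟨B, hB⟩ : ∃ B : ℝ≥0∞, B = 1 - A := ⟨_, rfl⟩
  have hB0 : B ≠ 0 := by
    rw [hB]
    exact (tsub_pos_of_lt hA1).ne'
  have hBt : B ≠ ∞ := by
    rw [hB]
    exact ENNReal.sub_ne_top ENNReal.one_ne_top
  have hAB : A + B = 1 := by
    rw [hB]
    exact add_tsub_cancel_of_le hA1.le
  obtain ⟨P, hP⟩ : ∃ P : Measure ((Λ → ℝ≥0) × (Λ → ℝ≥0)),
    P = (Measure.pi fun _ : Λ => F).prod (Measure.pi fun _ : Λ => lawL F a) := ⟨_, rfl⟩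
  have hPp : IsProbabilityMeasure P := by
    rw [hP]
    infer_instance
  have hG : Measurable (fun p : (Λ → ℝ≥0) × (Λ → ℝ≥0) => (gx a p, p.1)) :=
    (gx_meas a).prodMk measurable_fst
  have hN : MeasurableSet (Prod.fst ⁻¹' (low Λ a)ᶜ : Set ((Λ → ℝ≥0) × (Λ → ℝ≥0))) :=
    measurable_fst (low_meas Λ a).compl
  obtain ⟨π, hπ⟩ : ∃ π : Measure ((Λ → ℝ≥0) × (Λ → ℝ≥0)), π = B⁻¹ •
    ((P.restrict (Prod.fst ⁻¹' (low Λ a)ᶜ)).map (fun p => (gx a p, p.1))) := ⟨_, rfl⟩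
  have hπS : ∀ S : Set ((Λ → ℝ≥0) × (Λ → ℝ≥0)), MeasurableSet S →
      π S = B⁻¹ * P ((fun p => (gx a p, p.1)) ⁻¹' S ∩ Prod.fst ⁻¹' (low Λ a)ᶜ) := fun S hS => by
    rw [hπ, Measure.smul_apply, smul_eq_mul, Measure.map_apply hG hS,
      Measure.restrict_apply (hG hS)]
  have hx : ∀ S : Set (Λ → ℝ≥0), MeasurableSet S → π (Prod.fst ⁻¹' S) =
      (Measure.pi fun _ : Λ => lawL F a) S := fun S hS => by
    rw [hπS _ (measurable_fst hS)]
    have e : (fun p : (Λ → ℝ≥0) × (Λ → ℝ≥0) => (gx a p, p.1)) ⁻¹' (Prod.fst ⁻¹' S) = gx a ⁻¹' S := rfl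
    rw [e, hP, not_low_law h0 S hS, ← hA, ← hB, ← mul_assoc, ENNReal.inv_mul_cancel hB0 hBt,
      one_mul]
  have hy : ∀ S : Set (Λ → ℝ≥0), MeasurableSet S → π (Prod.snd ⁻¹' S) =
      B⁻¹ * (Measure.pi fun _ : Λ => F) (S \ low Λ a) := fun S hS => by
    rw [hπS _ (measurable_snd hS)]
    have e : (fun p : (Λ → ℝ≥0) × (Λ → ℝ≥0) => (gx a p, p.1)) ⁻¹' (Prod.snd ⁻¹' S) ∩
        Prod.fst ⁻¹' (low Λ a)ᶜ = (S \ low Λ a) ×ˢ univ := by
      ext ⟨z, l⟩
      simp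
    rw [e, hP, Measure.prod_prod, measure_univ, mul_one]
  have hπp : IsProbabilityMeasure π := by
    refine ⟨?_⟩
    have := hx univ MeasurableSet.univ
    rw [preimage_univ] at this
    rw [this]
    exact measure_univ
  refine ⟨π, hπp, ?_, ?_⟩
  · have hms : MeasurableSet {p : (Λ → ℝ≥0) × (Λ → ℝ≥0) | ∀ s, p.1 s ≤ a ∧ p.1 s ≤ p.2 s} := by
      have : {p : (Λ → ℝ≥0) × (Λ → ℝ≥0) | ∀ s, p.1 s ≤ a ∧ p.1 s ≤ p.2 s} =
          ⋂ s, {p : (Λ → ℝ≥0) × (Λ → ℝ≥0) | p.1 s ≤ a ∧ p.1 s ≤ p.2 s} := by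
        ext p
        simp
      rw [this]
      refine MeasurableSet.iInter fun s => ?_
      have e1 : MeasurableSet {p : (Λ → ℝ≥0) × (Λ → ℝ≥0) | p.1 s ≤ a} :=
        measurableSet_le (by fun_prop) (by fun_prop)
      have e2 : MeasurableSet {p : (Λ → ℝ≥0) × (Λ → ℝ≥0) | p.1 s ≤ p.2 s} :=
        measurableSet_le (by fun_prop) (by fun_prop)
      exact e1.inter e2
    rw [hπ]
    apply Measure.ae_smul_measure
    rw [ae_map_iff hG.aemeasurable hms]
    apply ae_restrict_of_ae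
    have hl : ∀ᵐ x ∂(lawL F a), x ≤ a := by
      unfold lawL
      apply Measure.ae_smul_measure
      exact ae_restrict_mem measurableSet_Iic
    have hl2 : ∀ᵐ l ∂(Measure.pi fun _ : Λ => lawL F a), ∀ s, l s ≤ a := by
      rw [ae_all_iff]
      intro s
      exact (Measure.quasiMeasurePreserving_eval (fun _ : Λ => lawL F a) s).ae hl
    have hl3 : ∀ᵐ p ∂P, ∀ s, p.2 s ≤ a := by
      rw [hP]
      exact Measure.quasiMeasurePreserving_snd.ae hl2
    filter_upwards [hl3] with p hp s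
    change (if p.1 s ≤ a then p.1 s else p.2 s) ≤ a ∧
      (if p.1 s ≤ a then p.1 s else p.2 s) ≤ p.1 s
    split_ifs with h
    · exact ⟨h, le_rfl⟩
    · exact ⟨hp s, (hp s).trans (not_le.1 h).le⟩
  · have hf : Measurable (fun q : Fin 3 × ((Λ → ℝ≥0) × (Λ → ℝ≥0)) =>
        if q.1 = 0 then q.2.1 else q.2.2) :=
      Measurable.ite (measurable_fst (MeasurableSet.singleton 0)) (by fun_prop) (by fun_prop)
    have hAr : ENNReal.ofReal ((F (Iic a)).toReal ^ Fintype.card Λ) = A := by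
      rw [ENNReal.ofReal_pow ENNReal.toReal_nonneg, ENNReal.ofReal_toReal (measure_ne_top _ _), hA]
    have hBr : ENNReal.ofReal (1 - (F (Iic a)).toReal ^ Fintype.card Λ) = B := by
      rw [ENNReal.ofReal_sub _ (by positivity), hAr, ENNReal.ofReal_one, hB]
    have hCr : (1 : ℝ) - (F (Iic a)).toReal ^ Fintype.card Λ -
        (1 - (F (Iic a)).toReal ^ Fintype.card Λ) = 0 := by ring
    ext S hS
    rw [Measure.map_apply hf hS, Measure.prod_apply (hf hS)]
    unfold muK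
    rw [lintegral_finsetSum_measure]
    simp only [lintegral_smul_measure, lintegral_dirac, smul_eq_mul]
    rw [Fin.sum_univ_three]
    have w0 : wt ((F (Iic a)).toReal ^ Fintype.card Λ) (1 - (F (Iic a)).toReal ^ Fintype.card Λ) 0 =
        (F (Iic a)).toReal ^ Fintype.card Λ := rfl
    have w1 : wt ((F (Iic a)).toReal ^ Fintype.card Λ) (1 - (F (Iic a)).toReal ^ Fintype.card Λ) 1 =
        0 := hCr
    have w2 : wt ((F (Iic a)).toReal ^ Fintype.card Λ) (1 - (F (Iic a)).toReal ^ Fintype.card Λ) 2 =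
        1 - (F (Iic a)).toReal ^ Fintype.card Λ := rfl
    rw [w0, w1, w2, hAr, hBr, ENNReal.ofReal_zero, zero_mul, add_zero]
    have p0 : π (Prod.mk (0 : Fin 3) ⁻¹' ((fun q : Fin 3 × ((Λ → ℝ≥0) × (Λ → ℝ≥0)) =>
        if q.1 = 0 then q.2.1 else q.2.2) ⁻¹' S)) = (Measure.pi fun _ : Λ => lawL F a) S := by
      rw [← hx S hS]
      rfl
    have p2 : π (Prod.mk (2 : Fin 3) ⁻¹' ((fun q : Fin 3 × ((Λ → ℝ≥0) × (Λ → ℝ≥0)) =>
        if q.1 = 0 then q.2.1 else q.2.2) ⁻¹' S)) =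
        B⁻¹ * (Measure.pi fun _ : Λ => F) (S \ low Λ a) := by
      rw [← hy S hS]
      rfl
    rw [p0, p2, ← mul_assoc, ENNReal.mul_inv_cancel hB0 hBt, one_mul, hA, ← low_law h0 S hS]
    exact measure_inter_add_sdiff _ (low_meas Λ a)

end Pool.Agent.TVR
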