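import Pool.Agent.TVR.BDefs
import Pool.Agent.TVR.Cpl

/-!
# TVR / EnvB: the environment in terms of block states

A pair `e` of vertices of the same box `β` (all `v ∈ e` have `bx n D a v = β`; `β` is unique since `e` is nonempty) is given
the weight of the slot `e.map (rl n D a)` of the block `β`; the other pairs keep the weights `Y`.

`envB_mp`. The index map `idx : Sym2 V → (V × Sl D) ⊕ Sym2 V`, `e ↦ inl (β, e.map rl)` or `inr e`, is injective (`bx_rl_inj`: if
`e.map rl = e'.map rl` and both are in the box `β` then `e = e'`; use `Sym2.ind` and `Sym2.map_pair_eq`, `Sym2.eq_iff`). So: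
(1) by the coupling hypothesis and `measurePreserving_pi` (after `measurePreserving_arrowProdEquivProdArrow`, as in `conf_mp` of
Mix.lean) `(c, z) ↦ fun β => if c β = 0 then (z β).1 else (z β).2` maps `(pi muK) ⊗ (pi π)` to `pi (fun _ : V => pi fun _ : Sl D => F)`;
(2) uncurrying, `V → Sl D → ℝ≥0` with this law is `V × Sl D → ℝ≥0` with law `pi F` (`iid_eq`/`Measure.pi_eq` on boxes);
(3) together with `Y`: functions on `(V × Sl D) ⊕ Sym2 V` with law `pi F`;
(4) composition with the injection `idx`: `mix_mp` (Law.lean) with `I = univ`, and `iid_pi`.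
It is also possible to verify directly the values on boxes (`Measure.pi_eq`), by Fubini.

`pi_eq_envB`: `envB_mp.measure_preimage`, `Measure.prod_apply_symm` and `pi_muK_apply` (as in `pi_F_eq` of Mix.lean).
-/

set_option autoImplicit false

namespace Pool.Agent.TVR

open Finset Pool.Agent.Helper46.Tor MeasureTheory
open scoped NNReal ENNReal

/-- the slots of a block -/
abbrev Sl (D : ℕ) : Type := Sym2 (Fin D × Fin D)

/-- low and high weights of a block -/
abbrev Aux (D : ℕ) : Type := (Sl D → ℝ≥0) × (Sl D → ℝ≥0)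

open Classical in
/-- the environment with block states `c`, block weights `z` and other weights `Y` -/
noncomputable def envB (n D : ℕ) [NeZero D] (a : ZMod n × ZMod n) (c : ZMod n × ZMod n → Fin 3)
    (z : ZMod n × ZMod n → Aux D) (Y : Sym2 (ZMod n × ZMod n) → ℝ≥0) :
    Sym2 (ZMod n × ZMod n) → ℝ≥0 := fun e =>
  if h : ∃ β, ∀ v ∈ e, bx n D a v = β then
    (if c h.choose = 0 then (z h.choose).1 (e.map (rl n D a))
      else (z h.choose).2 (e.map (rl n D a)))
  else Y e

variable {n D : ℕ} [NeZero D] {a : ZMod n × ZMod n} {c c' : ZMod n × ZMod n → Fin 3}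
  {z : ZMod n × ZMod n → Aux D} {Y : Sym2 (ZMod n × ZMod n) → ℝ≥0}

theorem envB_of {e : Sym2 (ZMod n × ZMod n)} {β : ZMod n × ZMod n}
    (h : ∀ v ∈ e, bx n D a v = β) :
    envB n D a c z Y e = if c β = 0 then (z β).1 (e.map (rl n D a))
      else (z β).2 (e.map (rl n D a)) := by
  have hex : ∃ β, ∀ v ∈ e, bx n D a v = β := ⟨β, h⟩
  have h1 : hex.choose = β := by
    obtain ⟨v, hv⟩ : ∃ v, v ∈ e := by
      induction e with
      | _ x y => exact ⟨x, Sym2.mem_mk_left x y⟩
    rw [← h v hv, ← hex.choose_spec v hv]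
  unfold envB
  rw [dif_pos hex, h1]

/-- raising the states raises the weights -/
theorem envB_mono (hz : ∀ β s, (z β).1 s ≤ (z β).2 s)
    (h : ∀ β, c β = c' β ∨ (c β = 0 ∧ c' β = 2)) (e : Sym2 (ZMod n × ZMod n)) :
    envB n D a c z Y e ≤ envB n D a c' z Y e := by
  by_cases hex : ∃ β, ∀ v ∈ e, bx n D a v = β
  · obtain ⟨β, hβ⟩ := hex
    rw [envB_of hβ, envB_of hβ]
    rcases h β with h1 | ⟨h1, h2⟩
    · rw [h1]
    · rw [if_pos h1, if_neg (by rw [h2]; decide)]
      exact hz β _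
  · unfold envB
    rw [dif_neg hex, dif_neg hex]

/-- the weight of `e` depends only on the states of the boxes of its vertices -/
theorem envB_congr {e : Sym2 (ZMod n × ZMod n)} (h : ∀ v ∈ e, c (bx n D a v) = c' (bx n D a v)) :
    envB n D a c z Y e = envB n D a c' z Y e := by
  by_cases hex : ∃ β, ∀ v ∈ e, bx n D a v = β
  · obtain ⟨β, hβ⟩ := hex
    rw [envB_of hβ, envB_of hβ]
    obtain ⟨v, hv⟩ : ∃ v, v ∈ e := by
      induction e with
      | _ x y => exact ⟨x, Sym2.mem_mk_left x y⟩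
    have h1 := h v hv
    rw [hβ v hv] at h1
    rw [h1]
  · unfold envB
    rw [dif_neg hex, dif_neg hex]

theorem envB_low {a0 : ℝ≥0} (hz : ∀ β s, (z β).1 s ≤ a0) {β : ZMod n × ZMod n} (hc : c β = 0)
    {e : Sym2 (ZMod n × ZMod n)} (h : ∀ v ∈ e, bx n D a v = β) : envB n D a c z Y e ≤ a0 := by
  rw [envB_of h, if_pos hc]
  exact hz β _

theorem measurable_envB [NeZero n] (a : ZMod n × ZMod n) : Measurable
    (fun q : (ZMod n × ZMod n → Fin 3) ×
      ((ZMod n × ZMod n → Aux D) × (Sym2 (ZMod n × ZMod n) → ℝ≥0)) =>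
      envB n D a q.1 q.2.1 q.2.2) := by
  classical
  rw [measurable_pi_iff]
  intro e
  by_cases hex : ∃ β, ∀ v ∈ e, bx n D a v = β
  · obtain ⟨β, hβ⟩ := hex
    simp only [envB_of hβ]
    refine Measurable.ite ?_ ?_ ?_
    · have m0 : Measurable fun q : (ZMod n × ZMod n → Fin 3) ×
          ((ZMod n × ZMod n → Aux D) × (Sym2 (ZMod n × ZMod n) → ℝ≥0)) => q.1 β :=
        (measurable_pi_apply β).comp measurable_fst
      exact m0 (MeasurableSet.singleton (0 : Fin 3))
    · exact (measurable_pi_apply _).comp (measurable_fst.comp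
        ((measurable_pi_apply β).comp (measurable_fst.comp measurable_snd)))
    · exact (measurable_pi_apply _).comp (measurable_snd.comp
        ((measurable_pi_apply β).comp (measurable_fst.comp measurable_snd)))
  · unfold envB
    simp only [dif_neg hex]
    exact (measurable_pi_apply e).comp (measurable_snd.comp measurable_snd)

open Classical in
/-- The box and the slot of a pair. -/
private noncomputable def io99 (n D : ℕ) [NeZero D] (a : ZMod n × ZMod n)
    (e : Sym2 (ZMod n × ZMod n)) : (ZMod n × ZMod n) × Sl D :=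
  (if h : ∃ β, ∀ v ∈ e, bx n D a v = β then h.choose else 0, e.map (rl n D a))

private theorem io_of99 {e : Sym2 (ZMod n × ZMod n)} {β : ZMod n × ZMod n}
    (h : ∀ v ∈ e, bx n D a v = β) : io99 n D a e = (β, e.map (rl n D a)) := by
  have hex : ∃ β, ∀ v ∈ e, bx n D a v = β := ⟨β, h⟩
  have h1 : hex.choose = β := by
    obtain ⟨v, hv⟩ : ∃ v, v ∈ e := by
      induction e with
      | _ x y => exact ⟨x, Sym2.mem_mk_left x y⟩
    rw [← h v hv, ← hex.choose_spec v hv]
  unfold io99
  rw [dif_pos hex, h1]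

private theorem io_inj99 : Set.InjOn (io99 n D a) {e | ∃ β, ∀ v ∈ e, bx n D a v = β} := by
  rintro e ⟨β, hβ⟩ e' ⟨β', hβ'⟩ h
  rw [io_of99 hβ, io_of99 hβ', Prod.mk.injEq] at h
  obtain ⟨rfl, h2⟩ := h
  induction e with
  | _ x y =>
    induction e' with
    | _ x' y' =>
      rw [Sym2.map_mk, Sym2.map_mk, Sym2.eq_iff] at h2
      have bxx := hβ x (Sym2.mem_mk_left x y)
      have bxy := hβ y (Sym2.mem_mk_right x y)
      have bxx' := hβ' x' (Sym2.mem_mk_left x' y')
      have bxy' := hβ' y' (Sym2.mem_mk_right x' y')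
      rw [Sym2.eq_iff]
      rcases h2 with ⟨h3, h4⟩ | ⟨h3, h4⟩
      · exact Or.inl ⟨bx_rl_inj a (bxx.trans bxx'.symm) h3, bx_rl_inj a (bxy.trans bxy'.symm) h4⟩
      · exact Or.inr ⟨bx_rl_inj a (bxx.trans bxy'.symm) h3, bx_rl_inj a (bxy.trans bxx'.symm) h4⟩

/-- The environment in terms of `mixf`. -/
private theorem envB_mixf99 (c : ZMod n × ZMod n → Fin 3)
    (z : ZMod n × ZMod n → Aux D) (Y : Sym2 (ZMod n × ZMod n) → ℝ≥0) :
    envB n D a c z Y = mixf {e | ∃ β, ∀ v ∈ e, bx n D a v = β} (io99 n D a)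
      (fun p : (ZMod n × ZMod n) × Sl D => (if c p.1 = 0 then (z p.1).1 else (z p.1).2) p.2, Y) := by
  funext e
  by_cases hex : ∃ β, ∀ v ∈ e, bx n D a v = β
  · obtain ⟨β, hβ⟩ := hex
    rw [envB_of hβ]
    unfold mixf
    rw [if_pos (show e ∈ {e | ∃ β, ∀ v ∈ e, bx n D a v = β} from ⟨β, hβ⟩), io_of99 hβ]
    dsimp only
    split_ifs <;> rfl
  · unfold envB mixf
    rw [dif_neg hex, if_neg (show e ∉ {e | ∃ β, ∀ v ∈ e, bx n D a v = β} from hex)]

/-- The weights of the blocks are independent with law `F`. -/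
private theorem blocks_mp99 (V Λ : Type) [Fintype V] [Fintype Λ] (F : Measure ℝ≥0)
    [IsProbabilityMeasure F] {α : ℝ} (hα : 0 ≤ α) (hα1 : α ≤ 1)
    (π : Measure ((Λ → ℝ≥0) × (Λ → ℝ≥0))) [IsProbabilityMeasure π]
    (hπ : ((muK α (1 - α)).prod π).map (fun q => if q.1 = 0 then q.2.1 else q.2.2) =
      Measure.pi fun _ : Λ => F) :
    MeasurePreserving
      (fun (q : (V → Fin 3) × (V → (Λ → ℝ≥0) × (Λ → ℝ≥0))) (p : V × Λ) =>
        (if q.1 p.1 = 0 then (q.2 p.1).1 else (q.2 p.1).2) p.2)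
      ((Measure.pi fun _ : V => muK α (1 - α)).prod (Measure.pi fun _ : V => π))
      (iid (V × Λ) F) := by
  classical
  have : IsProbabilityMeasure (muK α (1 - α)) := muK_prob hα (by linarith) (by linarith)
  have hf : MeasurePreserving
      (fun q : Fin 3 × ((Λ → ℝ≥0) × (Λ → ℝ≥0)) => if q.1 = 0 then q.2.1 else q.2.2)
      ((muK α (1 - α)).prod π) (Measure.pi fun _ : Λ => F) := by
    refine ⟨?_, hπ⟩
    exact Measurable.ite (measurable_fst (MeasurableSet.singleton 0)) (by fun_prop) (by fun_prop)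
  have h1 := (measurePreserving_arrowProdEquivProdArrow (Fin 3) ((Λ → ℝ≥0) × (Λ → ℝ≥0)) V
    (fun _ => muK α (1 - α)) (fun _ => π)).symm
  have h2 := measurePreserving_pi
    (fun _ : V => (muK α (1 - α)).prod π) (fun _ : V => Measure.pi fun _ : Λ => F)
    (f := fun _ => fun q : Fin 3 × ((Λ → ℝ≥0) × (Λ → ℝ≥0)) =>
      if q.1 = 0 then q.2.1 else q.2.2) (fun _ => hf)
  have h3 : MeasurePreserving (MeasurableEquiv.curry V Λ ℝ≥0).symm
      (Measure.pi fun _ : V => Measure.pi fun _ : Λ => F) (iid (V × Λ) F) := by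
    refine ⟨(MeasurableEquiv.curry V Λ ℝ≥0).symm.measurable, ?_⟩
    have h4 := Measure.infinitePi_map_curry_symm (fun (_ : V) (_ : Λ) => F)
    unfold iid
    rw [← h4, Measure.infinitePi_eq_pi]
    congr 2
    funext i
    exact (Measure.infinitePi_eq_pi _).symm
  exact h3.comp (h2.comp h1)

theorem envB_mp [NeZero n] (a : ZMod n × ZMod n) (F : Measure ℝ≥0) [IsProbabilityMeasure F]
    {α : ℝ} (hα : 0 ≤ α) (hα1 : α ≤ 1) (π : Measure (Aux D)) [IsProbabilityMeasure π]
    (hπ : ((muK α (1 - α)).prod π).map (fun q => if q.1 = 0 then q.2.1 else q.2.2) =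
      Measure.pi fun _ : Sl D => F) :
    MeasurePreserving
      (fun q : (ZMod n × ZMod n → Fin 3) ×
        ((ZMod n × ZMod n → Aux D) × (Sym2 (ZMod n × ZMod n) → ℝ≥0)) =>
        envB n D a q.1 q.2.1 q.2.2)
      ((Measure.pi fun _ : ZMod n × ZMod n => muK α (1 - α)).prod
        ((Measure.pi fun _ : ZMod n × ZMod n => π).prod
          (Measure.pi fun _ : Sym2 (ZMod n × ZMod n) => F)))
      (Measure.pi fun _ : Sym2 (ZMod n × ZMod n) => F) := by
  have : IsProbabilityMeasure (muK α (1 - α)) := muK_prob hα (by linarith) (by linarith)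
  have h1 := blocks_mp99 (ZMod n × ZMod n) (Sl D) F hα hα1 π hπ
  have h2 := mix_mp (F := F) {e | ∃ β, ∀ v ∈ e, bx n D a v = β} (io99 n D a)
    (io_inj99 (n := n) (D := D) (a := a))
  have h3 : MeasurePreserving
      (Prod.map (fun (q : (ZMod n × ZMod n → Fin 3) × (ZMod n × ZMod n → Aux D))
        (p : (ZMod n × ZMod n) × Sl D) =>
        (if q.1 p.1 = 0 then (q.2 p.1).1 else (q.2 p.1).2) p.2)
        (id : (Sym2 (ZMod n × ZMod n) → ℝ≥0) → (Sym2 (ZMod n × ZMod n) → ℝ≥0)))
      (((Measure.pi fun _ : ZMod n × ZMod n => muK α (1 - α)).prod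
        (Measure.pi fun _ : ZMod n × ZMod n => π)).prod
          (iid (Sym2 (ZMod n × ZMod n)) F))
      ((iid ((ZMod n × ZMod n) × Sl D) F).prod (iid (Sym2 (ZMod n × ZMod n)) F)) :=
    h1.prod (MeasurePreserving.id _)
  have h4 := (measurePreserving_prodAssoc
    (Measure.pi fun _ : ZMod n × ZMod n => muK α (1 - α))
    (Measure.pi fun _ : ZMod n × ZMod n => π) (iid (Sym2 (ZMod n × ZMod n)) F)).symm
  have h5 := h2.comp (h3.comp h4)
  rw [iid_pi] at h5
  have h6 : (fun q : (ZMod n × ZMod n → Fin 3) ×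
        ((ZMod n × ZMod n → Aux D) × (Sym2 (ZMod n × ZMod n) → ℝ≥0)) =>
        envB n D a q.1 q.2.1 q.2.2) =
      mixf {e | ∃ β, ∀ v ∈ e, bx n D a v = β} (io99 n D a) ∘
        Prod.map (fun (q : (ZMod n × ZMod n → Fin 3) × (ZMod n × ZMod n → Aux D))
        (p : (ZMod n × ZMod n) × Sl D) =>
        (if q.1 p.1 = 0 then (q.2 p.1).1 else (q.2 p.1).2) p.2) id ∘
        MeasurableEquiv.prodAssoc.symm := by
    funext q
    rw [envB_mixf99]
    rfl
  rw [h6]
  exact h5

open Classical in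
theorem pi_eq_envB [NeZero n] (a : ZMod n × ZMod n) (F : Measure ℝ≥0) [IsProbabilityMeasure F]
    {α : ℝ} (hα : 0 ≤ α) (hα1 : α ≤ 1) (π : Measure (Aux D)) [IsProbabilityMeasure π]
    (hπ : ((muK α (1 - α)).prod π).map (fun q => if q.1 = 0 then q.2.1 else q.2.2) =
      Measure.pi fun _ : Sl D => F)
    (S : Set (Sym2 (ZMod n × ZMod n) → ℝ≥0)) (hS : MeasurableSet S) :
    (Measure.pi fun _ : Sym2 (ZMod n × ZMod n) => F) S =
      ∫⁻ q, ENNReal.ofReal (∑ c : ZMod n × ZMod n → Fin 3, PP α (1 - α) c *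
        (if envB n D a c q.1 q.2 ∈ S then (1 : ℝ) else 0))
        ∂((Measure.pi fun _ : ZMod n × ZMod n => π).prod
          (Measure.pi fun _ : Sym2 (ZMod n × ZMod n) => F)) := by
  have : IsProbabilityMeasure (muK α (1 - α)) := muK_prob hα (by linarith) (by linarith)
  rw [← (envB_mp a F hα hα1 π hπ).measure_preimage hS.nullMeasurableSet,
    Measure.prod_apply_symm ((measurable_envB a) hS)]
  apply lintegral_congr
  intro v
  have := pi_muK_apply (E := ZMod n × ZMod n) (α := α) (β := 1 - α) hα (by linarith) (by linarith)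
    (fun c => envB n D a c v.1 v.2 ∈ S)
  rw [← this]
  rfl

end Pool.Agent.TVR
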