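import Pool.Agent.Helper46.Tor.Core

/-!
# TVR / ErrSum: the error term, and the region of vertices

`err_sum'` is `Tor.err_sum` with a general exponent `C0 ≥ 4` and general regions. Same proof: each term is at most
`exp (-(p-1) C0 + p)`, `p = pex k l`; at level `r` there are at most `2^p ≤ e^p` labels, so the sum over a level is at most
`exp (C0 - p (C0 - 2)) ≤ exp (C0 - 8k (C0 - 2))` (`p ≥ 8k`), and the sum over the `4^k ≤ e^{2k}` levels is at most
`exp (C0 - 8 k C0 + 18 k) ≤ exp (-C0)` because `(8k-2) C0 ≥ 4 (8k-2) ≥ 18 k` for `k ≥ 3`.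

`region_verts` is `Tor.region_thm` with the vertices in place of the edges: the proof of `region_thm` shows
`hmem : ∀ s ≤ 2^m, x + proj n (tot (w.take s)) ∈ VR n σ d`; the bound for `#(VR n σ d)` is contained in the proof of
`RE_card_le` (`#(VR) ≤ 9 2^k σ^2 (52 2^j) = 468 * 2^(j+k) σ^2`), copy these two proofs.
-/

set_option autoImplicit false

namespace Pool.Agent.TVR

open Finset Pool.Agent.Helper46.Tor

namespace ErrSumAux

theorem VR_card_le (f g : ℕ → ℤ) (n j k σ : ℕ) [NeZero n] (hσ : 0 < σ) (d : Dat j k)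
    (hd3 : ∀ i : Fin (2 ^ j), ((d.2 i).2.2 : ℕ) = rad f g σ (2 ^ k) i)
    (hE : ∑ i ∈ range (2 ^ j), (2 ^ k : ℝ) * (vv f σ (2 ^ k) i + vv g σ (2 ^ k) i) ≤
      (σ : ℝ) ^ 2 * 2 ^ j) :
    (#(VR n σ d) : ℝ) ≤ 936 * (2 ^ (j + k) * (σ : ℝ) ^ 2) := by
  have hσ' : (0:ℝ) < σ := by exact_mod_cast hσ
  have hσ1 : (1:ℝ) ≤ σ := by exact_mod_cast hσ
  have h2 := VR_card n σ d
  have h3 : (#(VR n σ d) : ℝ) ≤ ∑ i : Fin (2 ^ j), (2:ℝ) ^ k * (3 * (σ * rad f g σ (2 ^ k) i)) ^ 2 := by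
    calc (#(VR n σ d) : ℝ) ≤ ((∑ i : Fin (2 ^ j), 2 ^ k * (2 * (σ * ((d.2 i).2.2 : ℕ)) + 1) ^ 2 : ℕ) : ℝ) := by
          exact_mod_cast h2
      _ = ∑ i : Fin (2 ^ j), (2:ℝ) ^ k * (2 * (σ * rad f g σ (2 ^ k) i) + 1) ^ 2 := by
          push_cast
          apply Finset.sum_congr rfl
          intro i _
          rw [hd3 i]
      _ ≤ _ := by
          apply Finset.sum_le_sum
          intro i _
          have hr4 : (4:ℝ) ≤ rad f g σ (2 ^ k) i := by
            have : 4 ≤ rad f g σ (2 ^ k) i := by unfold rad; omega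
            exact_mod_cast this
          gcongr
          nlinarith
  have h4 : ∑ i : Fin (2 ^ j), (2:ℝ) ^ k * (3 * (σ * rad f g σ (2 ^ k) i)) ^ 2 =
      9 * 2 ^ k * (σ:ℝ) ^ 2 * ∑ i ∈ range (2 ^ j), (rad f g σ (2 ^ k) i : ℝ) ^ 2 := by
    rw [Fin.sum_univ_eq_sum_range (fun i => (2:ℝ) ^ k * (3 * (σ * rad f g σ (2 ^ k) i)) ^ 2) (2 ^ j),
      Finset.mul_sum]
    apply Finset.sum_congr rfl
    intro i _
    ring
  have h5 : ∑ i ∈ range (2 ^ j), (rad f g σ (2 ^ k) i : ℝ) ^ 2 ≤ 52 * 2 ^ j := by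
    calc ∑ i ∈ range (2 ^ j), (rad f g σ (2 ^ k) i : ℝ) ^ 2
        ≤ ∑ i ∈ range (2 ^ j), (2 * ((2:ℝ) ^ k * (vv f σ (2 ^ k) i + vv g σ (2 ^ k) i)) /
          (σ : ℝ) ^ 2 + 50) := by
          apply Finset.sum_le_sum
          intro i _
          have := rad_sq_le f g σ (2 ^ k) i hσ
          push_cast at this
          exact this
      _ = 2 * (∑ i ∈ range (2 ^ j), (2:ℝ) ^ k * (vv f σ (2 ^ k) i + vv g σ (2 ^ k) i)) /
          (σ : ℝ) ^ 2 + 50 * 2 ^ j := by
          rw [Finset.sum_add_distrib, ← Finset.sum_div, ← Finset.mul_sum]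
          simp
          ring
      _ ≤ 2 * ((σ : ℝ) ^ 2 * 2 ^ j) / (σ : ℝ) ^ 2 + 50 * 2 ^ j := by gcongr
      _ = 52 * 2 ^ j := by field_simp; ring
  calc (#(VR n σ d) : ℝ) ≤ 9 * 2 ^ k * (σ:ℝ) ^ 2 * (52 * 2 ^ j) := by
        rw [h4] at h3
        have : 9 * 2 ^ k * (σ:ℝ) ^ 2 * ∑ i ∈ range (2 ^ j), (rad f g σ (2 ^ k) i : ℝ) ^ 2 ≤
          9 * 2 ^ k * (σ:ℝ) ^ 2 * (52 * 2 ^ j) := by gcongr
        linarith
    _ ≤ 936 * (2 ^ (j + k) * (σ:ℝ) ^ 2) := by
        rw [pow_add]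
        have : (0:ℝ) ≤ 2 ^ j * 2 ^ k * (σ:ℝ) ^ 2 := by positivity
        nlinarith

end ErrSumAux

open ErrSumAux

theorem err_sum' {B : Type} [Fintype B] [DecidableEq B] (m k : ℕ) (hk : 3 ≤ k) {α ε C0 : ℝ}
    (hα : 0 < α) (hα1 : α < 1) (hε : 0 ≤ ε) (hε1 : ε ≤ 1) (hC0 : 4 ≤ C0)
    (hε2 : 7488 * k * 4 ^ m * ε ^ 2 ≤ α * 2 ^ k)
    (hε3 : ∀ l : Lb k, (pex k l : ℝ) * ε ≤ α)
    (Rg : Lb k → Finset B) (labels : Finset (Lb k))
    (hl : ∀ l ∈ labels, (#(Rg l) : ℝ) ≤ 936 * (2 ^ (2 * m) / 2 ^ (l.1 * k + k))) :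
    ∑ l ∈ labels, Real.exp (-((pex k l : ℝ) - 1) * C0) *
        (∑ s, wt α (1 - α) s * rho α (1 - α) ε s ^ (pex k l)) ^ #(Rg l) ≤ Real.exp (-C0) := by
  have hβ : 0 < 1 - α := by linarith
  have hs : α + (1 - α) ≤ 1 := by linarith
  have hterm : ∀ l ∈ labels, Real.exp (-((pex k l : ℝ) - 1) * C0) *
        (∑ s, wt α (1 - α) s * rho α (1 - α) ε s ^ (pex k l)) ^ #(Rg l) ≤
      Real.exp (-((pex k l : ℝ) - 1) * C0 + (pex k l : ℝ)) := by
    intro l hll
    have h1 := rho_moment hα hβ hs hε (pex k l) (hε3 l)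
    have h0 : 0 ≤ ∑ s, wt α (1 - α) s * rho α (1 - α) ε s ^ (pex k l) :=
      Finset.sum_nonneg fun s _ => mul_nonneg (wt_nonneg hα.le hβ.le hs s)
        (pow_nonneg (rho_nonneg hα hβ.le hε hε1 s) _)
    have h2 : (∑ s, wt α (1 - α) s * rho α (1 - α) ε s ^ (pex k l)) ^ #(Rg l) ≤
        Real.exp (pex k l) := by
      calc _ ≤ (Real.exp ((pex k l : ℝ) ^ 2 * ε ^ 2 / α)) ^ #(Rg l) :=
            pow_le_pow_left₀ h0 h1 _
        _ = Real.exp (#(Rg l) * ((pex k l : ℝ) ^ 2 * ε ^ 2 / α)) := by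
            rw [← Real.exp_nat_mul]
        _ ≤ Real.exp (pex k l) := by
            apply Real.exp_le_exp.mpr
            have hR := hl l hll
            have hpe : (pex k l : ℝ) = 8 * k * 2 ^ (l.1 * k : ℕ) := by
              unfold pex; push_cast; ring
            calc (#(Rg l) : ℝ) * ((pex k l : ℝ) ^ 2 * ε ^ 2 / α)
                ≤ 936 * (2 ^ (2 * m) / 2 ^ (l.1 * k + k)) * ((pex k l : ℝ) ^ 2 * ε ^ 2 / α) := by
                  gcongr
              _ = (pex k l : ℝ) * ((7488 * k * 4 ^ m * ε ^ 2) / (α * 2 ^ k)) := by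
                  rw [pow_add, hpe]
                  have : (2:ℝ) ^ (2 * m) = 4 ^ m := by rw [pow_mul]; norm_num
                  rw [this]
                  field_simp
                  ring
              _ ≤ (pex k l : ℝ) * 1 := by
                  apply mul_le_mul_of_nonneg_left _ (Nat.cast_nonneg _)
                  rw [div_le_one (by positivity)]
                  exact hε2
              _ = _ := mul_one _
    calc _ ≤ Real.exp (-((pex k l : ℝ) - 1) * C0) * Real.exp (pex k l) := by gcongr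
      _ = _ := by rw [← Real.exp_add]
  calc _ ≤ ∑ l ∈ labels, Real.exp (-((pex k l : ℝ) - 1) * C0 + (pex k l : ℝ)) :=
        Finset.sum_le_sum hterm
    _ ≤ ∑ l : Lb k, Real.exp (-((pex k l : ℝ) - 1) * C0 + (pex k l : ℝ)) :=
        Finset.sum_le_sum_of_subset_of_nonneg (Finset.subset_univ _)
          fun _ _ _ => (Real.exp_pos _).le
    _ = ∑ r : Fin (4 ^ k), ∑ _d : Dat (r * k) k,
          Real.exp (-(((8 * k * 2 ^ (r * k : ℕ) : ℕ) : ℝ) - 1) * C0 + ((8 * k * 2 ^ (r * k : ℕ) : ℕ) : ℝ)) := by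
        rw [Fintype.sum_sigma]
        rfl
    _ ≤ ∑ r : Fin (4 ^ k), Real.exp (C0 - 8 * k * (C0 - 2)) := by
        apply Finset.sum_le_sum
        intro r _
        rw [Finset.sum_const, Finset.card_univ, nsmul_eq_mul]
        set p := 8 * k * 2 ^ (r * k : ℕ) with hp
        have hc : (Fintype.card (Dat (r * k) k) : ℝ) ≤ 2 ^ p := by
          exact_mod_cast card_Dat (r * k) k hk
        have h2e : (2:ℝ) ^ p ≤ Real.exp p := by
          calc (2:ℝ) ^ p ≤ (Real.exp 1) ^ p := by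
                gcongr
                have := Real.add_one_le_exp (1:ℝ); linarith
            _ = Real.exp p := by rw [← Real.exp_nat_mul, mul_one]
        calc (Fintype.card (Dat (r * k) k) : ℝ) * Real.exp (-((p : ℝ) - 1) * C0 + p)
            ≤ Real.exp p * Real.exp (-((p : ℝ) - 1) * C0 + p) := by
              gcongr
              exact hc.trans h2e
          _ = Real.exp (C0 - p * (C0 - 2)) := by rw [← Real.exp_add]; congr 1; ring
          _ ≤ Real.exp (C0 - 8 * k * (C0 - 2)) := by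
              apply Real.exp_le_exp.mpr
              have h1 : (8 * k : ℝ) ≤ p := by
                rw [hp]
                push_cast
                have : (1:ℝ) ≤ 2 ^ (r * k : ℕ) := one_le_pow₀ (by norm_num)
                have hk0 : (0:ℝ) ≤ 8 * k := by positivity
                nlinarith
              nlinarith
    _ = (4 ^ k : ℝ) * Real.exp (C0 - 8 * k * (C0 - 2)) := by
        rw [Finset.sum_const, Finset.card_univ, Fintype.card_fin, nsmul_eq_mul]
        push_cast; ring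
    _ ≤ Real.exp (2 * k) * Real.exp (C0 - 8 * k * (C0 - 2)) := by
        gcongr
        calc (4:ℝ) ^ k ≤ (Real.exp 2) ^ k := by
              gcongr
              have h1 : Real.exp 2 = Real.exp 1 * Real.exp 1 := by
                rw [← Real.exp_add]; norm_num
              have h2 := Real.add_one_le_exp (1:ℝ)
              rw [h1]; nlinarith
          _ = Real.exp (2 * k) := by rw [← Real.exp_nat_mul]; congr 1; ring
    _ ≤ Real.exp (-C0) := by
        rw [← Real.exp_add]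
        apply Real.exp_le_exp.mpr
        have : (3:ℝ) ≤ k := by exact_mod_cast hk
        nlinarith

theorem region_verts (n m k : ℕ) [NeZero n] (hn : n ≤ 2 ^ m) (hkm : 4 ^ k * k ≤ m)
    (x : ZMod n × ZMod n) (w : List (Fin 4)) (hw : w.length ≤ 2 ^ m) :
    ∃ l : Lb k, (∀ i ≤ w.length, x + proj n (tot (w.take i)) ∈ VR n (2 ^ (m - l.1 * k - k)) l.2) ∧
      (#(VR n (2 ^ (m - l.1 * k - k)) l.2) : ℝ) ≤ 936 * (2 ^ (2 * m) / 2 ^ (l.1 * k + k)) := by
  let P : ℕ → ℤ × ℤ := fun i => rep n x + tot (w.take i)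
  let f : ℕ → ℤ := fun i => (P i).1
  let g : ℕ → ℤ := fun i => (P i).2
  have hstep : ∀ i, |f (i + 1) - f i| + |g (i + 1) - g i| ≤ 1 := by
    intro i
    have h1 : w.take (i + 1) = w.take i ++ (w.drop i).take 1 := by rw [List.take_add]
    have h2 : P (i + 1) - P i = tot ((w.drop i).take 1) := by
      simp only [P]
      rw [h1, tot_append]
      abel
    have h3 := tot_abs ((w.drop i).take 1)
    have h4 : ((w.drop i).take 1).length ≤ 1 := List.length_take_le _ _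
    rw [← h2] at h3
    have h5 : ((((w.drop i).take 1).length : ℕ) : ℤ) ≤ 1 := by exact_mod_cast h4
    simp only [Prod.fst_sub, Prod.snd_sub] at h3
    simp only [f, g]
    linarith
  obtain ⟨r, hr, hE⟩ := exists_scale f g hstep m k (4 ^ k) (by positivity) hkm
  have hrk : (r + 1) * k ≤ m := le_trans (Nat.mul_le_mul_right k hr) hkm
  have hrk' : r * k + k ≤ m := by rw [← Nat.succ_mul]; exact hrk
  set j := r * k with hj
  set σ := 2 ^ (m - j - k) with hσdef
  have hσ : 0 < σ := by positivity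
  have hm : 2 ^ (j + k) * σ = 2 ^ m := by
    rw [hσdef, ← pow_add]; congr 1; omega
  have hx1 : (rep n x).1 < n := by
    simp only [rep]; exact_mod_cast ZMod.val_lt x.1
  have hx2 : (rep n x).2 < n := by
    simp only [rep]; exact_mod_cast ZMod.val_lt x.2
  have hn' : (n : ℤ) ≤ 2 ^ (j + k) * σ := by
    have : n ≤ 2 ^ (j + k) * σ := by rw [hm]; exact hn
    exact_mod_cast this
  have hf0 : f 0 = (rep n x).1 := by simp [f, P, tot_nil]
  have hg0 : g 0 = (rep n x).2 := by simp [g, P, tot_nil]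
  obtain ⟨d, hd1, hd2, hd3⟩ := exists_dat f g hstep j k σ hσ
    (by rw [hf0]; exact Int.natCast_nonneg _) (by rw [hg0]; exact Int.natCast_nonneg _)
    (by rw [hf0]; linarith) (by rw [hg0]; linarith)
  have hmem : ∀ s ≤ 2 ^ m, x + proj n (tot (w.take s)) ∈ VR n σ d := by
    intro s hs
    have := mem_VR f g hstep n j k σ hσ d hd1 hd2 hd3 s (by rw [← pow_add, hm]; exact hs)
    have e : proj n (f s, g s) = x + proj n (tot (w.take s)) := by
      have : (f s, g s) = P s := rfl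
      rw [this]
      simp only [P]
      rw [proj_add, proj_rep]
    rwa [e] at this
  refine ⟨⟨⟨r, hr⟩, d⟩, fun i hi => hmem i (hi.trans hw), ?_⟩
  · have hsum : ∑ i ∈ range (2 ^ j), (2 ^ k : ℝ) * (vv f σ (2 ^ k) i + vv g σ (2 ^ k) i) ≤
      (σ : ℝ) ^ 2 * 2 ^ j := by
      rw [← Finset.mul_sum, Finset.sum_add_distrib,
        sum_vv f σ (2 ^ k) (2 ^ j) (by positivity) hσ,
        sum_vv g σ (2 ^ k) (2 ^ j) (by positivity) hσ]
      have e1 : 2 ^ (m - (r + 1) * k) = σ := by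
        rw [hσdef, hj]; congr 1; rw [Nat.succ_mul]; omega
      have e2 : 2 ^ ((r + 1) * k) = 2 ^ j * 2 ^ k := by
        rw [hj, ← pow_add]; congr 1; rw [Nat.succ_mul]
      have e3 : 2 ^ (m - j) = 2 ^ k * σ := by
        rw [hσdef, ← pow_add]; congr 1; omega
      rw [e1, e2, e3] at hE
      have hE' : (En f σ (2 ^ j * 2 ^ k) - En f (2 ^ k * σ) (2 ^ j)) +
          (En g σ (2 ^ j * 2 ^ k) - En g (2 ^ k * σ) (2 ^ j)) ≤ 2 ^ m / ((4 ^ k : ℕ) : ℝ) := by
        linarith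
      have hσ' : (0:ℝ) < σ := by exact_mod_cast hσ
      calc (2:ℝ) ^ k * (σ * (En f σ (2 ^ j * 2 ^ k) - En f (2 ^ k * σ) (2 ^ j)) +
            σ * (En g σ (2 ^ j * 2 ^ k) - En g (2 ^ k * σ) (2 ^ j)))
          = 2 ^ k * σ * ((En f σ (2 ^ j * 2 ^ k) - En f (2 ^ k * σ) (2 ^ j)) +
            (En g σ (2 ^ j * 2 ^ k) - En g (2 ^ k * σ) (2 ^ j))) := by ring
        _ ≤ 2 ^ k * σ * (2 ^ m / ((4 ^ k : ℕ) : ℝ)) := by gcongr
        _ = (σ : ℝ) ^ 2 * 2 ^ j := by
            have h1 : (2:ℝ) ^ m = 2 ^ (j + k) * σ := by exact_mod_cast hm.symm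
            have h4 : ((4 ^ k : ℕ) : ℝ) = 2 ^ k * 2 ^ k := by
              push_cast
              rw [← mul_pow]; norm_num
            rw [h1, h4, pow_add]
            field_simp
    have hc := VR_card_le f g n j k σ hσ d hd3 hsum
    simp only
    refine hc.trans (le_of_eq ?_)
    have h1 : (2:ℝ) ^ m = 2 ^ (j + k) * σ := by exact_mod_cast hm.symm
    have h2 : (2:ℝ) ^ (2 * m) = (2 ^ (j + k) * σ) ^ 2 := by rw [← h1]; ring
    rw [h2]
    show 936 * (2 ^ (j + k) * (σ:ℝ) ^ 2) = 936 * (((2:ℝ) ^ (j + k) * σ) ^ 2 / 2 ^ (j + k))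
    field_simp

end Pool.Agent.TVR
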