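import Pool.Agent.TVR.BDefs

/-!
# TVR / Repl: simultaneous improvement of imperfect windows in different boxes

Proof of `replace` by induction on `#S'`, for all words `w` (same start `x`). `S' = ∅`: `w' = w`
(`costL` is monotone in the weights). Otherwise choose for each `β ∈ S'` a position `i β` as in the definition of `Sbox`
(`i β + K ≤ |w|`, `InBox`, box `β`, window not perfect). For `β ≠ β'` with `i β ≤ i β'`: `i β + K < i β'`, because the vertex at
position `i β'` would be near the vertex at position `i β` (`near_take`), hence in the box `β` by `InBox`, but it is in the box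
`β' ≠ β`. Let `β0 ∈ S'` have the largest position `i0 = i β0`, `w = w1 ++ w2 ++ w3`, `w1 = w.take i0`, `w2 = (w.drop i0).take K`,
`w3 = w.drop (i0 + K)`. The windows of the other boxes are windows of `w1` (`i β + K ≤ i0`), so
`S' \ {β0} ⊆ Sbox .. x w1`, and the induction hypothesis gives `w1'` with `tot w1' = tot w1`, cost at most `cw w1 - c1 (#S' - 1)`.
`himp` for the window `w2` (started at `y = x + proj (tot w1)`; all pairs near `y` are in the box `β0`, so `ω' ≤ a0` there) gives
`w2'`. Take `w' = w1' ++ w2' ++ w3`: `costL_append`, `tot_append`, `proj_add`.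
-/

set_option autoImplicit false

namespace Pool.Agent.TVR

open Finset Pool.Agent.Helper46.Tor
open scoped NNReal

theorem cw_mono {n : ℕ} {ω ω' : Sym2 (ZMod n × ZMod n) → ℝ≥0} (h : ∀ e, ω' e ≤ ω e)
    (x : ZMod n × ZMod n) (w : List (Fin 4)) : cw n ω' x w ≤ cw n ω x w := by
  unfold cw costL
  exact List.sum_le_sum fun e _ => NNReal.coe_le_coe.2 (h e)

namespace ReplAux

theorem cw_append (n : ℕ) (ω : Sym2 (ZMod n × ZMod n) → ℝ≥0) (x : ZMod n × ZMod n)
    (w1 w2 : List (Fin 4)) :
    cw n ω x (w1 ++ w2) = cw n ω x w1 + cw n ω (x + proj n (tot w1)) w2 :=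
  costL_append n _ x w1 w2

theorem mem_Sbox {n K D : ℕ} [NeZero n] {Cond : List (Fin 4) → Prop} {b : ℝ≥0}
    {a : ZMod n × ZMod n} {ω : Sym2 (ZMod n × ZMod n) → ℝ≥0} {x : ZMod n × ZMod n}
    {w : List (Fin 4)} {β : ZMod n × ZMod n} :
    β ∈ Sbox n K D Cond b a ω x w ↔ ∃ i, i + K ≤ w.length ∧
      InBox n K D a (x + proj n (tot (w.take i))) ∧
      bx n D a (x + proj n (tot (w.take i))) = β ∧
      ¬ Pft n Cond b ω (x + proj n (tot (w.take i))) ((w.drop i).take K) := by
  unfold Sbox
  simp

/-- two positions in different boxes are far apart -/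
theorem far {n K D : ℕ} {a x : ZMod n × ZMod n} {w : List (Fin 4)} {i j : ℕ} (hij : i ≤ j)
    (hin : InBox n K D a (x + proj n (tot (w.take i))))
    (hne : bx n D a (x + proj n (tot (w.take j))) ≠ bx n D a (x + proj n (tot (w.take i)))) :
    i + K < j := by
  by_contra hcon
  push Not at hcon
  apply hne
  apply hin
  have e : w.take j = w.take i ++ (w.drop i).take (j - i) := by
    conv_lhs => rw [show j = i + (j - i) by omega]
    exact List.take_add
  have h1 := near_take (n := n) (x + proj n (tot (w.take i))) ((w.drop i).take (j - i)) (K := K)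
    (i := j - i) (by
      rw [List.length_take]
      exact (min_le_left _ _).trans (by omega))
  rw [List.take_take, min_self] at h1
  rw [e, tot_append, proj_add, ← add_assoc]
  exact h1

theorem main {n K D : ℕ} [NeZero n] {Cond : List (Fin 4) → Prop} {r b a0 : ℝ≥0} {c1 : ℝ}
    (himp : Impr K Cond r b a0 c1) {ω ω' : Sym2 (ZMod n × ZMod n) → ℝ≥0} (hr : ∀ e, r ≤ ω e)
    (hle : ∀ e, ω' e ≤ ω e) (a x : ZMod n × ZMod n) (m : ℕ) :
    ∀ (w : List (Fin 4)) (S' : Finset (ZMod n × ZMod n)), S'.card = m →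
    S' ⊆ Sbox n K D Cond b a ω x w →
    (∀ β ∈ S', ∀ e : Sym2 (ZMod n × ZMod n), (∀ v ∈ e, bx n D a v = β) → ω' e ≤ a0) →
    ∃ w' : List (Fin 4), tot w' = tot w ∧ cw n ω' x w' ≤ cw n ω x w - c1 * m := by
  induction m with
  | zero =>
    intro w S' _ _ _
    refine ⟨w, rfl, ?_⟩
    have := cw_mono hle x w
    simpa using this
  | succ m ih =>
    intro w S' hcard hS hlow
    have hne : S'.Nonempty := by
      rw [← Finset.card_pos, hcard]
      exact Nat.succ_pos m
    have hpos : ∀ β : ZMod n × ZMod n, ∃ i, β ∈ S' → (i + K ≤ w.length ∧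
      InBox n K D a (x + proj n (tot (w.take i))) ∧
      bx n D a (x + proj n (tot (w.take i))) = β ∧
      ¬ Pft n Cond b ω (x + proj n (tot (w.take i))) ((w.drop i).take K)) := by
      intro β
      by_cases hβ : β ∈ S'
      · obtain ⟨i, hi⟩ := mem_Sbox.1 (hS hβ)
        exact ⟨i, fun _ => hi⟩
      · exact ⟨0, fun h => absurd h hβ⟩
    choose ι hι using hpos
    obtain ⟨β0, hβ0, hmax⟩ := Finset.exists_max_image S' ι hne
    obtain ⟨k1, k2, k3, k4⟩ := hι β0 hβ0
    obtain ⟨i0, hi0⟩ : ∃ i0, i0 = ι β0 := ⟨_, rfl⟩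
    rw [← hi0] at k1 k2 k3 k4
    -- windows of the first part
    have hsub : S'.erase β0 ⊆ Sbox n K D Cond b a ω x (w.take i0) := by
      intro β hβ
      have hβ1 : β ∈ S' := Finset.mem_of_mem_erase hβ
      have hβ2 : β ≠ β0 := Finset.ne_of_mem_erase hβ
      obtain ⟨m1, m2, m3, m4⟩ := hι β hβ1
      have hlt : ι β + K < i0 := by
        refine far (by rw [hi0]; exact hmax β hβ1) m2 ?_
        rw [k3, m3]
        exact fun h => hβ2 h.symm
      refine mem_Sbox.2 ⟨ι β, ?_, ?_⟩
      · rw [List.length_take]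
        exact le_min hlt.le (by omega)
      · have e1 : (w.take i0).take (ι β) = w.take (ι β) := by
          rw [List.take_take, min_eq_left (by omega)]
        have e2 : ((w.take i0).drop (ι β)).take K = (w.drop (ι β)).take K := by
          rw [List.drop_take, List.take_take, min_eq_left (by omega)]
        rw [e1, e2]
        exact ⟨m2, m3, m4⟩
    have hcard' : (S'.erase β0).card = m := by
      rw [Finset.card_erase_of_mem hβ0, hcard]
      rfl
    obtain ⟨w1', t1, c1'⟩ := ih (w.take i0) (S'.erase β0) hcard' hsub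
      fun β hβ => hlow β (Finset.mem_of_mem_erase hβ)
    have hlen : ((w.drop i0).take K).length = K := by
      rw [List.length_take, List.length_drop]
      exact min_eq_left (by omega)
    obtain ⟨w2', t2, c2'⟩ := himp n ω ω' (x + proj n (tot (w.take i0))) ((w.drop i0).take K) hr hle
      hlen k4 fun e he => hlow β0 hβ0 e fun v hv => by rw [k2 v (he v hv), k3]
    have hw : w = w.take i0 ++ (w.drop i0).take K ++ w.drop (i0 + K) := by
      rw [List.append_assoc, ← List.drop_drop, List.take_append_drop, List.take_append_drop]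
    refine ⟨w1' ++ w2' ++ w.drop (i0 + K), ?_, ?_⟩
    · conv_rhs => rw [hw]
      rw [tot_append, tot_append, tot_append, tot_append, t1, t2]
    · have h3 : cw n ω x w = cw n ω x (w.take i0) +
          cw n ω (x + proj n (tot (w.take i0))) ((w.drop i0).take K) +
          cw n ω (x + proj n (tot (w.take i0 ++ (w.drop i0).take K))) (w.drop (i0 + K)) := by
        conv_lhs => rw [hw]
        rw [cw_append, cw_append]
      rw [h3, cw_append, cw_append, t1, tot_append, t1, t2, ← tot_append]
      have h4 := cw_mono hle (x + proj n (tot (w.take i0 ++ (w.drop i0).take K)))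
        (w.drop (i0 + K))
      push_cast
      linarith

end ReplAux

theorem replace {n K D : ℕ} [NeZero n] {Cond : List (Fin 4) → Prop} {r b a0 : ℝ≥0} {c1 : ℝ}
    (himp : Impr K Cond r b a0 c1) {ω ω' : Sym2 (ZMod n × ZMod n) → ℝ≥0} (hr : ∀ e, r ≤ ω e)
    (hle : ∀ e, ω' e ≤ ω e) (a x : ZMod n × ZMod n) (w : List (Fin 4))
    (S' : Finset (ZMod n × ZMod n)) (hS : S' ⊆ Sbox n K D Cond b a ω x w)
    (hlow : ∀ β ∈ S', ∀ e : Sym2 (ZMod n × ZMod n), (∀ v ∈ e, bx n D a v = β) → ω' e ≤ a0) :
    ∃ w' : List (Fin 4), tot w' = tot w ∧ cw n ω' x w' ≤ cw n ω x w - c1 * #S' :=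
  ReplAux.main himp hr hle a x _ w S' rfl hS hlow

end Pool.Agent.TVR
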