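import Pool.Agent.TVR.AbsCore
import Pool.Agent.TVR.ErrSum
import Pool.Agent.TVR.EnvB
import Pool.Agent.TVR.Repl

/-!
# TVR / BlockFix: the core inequality for fixed block weights

Apply `abs_core` with `B = V := ZMod n × ZMod n`, `Γ = Wind n`, `ω c = envB n D a c z Y`, `cost c g = cw n (ω c) g.1.1 g.1.2`,
`tch g = ` image of `i ↦ bx n D a (x + proj n (tot (w.take i)))`, `i ≤ |w|` (`g = (x, w)`), `rank = rankW n` (`rankW_injective`),
`geo c` = the `g` with `Least n (ω c) g` (`least_exists`), labels `Lb k`, `p = pex k`, `Rg l = (VR n (2^(m - l.1 k - k)) l.2).image (bx n D a)`,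
`lab g` from `region_verts` when `|w| ≤ 2^m` (arbitrary otherwise), `labels = {l | #(Rg l) ≤ 936 ..}`,
`A c = (∀ β, c β ≠ 1) ∧ EvA n m K D Cond r b a h μ (ω c)`.
* `hloc`: `costL` is a sum over the edges of `g`, both end points of an edge are vertices of `g` (`edgesL_mem`), `envB_congr`.
* `hmono`: `envB_mono`, `cw_mono`.
* `hlab`: `region_verts`; `tch g ⊆ Rg`; `#(image) ≤ #VR`.
* `hAμ`: `T_eq_least`.
* `hdrop`: `S = Sbox n K D Cond b a (ω c) x w` for `g = geo c = (x, w)` (the `g` in `EvA` is `geo c` by `least_unique`). `S ⊆ Rg`: its elements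
  are boxes of vertices of `g`. For `β ∈ S`: `c β = 2`: it is not `1`, and `c β = 0` is impossible: then all weights in the box are
  `≤ a0` (`envB_low`) and `replace` with `ω' = ω`, `S' = {β}` would give a cheaper winding word (`c1 > 0`), against `Least`.
  For `u : V → Bool` put `S' = S.filter (u · = true)` and `ω' = ω (lower (Rg l) c u)`: `ω' ≤ ω c` (`envB_mono`: lowered blocks go from state
  `2` to state `0`), for `β ∈ S'` the state of `β` is `0` after lowering, so `hlow` holds by `envB_low`; `replace` gives the word.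
* `5 ≤ ε h`, `err_sum'` for the error term (`Rg` as above). `Σ` over `c`: the left side of `abs_core` has the indicator of `A c`.
-/

set_option autoImplicit false

namespace Pool.Agent.TVR

open Finset Pool.Agent.Helper46.Tor
open scoped NNReal

/-- the event to which the lowering is applied -/
def EvA (n m K D : ℕ) [NeZero n] (Cond : List (Fin 4) → Prop) (r b : ℝ≥0)
    (a : ZMod n × ZMod n) (h μ : ℝ) (ω : Sym2 (ZMod n × ZMod n) → ℝ≥0) : Prop :=
  (∀ e, r ≤ ω e) ∧ T n ω ≤ μ ∧ ∃ g : Wind n, Least n ω g ∧ g.1.2.length ≤ 2 ^ m ∧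
    h ≤ #(Sbox n K D Cond b a ω g.1.1 g.1.2)

private theorem bf_cost {n D : ℕ} [NeZero n] [NeZero D] {a : ZMod n × ZMod n}
    {c c' : ZMod n × ZMod n → Fin 3}
    {z : ZMod n × ZMod n → Aux D} {Y : Sym2 (ZMod n × ZMod n) → ℝ≥0} (x : ZMod n × ZMod n)
    (w : List (Fin 4))
    (h : ∀ b ∈ (range (w.length + 1)).image (fun i => bx n D a (x + proj n (tot (w.take i)))),
      c b = c' b) :
    cw n (envB n D a c z Y) x w = cw n (envB n D a c' z Y) x w := by
  unfold cw costL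
  congr 1
  refine List.map_congr_left fun e he => ?_
  have h1 : envB n D a c z Y e = envB n D a c' z Y e := by
    refine envB_congr fun v hv => ?_
    obtain ⟨i, hi, rfl⟩ := edgesL_mem n x w e he v hv
    exact h _ (mem_image_of_mem _ (mem_range.2 (by omega)))
  rw [h1]

private theorem bf_two {n K D : ℕ} [NeZero n] [NeZero D]
    {Cond : List (Fin 4) → Prop} {r b a0 : ℝ≥0} {c1 : ℝ} (hc1 : 0 < c1)
    (himp : Impr K Cond r b a0 c1)
    (a : ZMod n × ZMod n) (z : ZMod n × ZMod n → Aux D) (Y : Sym2 (ZMod n × ZMod n) → ℝ≥0)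
    (hz : ∀ β s, (z β).1 s ≤ a0 ∧ (z β).1 s ≤ (z β).2 s) (c : ZMod n × ZMod n → Fin 3)
    (g : Wind n) (hr : ∀ e, r ≤ envB n D a c z Y e) (hg : Least n (envB n D a c z Y) g)
    (hc : ∀ β, c β ≠ 1) (β : ZMod n × ZMod n)
    (hβ : β ∈ Sbox n K D Cond b a (envB n D a c z Y) g.1.1 g.1.2) : c β = 2 := by
  have h0 : c β ≠ 0 := by
    intro h0
    obtain ⟨w', hw1, hw2⟩ := replace himp hr (fun e => le_rfl) a g.1.1 g.1.2 {β}
      (singleton_subset_iff.2 hβ) (fun β' hβ' e he => by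
        rw [mem_singleton] at hβ'
        subst hβ'
        exact envB_low (fun β s => (hz β s).1) h0 he)
    rw [card_singleton] at hw2
    have h1 := hg.1 ⟨(g.1.1, w'), hw1.trans g.2⟩
    have h2 : cw n (envB n D a c z Y) g.1.1 g.1.2 ≤ cw n (envB n D a c z Y) g.1.1 w' := h1
    push_cast at hw2
    linarith
  have h1 := hc β
  generalize c β = s at h0 h1
  fin_cases s
  · exact absurd rfl h0
  · exact absurd rfl h1
  · rfl

open Classical in
theorem block_fix (n m k K D : ℕ) [NeZero n] [NeZero D] (hn : n ≤ 2 ^ m)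
    (hk : 3 ≤ k) (hkm : 4 ^ k * k ≤ m) {Cond : List (Fin 4) → Prop} {r b a0 : ℝ≥0} {c1 : ℝ}
    (hc1 : 0 < c1) (himp : Impr K Cond r b a0 c1) {α ε C0 : ℝ} (hα : 0 < α) (hα1 : α < 1)
    (hε : 0 ≤ ε) (hε1 : ε ≤ 1) (hC0 : 4 ≤ C0)
    (hε2 : 7488 * k * 4 ^ m * ε ^ 2 ≤ α * 2 ^ k)
    (hε3 : ∀ l : Lb k, (pex k l : ℝ) * ε ≤ α)
    (a : ZMod n × ZMod n) (z : ZMod n × ZMod n → Aux D) (Y : Sym2 (ZMod n × ZMod n) → ℝ≥0)
    (hz : ∀ β s, (z β).1 s ≤ a0 ∧ (z β).1 s ≤ (z β).2 s)
    (h μ : ℝ) (hh : 0 ≤ h) (hεh : 5 ≤ ε * h) :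
    1 / 2 * ∑ c : ZMod n × ZMod n → Fin 3, PP α (1 - α) c *
        (if (∀ β, c β ≠ 1) ∧ EvA n m K D Cond r b a h μ (envB n D a c z Y)
          then (1 : ℝ) else 0) ≤
      Real.exp C0 * ∑ c : ZMod n × ZMod n → Fin 3, PP α (1 - α) c *
        (if T n (envB n D a c z Y) ≤ μ - c1 * (ε * h / 2) then (1 : ℝ) else 0) +
      Real.exp (-C0) := by
  classical
  obtain ⟨Rg, hRg⟩ : ∃ Rg : Lb k → Finset (ZMod n × ZMod n), Rg = fun l =>
      (VR n (2 ^ (m - l.1 * k - k)) l.2).image (bx n D a) := ⟨_, rfl⟩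
  obtain ⟨labels, hlabels⟩ : ∃ labels : Finset (Lb k), labels = univ.filter fun l =>
      (#(Rg l) : ℝ) ≤ 936 * (2 ^ (2 * m) / 2 ^ (l.1 * k + k)) := ⟨_, rfl⟩
  have hreg : ∀ g : Wind n, ∃ l : Lb k, g.1.2.length ≤ 2 ^ m →
      l ∈ labels ∧ ∀ i ≤ g.1.2.length, bx n D a (g.1.1 + proj n (tot (g.1.2.take i))) ∈ Rg l := by
    intro g
    by_cases hg : g.1.2.length ≤ 2 ^ m
    · obtain ⟨l, hl1, hl2⟩ := region_verts n m k hn hkm g.1.1 g.1.2 hg
      refine ⟨l, fun _ => ⟨?_, fun i hi => ?_⟩⟩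
      · rw [hlabels, mem_filter]
        refine ⟨mem_univ _, le_trans ?_ hl2⟩
        rw [hRg]
        exact_mod_cast card_image_le
      · rw [hRg]
        exact mem_image_of_mem _ (hl1 i hi)
    · exact ⟨Classical.arbitrary _, fun h => absurd h hg⟩
  choose lab hlab using hreg
  have hlst := fun c : ZMod n × ZMod n → Fin 3 => least_exists n (envB n D a c z Y)
  choose geo hgeo using hlst
  have hA : ∀ c : ZMod n × ZMod n → Fin 3, EvA n m K D Cond r b a h μ (envB n D a c z Y) →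
      (∀ e, r ≤ envB n D a c z Y e) ∧ T n (envB n D a c z Y) ≤ μ ∧
        (geo c).1.2.length ≤ 2 ^ m ∧
        h ≤ #(Sbox n K D Cond b a (envB n D a c z Y) (geo c).1.1 (geo c).1.2) := by
    rintro c ⟨h1, h2, g, hg, h3, h4⟩
    have h5 : g = geo c := least_unique hg (hgeo c)
    subst h5
    exact ⟨h1, h2, h3, h4⟩
  have key := abs_core (ι := Lb k) (ρ := ℕ ×ₗ ℕ) (Γ := Wind n) (α := α) (ε := ε) (C0 := C0)
    (c1 := c1) (h := h) (μ := μ) hα hα1 hε hε1 (by linarith) hc1.le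
    (fun c g => cw n (envB n D a c z Y) g.1.1 g.1.2)
    (fun g => (range (g.1.2.length + 1)).image
      (fun i => bx n D a (g.1.1 + proj n (tot (g.1.2.take i)))))
    (fun c c' g hcc => bf_cost g.1.1 g.1.2 hcc)
    (fun c c' g hcc => cw_mono (envB_mono (fun β s => (hz β s).2) hcc) g.1.1 g.1.2)
    (rankW n) (rankW_injective n) geo (fun c g => (hgeo c).1 g)
    (fun c g hg => (hgeo c).2 g hg) labels Rg lab
    (fun c => (∀ β, c β ≠ 1) ∧ EvA n m K D Cond r b a h μ (envB n D a c z Y)) ?_ (pex k)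
    (fun l _ => ?_) hh hεh (fun c hc => ?_) (fun c hc => ?_)
  · refine le_trans ?_ (key.trans ?_)
    · refine le_of_eq ?_
      congr 1
      refine sum_congr rfl fun c _ => ?_
      congr 1
      congr
    · refine add_le_add (le_of_eq ?_) ?_
      · congr 1
        refine sum_congr rfl fun c _ => ?_
        rw [T_eq_least (hgeo c)]
      · refine err_sum' m k hk hα hα1 hε hε1 hC0 hε2 hε3 Rg labels fun l hl => ?_
        rw [hlabels, mem_filter] at hl
        exact hl.2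
  · intro c hc
    obtain ⟨h1, h2, h3, h4⟩ := hA c hc.2
    obtain ⟨h5, h6⟩ := hlab (geo c) h3
    refine ⟨h5, fun β hβ => ?_⟩
    rw [mem_image] at hβ
    obtain ⟨i, hi, rfl⟩ := hβ
    rw [mem_range] at hi
    exact h6 i (by omega)
  · unfold pex
    have h1 : 0 < 2 ^ ((l.1 : ℕ) * k) := by positivity
    have h2 : 0 < 8 * k := by omega
    exact Nat.mul_pos h2 h1
  · obtain ⟨h1, h2, h3, h4⟩ := hA c hc.2
    rw [T_eq_least (hgeo c)] at h2
    exact h2
  · obtain ⟨h1, h2, h3, h4⟩ := hA c hc.2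
    obtain ⟨h5, h6⟩ := hlab (geo c) h3
    have hSR : Sbox n K D Cond b a (envB n D a c z Y) (geo c).1.1 (geo c).1.2 ⊆
        Rg (lab (geo c)) := by
      intro β hβ
      unfold Sbox at hβ
      rw [mem_filter] at hβ
      obtain ⟨-, i, hi, -, rfl, -⟩ := hβ
      exact h6 i (by omega)
    refine ⟨_, hSR, h4, fun u => ?_⟩
    have hle : ∀ e, envB n D a (lower (Rg (lab (geo c))) c u) z Y e ≤ envB n D a c z Y e := by
      refine envB_mono (fun β s => (hz β s).2) fun β => ?_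
      unfold lower lowE
      by_cases hβ : β ∈ Rg (lab (geo c))
      · by_cases hu : u β = true ∧ c β = 2
        · right
          simp [hβ, hu]
        · left
          simp only [hβ, if_true, hu, if_false]
      · left
        simp [hβ]
    have hlow : ∀ β ∈ (Sbox n K D Cond b a (envB n D a c z Y) (geo c).1.1
        (geo c).1.2).filter fun β => u β = true, ∀ e : Sym2 (ZMod n × ZMod n),
        (∀ v ∈ e, bx n D a v = β) → envB n D a (lower (Rg (lab (geo c))) c u) z Y e ≤ a0 := by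
      intro β hβ e he
      rw [mem_filter] at hβ
      have h7 := bf_two hc1 himp a z Y hz c (geo c) h1 (hgeo c) hc.1 β hβ.1
      refine envB_low (fun β s => (hz β s).1) ?_ he
      unfold lower lowE
      simp [hSR hβ.1, hβ.2, h7]
    obtain ⟨w', hw1, hw2⟩ := replace himp h1 hle a (geo c).1.1 (geo c).1.2
      ((Sbox n K D Cond b a (envB n D a c z Y) (geo c).1.1 (geo c).1.2).filter
        fun β => u β = true) (filter_subset _ _) hlow
    exact ⟨⟨((geo c).1.1, w'), hw1.trans (geo c).2⟩, hw2⟩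

end Pool.Agent.TVR
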