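import Pool.Agent.TVR.Pw

/-!
# TVR / Chain: a horizontal chain of rows and columns in a strip of width `W`

Block `i < N`: the rows `[X0 + 2 i W, X0 + (2 i + 3) W] × {Y + k}`, `k < W` (cheapest: cost `hmin`), and the columns `{X0 + 2 i W + k} × [Y, Y + W]`, `k < W`
(cheapest: cost `vmin`).

`exists_chain`. For `i : ℕ` let `ρ i ∈ [Y, Y + W)` be (the height of) the cheapest row of block `i` and `c i ∈ [X0 + 2iW, X0 + (2i+1)W)` the cheapest
column (`exists_eq_ciInf_of_finite`, `Nonempty (Fin W)`). `c i < X0 + (2i+1) W ≤ X0 + 2(i+1) W ≤ c (i+1)`, so `c` is strictly increasing.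
`ix x = #{i ∈ range N | 1 ≤ i ∧ c i < x}` (`< N`), `h x = ρ (ix x)`: so `ix x = j` iff (`j = 0` or `c j < x`) and (`j + 1 = N` or `x ≤ c (j+1)`), for `j < N`.
(1) clear. (2) for `x ∈ [X0 + (2i+1) W, X0 + (2i+2) W)`: `c i < x ≤ c (i+1)`, so `ix x = i`.
(3) For `X0 ≤ x ≤ X0 + (2N+1) W` and `j = ix x` the point `(x, h x)` is on the row of block `j`: `X0 + 2jW ≤ x ≤ X0 + (2j+3) W`. Two such points with
`ix x = j ≤ j' = ix x'` are joined at cost `≤ ∑_{j ≤ k ≤ j'} hmin_k + ∑_{j < k ≤ j'} vmin_k ≤ chc` (induction on `j' - j`: along the row `j` to `(c (j+1), ρ j)`, along the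
column `c (j+1)` to `(c (j+1), ρ (j+1))`, which is on the row `j+1`; `Pw_row`, `Pw_col`, `Pw.trans`). A point `p = (x, y) ∈ Gr h`: if `h x = h (x+1)` then
`y = h x`; otherwise `ix (x+1) = ix x + 1` and `x = c (ix x + 1)`: then `p` and `(x, h x)` are both on the column `c (ix x + 1)`, `ix x + 1 < N`, joined at
cost `≤ vmin ≤ chc`. So `Pw p q (chc + chc + chc)`.
(4) the column `c (N-1)`. (5) the row of block `0`: `h (X0 + W) = ρ 0` by (2).
-/

set_option autoImplicit false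

namespace Pool.Agent.TVR

open Finset Pool.Agent.Helper46.Tor MeasureTheory
open scoped NNReal ENNReal

/-- the cheapest of `W` rows of length `3 W` -/
noncomputable def hmin (n W : ℕ) (ω : Sym2 (ZMod n × ZMod n) → ℝ≥0) (X Y : ℤ) : ℝ≥0 :=
  ⨅ k : Fin W, hc n ω X (Y + (k : ℕ)) (3 * W)

/-- the cheapest of `W` columns of length `W` -/
noncomputable def vmin (n W : ℕ) (ω : Sym2 (ZMod n × ZMod n) → ℝ≥0) (X Y : ℤ) : ℝ≥0 :=
  ⨅ k : Fin W, vc n ω (X + (k : ℕ)) Y W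

/-- cost of a chain of `N` blocks -/
noncomputable def chc (n W : ℕ) (ω : Sym2 (ZMod n × ZMod n) → ℝ≥0) (X0 Y : ℤ) (N : ℕ) : ℝ≥0 :=
  ∑ i ∈ range N, (hmin n W ω (X0 + 2 * i * W) Y + vmin n W ω (X0 + 2 * i * W) Y)

/-- the graph of `h` with its vertical jumps -/
def Gr (h : ℤ → ℤ) : Set (ℤ × ℤ) :=
  {p | min (h p.1) (h (p.1 + 1)) ≤ p.2 ∧ p.2 ≤ max (h p.1) (h (p.1 + 1))}

theorem exists_chain (n W : ℕ) (hW : 0 < W) (ω : Sym2 (ZMod n × ZMod n) → ℝ≥0) (X0 Y : ℤ)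
    (N : ℕ) (hN : 0 < N) :
    ∃ h : ℤ → ℤ, (∀ x, Y ≤ h x ∧ h x < Y + W) ∧
      (∀ i : ℕ, i < N → ∀ x, X0 + (2 * i + 1) * W ≤ x → x < X0 + (2 * i + 2) * W →
        h x = h (X0 + (2 * i + 1) * W)) ∧
      (∀ p ∈ Gr h, ∀ q ∈ Gr h, X0 ≤ p.1 → p.1 ≤ X0 + (2 * N + 1) * W → X0 ≤ q.1 →
        q.1 ≤ X0 + (2 * N + 1) * W → Pw n ω p q (3 * chc n W ω X0 Y N)) ∧
      (∃ c : ℤ, X0 + 2 * ((N : ℤ) - 1) * W ≤ c ∧ c < X0 + (2 * N - 1) * W ∧
        ∀ y y' : ℤ, Y ≤ y → y ≤ Y + W → Y ≤ y' → y' ≤ Y + W →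
          Pw n ω (c, y) (c, y') (chc n W ω X0 Y N)) ∧
      (∀ x x' : ℤ, X0 ≤ x → x ≤ X0 + 3 * W → X0 ≤ x' → x' ≤ X0 + 3 * W →
        Pw n ω (x, h (X0 + W)) (x', h (X0 + W)) (chc n W ω X0 Y N)) := by
  classical
  have : Nonempty (Fin W) := ⟨⟨0, hW⟩⟩
  have hex1 : ∀ i : ℕ, ∃ k : Fin W, hc n ω (X0 + 2 * i * W) (Y + (k : ℕ)) (3 * W) =
      hmin n W ω (X0 + 2 * i * W) Y := fun i => exists_eq_ciInf_of_finite
  have hex2 : ∀ i : ℕ, ∃ k : Fin W, vc n ω (X0 + 2 * i * W + (k : ℕ)) Y W =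
      vmin n W ω (X0 + 2 * i * W) Y := fun i => exists_eq_ciInf_of_finite
  choose kr hkr using hex1
  choose kc hkc using hex2
  set ρ : ℕ → ℤ := fun i => Y + ((kr i : ℕ) : ℤ) with hρd
  set c : ℕ → ℤ := fun i => X0 + 2 * i * W + ((kc i : ℕ) : ℤ) with hcd
  have hWz : (0 : ℤ) < W := by exact_mod_cast hW
  have hρ1 : ∀ i, Y ≤ ρ i := fun i => by
    simp only [hρd]; have : (0 : ℤ) ≤ ((kr i : ℕ) : ℤ) := Int.natCast_nonneg _; linarith
  have hρ2 : ∀ i, ρ i < Y + W := fun i => by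
    simp only [hρd]
    have : ((kr i : ℕ) : ℤ) < W := by exact_mod_cast (kr i).2
    linarith
  have hc1 : ∀ i : ℕ, X0 + 2 * i * W ≤ c i := fun i => by
    simp only [hcd]; have : (0 : ℤ) ≤ ((kc i : ℕ) : ℤ) := Int.natCast_nonneg _; linarith
  have hc2 : ∀ i : ℕ, c i < X0 + (2 * i + 1) * W := fun i => by
    simp only [hcd]
    have : ((kc i : ℕ) : ℤ) < W := by exact_mod_cast (kc i).2
    nlinarith
  have hcm : StrictMono c := strictMono_nat_of_lt_succ (fun i => by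
    have h1 := hc2 i
    have h2 := hc1 (i + 1)
    push_cast at h2
    nlinarith)
  -- rows and columns
  have hrow : ∀ (i : ℕ) (a b : ℤ), X0 + 2 * i * W ≤ a → a ≤ X0 + (2 * i + 3) * W →
      X0 + 2 * i * W ≤ b → b ≤ X0 + (2 * i + 3) * W →
      Pw n ω (a, ρ i) (b, ρ i) (hmin n W ω (X0 + 2 * i * W) Y) := by
    intro i a b h1 h2 h3 h4
    rw [← hkr i]
    refine Pw_row n ω h1 ?_ h3 ?_
    · push_cast; linarith
    · push_cast; linarith
  have hcol : ∀ (i : ℕ) (a b : ℤ), Y ≤ a → a ≤ Y + W → Y ≤ b → b ≤ Y + W →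
      Pw n ω (c i, a) (c i, b) (vmin n W ω (X0 + 2 * i * W) Y) := by
    intro i a b h1 h2 h3 h4
    rw [← hkc i]
    exact Pw_col n ω h1 h2 h3 h4
  -- the index
  set ix : ℤ → ℕ := fun x => Nat.findGreatest (fun i => i = 0 ∨ c i < x) (N - 1) with hix
  have hix1 : ∀ x, ix x ≤ N - 1 := fun x => Nat.findGreatest_le _
  have hix2 : ∀ x, ix x = 0 ∨ c (ix x) < x := fun x =>
    Nat.findGreatest_spec (P := fun i => i = 0 ∨ c i < x) (m := 0) (Nat.zero_le _) (Or.inl rfl)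
  have hix3 : ∀ x k, ix x < k → k ≤ N - 1 → x ≤ c k := fun x k h1 h2 => by
    have h3 := Nat.findGreatest_is_greatest (P := fun i => i = 0 ∨ c i < x) h1 h2
    by_contra h4
    exact h3 (Or.inr (not_le.mp h4))
  have hix4 : ∀ (x : ℤ) (j : ℕ), j ≤ N - 1 → (j = 0 ∨ c j < x) → (j + 1 ≤ N - 1 → x ≤ c (j + 1)) →
      ix x = j := by
    intro x j h1 h2 h3
    rcases lt_trichotomy (ix x) j with h | h | h
    · have h4 := hix3 x j h h1
      rcases h2 with h2 | h2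
      · omega
      · exact absurd h2 (not_lt.mpr h4)
    · exact h
    · have h4 := hix1 x
      have h5 := h3 (by omega)
      rcases hix2 x with h6 | h6
      · omega
      · have h7 : c (j + 1) ≤ c (ix x) := hcm.monotone (by omega)
        linarith
  have hon1 : ∀ x, X0 ≤ x → X0 + 2 * (ix x : ℕ) * W ≤ x := by
    intro x hx
    rcases hix2 x with h | h
    · rw [h]; simpa using hx
    · exact (hc1 _).trans h.le
  have hon2 : ∀ x, x ≤ X0 + (2 * N + 1) * W → x ≤ X0 + (2 * (ix x : ℕ) + 3) * W := by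
    intro x hx
    by_cases h : ix x + 1 ≤ N - 1
    · have h1 := hix3 x (ix x + 1) (by omega) h
      have h2 := hc2 (ix x + 1)
      push_cast at h2
      nlinarith
    · have h1 := hix1 x
      have h2 : ix x + 1 = N := by omega
      have h3 : (N : ℤ) = (ix x : ℤ) + 1 := by rw [← h2]; push_cast; ring
      rw [h3] at hx
      nlinarith
  -- costs
  set A : ℕ → ℝ≥0 := fun m => ∑ i ∈ range m,
    (hmin n W ω (X0 + 2 * i * W) Y + vmin n W ω (X0 + 2 * i * W) Y) with hA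
  have hAs : ∀ m : ℕ, (A (m + 1) : ℝ) = A m + (hmin n W ω (X0 + 2 * m * W) Y +
      vmin n W ω (X0 + 2 * m * W) Y) := by
    intro m
    simp only [hA]
    rw [sum_range_succ]
    push_cast
    ring
  have hAm : ∀ m m' : ℕ, m ≤ m' → (A m : ℝ) ≤ A m' := by
    intro m m' h
    have : A m ≤ A m' := sum_le_sum_of_subset (range_subset_range.mpr h)
    exact_mod_cast this
  have hA0 : ∀ m : ℕ, (0 : ℝ) ≤ A m := fun m => (A m).2
  have hAN : chc n W ω X0 Y N = A N := rfl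
  have hterm : ∀ i : ℕ, i < N → ((hmin n W ω (X0 + 2 * i * W) Y : ℝ≥0) : ℝ) +
      ((vmin n W ω (X0 + 2 * i * W) Y : ℝ≥0) : ℝ) ≤ chc n W ω X0 Y N := by
    intro i hi
    rw [hAN]
    have h1 := hAs i
    have h2 := hAm (i + 1) N hi
    have h3 := hA0 i
    linarith
  have hh0 : ∀ i : ℕ, (0 : ℝ) ≤ hmin n W ω (X0 + 2 * i * W) Y := fun i => NNReal.coe_nonneg _
  have hv0 : ∀ i : ℕ, (0 : ℝ) ≤ vmin n W ω (X0 + 2 * i * W) Y := fun i => NNReal.coe_nonneg _
  have hchain : ∀ (j d : ℕ) (x x' : ℤ), X0 + 2 * j * W ≤ x → x ≤ X0 + (2 * j + 3) * W →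
      X0 + 2 * ((j + d : ℕ) : ℤ) * W ≤ x' → x' ≤ X0 + (2 * ((j + d : ℕ) : ℤ) + 3) * W →
      Pw n ω (x, ρ j) (x', ρ (j + d)) ((A (j + d + 1) : ℝ) - A j) := by
    intro j d
    induction d with
    | zero =>
      intro x x' h1 h2 h3 h4
      refine (hrow j x x' h1 h2 h3 h4).mono ?_ (fun e => le_rfl)
      have h5 := hAs j
      have h6 := hv0 j
      have h7 : (A (j + 0 + 1) : ℝ) = A (j + 1) := rfl
      rw [h7]
      linarith
    | succ d ih =>
      intro x x' h1 h2 h3 h4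
      have e1 : j + (d + 1) = j + d + 1 := by omega
      rw [e1] at h3 h4 ⊢
      have b1 := hc1 (j + d + 1)
      have b2 := hc2 (j + d + 1)
      have p1 := ih x (c (j + d + 1)) h1 h2 (by push_cast at b1 ⊢; nlinarith)
        (by push_cast at b2 ⊢; nlinarith)
      have p2 := hcol (j + d + 1) (ρ (j + d)) (ρ (j + d + 1)) (hρ1 _) (hρ2 _).le (hρ1 _) (hρ2 _).le
      have p3 := hrow (j + d + 1) (c (j + d + 1)) x' b1 (by nlinarith) h3 h4
      refine ((p1.trans p2).trans p3).mono ?_ (fun e => le_rfl)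
      have h5 := hAs (j + d + 1)
      linarith
  have hconn : ∀ x x' : ℤ, X0 ≤ x → x ≤ X0 + (2 * N + 1) * W → X0 ≤ x' →
      x' ≤ X0 + (2 * N + 1) * W → Pw n ω (x, ρ (ix x)) (x', ρ (ix x')) (chc n W ω X0 Y N) := by
    have key : ∀ x x' : ℤ, X0 ≤ x → x ≤ X0 + (2 * N + 1) * W → X0 ≤ x' →
        x' ≤ X0 + (2 * N + 1) * W → ix x ≤ ix x' →
        Pw n ω (x, ρ (ix x)) (x', ρ (ix x')) (chc n W ω X0 Y N) := by
      intro x x' h1 h2 h3 h4 h5
      obtain ⟨d, hd⟩ := Nat.exists_eq_add_of_le h5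
      have p := hchain (ix x) d x x' (hon1 x h1) (hon2 x h2) (by rw [← hd]; exact hon1 x' h3)
        (by rw [← hd]; exact hon2 x' h4)
      rw [← hd] at p
      refine p.mono ?_ (fun e => le_rfl)
      have h6 := hAm (ix x' + 1) N (by have := hix1 x'; omega)
      have h7 := hA0 (ix x)
      rw [hAN]
      linarith
    intro x x' h1 h2 h3 h4
    rcases le_total (ix x) (ix x') with h | h
    · exact key x x' h1 h2 h3 h4 h
    · exact (key x' x h3 h4 h1 h2 h).symm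
  have hchc0 : (0 : ℝ) ≤ chc n W ω X0 Y N := NNReal.coe_nonneg _
  have hgr : ∀ p ∈ Gr (fun x => ρ (ix x)), Pw n ω p (p.1, ρ (ix p.1)) (chc n W ω X0 Y N) := by
    rintro ⟨x, y⟩ hp
    simp only [Gr, Set.mem_ofPred_eq] at hp
    obtain ⟨hp1, hp2⟩ := hp
    by_cases he : ix x = ix (x + 1)
    · rw [← he, min_self] at hp1
      rw [← he, max_self] at hp2
      have : y = ρ (ix x) := le_antisymm hp2 hp1
      rw [this]
      exact Pw.refl hchc0
    · have hlt : ix x < ix (x + 1) := by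
        rcases lt_trichotomy (ix x) (ix (x + 1)) with h | h | h
        · exact h
        · exact absurd h he
        · have h1 := hix3 (x + 1) (ix x) h (hix1 x)
          rcases hix2 x with h2 | h2
          · omega
          · linarith
      have h1 : c (ix (x + 1)) < x + 1 := by
        rcases hix2 (x + 1) with h2 | h2
        · omega
        · exact h2
      have h2 := hix3 x (ix (x + 1)) hlt (hix1 _)
      have h3 : x = c (ix (x + 1)) := by omega
      have hy1 : Y ≤ y := (le_min (hρ1 _) (hρ1 _)).trans hp1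
      have hy2 : y ≤ Y + W := hp2.trans (max_le (hρ2 _).le (hρ2 _).le)
      have p := hcol (ix (x + 1)) y (ρ (ix x)) hy1 hy2 (hρ1 _) (hρ2 _).le
      rw [← h3] at p
      refine p.mono ?_ (fun e => le_rfl)
      have h4 := hterm (ix (x + 1)) (by have := hix1 (x + 1); omega)
      have h5 := hh0 (ix (x + 1))
      linarith
  have hixi : ∀ i : ℕ, i < N → ∀ x : ℤ, X0 + (2 * i + 1) * W ≤ x → x < X0 + (2 * i + 2) * W →
      ix x = i := by
    intro i hi x h1 h2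
    refine hix4 x i (by omega) (Or.inr (lt_of_lt_of_le (hc2 i) h1)) (fun _ => ?_)
    have h3 := hc1 (i + 1)
    push_cast at h3
    nlinarith
  refine ⟨fun x => ρ (ix x), fun x => ⟨hρ1 _, hρ2 _⟩, ?_, ?_, ⟨c (N - 1), ?_, ?_, ?_⟩, ?_⟩
  · intro i hi x h1 h2
    show ρ (ix x) = ρ (ix _)
    rw [hixi i hi x h1 h2, hixi i hi _ le_rfl (by nlinarith)]
  · intro p hp q hq h1 h2 h3 h4
    have p1 := hgr p hp
    have p2 := hconn p.1 q.1 h1 h2 h3 h4
    have p3 := (hgr q hq).symm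
    refine ((p1.trans p2).trans p3).mono ?_ (fun e => le_rfl)
    linarith
  · have h1 := hc1 (N - 1)
    have h2 : ((N - 1 : ℕ) : ℤ) = (N : ℤ) - 1 := by
      rw [Nat.cast_sub hN]; simp
    rw [h2] at h1
    exact h1
  · have h1 := hc2 (N - 1)
    have h2 : ((N - 1 : ℕ) : ℤ) = (N : ℤ) - 1 := by
      rw [Nat.cast_sub hN]; simp
    rw [h2] at h1
    linarith
  · intro y y' h1 h2 h3 h4
    refine (hcol (N - 1) y y' h1 h2 h3 h4).mono ?_ (fun e => le_rfl)
    have h5 := hterm (N - 1) (by omega)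
    have h6 := hh0 (N - 1)
    linarith
  · intro x x' h1 h2 h3 h4
    have h0 : ix (X0 + W) = 0 := by
      refine hixi 0 hN _ ?_ ?_
      · push_cast; linarith
      · push_cast; linarith
    show Pw n ω (x, ρ (ix (X0 + W))) (x', ρ (ix (X0 + W))) _
    rw [h0]
    have p := hrow 0 x x' (by push_cast; linarith) (by push_cast; linarith)
      (by push_cast; linarith) (by push_cast; linarith)
    refine p.mono ?_ (fun e => le_rfl)
    have h5 := hterm 0 hN
    have h6 := hv0 0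
    linarith

end Pool.Agent.TVR
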