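import Pool.Agent.TVR.DPath

/-!
# TVR / Cut: crossings with given start and end heights

`Cr h s w a b C`: there is an oriented path from `(position 0, height i0)` to `(position h, height y1)`, `y1 = i0 + |d| - h`, with
`a w ≤ i0 < a w + w`, `b w ≤ y1 < b w + w`, `i0 + |d| ≤ s`, of cost at most `C` (height = level - position).

`cut`: given `x ≤ 0`, `d`, `|d| = s`, `h ≤ x + count`: the positions `p j = x + (d.take j).count true` start at `x ≤ 0`, end at `≥ h`, with steps `0` or `1`; so
there are `j0 ≤ j1` with `p j0 = 0`, `p j1 = h` (`Nat.find`, discrete intermediate value). Take `i0 = j0`, `d' = (d.drop j0).take (j1 - j0)`: `count true d' = h`, the cost of `d'` from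
`(j0, 0)` is at most the total cost (`costD_append` twice, `costD_nonneg`). `h ≤ |d'|`, so `i0 ≤ s - h < Nc w` and the end height is `≤ s - h < Nc w`; cells
`a = i0 / w`, `b = (i0 + |d'| - h) / w`.
`exists_ab`: union bound over `Nc^2` pairs: some pair has probability at least `c / Nc^2`.
`measurableSet_Cr`: countable union over `i0, d` of `{costD η i0 0 d ≤ C}` (`costD` is a finite sum of coordinates, induction).
`Cr_congr`: the edges `(i, x, d)` of the path have `0 ≤ x`, `x + [d] ≤ h`, height `i - x ≥ 0`, `i - x + [not d] ≤ s - h` (the height is nondecreasing along the path, it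
ends at `i0 + |d| - h ≤ s - h`): `costD_congr` (see its form in DPath; or a direct induction).
-/

set_option autoImplicit false

namespace Pool.Agent.TVR

open MeasureTheory Set
open scoped NNReal ENNReal

/-- oriented crossing from a cell to a cell, of cost at most `C` -/
def Cr (h s w a b : ℕ) (C : ℝ) : Set Env :=
  {η | ∃ (i0 : ℕ) (d : List Bool), a * w ≤ i0 ∧ i0 < a * w + w ∧ d.count true = h ∧
    b * w + h ≤ i0 + d.length ∧ i0 + d.length < b * w + w + h ∧ i0 + d.length ≤ s ∧
    costD η i0 0 d ≤ C}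

private theorem measurable_costD' (i : ℕ) (x : ℤ) (d : List Bool) :
    Measurable fun η : Env => costD η i x d := by
  induction d generalizing i x with
  | nil =>
    change Measurable fun _ : Env => (0 : ℝ)
    exact measurable_const
  | cons c ds ih =>
    change Measurable fun η : Env =>
      (η (i, x, c) : ℝ) + costD η (i + 1) (x + if c then 1 else 0) ds
    have h1 : Measurable fun η : Env => η (i, x, c) := measurable_pi_apply _
    exact h1.coe_nnreal_real.add (ih _ _)

private theorem cntd_cons (c : Bool) (ds : List Bool) :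
    (((c :: ds).count true : ℕ) : ℤ) = (if c then 1 else 0) + ((ds.count true : ℕ) : ℤ) := by
  cases c
  · simp
  · simp
    ring

private theorem take_step (d : List Bool) (j : ℕ) :
    ((d.take (j + 1)).count true) ≤ (d.take j).count true + 1 := by
  by_cases hj : j < d.length
  · rw [List.take_succ_eq_append_getElem hj, List.count_append]
    have : ([d[j]] : List Bool).count true ≤ 1 := by
      have := List.count_le_length (a := true) (l := [d[j]])
      simpa using this
    omega
  · rw [List.take_of_length_le (by omega), List.take_of_length_le (by omega)]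
    omega

theorem measurableSet_Cr (h s w a b : ℕ) (C : ℝ) : MeasurableSet (Cr h s w a b C) := by
  have h1 : Cr h s w a b C = ⋃ i0 : ℕ, ⋃ d : List Bool, {η : Env | (a * w ≤ i0 ∧
      i0 < a * w + w ∧ d.count true = h ∧ b * w + h ≤ i0 + d.length ∧
      i0 + d.length < b * w + w + h ∧ i0 + d.length ≤ s) ∧ costD η i0 0 d ≤ C} := by
    ext η
    simp only [Cr, Set.mem_iUnion]
    constructor
    · rintro ⟨i0, d, h1, h2, h3, h4, h5, h6, h7⟩
      exact ⟨i0, d, ⟨h1, h2, h3, h4, h5, h6⟩, h7⟩
    · rintro ⟨i0, d, ⟨h1, h2, h3, h4, h5, h6⟩, h7⟩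
      exact ⟨i0, d, h1, h2, h3, h4, h5, h6, h7⟩
  rw [h1]
  refine MeasurableSet.iUnion fun i0 => MeasurableSet.iUnion fun d => ?_
  exact (MeasurableSet.const _).inter
    (measurableSet_le (measurable_costD' i0 0 d) measurable_const)

theorem cut {h s w Nc : ℕ} (hw : 0 < w) (hs : s < Nc * w + h) (C : ℝ) {η : Env}
    (hη : ∃ x : ℤ, x ≤ 0 ∧ ∃ d : List Bool, d.length = s ∧ (h : ℤ) ≤ x + (d.count true : ℤ) ∧
      costD η 0 x d ≤ C) : ∃ a < Nc, ∃ b < Nc, η ∈ Cr h s w a b C := by
  obtain ⟨x, hx0, d, hd, hh, hc⟩ := hη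
  obtain ⟨p, hp⟩ : ∃ p : ℕ → ℤ, ∀ j, p j = x + ((d.take j).count true : ℤ) := ⟨_, fun _ => rfl⟩
  have hp0 : p 0 = x := by rw [hp]; simp
  have hps : p s = x + (d.count true : ℤ) := by
    rw [hp, List.take_of_length_le (by omega)]
  have hstep : ∀ j, p (j + 1) ≤ p j + 1 := by
    intro j
    rw [hp, hp]
    have := take_step d j
    have h2 : (((d.take (j + 1)).count true : ℕ) : ℤ) ≤ ((d.take j).count true : ℕ) + 1 := by
      exact_mod_cast this
    linarith
  have hlev : ∀ m : ℕ, (m : ℤ) ≤ p s → ∃ j ≤ s, p j = m ∧ ∀ i, (m : ℤ) ≤ p i → j ≤ i := by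
    intro m hm
    have hex : ∃ j, (m : ℤ) ≤ p j := ⟨s, hm⟩
    classical
    refine ⟨Nat.find hex, Nat.find_min' hex hm, le_antisymm ?_ (Nat.find_spec hex),
      fun i hi => Nat.find_min' hex hi⟩
    rcases Nat.eq_zero_or_pos (Nat.find hex) with h0 | h0
    · rw [h0, hp0]
      have : (0 : ℤ) ≤ m := Int.natCast_nonneg m
      linarith
    · obtain ⟨j, hj⟩ : ∃ j, Nat.find hex = j + 1 := ⟨Nat.find hex - 1, by omega⟩
      rw [hj]
      have h1 : ¬ ((m : ℤ) ≤ p j) := Nat.find_min hex (by omega)
      have h2 := hstep j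
      omega
  obtain ⟨j0, hj0s, hj0, hmin0⟩ := hlev 0 (by
    rw [hps]
    have : (0 : ℤ) ≤ h := Int.natCast_nonneg h
    push_cast
    linarith)
  obtain ⟨j1, hj1s, hj1, -⟩ := hlev h (by rw [hps]; exact hh)
  have h01 : j0 ≤ j1 := hmin0 j1 (by rw [hj1]; push_cast; exact Int.natCast_nonneg h)
  -- the middle word
  have hsplit1 : d = d.take j0 ++ d.drop j0 := (List.take_append_drop j0 d).symm
  have hsplit2 : d.drop j0 = (d.drop j0).take (j1 - j0) ++ (d.drop j0).drop (j1 - j0) :=
    (List.take_append_drop _ _).symm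
  have htk : d.take j1 = d.take j0 ++ (d.drop j0).take (j1 - j0) := by
    have : j1 = j0 + (j1 - j0) := by omega
    conv_lhs => rw [this]
    exact List.take_add
  have hlen' : ((d.drop j0).take (j1 - j0)).length = j1 - j0 := by
    rw [List.length_take, List.length_drop]
    omega
  have hlen0 : (d.take j0).length = j0 := by
    rw [List.length_take]
    omega
  have hcnt : ((d.drop j0).take (j1 - j0)).count true = h := by
    have e1 := hp j1
    rw [htk, List.count_append] at e1
    have e0 := hp j0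
    push_cast at e1
    have : ((((d.drop j0).take (j1 - j0)).count true : ℕ) : ℤ) = h := by
      rw [hj1] at e1
      rw [hj0] at e0
      push_cast at e0
      linarith
    exact_mod_cast this
  have hhle : h ≤ j1 - j0 := by
    have h9 := List.count_le_length (a := true) (l := (d.drop j0).take (j1 - j0))
    rw [hcnt, hlen'] at h9
    exact h9
  have hcost : costD η j0 0 ((d.drop j0).take (j1 - j0)) ≤ C := by
    refine le_trans ?_ hc
    have e1 := costD_append (η := η) 0 x (d.take j0) (d.drop j0)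
    rw [List.take_append_drop] at e1
    have e2 := costD_append (η := η) j0 0 ((d.drop j0).take (j1 - j0))
      ((d.drop j0).drop (j1 - j0))
    rw [List.take_append_drop] at e2
    have e3 : x + ((d.take j0).count true : ℤ) = 0 := by
      rw [← hp, hj0]
      rfl
    rw [hlen0, zero_add, e3, e2] at e1
    have n1 := costD_nonneg η 0 x (d.take j0)
    have n2 := costD_nonneg η (j0 + ((d.drop j0).take (j1 - j0)).length)
      (0 + (((d.drop j0).take (j1 - j0)).count true : ℤ)) ((d.drop j0).drop (j1 - j0))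
    linarith
  have hj1h : h ≤ j1 := by omega
  refine ⟨j0 / w, ?_, (j1 - h) / w, ?_, j0, (d.drop j0).take (j1 - j0), ?_, ?_, hcnt, ?_, ?_, ?_,
    hcost⟩
  · rw [Nat.div_lt_iff_lt_mul hw]
    omega
  · rw [Nat.div_lt_iff_lt_mul hw]
    omega
  · exact Nat.div_mul_le_self j0 w
  · exact Nat.lt_div_mul_add hw
  · rw [hlen']
    have := Nat.div_mul_le_self (j1 - h) w
    omega
  · rw [hlen']
    have := Nat.lt_div_mul_add (a := j1 - h) hw
    omega
  · rw [hlen']
    omega

theorem exists_ab (F : Measure ℝ≥0) [IsProbabilityMeasure F] {h s w Nc : ℕ} (hw : 0 < w)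
    (hN : 0 < Nc) (hs : s < Nc * w + h) (C : ℝ) {c : ℝ}
    (hP : ENNReal.ofReal c ≤ iid OE F {η | ∃ x : ℤ, x ≤ 0 ∧ ∃ d : List Bool, d.length = s ∧
      (h : ℤ) ≤ x + (d.count true : ℤ) ∧ costD η 0 x d ≤ C}) :
    ∃ a b : ℕ, ENNReal.ofReal (c / Nc ^ 2) ≤ iid OE F (Cr h s w a b C) := by
  rcases le_or_gt c 0 with hc | hc
  · refine ⟨0, 0, ?_⟩
    rw [ENNReal.ofReal_eq_zero.2 (div_nonpos_of_nonpos_of_nonneg hc (by positivity))]
    exact zero_le
  by_contra hcon
  push Not at hcon
  have hsub : {η : Env | ∃ x : ℤ, x ≤ 0 ∧ ∃ d : List Bool, d.length = s ∧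
      (h : ℤ) ≤ x + (d.count true : ℤ) ∧ costD η 0 x d ≤ C} ⊆
      ⋃ q ∈ (Finset.range Nc ×ˢ Finset.range Nc), Cr h s w q.1 q.2 C := by
    intro η hη
    obtain ⟨a, ha, b, hb, hab⟩ := cut hw hs C hη
    rw [Set.mem_iUnion₂]
    exact ⟨(a, b), Finset.mem_product.2 ⟨Finset.mem_range.2 ha, Finset.mem_range.2 hb⟩, hab⟩
  have h1 := (hP.trans (measure_mono hsub)).trans (measure_biUnion_finset_le _ _)
  have hne : (Finset.range Nc ×ˢ Finset.range Nc).Nonempty :=
    ⟨(0, 0), Finset.mem_product.2 ⟨Finset.mem_range.2 hN, Finset.mem_range.2 hN⟩⟩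
  have h2 : ∑ q ∈ Finset.range Nc ×ˢ Finset.range Nc, iid OE F (Cr h s w q.1 q.2 C) <
      ∑ q ∈ Finset.range Nc ×ˢ Finset.range Nc, ENNReal.ofReal (c / Nc ^ 2) :=
    ENNReal.sum_lt_sum_of_nonempty hne fun q _ => hcon q.1 q.2
  have h3 : ∑ q ∈ Finset.range Nc ×ˢ Finset.range Nc, ENNReal.ofReal (c / Nc ^ 2) =
      ENNReal.ofReal c := by
    rw [Finset.sum_const, Finset.card_product, Finset.card_range, nsmul_eq_mul,
      ← ENNReal.ofReal_natCast, ← ENNReal.ofReal_mul (by positivity)]
    congr 1
    have : (Nc : ℝ) ≠ 0 := by exact_mod_cast hN.ne'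
    push_cast
    field_simp
  rw [h3] at h2
  exact absurd h1 (not_le.2 h2)

private theorem costD_congr' {η η' : Env} (i : ℕ) (x : ℤ) (d : List Bool)
    (h : ∀ q : OE, x ≤ q.2.1 →
      q.2.1 + (if q.2.2 then 1 else 0) ≤ x + (d.count true : ℤ) →
      (i : ℤ) - x ≤ (q.1 : ℤ) - q.2.1 →
      (q.1 : ℤ) - q.2.1 + (if q.2.2 then 0 else 1) ≤
        (i : ℤ) - x + ((d.length : ℤ) - (d.count true : ℤ)) → η q = η' q) :
    costD η i x d = costD η' i x d := by
  induction d generalizing i x with
  | nil => rfl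
  | cons c ds ih =>
    change (η (i, x, c) : ℝ) + costD η (i + 1) (x + if c then 1 else 0) ds =
      (η' (i, x, c) : ℝ) + costD η' (i + 1) (x + if c then 1 else 0) ds
    have hcl : ((ds.count true : ℕ) : ℤ) ≤ (ds.length : ℤ) := by
      exact_mod_cast List.count_le_length
    have hcn : (0 : ℤ) ≤ ((ds.count true : ℕ) : ℤ) := Int.natCast_nonneg _
    rw [cntd_cons, List.length_cons] at h
    push_cast at h
    have h1 : η (i, x, c) = η' (i, x, c) := by
      apply h (i, x, c)
      · exact le_rfl
      · change x + (if c then 1 else 0) ≤ _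
        linarith
      · exact le_rfl
      · change (i : ℤ) - x + (if c then 0 else 1) ≤ _
        cases c
        · simp only [Bool.false_eq_true, if_false]
          linarith
        · simp only [if_true]
          linarith
    rw [h1, ih]
    intro q q1 q2 q3 q4
    push_cast at q3 q4
    apply h q
    · cases c
      · simpa using q1
      · simp only [if_true] at q1
        linarith
    · linarith
    · cases c
      · simp only [Bool.false_eq_true, if_false] at q3
        linarith
      · simp only [if_true] at q3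
        linarith
    · cases c
      · simp only [Bool.false_eq_true, if_false] at q4 ⊢
        linarith
      · simp only [if_true] at q4 ⊢
        linarith

theorem Cr_congr {h s w a b : ℕ} {C : ℝ} {η η' : Env}
    (hη : ∀ q : OE, 0 ≤ q.2.1 → q.2.1 + (if q.2.2 then 1 else 0) ≤ (h : ℤ) → q.2.1 ≤ q.1 →
      (q.1 : ℤ) - q.2.1 + (if q.2.2 then 0 else 1) ≤ (s : ℤ) - h → η q = η' q)
    (h1 : η ∈ Cr h s w a b C) : η' ∈ Cr h s w a b C := by
  obtain ⟨i0, d, h1, h2, h3, h4, h5, h6, h7⟩ := h1
  refine ⟨i0, d, h1, h2, h3, h4, h5, h6, ?_⟩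
  rw [← costD_congr' (η := η) (η' := η') i0 0 d ?_]
  · exact h7
  · intro q q1 q2 q3 q4
    rw [h3] at q2 q4
    have hi : (0 : ℤ) ≤ (i0 : ℤ) := Int.natCast_nonneg _
    have h6' : (i0 : ℤ) + (d.length : ℤ) ≤ s := by exact_mod_cast h6
    refine hη q q1 (by linarith) (by linarith) ?_
    refine q4.trans ?_
    linarith

end Pool.Agent.TVR
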