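import Pool.Agent.TVR.Dir

/-!
# TVR / DPath: oriented paths as words

A word `d : List Bool` (`true` = east, `false` = north) started at the point with first coordinate `x`
of level `i`. All proofs by induction on the word or on the length (for `reach`, decompose the word at
its END: `reach` is defined by its last step, `List.reverseRecOn` / `d ++ [c]`).
-/

set_option autoImplicit false

namespace Pool.Agent.TVR

open MeasureTheory Set
open scoped NNReal ENNReal

/-- passage time of an oriented path -/
def costD (η : Env) : ℕ → ℤ → List Bool → ℝ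
  | _, _, [] => 0
  | i, x, d :: ds => (η (i, x, d) : ℝ) + costD η (i + 1) (x + if d then 1 else 0) ds

/-- all weights of the path are in `S` -/
def allD (S : Set ℝ≥0) (η : Env) : ℕ → ℤ → List Bool → Prop
  | _, _, [] => True
  | i, x, d :: ds => η (i, x, d) ∈ S ∧ allD S η (i + 1) (x + if d then 1 else 0) ds

variable {S : Set ℝ≥0} {η : Env} {W : Set ℤ}

theorem costD_nonneg (η : Env) (i : ℕ) (x : ℤ) (d : List Bool) : 0 ≤ costD η i x d := by
  induction d generalizing i x with
  | nil => exact le_refl _
  | cons c ds ih => exact add_nonneg (NNReal.coe_nonneg _) (ih _ _)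

private theorem cnt_cons (c : Bool) (ds : List Bool) (x : ℤ) :
    x + ((c :: ds).count true : ℤ) = x + (if c then 1 else 0) + (ds.count true : ℤ) := by
  cases c
  · simp
  · simp
    ring

theorem costD_append (i : ℕ) (x : ℤ) (d e : List Bool) :
    costD η i x (d ++ e) =
      costD η i x d + costD η (i + d.length) (x + (d.count true : ℤ)) e := by
  induction d generalizing i x with
  | nil => simp [costD]
  | cons c ds ih =>
    rw [cnt_cons, List.cons_append, List.length_cons]
    change (η (i, x, c) : ℝ) + costD η (i + 1) (x + if c then 1 else 0) (ds ++ e) =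
      (η (i, x, c) : ℝ) + costD η (i + 1) (x + if c then 1 else 0) ds + _
    rw [ih, ← add_assoc, add_right_comm i 1, ← add_assoc i]

theorem allD_append (i : ℕ) (x : ℤ) (d e : List Bool) :
    allD S η i x (d ++ e) ↔
      allD S η i x d ∧ allD S η (i + d.length) (x + (d.count true : ℤ)) e := by
  induction d generalizing i x with
  | nil => simp [allD]
  | cons c ds ih =>
    rw [cnt_cons, List.cons_append, List.length_cons]
    change (η (i, x, c) ∈ S ∧ allD S η (i + 1) (x + if c then 1 else 0) (ds ++ e)) ↔
      (η (i, x, c) ∈ S ∧ allD S η (i + 1) (x + if c then 1 else 0) ds) ∧ _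
    rw [ih, and_assoc, add_right_comm i 1, ← add_assoc i]

theorem costD_sh (s i : ℕ) (x : ℤ) (d : List Bool) :
    costD (sh s η) i x d = costD η (i + s) x d := by
  induction d generalizing i x with
  | nil => rfl
  | cons c ds ih =>
    change ((sh s η) (i, x, c) : ℝ) + costD (sh s η) (i + 1) (x + if c then 1 else 0) ds =
      (η (i + s, x, c) : ℝ) + costD η (i + s + 1) (x + if c then 1 else 0) ds
    rw [ih, add_right_comm i 1 s]
    rfl

theorem costD_le_of_allD {r : ℝ≥0} (i : ℕ) (x : ℤ) (d : List Bool) (h : allD (Iic r) η i x d) :
    costD η i x d ≤ r * d.length := by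
  induction d generalizing i x with
  | nil => simp [costD]
  | cons c ds ih =>
    have h1 : (η (i, x, c) : ℝ) ≤ r := by exact_mod_cast h.1
    have h2 := ih _ _ h.2
    change (η (i, x, c) : ℝ) + costD η (i + 1) (x + if c then 1 else 0) ds ≤ _
    rw [List.length_cons]
    push_cast
    linarith

theorem costD_congr {η' : Env} (i : ℕ) (x : ℤ) (d : List Bool)
    (h : ∀ q : OE, i ≤ q.1 → q.1 < i + d.length → x ≤ q.2.1 → q.2.1 ≤ x + (d.count true : ℤ) →
      η q = η' q) : costD η i x d = costD η' i x d := by
  induction d generalizing i x with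
  | nil => rfl
  | cons c ds ih =>
    rw [cnt_cons, List.length_cons] at h
    change (η (i, x, c) : ℝ) + costD η (i + 1) (x + if c then 1 else 0) ds =
      (η' (i, x, c) : ℝ) + costD η' (i + 1) (x + if c then 1 else 0) ds
    have h0 : (0 : ℤ) ≤ if c then 1 else 0 := by
      cases c <;> simp
    have h1 : η (i, x, c) = η' (i, x, c) := by
      refine h (i, x, c) le_rfl ?_ le_rfl ?_
      · change i < i + (ds.length + 1)
        omega
      · change x ≤ _
        have : (0 : ℤ) ≤ (ds.count true : ℤ) := Int.natCast_nonneg _
        linarith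
    rw [h1, ih]
    intro q hq1 hq2 hq3 hq4
    refine h q (by omega) (by omega) (by linarith) hq4

theorem mem_reach_iff (t : ℕ) (y : ℤ) :
    y ∈ reach S η W t ↔ ∃ x ∈ W, ∃ d : List Bool, d.length = t ∧ y = x + (d.count true : ℤ) ∧
      allD S η 0 x d := by
  induction t generalizing y with
  | zero =>
    constructor
    · intro h
      exact ⟨y, h, [], rfl, by simp, trivial⟩
    · rintro ⟨x, hx, d, hd, hy, _⟩
      rw [List.length_eq_zero_iff] at hd
      subst hd
      have : y = x := by simpa using hy
      rw [this]
      exact hx
  | succ t ih =>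
    constructor
    · rintro (⟨h1, h2⟩ | ⟨h1, h2⟩)
      · obtain ⟨x, hx, d, hd, hy, ha⟩ := (ih y).1 h1
        refine ⟨x, hx, d ++ [false], by simp [hd], by simp [hy], ?_⟩
        rw [allD_append]
        refine ⟨ha, ?_, trivial⟩
        rw [hd, zero_add, ← hy]
        exact h2
      · obtain ⟨x, hx, d, hd, hy, ha⟩ := (ih (y - 1)).1 h1
        refine ⟨x, hx, d ++ [true], by simp [hd], ?_, ?_⟩
        · have : y = x + (d.count true : ℤ) + 1 := by linarith
          rw [this]
          simp
          ring
        · rw [allD_append]
          refine ⟨ha, ?_, trivial⟩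
          rw [hd, zero_add, ← hy]
          exact h2
    · rintro ⟨x, hx, d, hd, hy, ha⟩
      rcases List.eq_nil_or_concat d with h0 | ⟨e, c, rfl⟩
      · subst h0
        simp at hd
      · rw [List.concat_eq_append] at hd hy ha
        rw [List.length_append, List.length_singleton] at hd
        have hd' : e.length = t := by omega
        rw [allD_append] at ha
        obtain ⟨ha1, ha2, _⟩ := ha
        rw [hd', zero_add] at ha2
        cases c
        · have hy' : y = x + (e.count true : ℤ) := by
            rw [hy]
            simp
          refine Or.inl ⟨(ih y).2 ⟨x, hx, e, hd', hy', ha1⟩, ?_⟩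
          rw [hy']
          exact ha2
        · have hy' : y - 1 = x + (e.count true : ℤ) := by
            rw [hy]
            simp
            ring
          refine Or.inr ⟨(ih (y - 1)).2 ⟨x, hx, e, hd', hy', ha1⟩, ?_⟩
          rw [hy']
          exact ha2

end Pool.Agent.TVR
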