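import Pool.Agent.TVR.Law

/-!
# TVR / Dir: oriented percolation in coordinates (level, first coordinate)

Everything is elementary; see the comments at the statements.
-/

set_option autoImplicit false

namespace Pool.Agent.TVR

open MeasureTheory Set
open scoped NNReal ENNReal

/-- oriented edges: `(i, x, d)` leaves the point with first coordinate `x` of level `i`;
`d = true`: east, to `x + 1`; `d = false`: north, to `x`; both on level `i + 1` -/
abbrev OE : Type := ℕ × ℤ × Bool

abbrev Env : Type := OE → ℝ≥0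

/-- one step of the set of reached points through the edges with weight in `S` -/
def step (S : Set ℝ≥0) (l : ℤ × Bool → ℝ≥0) (W : Set ℤ) : Set ℤ :=
  {y | (y ∈ W ∧ l (y, false) ∈ S) ∨ (y - 1 ∈ W ∧ l (y - 1, true) ∈ S)}

/-- points reached after `t` steps from `W` (levels `0, ..., t-1` are used) -/
def reach (S : Set ℝ≥0) (η : Env) (W : Set ℤ) : ℕ → Set ℤ
  | 0 => W
  | t + 1 => step S (fun p => η (t, p)) (reach S η W t)

/-- forget the first `s` levels -/
def sh (s : ℕ) (η : Env) : Env := fun q => η (q.1 + s, q.2)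

/-- the first `s` levels from `η`, then `η'` -/
def glue (s : ℕ) (p : Env × Env) : Env := fun q => if q.1 < s then p.1 q else p.2 (q.1 - s, q.2)

/-- horizontal translation -/
def tr (a : ℤ) (η : Env) : Env := fun q => η (q.1, q.2.1 + a, q.2.2)

variable {S S' : Set ℝ≥0} {η η' : Env} {W W' : Set ℤ}

/-- induction on `t` -/
theorem reach_add (s t : ℕ) : reach S η W (s + t) = reach S (sh s η) (reach S η W s) t := by
  induction t with
  | zero => rfl
  | succ t ih =>
    have h1 : reach S η W (s + (t + 1)) =
        step S (fun p => η (s + t, p)) (reach S η W (s + t)) := rfl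
    have h2 : reach S (sh s η) (reach S η W s) (t + 1) =
        step S (fun p => η (t + s, p)) (reach S (sh s η) (reach S η W s) t) := rfl
    rw [h1, h2, ih, add_comm s t]

/-- induction on `t`; only levels `< t` are used -/
theorem reach_congr (t : ℕ) (h : ∀ q : OE, q.1 < t → η q = η' q) :
    reach S η W t = reach S η' W t := by
  induction t with
  | zero => rfl
  | succ t ih =>
    have h1 : reach S η W (t + 1) = step S (fun p => η (t, p)) (reach S η W t) := rfl
    have h2 : reach S η' W (t + 1) = step S (fun p => η' (t, p)) (reach S η' W t) := rfl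
    have h3 : (fun p : ℤ × Bool => η (t, p)) = fun p => η' (t, p) := by
      funext p
      exact h (t, p) (Nat.lt_succ_self t)
    rw [h1, h2, ih fun q hq => h q (Nat.lt_succ_of_lt hq), h3]

theorem step_mono {l : ℤ × Bool → ℝ≥0} (hS : S ⊆ S') (hW : W ⊆ W') : step S l W ⊆ step S' l W' := by
  rintro y (⟨h1, h2⟩ | ⟨h1, h2⟩)
  · exact Or.inl ⟨hW h1, hS h2⟩
  · exact Or.inr ⟨hW h1, hS h2⟩

theorem reach_mono (hS : S ⊆ S') (hW : W ⊆ W') (t : ℕ) : reach S η W t ⊆ reach S' η W' t := by
  induction t with
  | zero => exact hW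
  | succ t ih => exact step_mono hS ih

theorem reach_union (t : ℕ) : reach S η (W ∪ W') t = reach S η W t ∪ reach S η W' t := by
  induction t with
  | zero => rfl
  | succ t ih =>
    have h1 : ∀ V : Set ℤ, reach S η V (t + 1) = step S (fun p => η (t, p)) (reach S η V t) :=
      fun _ => rfl
    rw [h1, h1, h1, ih]
    ext y
    constructor
    · rintro (⟨h2 | h2, h3⟩ | ⟨h2 | h2, h3⟩)
      · exact Or.inl (Or.inl ⟨h2, h3⟩)
      · exact Or.inr (Or.inl ⟨h2, h3⟩)
      · exact Or.inl (Or.inr ⟨h2, h3⟩)
      · exact Or.inr (Or.inr ⟨h2, h3⟩)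
    · rintro (h2 | h2)
      · exact step_mono (le_refl _) subset_union_left h2
      · exact step_mono (le_refl _) subset_union_right h2

theorem reach_iUnion {ι : Type} (U : ι → Set ℤ) (t : ℕ) :
    reach S η (⋃ i, U i) t = ⋃ i, reach S η (U i) t := by
  induction t with
  | zero => rfl
  | succ t ih =>
    have h1 : ∀ V : Set ℤ, reach S η V (t + 1) = step S (fun p => η (t, p)) (reach S η V t) :=
      fun _ => rfl
    rw [h1, ih]
    ext y
    rw [mem_iUnion]
    constructor
    · rintro (⟨h2, h3⟩ | ⟨h2, h3⟩)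
      · rw [mem_iUnion] at h2
        obtain ⟨i, hi⟩ := h2
        exact ⟨i, Or.inl ⟨hi, h3⟩⟩
      · rw [mem_iUnion] at h2
        obtain ⟨i, hi⟩ := h2
        exact ⟨i, Or.inr ⟨hi, h3⟩⟩
    · rintro ⟨i, hi⟩
      exact step_mono (le_refl _) (subset_iUnion (fun i => reach S η (U i) t) i) hi

/-- the first coordinate increases by at most one in each step and never decreases -/
theorem reach_le {b : ℤ} (hW : ∀ y ∈ W, y ≤ b) (t : ℕ) : ∀ y ∈ reach S η W t, y ≤ b + t := by
  induction t with
  | zero =>
    intro y hy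
    have := hW y hy
    simpa using this
  | succ t ih =>
    rintro y (⟨h1, -⟩ | ⟨h1, -⟩)
    · have := ih y h1
      push_cast
      linarith
    · have := ih _ h1
      push_cast
      linarith

theorem reach_ge {b : ℤ} (hW : ∀ y ∈ W, b ≤ y) (t : ℕ) : ∀ y ∈ reach S η W t, b ≤ y := by
  induction t with
  | zero => exact hW
  | succ t ih =>
    rintro y (⟨h1, -⟩ | ⟨h1, -⟩)
    · exact ih y h1
    · have := ih _ h1
      linarith

/-- translation: induction on `t` -/
theorem reach_tr (a : ℤ) (t : ℕ) (y : ℤ) :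
    y ∈ reach S (tr a η) W t ↔ y + a ∈ reach S η ((fun x => x + a) '' W) t := by
  induction t generalizing y with
  | zero =>
    constructor
    · intro h
      exact ⟨y, h, rfl⟩
    · rintro ⟨z, hz, h⟩
      have h2 : z = y := add_right_cancel h
      rw [← h2]
      exact hz
  | succ t ih =>
    have h1 : y ∈ reach S (tr a η) W (t + 1) ↔
        (y ∈ reach S (tr a η) W t ∧ η (t, y + a, false) ∈ S) ∨
          (y - 1 ∈ reach S (tr a η) W t ∧ η (t, y - 1 + a, true) ∈ S) := Iff.rfl
    have h2 : y + a ∈ reach S η ((fun x => x + a) '' W) (t + 1) ↔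
        (y + a ∈ reach S η ((fun x => x + a) '' W) t ∧ η (t, y + a, false) ∈ S) ∨
          (y + a - 1 ∈ reach S η ((fun x => x + a) '' W) t ∧ η (t, y + a - 1, true) ∈ S) :=
      Iff.rfl
    rw [h1, h2, ih, ih, show y - 1 + a = y + a - 1 by ring]

/-- the same with a random starting set -/
private theorem measurableSet_reach_aux {Ω : Type*} [MeasurableSpace Ω] (hS : MeasurableSet S)
    {e : Ω → Env} (he : Measurable e) {U : Ω → Set ℤ} (hU : ∀ y, MeasurableSet {ω | y ∈ U ω})
    (t : ℕ) (y : ℤ) : MeasurableSet {ω | y ∈ reach S (e ω) (U ω) t} := by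
  induction t generalizing y with
  | zero => exact hU y
  | succ t ih =>
    have h1 : {ω | y ∈ reach S (e ω) (U ω) (t + 1)} =
        ({ω | y ∈ reach S (e ω) (U ω) t} ∩ (fun ω => e ω (t, y, false)) ⁻¹' S) ∪
          ({ω | y - 1 ∈ reach S (e ω) (U ω) t} ∩ (fun ω => e ω (t, y - 1, true)) ⁻¹' S) := rfl
    rw [h1]
    exact ((ih y).inter (((measurable_pi_apply _).comp he) hS)).union
      ((ih (y - 1)).inter (((measurable_pi_apply _).comp he) hS))

/-- the event that `y` is reached is measurable: induction on `t` -/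
theorem measurableSet_reach (hS : MeasurableSet S) (W : Set ℤ) (t : ℕ) (y : ℤ) :
    MeasurableSet {η : Env | y ∈ reach S η W t} :=
  measurableSet_reach_aux hS (e := fun η : Env => η) measurable_id (U := fun _ => W)
    (fun _ => MeasurableSet.const _) t y

/-- the same with a random starting set -/
theorem measurableSet_reach' {Ω : Type*} [MeasurableSpace Ω] (hS : MeasurableSet S)
    {e : Ω → Env} (he : Measurable e) {U : Ω → Set ℤ} (hU : ∀ y, MeasurableSet {ω | y ∈ U ω})
    (t : ℕ) (y : ℤ) : MeasurableSet {ω | y ∈ reach S (e ω) (U ω) t} :=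
  measurableSet_reach_aux hS he hU t y

theorem measurable_sh (s : ℕ) : Measurable (sh s) :=
  measurable_pi_lambda _ fun _ => measurable_pi_apply _

theorem measurable_tr (a : ℤ) : Measurable (tr a) :=
  measurable_pi_lambda _ fun _ => measurable_pi_apply _

theorem measurable_glue (s : ℕ) : Measurable (glue s) := by
  refine measurable_pi_lambda _ fun q => ?_
  unfold glue
  by_cases h : q.1 < s
  · simp only [if_pos h]
    exact (measurable_pi_apply _).comp measurable_fst
  · simp only [if_neg h]
    exact (measurable_pi_apply _).comp measurable_snd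

theorem sh_glue (s : ℕ) (p : Env × Env) : sh s (glue s p) = p.2 := by
  funext q
  simp [sh, glue]

theorem reach_glue (s t : ℕ) (ht : t ≤ s) (p : Env × Env) :
    reach S (glue s p) W t = reach S p.1 W t :=
  reach_congr t fun q hq => by simp [glue, lt_of_lt_of_le hq ht]

variable {F : Measure ℝ≥0} [IsProbabilityMeasure F]

/-- relabelling by the injection `q ↦ (q.1 + s, q.2)`: use `iid_eq`, or `mix_mp` with `I = univ` -/
theorem sh_mp (s : ℕ) : MeasurePreserving (sh s) (iid OE F) (iid OE F) := by
  refine ⟨measurable_sh s, ?_⟩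
  have h1 := (mix_mp (F := F) (univ : Set OE) (fun q : OE => ((q.1 + s, q.2) : OE)) (by
    intro q _ q' _ h
    have h' := Prod.ext_iff.mp h
    have h2 : q.1 + s = q'.1 + s := h'.1
    have h3 : q.2 = q'.2 := h'.2
    exact Prod.ext (by omega) h3)).map_eq
  have h2 : Measure.map Prod.fst ((iid OE F).prod (iid OE F)) = iid OE F :=
    measurePreserving_fst.map_eq
  have h3 : mixf (univ : Set OE) (fun q : OE => ((q.1 + s, q.2) : OE)) = sh s ∘ Prod.fst := by
    funext p q
    simp [mixf, sh]
  rw [h3, ← Measure.map_map (measurable_sh s) measurable_fst, h2] at h1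
  exact h1

theorem tr_mp (a : ℤ) : MeasurePreserving (tr a) (iid OE F) (iid OE F) := by
  refine ⟨measurable_tr a, ?_⟩
  have h1 := (mix_mp (F := F) (univ : Set OE) (fun q : OE => ((q.1, q.2.1 + a, q.2.2) : OE)) (by
    intro q _ q' _ h
    have h' := Prod.ext_iff.mp h
    have h'' := Prod.ext_iff.mp h'.2
    have h2 : q.1 = q'.1 := h'.1
    have h3 : q.2.1 + a = q'.2.1 + a := h''.1
    have h4 : q.2.2 = q'.2.2 := h''.2
    exact Prod.ext h2 (Prod.ext (add_right_cancel h3) h4))).map_eq
  have h2 : Measure.map Prod.fst ((iid OE F).prod (iid OE F)) = iid OE F :=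
    measurePreserving_fst.map_eq
  have h3 : mixf (univ : Set OE) (fun q : OE => ((q.1, q.2.1 + a, q.2.2) : OE)) =
      tr a ∘ Prod.fst := by
    funext p q
    simp [mixf, tr]
  rw [h3, ← Measure.map_map (measurable_tr a) measurable_fst, h2] at h1
  exact h1

/-- use `iid_eq` on boxes: split the finite set of coordinates by `q.1 < s` -/
theorem glue_mp (s : ℕ) :
    MeasurePreserving (glue s) ((iid OE F).prod (iid OE F)) (iid OE F) := by
  have h1 := mix_mp (F := F) ({q : OE | ¬ q.1 < s}) (fun q : OE => ((q.1 - s, q.2) : OE)) (by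
    intro q hq q' hq' h
    have h' := Prod.ext_iff.mp h
    have h2 : q.1 - s = q'.1 - s := h'.1
    have h3 : q.2 = q'.2 := h'.2
    have h4 : ¬ q.1 < s := hq
    have h5 : ¬ q'.1 < s := hq'
    exact Prod.ext (by omega) h3)
  have h2 : MeasurePreserving (Prod.swap : Env × Env → Env × Env)
      ((iid OE F).prod (iid OE F)) ((iid OE F).prod (iid OE F)) :=
    Measure.measurePreserving_swap
  have h3 := h1.comp h2
  have h4 : mixf ({q : OE | ¬ q.1 < s}) (fun q : OE => ((q.1 - s, q.2) : OE)) ∘ Prod.swap =
      glue s := by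
    funext p q
    by_cases h : q.1 < s
    · simp [mixf, glue, h]
    · simp [mixf, glue, h]
  rw [h4] at h3
  exact h3

end Pool.Agent.TVR
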