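import Pool.Agent.TVR.Gain

/-!
# TVR / Dout: cheap fast oriented paths

Proof. Choose `τ : ℕ`, `τ ≥ 1`, `τ > 16 K0 v / r`; `κ = (kap F r K0 τ).toReal ∈ (0, 1]` (all three factors are
nonzero: `F (Ioi r) ≥ F (Ioc r K0)`). For `ℓ ≥ 1`, `s = ℓ τ`, `θ = 1/s`. By `gain_run` with `W = Iic 0` and `hv`:
`∫ Zf θ (run η (Iic 0) ℓ) ≥ e^{θ v s} (1 + κ (1 - e^{-1/ℓ}))^ℓ ≥ e^v (1 + κ/(2ℓ))^ℓ ≥ e^{v + κ/4}`
(`1 - e^{-x} ≥ x/2` for `0 ≤ x ≤ 1`; `1 + y ≥ e^{y/2}` for `0 ≤ y ≤ 1`).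
Since all points of `run` are `≤ s` (`run_le`), `Zf ≤ e`, and `Zf ≤ e^{v+κ/8}` on the complement of
`A = {∃ y ∈ run η (Iic 0) ℓ, (v+κ/8) s ≤ y}`; so `e^{v+κ/4} ≤ e^{v+κ/8} + e P(A)` and
`P(A) ≥ e^{-1}(e^{v+κ/4} - e^{v+κ/8}) ≥ κ/(8e)` (`v ≥ 0`, `e^{a} - e^{b} ≥ a - b` for `a ≥ b ≥ 0`).
Markov's inequality with `used_exp`: `P(used ≥ 2 κ ℓ) ≤ (1+κ)^ℓ 2^{-2κℓ} ≤ e^{-(2 log 2 - 1) κ ℓ} → 0`. So for `ℓ ≥ ℓ0`:
`P(A and used < 2κℓ) ≥ κ/(16 e) =: c`.
Given `h` (large), `ℓ = ⌈h / ((v+κ/8) τ)⌉`, `s = ℓ τ ≤ h/(v+κ/8) + τ ≤ h/v + τ`. On the event, `run_path` gives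
`x ≤ 0` and a word `d` of length `s` with `x + count true d = y ≥ (v+κ/8) s ≥ h` and
`costD η 0 x d ≤ r s + K0 * 2 κ ℓ = s (r + 2 K0 κ/τ) ≤ (h/(v+κ/8) + τ)(r + 2 K0 κ/τ) ≤ ρ h` for `h` large, where `ρ` is any number with
`(r + 2 K0 κ/τ)/(v+κ/8) < ρ < r/v`; such `ρ` exists because `2 K0 κ v/τ < r κ/8`.
(Real arithmetic: work with `κ` real, `ENNReal.ofReal` conversions at the end. Monotonicity of the measure suffices: the
event of the statement contains the good event.)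
-/

set_option autoImplicit false

namespace Pool.Agent.TVR

open MeasureTheory Set
open scoped NNReal ENNReal

namespace DoutAux

theorem one_add_ge {x : ℝ} (h0 : 0 ≤ x) (h1 : x ≤ 1) : Real.exp (x / 2) ≤ 1 + x := by
  have h2 : 1 - x / 2 ≤ Real.exp (-(x / 2)) := by
    have := Real.add_one_le_exp (-(x / 2))
    linarith
  have h3 : 0 < 1 - x / 2 := by linarith
  have h4 : Real.exp (x / 2) * Real.exp (-(x / 2)) = 1 := by
    rw [← Real.exp_add]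
    simp
  have h5 : Real.exp (x / 2) * (1 - x / 2) ≤ 1 :=
    (mul_le_mul_of_nonneg_left h2 (Real.exp_pos _).le).trans_eq h4
  have h6 : 1 ≤ (1 + x) * (1 - x / 2) := by nlinarith
  exact le_of_mul_le_mul_right (h5.trans h6) h3

theorem one_sub_exp_ge {x : ℝ} (h0 : 0 ≤ x) (h1 : x ≤ 1) : x / 2 ≤ 1 - Real.exp (-x) := by
  have h2 : 1 + x ≤ Real.exp x := by
    have := Real.add_one_le_exp x
    linarith
  have h4 : Real.exp x * Real.exp (-x) = 1 := by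
    rw [← Real.exp_add]
    simp
  have h5 : (1 + x) * Real.exp (-x) ≤ 1 :=
    (mul_le_mul_of_nonneg_right h2 (Real.exp_pos _).le).trans_eq h4
  have h6 : 1 ≤ (1 + x) * (1 - x / 2) := by nlinarith
  have h7 := le_of_mul_le_mul_left (h5.trans h6) (by linarith)
  linarith

theorem pow_ge {κ : ℝ} (h0 : 0 ≤ κ) (h1 : κ ≤ 1) {l : ℕ} (hl : 0 < l) :
    Real.exp (κ / 4) ≤ (1 + κ * (1 - Real.exp (-(1 / (l : ℝ))))) ^ l := by
  have hl' : (0 : ℝ) < l := Nat.cast_pos.2 hl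
  have hl1 : (1 : ℝ) ≤ l := by exact_mod_cast hl
  have hx0 : 0 ≤ 1 / (l : ℝ) := by positivity
  have hx1 : 1 / (l : ℝ) ≤ 1 := by
    rw [div_le_one hl']
    exact hl1
  have h2 := one_sub_exp_ge hx0 hx1
  have h3 : κ * (1 / (l : ℝ) / 2) ≤ κ * (1 - Real.exp (-(1 / (l : ℝ)))) :=
    mul_le_mul_of_nonneg_left h2 h0
  have h4 : 0 ≤ κ * (1 / (l : ℝ) / 2) := by positivity
  have h5 : κ * (1 / (l : ℝ) / 2) ≤ 1 := by nlinarith
  have h6 := one_add_ge h4 h5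
  have h7 : Real.exp (κ / 4) = Real.exp (κ * (1 / (l : ℝ) / 2) / 2) ^ l := by
    rw [← Real.exp_nat_mul]
    congr 1
    field_simp
    ring
  rw [h7]
  exact pow_le_pow_left₀ (Real.exp_pos _).le (by linarith) l

variable {F : Measure ℝ≥0} [IsProbabilityMeasure F] {r K0 : ℝ≥0} {τ : ℕ}

theorem kap_le_one : kap F r K0 τ ≤ 1 := by
  unfold kap
  calc F (Ioc r K0) * F (Ioi r) ^ (τ - 1) * F (Iic r) ^ (τ * (τ - 1))
      ≤ 1 * 1 ^ (τ - 1) * 1 ^ (τ * (τ - 1)) := by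
        gcongr <;> exact prob_le_one
    _ = 1 := by simp

omit [IsProbabilityMeasure F] in
theorem kap_ne_zero (hp : F (Iic r) ≠ 0) (hq : F (Ioc r K0) ≠ 0) : kap F r K0 τ ≠ 0 := by
  unfold kap
  have h1 : F (Ioi r) ≠ 0 := by
    intro h
    exact hq (measure_mono_null (fun x hx => hx.1) h)
  exact mul_ne_zero (mul_ne_zero hq (pow_ne_zero _ h1)) (pow_ne_zero _ hp)

theorem prob_A {v κ : ℝ} (hv0 : 0 ≤ v) (hκ0 : 0 ≤ κ) (hκ1 : κ ≤ 1)
    (hκ : kap F r K0 τ = ENNReal.ofReal κ) (hτ : 0 < τ)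
    (hv : ∀ θ : ℝ, 0 < θ → θ ≤ 1 → ∀ t : ℕ, 0 < t →
      ENNReal.ofReal (Real.exp (θ * v * t)) ≤ psi F (Iic r) θ t) {l : ℕ} (hl : 0 < l) :
    ENNReal.ofReal (κ / 8 * Real.exp (-1)) ≤
      iid OE F {η | ∃ y ∈ run r K0 τ η (Iic 0) l, (v + κ / 8) * ((l * τ : ℕ) : ℝ) ≤ y} := by
  set s : ℕ := l * τ with hs
  have hs0 : 0 < s := Nat.mul_pos hl hτ
  have hsR : (0 : ℝ) < s := Nat.cast_pos.2 hs0
  have hsR1 : (1 : ℝ) ≤ s := by exact_mod_cast hs0
  have hlR : (0 : ℝ) < l := Nat.cast_pos.2 hl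
  have hτR : (0 : ℝ) < τ := Nat.cast_pos.2 hτ
  set θ : ℝ := 1 / s with hθ
  have hθ0 : 0 < θ := by positivity
  have hθ1 : θ ≤ 1 := by
    rw [hθ, div_le_one hsR]
    exact hsR1
  set A : Set Env := {η | ∃ y ∈ run r K0 τ η (Iic 0) l, (v + κ / 8) * (s : ℝ) ≤ y} with hA
  have h1 := gain_run (F := F) (r := r) (K0 := K0) (W := Iic 0) hτ hθ0.le bddAbove_Iic l
  rw [← hs, hκ] at h1
  have hθτ : θ * τ = 1 / (l : ℝ) := by
    rw [hθ, hs]
    push_cast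
    field_simp
  rw [hθτ] at h1
  have h2 : ENNReal.ofReal (Real.exp v) ≤ fE F (Iic r) θ s (Iic 0) := by
    have := hv θ hθ0 hθ1 s hs0
    have h3 : θ * v * s = v := by
      rw [hθ]
      field_simp
    rw [h3] at this
    exact this
  have hexp1 : 0 ≤ 1 - Real.exp (-(1 / (l : ℝ))) := by
    have : Real.exp (-(1 / (l : ℝ))) ≤ 1 := Real.exp_le_one_iff.2 (by
      have : 0 < 1 / (l : ℝ) := by positivity
      linarith)
    linarith
  have h3 : ENNReal.ofReal (Real.exp (κ / 4)) ≤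
      (1 + ENNReal.ofReal κ * ENNReal.ofReal (1 - Real.exp (-(1 / (l : ℝ))))) ^ l := by
    rw [← ENNReal.ofReal_mul hκ0, ← ENNReal.ofReal_one, ← ENNReal.ofReal_add zero_le_one
      (mul_nonneg hκ0 hexp1), ← ENNReal.ofReal_pow (by positivity)]
    exact ENNReal.ofReal_le_ofReal (pow_ge hκ0 hκ1 hl)
  have h4 : ENNReal.ofReal (Real.exp (v + κ / 4)) ≤
      ∫⁻ η, Zf θ (run r K0 τ η (Iic 0) l) ∂(iid OE F) := by
    refine le_trans ?_ h1
    rw [Real.exp_add, ENNReal.ofReal_mul (Real.exp_pos _).le]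
    exact mul_le_mul' h2 h3
  -- upper bound of the integrand
  have h5 : ∀ η : Env, Zf θ (run r K0 τ η (Iic 0) l) ≤
      ENNReal.ofReal (Real.exp (v + κ / 8)) + A.indicator (fun _ => ENNReal.ofReal (Real.exp 1)) η := by
    intro η
    by_cases hη : η ∈ A
    · rw [indicator_of_mem hη]
      refine le_trans ?_ le_add_self
      unfold Zf
      refine iSup₂_le fun y hy => ENNReal.ofReal_le_ofReal (Real.exp_le_exp.2 ?_)
      have h6 := run_le (r := r) (K0 := K0) (τ := τ) (η := η) (W := Iic 0) (R := 0)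
        (fun y hy => hy) l y hy
      rw [← hs, zero_add] at h6
      have h7 : (y : ℝ) ≤ s := by exact_mod_cast h6
      rw [hθ, one_div, inv_mul_le_iff₀ hsR, mul_one]
      exact h7
    · rw [indicator_of_notMem hη, add_zero]
      unfold Zf
      refine iSup₂_le fun y hy => ENNReal.ofReal_le_ofReal (Real.exp_le_exp.2 ?_)
      have h7 : (y : ℝ) ≤ (v + κ / 8) * s := by
        by_contra h
        exact hη ⟨y, hy, (not_le.1 h).le⟩
      rw [hθ, one_div, inv_mul_le_iff₀ hsR, mul_comm]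
      exact h7
  have h8 : ∫⁻ η, Zf θ (run r K0 τ η (Iic 0) l) ∂(iid OE F) ≤
      ENNReal.ofReal (Real.exp (v + κ / 8)) + ENNReal.ofReal (Real.exp 1) * iid OE F A := by
    refine (lintegral_mono h5).trans ?_
    rw [lintegral_add_left measurable_const]
    refine add_le_add ?_ (lintegral_indicator_const_le A _)
    simp
  have h9 := h4.trans h8
  -- conclusion
  have hfin : iid OE F A ≠ ∞ := measure_ne_top _ _
  have h10 : Real.exp (v + κ / 4) ≤ Real.exp (v + κ / 8) + Real.exp 1 * (iid OE F A).toReal := by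
    rw [← ENNReal.ofReal_toReal hfin, ← ENNReal.ofReal_mul (Real.exp_pos _).le,
      ← ENNReal.ofReal_add (Real.exp_pos _).le (by positivity)] at h9
    exact (ENNReal.ofReal_le_ofReal_iff (by positivity)).1 h9
  have h11 : Real.exp (v + κ / 8) * (1 + κ / 8) ≤ Real.exp (v + κ / 4) := by
    have : v + κ / 4 = (v + κ / 8) + κ / 8 := by ring
    rw [this, Real.exp_add (v + κ / 8)]
    refine mul_le_mul_of_nonneg_left ?_ (Real.exp_pos _).le
    have := Real.add_one_le_exp (κ / 8)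
    linarith
  have h12 : 1 ≤ Real.exp (v + κ / 8) := Real.one_le_exp (by positivity)
  have h13 : κ / 8 ≤ Real.exp 1 * (iid OE F A).toReal := by nlinarith
  have h14 : κ / 8 * Real.exp (-1) ≤ (iid OE F A).toReal := by
    have h15 : Real.exp 1 * Real.exp (-1) = 1 := by
      rw [← Real.exp_add]
      simp
    calc κ / 8 * Real.exp (-1) ≤ (Real.exp 1 * (iid OE F A).toReal) * Real.exp (-1) :=
          mul_le_mul_of_nonneg_right h13 (Real.exp_pos _).le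
      _ = (Real.exp 1 * Real.exp (-1)) * (iid OE F A).toReal := by ring
      _ = (iid OE F A).toReal := by rw [h15, one_mul]
  exact (ENNReal.ofReal_le_iff_le_toReal hfin).2 h14

theorem prob_B {κ : ℝ} (hκ0 : 0 ≤ κ) (hκ : kap F r K0 τ = ENNReal.ofReal κ) (hτ : 0 < τ) (l : ℕ) :
    iid OE F {η | 2 * κ * l ≤ (used r K0 τ η (Iic 0) l : ℝ)} ≤
      ENNReal.ofReal (Real.exp (-((2 * Real.log 2 - 1) * κ * l))) := by
  have h1 := used_exp (F := F) (r := r) (K0 := K0) hτ (Iic 0) l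
  have hm : Measurable fun η : Env => (2 : ℝ≥0∞) ^ used r K0 τ η (Iic 0) l := by
    have h2 := measurable_used (r := r) (K0 := K0) (τ := τ) (e := fun η : Env => η) measurable_id
      (U := fun _ => Iic 0) (fun y => by simp) l
    exact (measurable_of_countable (fun n : ℕ => (2 : ℝ≥0∞) ^ n)).comp h2
  have h3 := mul_meas_ge_le_lintegral (μ := iid OE F) hm (ENNReal.ofReal ((2 : ℝ) ^ (2 * κ * l)))
  have hsub : {η : Env | 2 * κ * l ≤ (used r K0 τ η (Iic 0) l : ℝ)} ⊆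
      {η : Env | ENNReal.ofReal ((2 : ℝ) ^ (2 * κ * l)) ≤
        (2 : ℝ≥0∞) ^ used r K0 τ η (Iic 0) l} := by
    intro η hη
    have h4 : (2 : ℝ) ^ (2 * κ * l) ≤ (2 : ℝ) ^ ((used r K0 τ η (Iic 0) l : ℕ) : ℝ) :=
      Real.rpow_le_rpow_of_exponent_le (by norm_num) hη
    rw [Real.rpow_natCast] at h4
    have h5 := ENNReal.ofReal_le_ofReal h4
    rw [ENNReal.ofReal_pow (by norm_num)] at h5
    simpa using h5
  have h6 : ENNReal.ofReal ((2 : ℝ) ^ (2 * κ * l)) *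
      iid OE F {η : Env | 2 * κ * l ≤ (used r K0 τ η (Iic 0) l : ℝ)} ≤
      ENNReal.ofReal (Real.exp (κ * l)) := by
    refine (mul_le_mul' le_rfl (measure_mono hsub)).trans (h3.trans (h1.trans ?_))
    rw [hκ, ← ENNReal.ofReal_one, ← ENNReal.ofReal_add zero_le_one hκ0,
      ← ENNReal.ofReal_pow (by positivity)]
    refine ENNReal.ofReal_le_ofReal ?_
    rw [mul_comm κ, Real.exp_nat_mul]
    refine pow_le_pow_left₀ (by positivity) ?_ l
    have := Real.add_one_le_exp κ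
    linarith
  have h7 : ENNReal.ofReal (Real.exp (-((2 * Real.log 2 - 1) * κ * l))) =
      ENNReal.ofReal ((2 : ℝ) ^ (-(2 * κ * l))) * ENNReal.ofReal (Real.exp (κ * l)) := by
    rw [← ENNReal.ofReal_mul (by positivity), Real.rpow_def_of_pos (by norm_num), ← Real.exp_add]
    congr 2
    ring
  have h8 : ENNReal.ofReal ((2 : ℝ) ^ (-(2 * κ * l))) * ENNReal.ofReal ((2 : ℝ) ^ (2 * κ * l)) =
      1 := by
    rw [← ENNReal.ofReal_mul (by positivity), ← Real.rpow_add (by norm_num)]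
    simp
  rw [h7]
  calc iid OE F {η : Env | 2 * κ * l ≤ (used r K0 τ η (Iic 0) l : ℝ)}
      = (ENNReal.ofReal ((2 : ℝ) ^ (-(2 * κ * l))) * ENNReal.ofReal ((2 : ℝ) ^ (2 * κ * l))) *
        iid OE F {η : Env | 2 * κ * l ≤ (used r K0 τ η (Iic 0) l : ℝ)} := by rw [h8, one_mul]
    _ = ENNReal.ofReal ((2 : ℝ) ^ (-(2 * κ * l))) * (ENNReal.ofReal ((2 : ℝ) ^ (2 * κ * l)) *
        iid OE F {η : Env | 2 * κ * l ≤ (used r K0 τ η (Iic 0) l : ℝ)}) := by rw [mul_assoc]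
    _ ≤ _ := mul_le_mul' le_rfl h6

theorem exists_l0 {κ : ℝ} (hκ : 0 < κ) : ∃ l0 : ℕ, ∀ l : ℕ, l0 ≤ l →
    Real.exp (-((2 * Real.log 2 - 1) * κ * l)) ≤ κ / 16 * Real.exp (-1) := by
  have hlog : 0 < 2 * Real.log 2 - 1 := by
    have := Real.log_two_gt_d9
    linarith
  have ha : 0 < (2 * Real.log 2 - 1) * κ := mul_pos hlog hκ
  have hc : 0 < κ / 16 * Real.exp (-1) := by positivity
  have h1 : Filter.Tendsto (fun l : ℕ => Real.exp (-((2 * Real.log 2 - 1) * κ * l)))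
      Filter.atTop (nhds 0) := by
    refine Real.tendsto_exp_neg_atTop_nhds_zero.comp ?_
    exact (tendsto_natCast_atTop_atTop (R := ℝ)).const_mul_atTop ha
  obtain ⟨l0, hl0⟩ := Filter.eventually_atTop.1 (h1.eventually_le_const hc)
  exact ⟨l0, hl0⟩

theorem prob_AB {v κ : ℝ} (hv0 : 0 ≤ v) (hκ0 : 0 ≤ κ) (hκ1 : κ ≤ 1)
    (hκ : kap F r K0 τ = ENNReal.ofReal κ) (hτ : 0 < τ)
    (hv : ∀ θ : ℝ, 0 < θ → θ ≤ 1 → ∀ t : ℕ, 0 < t →
      ENNReal.ofReal (Real.exp (θ * v * t)) ≤ psi F (Iic r) θ t) {l : ℕ} (hl : 0 < l)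
    (hl0 : Real.exp (-((2 * Real.log 2 - 1) * κ * l)) ≤ κ / 16 * Real.exp (-1)) :
    ENNReal.ofReal (κ / 16 * Real.exp (-1)) ≤
      iid OE F {η | (∃ y ∈ run r K0 τ η (Iic 0) l, (v + κ / 8) * ((l * τ : ℕ) : ℝ) ≤ y) ∧
        (used r K0 τ η (Iic 0) l : ℝ) < 2 * κ * l} := by
  set A : Set Env := {η | ∃ y ∈ run r K0 τ η (Iic 0) l, (v + κ / 8) * ((l * τ : ℕ) : ℝ) ≤ y}
  set B : Set Env := {η | 2 * κ * l ≤ (used r K0 τ η (Iic 0) l : ℝ)}
  set C : Set Env := {η | (∃ y ∈ run r K0 τ η (Iic 0) l, (v + κ / 8) * ((l * τ : ℕ) : ℝ) ≤ y) ∧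
        (used r K0 τ η (Iic 0) l : ℝ) < 2 * κ * l}
  have h1 : A ⊆ C ∪ B := by
    intro η hη
    by_cases h : 2 * κ * l ≤ (used r K0 τ η (Iic 0) l : ℝ)
    · exact Or.inr h
    · exact Or.inl ⟨hη, not_le.1 h⟩
  have h2 : ENNReal.ofReal (κ / 8 * Real.exp (-1)) ≤
      iid OE F C + ENNReal.ofReal (κ / 16 * Real.exp (-1)) :=
    (prob_A hv0 hκ0 hκ1 hκ hτ hv hl).trans ((measure_mono h1).trans ((measure_union_le C B).trans
      (add_le_add le_rfl ((prob_B hκ0 hκ hτ l).trans (ENNReal.ofReal_le_ofReal hl0)))))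
  have h3 : κ / 8 * Real.exp (-1) = κ / 16 * Real.exp (-1) + κ / 16 * Real.exp (-1) := by ring
  rw [h3, ENNReal.ofReal_add (by positivity) (by positivity)] at h2
  exact (ENNReal.add_le_add_iff_right ENNReal.ofReal_ne_top).1 h2

end DoutAux

open DoutAux in
theorem dout (F : Measure ℝ≥0) [IsProbabilityMeasure F] {r K0 : ℝ≥0} (hr : 0 < r)
    (hp : F (Iic r) ≠ 0) (hq : F (Ioc r K0) ≠ 0) {v : ℝ} (hv1 : 1 / 2 ≤ v) (hv2 : v ≤ 1)
    (hv : ∀ θ : ℝ, 0 < θ → θ ≤ 1 → ∀ t : ℕ, 0 < t →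
      ENNReal.ofReal (Real.exp (θ * v * t)) ≤ psi F (Iic r) θ t) :
    ∃ ρ : ℝ, 0 < ρ ∧ ρ < r / v ∧ ∃ c : ℝ, 0 < c ∧ ∃ τ h0 : ℕ, ∀ h : ℕ, h0 ≤ h →
      ∃ s : ℕ, (s : ℝ) ≤ h / v + τ ∧
        ENNReal.ofReal c ≤ iid OE F {η | ∃ x : ℤ, x ≤ 0 ∧ ∃ d : List Bool, d.length = s ∧
          (h : ℤ) ≤ x + (d.count true : ℤ) ∧ costD η 0 x d ≤ ρ * h} := by
  have hrR : (0 : ℝ) < r := by exact_mod_cast hr
  have hv0 : 0 < v := by linarith
  have hK0 : (0 : ℝ) ≤ K0 := K0.2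
  obtain ⟨τ, hτ⟩ := exists_nat_gt (16 * (K0 : ℝ) * v / r)
  have hτR : (0 : ℝ) < τ := lt_of_le_of_lt (by positivity) hτ
  have hτ0 : 0 < τ := by exact_mod_cast hτR
  have hk1 : kap F r K0 τ ≤ 1 := kap_le_one
  have hktop : kap F r K0 τ ≠ ∞ := ne_top_of_le_ne_top ENNReal.one_ne_top hk1
  set κ : ℝ := (kap F r K0 τ).toReal with hκdef
  have hκ : kap F r K0 τ = ENNReal.ofReal κ := (ENNReal.ofReal_toReal hktop).symm
  have hκ0 : 0 < κ := ENNReal.toReal_pos (kap_ne_zero hp hq) hktop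
  have hκ1 : κ ≤ 1 := by
    have := ENNReal.toReal_mono ENNReal.one_ne_top hk1
    simpa using this
  set R : ℝ := r + 2 * K0 * κ / τ with hR
  have hR0 : 0 < R := by positivity
  set w : ℝ := v + κ / 8 with hw
  have hw0 : 0 < w := by positivity
  have hkey : R / w < r / v := by
    rw [div_lt_div_iff₀ hw0 hv0, hR, hw]
    have h1 : 16 * (K0 : ℝ) * v < r * τ := by
      rw [div_lt_iff₀ hrR] at hτ
      linarith
    have h2 : 2 * (K0 : ℝ) * κ / τ * v < r * (κ / 8) := by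
      rw [div_mul_eq_mul_div, div_lt_iff₀ hτR]
      nlinarith
    nlinarith
  obtain ⟨ρ, hρ1, hρ2⟩ := exists_between hkey
  have hρ0 : 0 < ρ := lt_trans (by positivity) hρ1
  obtain ⟨l0, hl0⟩ := exists_l0 hκ0
  obtain ⟨n1, hn1⟩ := exists_nat_ge ((l0 : ℝ) * (w * τ))
  obtain ⟨n2, hn2⟩ := exists_nat_ge (τ * R / (ρ - R / w))
  refine ⟨ρ, hρ0, hρ2, κ / 16 * Real.exp (-1), by positivity, τ, max (max n1 n2) 1, ?_⟩
  intro h hh
  have hh1 : n1 ≤ h := (le_max_left _ _).trans ((le_max_left _ _).trans hh)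
  have hh2 : n2 ≤ h := (le_max_right _ _).trans ((le_max_left _ _).trans hh)
  have hh3 : 1 ≤ h := (le_max_right _ _).trans hh
  have hhR : (0 : ℝ) < h := by exact_mod_cast hh3
  have hh1R : (n1 : ℝ) ≤ h := by exact_mod_cast hh1
  have hh2R : (n2 : ℝ) ≤ h := by exact_mod_cast hh2
  set l : ℕ := ⌈(h : ℝ) / (w * τ)⌉₊ with hl
  have hle : (h : ℝ) / (w * τ) ≤ l := Nat.le_ceil _
  have hlt : (l : ℝ) < h / (w * τ) + 1 := Nat.ceil_lt_add_one (by positivity)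
  have hlpos : 0 < l := Nat.ceil_pos.2 (by positivity)
  have hll0 : l0 ≤ l := by
    have h1 : (l0 : ℝ) ≤ h / (w * τ) := by
      rw [le_div_iff₀ (by positivity)]
      linarith
    exact_mod_cast h1.trans hle
  have hs1 : (h : ℝ) ≤ w * ((l * τ : ℕ) : ℝ) := by
    rw [div_le_iff₀ (by positivity)] at hle
    push_cast
    linarith
  have hs2 : ((l * τ : ℕ) : ℝ) ≤ h / w + τ := by
    push_cast
    have h1 : (l : ℝ) * τ ≤ (h / (w * τ) + 1) * τ := mul_le_mul_of_nonneg_right hlt.le hτR.le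
    have h2 : ((h : ℝ) / (w * τ) + 1) * τ = h / w + τ := by field_simp
    linarith
  refine ⟨l * τ, hs2.trans ?_, ?_⟩
  · have h1 : (h : ℝ) / w ≤ h / v := div_le_div_of_nonneg_left hhR.le hv0 (by rw [hw]; linarith)
    linarith
  · refine (prob_AB hv0.le hκ0.le hκ1 hκ hτ0 hv hlpos (hl0 l hll0)).trans (measure_mono ?_)
    rintro η ⟨⟨y, hy, hys⟩, hu⟩
    obtain ⟨x, hx, d, hd, hyd, hcost⟩ := run_path hτ0 l y hy
    refine ⟨x, hx, d, hd, ?_, hcost.trans ?_⟩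
    · rw [← hyd]
      have : (h : ℝ) ≤ y := hs1.trans hys
      exact_mod_cast this
    · have h1 : (r : ℝ) * ((l * τ : ℕ) : ℝ) + K0 * (used r K0 τ η (Iic 0) l : ℝ) ≤
          r * ((l * τ : ℕ) : ℝ) + K0 * (2 * κ * l) := by
        have := mul_le_mul_of_nonneg_left hu.le hK0
        linarith
      have h2 : (r : ℝ) * ((l * τ : ℕ) : ℝ) + K0 * (2 * κ * l) = ((l * τ : ℕ) : ℝ) * R := by
        rw [hR]
        push_cast
        field_simp
      have h3 : ((l * τ : ℕ) : ℝ) * R ≤ (h / w + τ) * R := mul_le_mul_of_nonneg_right hs2 hR0.le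
      have h4 : 0 < ρ - R / w := by linarith
      have h5 : τ * R ≤ (ρ - R / w) * h := by
        have := hn2.trans hh2R
        rw [div_le_iff₀ h4] at this
        linarith
      have h6 : (h / w + τ) * R = R / w * h + τ * R := by
        field_simp
      have h7 : (ρ - R / w) * h = ρ * h - R / w * h := by ring
      linarith

end Pool.Agent.TVR
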