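import Pool.Agent.TVR.DPath
import Pool.Agent.TVR.BDefs

/-!
# TVR / Emb: oriented paths on the torus

The quadrant of two perpendicular letters `a, b`; `true` = letter `a`, `false` = letter `b`. The oriented edge `(i, x, d)` leaves the
point `x • vec a + (i - x) • vec b`.

`emb_inj`: for `q, q'` in the box all end points have coordinates `(x, i - x)` in `[0, A] × [0, B]` (with respect to `vec a, vec b`), and two points
of the box with the same image in the torus are equal: the differences of the coordinates are `< n` in absolute value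
and the coordinates with respect to `vec a, vec b` are the coordinates up to order and sign (`Perp`: check the 8 cases with
`fin_cases`; `ZMod.intCast_eq_intCast_iff_dvd_sub` or `ZMod.intCast_zmod_eq_zero_iff`..). So `s(P, P + e) = s(P', P' + e')` (`Sym2.eq_iff`) gives
`P = P'`, `P + e = P' + e'` (then `e = e'`, so `d = d'`, `x = x'`, `i = i'`) or `P = P' + e'`, `P + e = P'`, i.e. `e + e' = 0` for
`e, e' ∈ {vec a, vec b}`: impossible.
`cost_emb`, `all_emb`: induction on `d`, `qpt_step`.
-/

set_option autoImplicit false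

namespace Pool.Agent.TVR

open Finset Pool.Agent.Helper46.Tor MeasureTheory
open scoped NNReal ENNReal

/-- perpendicular letters -/
def Perp (a b : Fin 4) : Prop := (a < 2 ∧ 2 ≤ b) ∨ (2 ≤ a ∧ b < 2)

/-- the point with position `x` on the level `i` -/
def qpt (a b : Fin 4) (i x : ℤ) : ℤ × ℤ := x • vec a + (i - x) • vec b

/-- the letter of a Boolean -/
def ltr (a b : Fin 4) (d : Bool) : Fin 4 := if d then a else b

/-- the torus edge of an oriented edge -/
def emb (n : ℕ) (y : ZMod n × ZMod n) (a b : Fin 4) (q : OE) : Sym2 (ZMod n × ZMod n) :=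
  s(y + proj n (qpt a b q.1 q.2.1),
    y + proj n (qpt a b q.1 q.2.1) + proj n (vec (ltr a b q.2.2)))

/-- oriented edges inside of the box `[0, A] × [0, B]` -/
def Bx (A B : ℤ) : Set OE :=
  {q | 0 ≤ q.2.1 ∧ q.2.1 + (if q.2.2 then 1 else 0) ≤ A ∧ q.2.1 ≤ q.1 ∧
    (q.1 : ℤ) - q.2.1 + (if q.2.2 then 0 else 1) ≤ B}

private theorem int_inj {n : ℕ} {X X' : ℤ} (h0 : 0 ≤ X) (h1 : X < n) (h0' : 0 ≤ X')
    (h1' : X' < n) (h : (X : ZMod n) = (X' : ZMod n)) : X = X' := by
  rw [ZMod.intCast_eq_intCast_iff_dvd_sub] at h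
  have h2 : X' - X = 0 := by
    apply Int.eq_zero_of_abs_lt_dvd h
    rw [abs_lt]
    constructor <;> linarith
  linarith

private theorem cpt_inj {n : ℕ} {a b : Fin 4} (hab : Perp a b) {X Y X' Y' : ℤ} (hX : 0 ≤ X)
    (hXn : X < n) (hX' : 0 ≤ X') (hXn' : X' < n) (hY : 0 ≤ Y) (hYn : Y < n) (hY' : 0 ≤ Y')
    (hYn' : Y' < n) (h : proj n (X • vec a + Y • vec b) = proj n (X' • vec a + Y' • vec b)) :
    X = X' ∧ Y = Y' := by
  unfold proj at h
  rw [Prod.ext_iff] at h
  obtain ⟨h1, h2⟩ := h
  have hcase : ∀ c : Fin 4, (c < 2 ∧ (vec c = (1, 0) ∨ vec c = (-1, 0))) ∨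
      (2 ≤ c ∧ (vec c = (0, 1) ∨ vec c = (0, -1))) := by
    intro c
    fin_cases c <;> simp [vec]
  have key : ∀ Z Z' : ℤ, 0 ≤ Z → Z < n → 0 ≤ Z' → Z' < n →
      (((Z : ℤ) : ZMod n) = ((Z' : ℤ) : ZMod n) ∨ ((-Z : ℤ) : ZMod n) = ((-Z' : ℤ) : ZMod n)) →
      Z = Z' := by
    intro Z Z' a1 a2 a3 a4 a5
    rcases a5 with a5 | a5
    · exact int_inj a1 a2 a3 a4 a5
    · refine int_inj a1 a2 a3 a4 ?_
      push_cast at a5
      exact neg_inj.1 a5
  rcases hab with ⟨ha, hb⟩ | ⟨ha, hb⟩
  · have ca := (hcase a).resolve_right (fun h => absurd ha (not_lt.2 h.1))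
    have cb := (hcase b).resolve_left (fun h => absurd h.1 (not_lt.2 hb))
    rcases ca.2 with ea | ea <;> rcases cb.2 with eb | eb <;> rw [ea, eb] at h1 h2 <;>
      simp only [Prod.fst_add, Prod.snd_add, Prod.smul_fst, Prod.smul_snd, smul_eq_mul, mul_one,
        mul_zero, add_zero, zero_add, mul_neg] at h1 h2
    · exact ⟨key X X' hX hXn hX' hXn' (Or.inl h1), key Y Y' hY hYn hY' hYn' (Or.inl h2)⟩
    · exact ⟨key X X' hX hXn hX' hXn' (Or.inl h1), key Y Y' hY hYn hY' hYn' (Or.inr h2)⟩
    · exact ⟨key X X' hX hXn hX' hXn' (Or.inr h1), key Y Y' hY hYn hY' hYn' (Or.inl h2)⟩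
    · exact ⟨key X X' hX hXn hX' hXn' (Or.inr h1), key Y Y' hY hYn hY' hYn' (Or.inr h2)⟩
  · have ca := (hcase a).resolve_left (fun h => absurd h.1 (not_lt.2 ha))
    have cb := (hcase b).resolve_right (fun h => absurd hb (not_lt.2 h.1))
    rcases ca.2 with ea | ea <;> rcases cb.2 with eb | eb <;> rw [ea, eb] at h1 h2 <;>
      simp only [Prod.fst_add, Prod.snd_add, Prod.smul_fst, Prod.smul_snd, smul_eq_mul, mul_one,
        mul_zero, add_zero, zero_add, mul_neg] at h1 h2
    · exact ⟨key X X' hX hXn hX' hXn' (Or.inl h2), key Y Y' hY hYn hY' hYn' (Or.inl h1)⟩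
    · exact ⟨key X X' hX hXn hX' hXn' (Or.inl h2), key Y Y' hY hYn hY' hYn' (Or.inr h1)⟩
    · exact ⟨key X X' hX hXn hX' hXn' (Or.inr h2), key Y Y' hY hYn hY' hYn' (Or.inl h1)⟩
    · exact ⟨key X X' hX hXn hX' hXn' (Or.inr h2), key Y Y' hY hYn hY' hYn' (Or.inr h1)⟩

theorem qpt_step (a b : Fin 4) (i x : ℤ) (d : Bool) :
    qpt a b i x + vec (ltr a b d) = qpt a b (i + 1) (x + if d then 1 else 0) := by
  unfold qpt ltr
  cases d
  · simp only [Bool.false_eq_true, if_false, add_zero]
    module
  · simp only [if_true]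
    module

private theorem emb_eq (n : ℕ) (y : ZMod n × ZMod n) (a b : Fin 4) (q : OE) :
    emb n y a b q = s(y + proj n (qpt a b q.1 q.2.1),
      y + proj n (qpt a b (q.1 + 1) (q.2.1 + if q.2.2 then 1 else 0))) := by
  unfold emb
  rw [← qpt_step, proj_add, add_assoc]

theorem emb_inj {n : ℕ} {a b : Fin 4} (hab : Perp a b) (y : ZMod n × ZMod n) {A B : ℤ}
    (hA : A < n) (hB : B < n) : Set.InjOn (emb n y a b) (Bx A B) := by
  intro q hq q' hq' h
  rw [emb_eq, emb_eq, Sym2.eq_iff] at h
  obtain ⟨i, x, d⟩ := q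
  obtain ⟨i', x', d'⟩ := q'
  obtain ⟨b1, b2, b3, b4⟩ := hq
  obtain ⟨b1', b2', b3', b4'⟩ := hq'
  simp only at b1 b2 b3 b4 b1' b2' b3' b4' h
  unfold qpt at h
  have hd : ∀ c : Bool, (0 : ℤ) ≤ (if c then 1 else 0) ∧ (0 : ℤ) ≤ (if c then 0 else 1) ∧
      (if c then (1 : ℤ) else 0) + (if c then 0 else 1) = 1 := by
    intro c
    cases c <;> simp
  obtain ⟨d1, d2, d3⟩ := hd d
  obtain ⟨d1', d2', d3'⟩ := hd d'
  rcases h with ⟨h1, h2⟩ | ⟨h1, h2⟩
  · have h1' := add_left_cancel h1
    have h2' := add_left_cancel h2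
    obtain ⟨e1, e2⟩ := cpt_inj hab (by linarith) (by linarith) (by linarith) (by linarith)
      (by linarith) (by linarith) (by linarith) (by linarith) h1'
    obtain ⟨e3, e4⟩ := cpt_inj hab (by linarith) (by linarith) (by linarith) (by linarith)
      (by linarith) (by linarith) (by linarith) (by linarith) h2'
    have e5 : i = i' := by
      have : (i : ℤ) = i' := by linarith
      exact_mod_cast this
    have e6 : d = d' := by
      have : (if d then (1 : ℤ) else 0) = if d' then 1 else 0 := by linarith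
      cases d <;> cases d' <;> simp at this ⊢
    rw [e5, e1, e6]
  · exfalso
    have h1' := add_left_cancel h1
    have h2' := add_left_cancel h2
    obtain ⟨e1, e2⟩ := cpt_inj hab (by linarith) (by linarith) (by linarith) (by linarith)
      (by linarith) (by linarith) (by linarith) (by linarith) h1'
    obtain ⟨e3, e4⟩ := cpt_inj hab (by linarith) (by linarith) (by linarith) (by linarith)
      (by linarith) (by linarith) (by linarith) (by linarith) h2'
    linarith

theorem cost_emb (n : ℕ) (y : ZMod n × ZMod n) (a b : Fin 4)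
    (ω : Sym2 (ZMod n × ZMod n) → ℝ≥0) (i : ℕ) (x : ℤ) (d : List Bool) :
    cw n ω (y + proj n (qpt a b i x)) (d.map (ltr a b)) =
      costD (fun q => ω (emb n y a b q)) i x d := by
  induction d generalizing i x with
  | nil => simp [cw, costL, edgesL, costD]
  | cons c ds ih =>
    have h1 := ih (i + 1) (x + if c then 1 else 0)
    push_cast at h1
    rw [← qpt_step, proj_add, ← add_assoc] at h1
    change _ = ((ω (emb n y a b (i, x, c)) : ℝ≥0) : ℝ) +
      costD (fun q => ω (emb n y a b q)) (i + 1) (x + if c then 1 else 0) ds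
    rw [← h1]
    rfl

theorem all_emb (n : ℕ) (y : ZMod n × ZMod n) (a b : Fin 4) (S : Set ℝ≥0)
    (ω : Sym2 (ZMod n × ZMod n) → ℝ≥0) (i : ℕ) (x : ℤ) (d : List Bool) :
    (∀ e ∈ edgesL n (y + proj n (qpt a b i x)) (d.map (ltr a b)), ω e ∈ S) ↔
      allD S (fun q => ω (emb n y a b q)) i x d := by
  induction d generalizing i x with
  | nil => simp [edgesL, allD]
  | cons c ds ih =>
    have h1 := ih (i + 1) (x + if c then 1 else 0)
    push_cast at h1
    rw [← qpt_step, proj_add, ← add_assoc] at h1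
    change _ ↔ ω (emb n y a b (i, x, c)) ∈ S ∧
      allD S (fun q => ω (emb n y a b q)) (i + 1) (x + if c then 1 else 0) ds
    rw [← h1]
    rw [List.map_cons]
    exact List.forall_mem_cons

theorem tot_map (a b : Fin 4) (d : List Bool) : tot (d.map (ltr a b)) =
    (d.count true : ℤ) • vec a + ((d.length : ℤ) - d.count true) • vec b := by
  induction d with
  | nil => simp [tot_nil]
  | cons c ds ih =>
    rw [List.map_cons, tot_cons, ih, List.length_cons]
    cases c
    · have e : (List.count true (false :: ds)) = ds.count true := by simp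
      rw [e]
      simp only [ltr, Bool.false_eq_true, if_false]
      push_cast
      module
    · have e : (List.count true (true :: ds)) = ds.count true + 1 := by simp
      rw [e]
      simp only [ltr, if_true]
      push_cast
      module

end Pool.Agent.TVR
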