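import Pool.Agent.TVR.Dir

/-!
# TVR / Fun: exponential functionals of the set of reached points

`Zf θ W = max_{y ∈ W} e^{θ y}`, `fE t W = E Zf (reach t W)`, `psi t = fE t (Iic 0)`.

Proofs.
* `Zf_*`: `iSup` manipulations (`iSup₂_le`, `le_iSup₂`); `Zf_Iic`: the value at `y = a` is the largest.
  `Zf_image_add`: `ENNReal.mul_iSup` (twice) and `exp (θ (y + a)) = exp (θ a) * exp (θ y)`.
* `measurable_Zf`: `Zf θ (U ω) = ⨆ y, if y ∈ U ω then ofReal (exp (θ y)) else 0`, countable supremum.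
* `fE_image_add`: `reach_tr` and `tr_mp` (`MeasurePreserving.lintegral_comp`); as sets
  `reach S η ((· + a) '' W) t = (· + a) '' reach S (tr a η) W t`.
* `fE_Iic`: `Iic a = (· + a) '' Iic 0`. `fE_le_max`: `W ⊆ Iic R`.
* `fE_le`: `W = ∅`: `reach` of `∅` is `∅`, both sides are `0`; otherwise take the greatest element `R`
  of `W`, `Zf θ W = ofReal (exp (θ R))`, and use `fE_le_max`.
* `lintegral_glue`: `glue_mp.lintegral_comp` and `lintegral_prod`.
* `markov`: `lintegral_glue s`, then `reach_add`, `sh_glue`, `reach_glue`.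
* `psi_add`: `markov` and `fE_le` for `reach S η (Iic 0) s` (bounded above by `reach_le`), `lintegral_mul_const`.
* `psi_le`: `reach S η (Iic 0) t ⊆ Iic t`.
* `submod`: pointwise: `reach (B ∪ C) = reach B ∪ reach C`, and for `a ≤ b` in `ℝ≥0∞`:
  `max b c + a ≤ max a c + b`; then `lintegral_add_left`.
-/

set_option autoImplicit false

namespace Pool.Agent.TVR

open MeasureTheory Set
open scoped NNReal ENNReal

/-- `max e^{θ y}` over `y ∈ W` -/
noncomputable def Zf (θ : ℝ) (W : Set ℤ) : ℝ≥0∞ := ⨆ y ∈ W, ENNReal.ofReal (Real.exp (θ * y))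

noncomputable def fE (F : Measure ℝ≥0) [IsProbabilityMeasure F] (S : Set ℝ≥0) (θ : ℝ) (t : ℕ)
    (W : Set ℤ) : ℝ≥0∞ := ∫⁻ η, Zf θ (reach S η W t) ∂(iid OE F)

noncomputable def psi (F : Measure ℝ≥0) [IsProbabilityMeasure F] (S : Set ℝ≥0) (θ : ℝ) (t : ℕ) :
    ℝ≥0∞ := fE F S θ t (Iic 0)

variable {θ : ℝ} {W W' : Set ℤ}

theorem Zf_mono (h : W ⊆ W') : Zf θ W ≤ Zf θ W' := by
  unfold Zf
  exact biSup_mono h

theorem Zf_union : Zf θ (W ∪ W') = max (Zf θ W) (Zf θ W') := by
  unfold Zf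
  exact iSup_union

private theorem cexp (a b : ℤ) : ENNReal.ofReal (Real.exp (θ * ((b + a : ℤ) : ℝ))) =
    ENNReal.ofReal (Real.exp (θ * a)) * ENNReal.ofReal (Real.exp (θ * b)) := by
  rw [← ENNReal.ofReal_mul (Real.exp_pos _).le, ← Real.exp_add]
  congr 2
  push_cast
  ring

theorem Zf_image_add (a : ℤ) :
    Zf θ ((fun x => x + a) '' W) = ENNReal.ofReal (Real.exp (θ * a)) * Zf θ W := by
  unfold Zf
  rw [iSup_image, ENNReal.mul_iSup]
  refine iSup_congr fun y => ?_
  rw [ENNReal.mul_iSup]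
  exact iSup_congr fun _ => cexp a y

private theorem Zf_greatest' (hθ : 0 ≤ θ) {a : ℤ} (h : IsGreatest W a) :
    Zf θ W = ENNReal.ofReal (Real.exp (θ * a)) := by
  unfold Zf
  refine le_antisymm (iSup₂_le fun y hy => ?_)
    (le_iSup₂ (f := fun (y : ℤ) (_ : y ∈ W) => ENNReal.ofReal (Real.exp (θ * y))) a h.1)
  refine ENNReal.ofReal_le_ofReal (Real.exp_le_exp.2 (mul_le_mul_of_nonneg_left ?_ hθ))
  exact_mod_cast h.2 hy

theorem Zf_Iic (hθ : 0 ≤ θ) (a : ℤ) : Zf θ (Iic a) = ENNReal.ofReal (Real.exp (θ * a)) :=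
  Zf_greatest' hθ isGreatest_Iic

theorem Zf_greatest (hθ : 0 ≤ θ) {a : ℤ} (h : IsGreatest W a) :
    Zf θ W = ENNReal.ofReal (Real.exp (θ * a)) := Zf_greatest' hθ h

theorem measurable_Zf {Ω : Type*} [MeasurableSpace Ω] {U : Ω → Set ℤ}
    (hU : ∀ y, MeasurableSet {ω | y ∈ U ω}) : Measurable fun ω => Zf θ (U ω) := by
  classical
  have e : (fun ω => Zf θ (U ω)) =
      fun ω => ⨆ y : ℤ, if ω ∈ {ω | y ∈ U ω} then ENNReal.ofReal (Real.exp (θ * y)) else 0 := by
    funext ω
    unfold Zf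
    refine iSup_congr fun y => ?_
    by_cases h : y ∈ U ω
    · have h' : ω ∈ {ω | y ∈ U ω} := h
      rw [if_pos h']
      simp [h]
    · have h' : ω ∉ {ω | y ∈ U ω} := h
      rw [if_neg h']
      simp [h]
  rw [e]
  exact Measurable.iSup fun y => Measurable.ite (hU y) measurable_const measurable_const

variable {F : Measure ℝ≥0} [IsProbabilityMeasure F] {S : Set ℝ≥0}

theorem measurable_fE (hS : MeasurableSet S) {Ω : Type*} [MeasurableSpace Ω] {U : Ω → Set ℤ}
    (hU : ∀ y, MeasurableSet {ω | y ∈ U ω}) (t : ℕ) : Measurable fun ω => fE F S θ t (U ω) := by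
  unfold fE
  have h : Measurable fun p : Ω × Env => Zf θ (reach S p.2 (U p.1) t) := by
    refine measurable_Zf fun y => ?_
    exact measurableSet_reach' hS measurable_snd (fun z => measurable_fst (hU z)) t y
  exact h.lintegral_prod_right'

theorem fE_mono (h : W ⊆ W') (t : ℕ) : fE F S θ t W ≤ fE F S θ t W' := by
  unfold fE
  exact lintegral_mono fun η => Zf_mono (reach_mono (Subset.refl S) h t)

private theorem tr_tr (a : ℤ) (η : Env) : tr (-a) (tr a η) = η := by
  funext q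
  unfold tr
  congr 1
  ext
  · rfl
  · show q.2.1 + -a + a = q.2.1
    ring
  · rfl

private def trE (a : ℤ) : Env ≃ᵐ Env where
  toFun := tr a
  invFun := tr (-a)
  left_inv := tr_tr a
  right_inv := fun η => by
    have := tr_tr (-a) η
    rwa [neg_neg] at this
  measurable_toFun := measurable_tr a
  measurable_invFun := measurable_tr (-a)

theorem fE_image_add (a : ℤ) (t : ℕ) :
    fE F S θ t ((fun x => x + a) '' W) = ENNReal.ofReal (Real.exp (θ * a)) * fE F S θ t W := by
  unfold fE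
  have e : ∀ η : Env, Zf θ (reach S η ((fun x => x + a) '' W) t) =
      ENNReal.ofReal (Real.exp (θ * a)) * Zf θ (reach S (tr a η) W t) := by
    intro η
    rw [← Zf_image_add]
    congr 1
    ext z
    constructor
    · intro hz
      refine ⟨z - a, (reach_tr a t (z - a)).2 ?_, sub_add_cancel z a⟩
      rw [sub_add_cancel]
      exact hz
    · rintro ⟨y, hy, rfl⟩
      exact (reach_tr a t y).1 hy
  simp only [e]
  rw [lintegral_const_mul' _ _ ENNReal.ofReal_ne_top]
  congr 1
  have h : MeasurePreserving (trE a) (iid OE F) (iid OE F) := tr_mp a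
  exact h.lintegral_comp_emb (trE a).measurableEmbedding (fun η => Zf θ (reach S η W t))

theorem fE_Iic (a : ℤ) (t : ℕ) :
    fE F S θ t (Iic a) = ENNReal.ofReal (Real.exp (θ * a)) * psi F S θ t := by
  have e : Iic a = (fun x : ℤ => x + a) '' Iic 0 := by
    ext z
    constructor
    · intro hz
      exact ⟨z - a, by simpa using hz, sub_add_cancel z a⟩
    · rintro ⟨y, hy, rfl⟩
      have hy' : y ≤ 0 := hy
      show y + a ≤ a
      omega
  rw [e, fE_image_add]
  rfl

theorem fE_le_max {R : ℤ} (hR : ∀ y ∈ W, y ≤ R) (t : ℕ) :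
    fE F S θ t W ≤ ENNReal.ofReal (Real.exp (θ * R)) * psi F S θ t := by
  rw [← fE_Iic]
  exact fE_mono hR t

private theorem reach_empty (η : Env) (t : ℕ) : reach S η ∅ t = ∅ := by
  induction t with
  | zero => rfl
  | succ t ih =>
    show step S _ (reach S η ∅ t) = ∅
    rw [ih]
    ext y
    simp [step]

theorem fE_le (hθ : 0 ≤ θ) (hW : BddAbove W) (t : ℕ) :
    fE F S θ t W ≤ Zf θ W * psi F S θ t := by
  by_cases hne : W.Nonempty
  · obtain ⟨b, hb⟩ := hW
    obtain ⟨R, hR, hmax⟩ := Int.exists_greatest_of_bdd (P := fun z => z ∈ W)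
      ⟨b, fun z hz => hb hz⟩ hne
    rw [Zf_greatest hθ ⟨hR, fun z hz => hmax z hz⟩]
    exact fE_le_max hmax t
  · rw [Set.not_nonempty_iff_eq_empty] at hne
    subst hne
    unfold fE
    simp only [reach_empty]
    simp [Zf]

theorem lintegral_glue (s : ℕ) {G : Env → ℝ≥0∞} (hG : Measurable G) :
    ∫⁻ η, G η ∂(iid OE F) = ∫⁻ η, ∫⁻ η', G (glue s (η, η')) ∂(iid OE F) ∂(iid OE F) := by
  rw [← (glue_mp (F := F) s).lintegral_comp hG]
  exact lintegral_prod _ (hG.comp (measurable_glue s)).aemeasurable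

private theorem meas_Zr (hS : MeasurableSet S) (W : Set ℤ) (t : ℕ) :
    Measurable fun η : Env => Zf θ (reach S η W t) :=
  measurable_Zf fun y => measurableSet_reach hS W t y

theorem markov (hS : MeasurableSet S) (W : Set ℤ) (s t : ℕ) :
    ∫⁻ η, fE F S θ t (reach S η W s) ∂(iid OE F) = fE F S θ (s + t) W := by
  unfold fE
  rw [lintegral_glue s (meas_Zr hS W (s + t))]
  refine lintegral_congr fun η => lintegral_congr fun η' => ?_
  rw [reach_add, sh_glue, reach_glue s s le_rfl]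

private theorem bdd_reach (η : Env) (s : ℕ) : BddAbove (reach S η (Iic 0) s) :=
  ⟨0 + s, fun y hy => reach_le (fun _ h => h) s y hy⟩

theorem psi_add (hS : MeasurableSet S) (hθ : 0 ≤ θ) (s t : ℕ) :
    psi F S θ (s + t) ≤ psi F S θ s * psi F S θ t := by
  have h1 : psi F S θ (s + t) = ∫⁻ η, fE F S θ t (reach S η (Iic 0) s) ∂(iid OE F) :=
    (markov hS (Iic 0) s t).symm
  have h2 : psi F S θ s * psi F S θ t =
      ∫⁻ η, Zf θ (reach S η (Iic 0) s) * psi F S θ t ∂(iid OE F) := by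
    rw [lintegral_mul_const _ (meas_Zr hS (Iic 0) s)]
    rfl
  rw [h1, h2]
  exact lintegral_mono fun η => fE_le hθ (bdd_reach η s) t

theorem psi_le (hθ : 0 ≤ θ) (t : ℕ) : psi F S θ t ≤ ENNReal.ofReal (Real.exp (θ * t)) := by
  have h : ∀ η : Env, Zf θ (reach S η (Iic 0) t) ≤ ENNReal.ofReal (Real.exp (θ * t)) := by
    intro η
    refine (Zf_mono (W' := Iic (0 + (t : ℤ))) fun y hy => reach_le (fun _ h => h) t y hy).trans ?_
    rw [Zf_Iic hθ]
    push_cast
    rw [zero_add]
  unfold psi fE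
  refine (lintegral_mono h).trans ?_
  rw [lintegral_const, measure_univ, mul_one]

private theorem max_add_le {a b c : ℝ≥0∞} (h : a ≤ b) : max b c + a ≤ max a c + b := by
  rcases le_total c b with h1 | h1
  · rw [max_eq_left h1, add_comm]
    exact add_le_add (le_max_left _ _) le_rfl
  · rw [max_eq_right h1]
    exact add_le_add (le_max_right _ _) h

theorem submod {A B : Set ℤ} (hS : MeasurableSet S) (hAB : A ⊆ B) (C : Set ℤ) (t : ℕ) :
    fE F S θ t (B ∪ C) + fE F S θ t A ≤ fE F S θ t (A ∪ C) + fE F S θ t B := by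
  unfold fE
  rw [← lintegral_add_left (meas_Zr hS (B ∪ C) t), ← lintegral_add_left (meas_Zr hS (A ∪ C) t)]
  refine lintegral_mono fun η => ?_
  show Zf θ (reach S η (B ∪ C) t) + Zf θ (reach S η A t) ≤
    Zf θ (reach S η (A ∪ C) t) + Zf θ (reach S η B t)
  rw [reach_union, reach_union, Zf_union, Zf_union]
  exact max_add_le (Zf_mono (reach_mono (Subset.refl S) hAB t))

end Pool.Agent.TVR
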