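import Pool.Agent.TVR.Opp
import Pool.Agent.TVR.Fun

/-!
# TVR / Gain: the defects increase the speed

Notation: `g = 1 - e^{-θ τ}`, `κ = kap F r K0 τ`, `S = Iic r`, `G t W = fE F S θ t W`.

`gain`. Let `R` be the greatest element of `W` (nonempty, bounded above). Then
`G (τ+t) W = ∫ G t (reach S η W τ) dη` (`markov`). Pointwise claim:
  `G t (reach S η W τ) + 1[Opp R η] * ofReal g * G t (Iic (R+τ)) ≤ G t (blk η W)`.
If `Opp R η` fails: `reach ⊆ blk` (`fE_mono`). If it holds: `A := reach S η W τ ⊆ B := Iic R` (`opp_reach`),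
`C := Icc (R+1) (R+τ)`, `blk η W = A ∪ C` (contains it at least), `B ∪ C = Iic (R+τ)`; `submod` gives
`G t (Iic (R+τ)) + G t A ≤ G t (A ∪ C) + G t (Iic R)` and
`G t (Iic R) = ofReal (e^{-θτ}) * G t (Iic (R+τ))` (`fE_Iic`), finite (`psi_le`); subtract
(`ENNReal.add_le_add_iff_right`-type argument with `1 = ofReal g + ofReal e^{-θτ}`).
Integrate: `∫ G t (blk) ≥ G (τ+t) W + κ * ofReal g * G t (Iic (R+τ))`, and
`G (τ+t) W ≤ e^{θR} psi (τ+t) ≤ e^{θR} psi τ psi t ≤ e^{θ(R+τ)} psi t = G t (Iic (R+τ))`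
(`fE_le_max`, `psi_add`, `psi_le`, `fE_Iic`).

`gain_run`: induction on `ℓ` with `W` general (bounded above; if `W = ∅` the left side is `0`):
`∫ Zf (run η W (ℓ+1)) dη = ∫ Zf (run (sh τ η) (blk η W) ℓ) dη = ∫ ∫ Zf (run η' (blk η W) ℓ) dη' dη`
(`lintegral_glue τ`; `blk (glue τ (η,η')) W = blk η W` because `blk` depends on the levels `< τ` only: `reach_glue`,
`opp_congr`; `sh_glue`) `≥ ∫ G (ℓ τ) (blk η W) (1+κ g)^ℓ dη ≥ G (τ + ℓ τ) W (1 + κ g)^(ℓ+1)` by `gain`.

`used_exp`: the same decomposition: `∫ 2^(used (ℓ+1)) = ∫ 2^{1[Hit η W]} ∫ 2^(used η' (blk η W) ℓ) dη' dη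
≤ (1+κ)^ℓ * (1 + P(Hit η W)) ≤ (1+κ)^(ℓ+1)`, since `{Hit η W}` is empty or `{Opp R η}` for the greatest element `R` of `W`
(`opp_prob`).
-/

set_option autoImplicit false

namespace Pool.Agent.TVR

open MeasureTheory Set
open scoped NNReal ENNReal

variable {F : Measure ℝ≥0} [IsProbabilityMeasure F] {r K0 : ℝ≥0} {τ : ℕ} {θ : ℝ} {W : Set ℤ}

private theorem blk_glue (hτ : 0 < τ) (p : Env × Env) :
    blk r K0 τ (glue τ p) W = blk r K0 τ p.1 W := by
  have h1 : ∀ R : ℤ, Opp r K0 τ R (glue τ p) ↔ Opp r K0 τ R p.1 := fun R =>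
    opp_congr R (fun q hq => by simp [glue, hq]) hτ
  unfold blk
  rw [reach_glue τ τ le_rfl p]
  simp only [h1]

private theorem hit_glue (hτ : 0 < τ) (p : Env × Env) :
    Hit r K0 τ (glue τ p) W ↔ Hit r K0 τ p.1 W := by
  have h1 : ∀ R : ℤ, Opp r K0 τ R (glue τ p) ↔ Opp r K0 τ R p.1 := fun R =>
    opp_congr R (fun q hq => by simp [glue, hq]) hτ
  unfold Hit
  simp only [h1]

private theorem exp_split (τ : ℕ) (hθ : 0 ≤ θ) :
    ENNReal.ofReal (1 - Real.exp (-(θ * τ))) + ENNReal.ofReal (Real.exp (-(θ * τ))) = 1 := by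
  have h1 : Real.exp (-(θ * τ)) ≤ 1 := by
    rw [Real.exp_le_one_iff]
    have : 0 ≤ θ * τ := mul_nonneg hθ (Nat.cast_nonneg τ)
    linarith
  rw [← ENNReal.ofReal_add (by linarith) (Real.exp_pos _).le]
  simp

private theorem gain_point (hθ : 0 ≤ θ) {R : ℤ} (hR : IsGreatest W R) (t : ℕ) (η : Env) :
    fE F (Iic r) θ t (reach (Iic r) η W τ) + Set.indicator {η : Env | Opp r K0 τ R η}
      (fun _ => ENNReal.ofReal (1 - Real.exp (-(θ * τ))) * fE F (Iic r) θ t (Iic (R + τ))) η ≤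
    fE F (Iic r) θ t (blk r K0 τ η W) := by
  by_cases hO : Opp r K0 τ R η
  · have hmem : η ∈ {η : Env | Opp r K0 τ R η} := hO
    rw [Set.indicator_of_mem hmem]
    have hAB : reach (Iic r) η W τ ⊆ Iic R := fun y hy => opp_reach hO (fun z hz => hR.2 hz) y hy
    have hsub := submod (F := F) (θ := θ) (S := Iic r) measurableSet_Iic hAB
      (Icc (R + 1) (R + τ)) t
    have hBC : Iic R ∪ Icc (R + 1) (R + (τ : ℤ)) = Iic (R + τ) := by
      ext y
      simp only [mem_union, mem_Iic, mem_Icc]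
      omega
    rw [hBC] at hsub
    have hblk : reach (Iic r) η W τ ∪ Icc (R + 1) (R + (τ : ℤ)) ⊆ blk r K0 τ η W := by
      intro y hy
      rcases hy with hy | hy
      · exact Or.inl hy
      · exact Or.inr ⟨R, hR, hO, hy.1, hy.2⟩
    have hfin : fE F (Iic r) θ t (Iic (R + (τ : ℤ))) ≠ ⊤ := by
      rw [fE_Iic]
      exact ENNReal.mul_ne_top ENNReal.ofReal_ne_top
        (ne_top_of_le_ne_top ENNReal.ofReal_ne_top (psi_le hθ t))
    have hBe : fE F (Iic r) θ t (Iic R) =
        ENNReal.ofReal (Real.exp (-(θ * τ))) * fE F (Iic r) θ t (Iic (R + (τ : ℤ))) := by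
      rw [fE_Iic, fE_Iic, ← mul_assoc, ← ENNReal.ofReal_mul (Real.exp_pos _).le, ← Real.exp_add]
      congr 3
      push_cast
      ring
    have hx : fE F (Iic r) θ t (Iic (R + (τ : ℤ))) =
        ENNReal.ofReal (1 - Real.exp (-(θ * τ))) * fE F (Iic r) θ t (Iic (R + (τ : ℤ))) +
        ENNReal.ofReal (Real.exp (-(θ * τ))) * fE F (Iic r) θ t (Iic (R + (τ : ℤ))) := by
      rw [← add_mul, exp_split τ hθ, one_mul]
    have hfin2 : ENNReal.ofReal (Real.exp (-(θ * τ))) * fE F (Iic r) θ t (Iic (R + (τ : ℤ))) ≠ ⊤ :=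
      ENNReal.mul_ne_top ENNReal.ofReal_ne_top hfin
    rw [hBe] at hsub
    refine le_trans ?_ (fE_mono hblk t)
    refine (ENNReal.add_le_add_iff_right hfin2).1 (le_trans (le_of_eq ?_) hsub)
    conv_rhs => rw [hx]
    ring
  · have hmem : η ∉ {η : Env | Opp r K0 τ R η} := hO
    rw [Set.indicator_of_notMem hmem, add_zero]
    exact fE_mono Set.subset_union_left t

theorem gain (hτ : 0 < τ) (hθ : 0 ≤ θ) (hW : W.Nonempty) (hb : BddAbove W) (t : ℕ) :
    fE F (Iic r) θ (τ + t) W * (1 + kap F r K0 τ * ENNReal.ofReal (1 - Real.exp (-(θ * τ)))) ≤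
      ∫⁻ η, fE F (Iic r) θ t (blk r K0 τ η W) ∂(iid OE F) := by
  obtain ⟨R, hR⟩ : ∃ R, IsGreatest W R := ⟨sSup W, Int.csSup_mem hW hb, fun y hy => le_csSup hb hy⟩
  have h1 : fE F (Iic r) θ (τ + t) W ≤ fE F (Iic r) θ t (Iic (R + (τ : ℤ))) := by
    calc fE F (Iic r) θ (τ + t) W ≤ ENNReal.ofReal (Real.exp (θ * R)) * psi F (Iic r) θ (τ + t) :=
          fE_le_max (fun y hy => hR.2 hy) _
      _ ≤ ENNReal.ofReal (Real.exp (θ * R)) * (psi F (Iic r) θ τ * psi F (Iic r) θ t) := by
          gcongr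
          exact psi_add measurableSet_Iic hθ τ t
      _ ≤ ENNReal.ofReal (Real.exp (θ * R)) * (ENNReal.ofReal (Real.exp (θ * τ)) *
            psi F (Iic r) θ t) := by
          gcongr
          exact psi_le hθ τ
      _ = fE F (Iic r) θ t (Iic (R + (τ : ℤ))) := by
          rw [fE_Iic, ← mul_assoc, ← ENNReal.ofReal_mul (Real.exp_pos _).le, ← Real.exp_add]
          congr 3
          push_cast
          ring
  have hmO : MeasurableSet {η : Env | Opp r K0 τ R η} := measurableSet_Opp R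
  have h2 : ∫⁻ η, (fE F (Iic r) θ t (reach (Iic r) η W τ) + Set.indicator
      {η : Env | Opp r K0 τ R η} (fun _ => ENNReal.ofReal (1 - Real.exp (-(θ * τ))) *
        fE F (Iic r) θ t (Iic (R + τ))) η) ∂(iid OE F) ≤
      ∫⁻ η, fE F (Iic r) θ t (blk r K0 τ η W) ∂(iid OE F) :=
    lintegral_mono fun η => gain_point hθ hR t η
  rw [lintegral_add_right _ (measurable_const.indicator hmO), lintegral_indicator_const hmO,
    markov measurableSet_Iic, opp_prob] at h2
  refine le_trans ?_ h2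
  rw [mul_add, mul_one]
  refine add_le_add le_rfl ?_
  calc fE F (Iic r) θ (τ + t) W * (kap F r K0 τ * ENNReal.ofReal (1 - Real.exp (-(θ * τ))))
      ≤ fE F (Iic r) θ t (Iic (R + (τ : ℤ))) *
        (kap F r K0 τ * ENNReal.ofReal (1 - Real.exp (-(θ * τ)))) := by gcongr
    _ = _ := by ring

private theorem bdd_blk (hb : BddAbove W) (η : Env) : BddAbove (blk r K0 τ η W) := by
  obtain ⟨R, hR⟩ := hb
  exact ⟨R + τ, fun y hy => blk_le (fun z hz => hR hz) y hy⟩

private theorem meas_const (W : Set ℤ) (y : ℤ) : MeasurableSet {_η : Env | y ∈ W} :=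
  MeasurableSet.const _

theorem gain_run (hτ : 0 < τ) (hθ : 0 ≤ θ) (hb : BddAbove W) (j : ℕ) :
    fE F (Iic r) θ (j * τ) W *
        (1 + kap F r K0 τ * ENNReal.ofReal (1 - Real.exp (-(θ * τ)))) ^ j ≤
      ∫⁻ η, Zf θ (run r K0 τ η W j) ∂(iid OE F) := by
  induction j generalizing W with
  | zero =>
    rw [pow_zero, mul_one, Nat.zero_mul]
    exact le_rfl
  | succ j ih =>
    rcases W.eq_empty_or_nonempty with hW | hW
    · have h0 : fE F (Iic r) θ ((j + 1) * τ) W = 0 := by
        have h1 := fE_le (F := F) (S := Iic r) hθ hb ((j + 1) * τ)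
        have h2 : Zf θ W = 0 := by
          rw [hW]
          simp [Zf]
        rw [h2, zero_mul] at h1
        exact le_antisymm h1 (zero_le)
      rw [h0, zero_mul]
      exact zero_le
    · have hm : Measurable fun η : Env => Zf θ (run r K0 τ η W (j + 1)) :=
        measurable_Zf fun y => measurableSet_run measurable_id (meas_const W) (j + 1) y
      rw [lintegral_glue τ hm]
      have h1 : ∀ η η' : Env, Zf θ (run r K0 τ (glue τ (η, η')) W (j + 1)) =
          Zf θ (run r K0 τ η' (blk r K0 τ η W) j) := by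
        intro η η'
        change Zf θ (run r K0 τ (sh τ (glue τ (η, η'))) (blk r K0 τ (glue τ (η, η')) W) j) = _
        rw [sh_glue, blk_glue hτ]
      simp only [h1]
      have h2 : ∫⁻ η, (fE F (Iic r) θ (j * τ) (blk r K0 τ η W) *
          (1 + kap F r K0 τ * ENNReal.ofReal (1 - Real.exp (-(θ * τ)))) ^ j) ∂(iid OE F) ≤
          ∫⁻ η, ∫⁻ η', Zf θ (run r K0 τ η' (blk r K0 τ η W) j) ∂(iid OE F) ∂(iid OE F) :=
        lintegral_mono fun η => ih (bdd_blk hb η)
      refine le_trans ?_ h2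
      have hmf : Measurable fun η : Env => fE F (Iic r) θ (j * τ) (blk r K0 τ η W) :=
        measurable_fE measurableSet_Iic
          (fun y => measurableSet_blk measurable_id (meas_const W) y) (j * τ)
      rw [lintegral_mul_const _ hmf]
      have h3 := gain (F := F) (r := r) (K0 := K0) hτ hθ hW hb (j * τ)
      have h4 : (j + 1) * τ = τ + j * τ := by ring
      rw [h4, pow_succ', ← mul_assoc]
      gcongr

private theorem hit_le (W : Set ℤ) : iid OE F {η : Env | Hit r K0 τ η W} ≤ kap F r K0 τ := by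
  by_cases h : ∃ R, IsGreatest W R
  · obtain ⟨R, hR⟩ := h
    rw [← opp_prob (F := F) (r := r) (K0 := K0) (τ := τ) R]
    refine measure_mono ?_
    rintro η ⟨R', hR', hO⟩
    rw [hR'.unique hR] at hO
    exact hO
  · have h0 : {η : Env | Hit r K0 τ η W} = ∅ := by
      ext η
      simp only [mem_empty_iff_false, iff_false]
      rintro ⟨R, hR, -⟩
      exact h ⟨R, hR⟩
    rw [h0, measure_empty]
    exact zero_le

theorem used_exp (hτ : 0 < τ) (W : Set ℤ) (j : ℕ) :
    ∫⁻ η, (2 : ℝ≥0∞) ^ used r K0 τ η W j ∂(iid OE F) ≤ (1 + kap F r K0 τ) ^ j := by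
  induction j generalizing W with
  | zero =>
    have h0 : ∀ η : Env, (2 : ℝ≥0∞) ^ used r K0 τ η W 0 = 1 := fun η => pow_zero _
    simp only [h0]
    simp
  | succ j ih =>
    have hm : Measurable fun η : Env => (2 : ℝ≥0∞) ^ used r K0 τ η W (j + 1) :=
      (measurable_from_nat (f := fun n : ℕ => (2 : ℝ≥0∞) ^ n)).comp
        (measurable_used measurable_id (meas_const W) (j + 1))
    rw [lintegral_glue τ hm]
    have hmH : MeasurableSet {η : Env | Hit r K0 τ η W} :=
      measurableSet_Hit measurable_id (meas_const W)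
    have h1 : ∀ η η' : Env, (2 : ℝ≥0∞) ^ used r K0 τ (glue τ (η, η')) W (j + 1) =
        (1 + Set.indicator {η : Env | Hit r K0 τ η W} (fun _ => (1 : ℝ≥0∞)) η) *
          (2 : ℝ≥0∞) ^ used r K0 τ η' (blk r K0 τ η W) j := by
      intro η η'
      have h2 : used r K0 τ (glue τ (η, η')) W (j + 1) =
          (open Classical in if Hit r K0 τ (glue τ (η, η')) W then 1 else 0) +
          used r K0 τ (sh τ (glue τ (η, η'))) (blk r K0 τ (glue τ (η, η')) W) j := rfl
      rw [h2, sh_glue, blk_glue hτ]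
      by_cases hH : Hit r K0 τ η W
      · rw [if_pos ((hit_glue hτ (η, η')).2 hH), pow_add, pow_one,
          Set.indicator_of_mem (show η ∈ {η : Env | Hit r K0 τ η W} from hH), one_add_one_eq_two]
      · rw [if_neg fun h => hH ((hit_glue hτ (η, η')).1 h), zero_add,
          Set.indicator_of_notMem (show η ∉ {η : Env | Hit r K0 τ η W} from hH), add_zero, one_mul]
    simp only [h1]
    have h3 : ∀ η : Env, ∫⁻ η', (1 + Set.indicator {η : Env | Hit r K0 τ η W}
        (fun _ => (1 : ℝ≥0∞)) η) * (2 : ℝ≥0∞) ^ used r K0 τ η' (blk r K0 τ η W) j ∂(iid OE F) ≤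
        (1 + Set.indicator {η : Env | Hit r K0 τ η W} (fun _ => (1 : ℝ≥0∞)) η) *
          (1 + kap F r K0 τ) ^ j := by
      intro η
      rw [lintegral_const_mul' _ _ (by
        refine ENNReal.add_ne_top.2 ⟨ENNReal.one_ne_top, ?_⟩
        by_cases hH : η ∈ {η : Env | Hit r K0 τ η W}
        · rw [Set.indicator_of_mem hH]; exact ENNReal.one_ne_top
        · rw [Set.indicator_of_notMem hH]; exact ENNReal.zero_ne_top)]
      gcongr
      exact ih _
    refine (lintegral_mono h3).trans ?_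
    have hm2 : Measurable fun η : Env =>
        1 + Set.indicator {η : Env | Hit r K0 τ η W} (fun _ => (1 : ℝ≥0∞)) η :=
      Measurable.const_add (measurable_const.indicator hmH) 1
    rw [lintegral_mul_const _ hm2,
      lintegral_add_left measurable_const, lintegral_indicator_const hmH, pow_succ']
    simp only [lintegral_const, measure_univ, one_mul, mul_one]
    gcongr
    exact hit_le W

end Pool.Agent.TVR
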