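import Pool.Agent.TVR.WDefs

/-!
# TVR / GoodA: the good event, deterministic part (staircases; zero infimum)

Let `g = (x, w)` be the least minimiser, `L = |w|`; `tot w = (n, 0)`, so `n ≤ L` (`tot_abs`); `SA w` (`least_SA`); `T n ω = cw n ω x w` (`T_eq_least`).

`len_le`: `cw ≥ r L` (`costL` is a sum of `L` terms `≥ r`).

`goodA`: `L ≤ T/r ≤ (C1/r) n`. Take `i0 = 0`, `M = (n - 1) / K` (so `M K < n ≤ L`); `seg = w.take (M K)` is self-avoiding of length `M K < n`;
`M ≥ (n-1)/K - 1 ≥ n / (2K) ≥ n / (4 K)` (`n ≥ 8 K`), so `Few` gives `cPft < M/2` and `M - cPft ≥ M/2 ≥ n/(4K)`.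
(`wst`, `win` for `x + proj n (tot (w.take 0)) = x`, `(w.drop 0).take (M K)`.)

`good0` (weights `≥ 0`, `Cond = True`): `M = (n-1)/K`. Every segment `(w.drop i).take (M K)` with `i + M K ≤ L` has more than `M/2` windows with an edge of weight
`≥ b` (`Few`: `cPft < M/2`), so its cost is at least `b M / 2` (`cost_win`, each window cost is `≥ 0`, and `≥ b` if it has such an edge).
Cut `w` into `⌊L/(M K)⌋` consecutive segments: `⌊L/(M K)⌋ b M/2 ≤ T ≤ C1 n`, hence `L ≤ M K (1 + 2 C1 n/(b M)) ≤ n + (2 C1 K / b) n`.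
The segment at `i0 = 0` as before.
-/

set_option autoImplicit false

namespace Pool.Agent.TVR

open Finset Pool.Agent.Helper46.Tor MeasureTheory
open scoped NNReal ENNReal

theorem len_ge {n : ℕ} (g : Wind n) : n ≤ g.1.2.length := by
  have h1 := tot_abs g.1.2
  rw [g.2] at h1
  have h2 : |(n : ℤ)| = n := abs_of_nonneg (Int.natCast_nonneg n)
  simp only [h2, abs_zero, add_zero] at h1
  exact_mod_cast h1

private theorem cw_ge {n : ℕ} {r : ℝ≥0} {ω : Sym2 (ZMod n × ZMod n) → ℝ≥0}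
    (h1 : ∀ e, r ≤ ω e) (x : ZMod n × ZMod n) (w : List (Fin 4)) :
    (r : ℝ) * w.length ≤ cw n ω x w := by
  have h2 := List.card_nsmul_le_sum ((edgesL n x w).map (fun e => (ω e : ℝ))) (r : ℝ) (by
    intro a ha
    obtain ⟨e, _, rfl⟩ := List.mem_map.mp ha
    exact_mod_cast h1 e)
  rw [List.length_map, edgesL_length, nsmul_eq_mul] at h2
  unfold cw costL
  linarith

theorem len_le {n : ℕ} [NeZero n] {r : ℝ≥0} {ω : Sym2 (ZMod n × ZMod n) → ℝ≥0}
    (h1 : ∀ e, r ≤ ω e) {g : Wind n} (hg : Least n ω g) :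
    (r : ℝ) * g.1.2.length ≤ T n ω := by
  rw [T_eq_least hg]
  exact cw_ge h1 _ _

/-- the numbers `M = (n - 1) / K` -/
private theorem num_M {n K : ℕ} (hK : 0 < K) (hn : 8 * K ≤ n) :
    ((n - 1) / K) * K < n ∧ n / (4 * K) ≤ (n - 1) / K ∧
      (1 : ℝ) / (4 * K) * n ≤ (((n - 1) / K : ℕ) : ℝ) / 2 ∧ 0 < (n - 1) / K := by
  have a1 : ((n - 1) / K) * K ≤ n - 1 := Nat.div_mul_le_self _ _
  have a2 : n - 1 < ((n - 1) / K + 1) * K := by
    have := Nat.lt_div_mul_add (a := n - 1) hK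
    rw [add_mul, one_mul]
    exact this
  have a3 : n ≤ ((n - 1) / K + 1) * K := by omega
  have a4 : (n : ℝ) ≤ ((((n - 1) / K : ℕ) : ℝ) + 1) * K := by exact_mod_cast a3
  have hn' : (8 : ℝ) * K ≤ n := by exact_mod_cast hn
  have hK' : (0 : ℝ) < K := by exact_mod_cast hK
  refine ⟨by omega, ?_, ?_, ?_⟩
  · rw [Nat.le_div_iff_mul_le hK]
    have b1 : n / (4 * K) * (4 * K) ≤ n := Nat.div_mul_le_self _ _
    have b2 : n / (4 * K) * (4 * K) = 4 * (n / (4 * K) * K) := by ring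
    omega
  · rw [one_div, inv_mul_le_iff₀ (by positivity)]
    nlinarith
  · exact Nat.div_pos (by omega) hK

/-- the segment at the start of the word -/
private theorem seg0 {n K : ℕ} [NeZero n] (hK : 0 < K) (hn : 8 * K ≤ n) {b : ℝ≥0}
    {ω : Sym2 (ZMod n × ZMod n) → ℝ≥0} {Cond : List (Fin 4) → Prop}
    (h3 : Few n K Cond b (1 / 2) (n / (4 * K)) ω) {g : Wind n} (hg : Least n ω g) :
    ∃ i0 M : ℕ, M * K < n ∧ i0 + M * K ≤ g.1.2.length ∧
      1 / (4 * K) * n ≤ (M : ℝ) - cPft n K Cond b ω (g.1.1 + proj n (tot (g.1.2.take i0)))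
        ((g.1.2.drop i0).take (M * K)) M := by
  obtain ⟨c1, c2, c3, c4⟩ := num_M hK hn
  have hL := len_ge g
  refine ⟨0, (n - 1) / K, c1, by omega, ?_⟩
  have h4 := h3 ((n - 1) / K) c2 c1 (g.1.1 + proj n (tot (g.1.2.take 0)))
    ((g.1.2.drop 0).take ((n - 1) / K * K))
    (by rw [List.length_take, List.length_drop]; omega)
    (SA_take (SA_drop (least_SA hg) _) _)
  linarith

theorem goodA {n K : ℕ} [NeZero n] (hK : 0 < K) (hn : 8 * K ≤ n) {r b : ℝ≥0} (hr : 0 < r)
    {C1 : ℝ} {ω : Sym2 (ZMod n × ZMod n) → ℝ≥0} (h1 : ∀ e, r ≤ ω e) (h2 : T n ω ≤ C1 * n)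
    {Cond : List (Fin 4) → Prop} (h3 : Few n K Cond b (1 / 2) (n / (4 * K)) ω) :
    GoodSeg n K Cond r b (C1 / r) (1 / (4 * K)) ω := by
  refine ⟨h1, fun g hg => ⟨?_, seg0 hK hn h3 hg⟩⟩
  have hr' : (0 : ℝ) < r := hr
  have h4 := len_le h1 hg
  rw [div_mul_eq_mul_div, le_div_iff₀ hr']
  linarith

private theorem edge_le_cost {n : ℕ} (ω : Sym2 (ZMod n × ZMod n) → ℝ≥0) (x : ZMod n × ZMod n)
    (w : List (Fin 4)) {e : Sym2 (ZMod n × ZMod n)} (he : e ∈ edgesL n x w) :
    (ω e : ℝ) ≤ costL n (fun e => (ω e : ℝ)) x w := by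
  unfold costL
  refine List.single_le_sum ?_ _ (List.mem_map_of_mem he)
  intro a ha
  obtain ⟨e', _, rfl⟩ := List.mem_map.mp ha
  exact (ω e').2

/-- cost of a segment with few perfect windows -/
private theorem seg_cost {n K M : ℕ} {b : ℝ≥0} {ω : Sym2 (ZMod n × ZMod n) → ℝ≥0}
    (y : ZMod n × ZMod n) (s : List (Fin 4)) (hs : s.length = M * K)
    (hf : (cPft n K (fun _ => True) b ω y s M : ℝ) < 1 / 2 * M) :
    (b : ℝ) * M / 2 ≤ costL n (fun e => (ω e : ℝ)) y s := by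
  classical
  rw [cost_win _ y hs]
  have h1 : ∀ j ∈ range M, (if Pft n (fun _ => True) b ω (wst n K y s j) (win K s j) then (0 : ℝ)
      else b) ≤ costL n (fun e => (ω e : ℝ)) (wst n K y s j) (win K s j) := by
    intro j _
    split_ifs with h
    · exact costL_nonneg n _ (fun e => (ω e).2) _ _
    · unfold Pft at h
      rw [true_and] at h
      push Not at h
      obtain ⟨e, he, hb⟩ := h
      exact le_trans (by exact_mod_cast hb) (edge_le_cost ω _ _ he)
  refine le_trans ?_ (Finset.sum_le_sum h1)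
  rw [Finset.sum_ite, Finset.sum_const_zero, zero_add, Finset.sum_const, nsmul_eq_mul]
  have h2 : cPft n K (fun _ => True) b ω y s M =
      #((range M).filter fun j => Pft n (fun _ => True) b ω (wst n K y s j) (win K s j)) := by
    unfold cPft
    congr
  have h3 := Finset.card_filter_add_card_filter_not (s := range M)
    (fun j => Pft n (fun _ => True) b ω (wst n K y s j) (win K s j))
  rw [Finset.card_range] at h3
  rw [h2] at hf
  have h4 : ((#((range M).filter fun j => Pft n (fun _ => True) b ω (wst n K y s j) (win K s j)) :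
      ℝ)) + (#((range M).filter fun j => ¬ Pft n (fun _ => True) b ω (wst n K y s j) (win K s j)) :
      ℝ) = M := by exact_mod_cast h3
  have hb : (0 : ℝ) ≤ b := b.2
  have h5 : (M : ℝ) / 2 ≤ (#((range M).filter fun j =>
      ¬ Pft n (fun _ => True) b ω (wst n K y s j) (win K s j)) : ℝ) := by linarith
  calc (b : ℝ) * M / 2 = (M : ℝ) / 2 * b := by ring
    _ ≤ _ := mul_le_mul_of_nonneg_right h5 hb

theorem good0 {n K : ℕ} [NeZero n] (hK : 0 < K) (hn : 8 * K ≤ n) {b : ℝ≥0} (hb : 0 < b)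
    {C1 : ℝ} {ω : Sym2 (ZMod n × ZMod n) → ℝ≥0} (h2 : T n ω ≤ C1 * n)
    (h3 : Few n K (fun _ => True) b (1 / 2) (n / (4 * K)) ω) :
    GoodSeg n K (fun _ => True) 0 b (1 + 2 * C1 * K / b) (1 / (4 * K)) ω := by
  refine ⟨fun e => zero_le, fun g hg => ⟨?_, seg0 hK hn h3 hg⟩⟩
  obtain ⟨c1, c2, c3, c4⟩ := num_M hK hn
  have hSA := least_SA hg
  have hb' : (0 : ℝ) < b := hb
  generalize hM : (n - 1) / K = M at c1 c2 c3 c4
  have hMK : 0 < M * K := Nat.mul_pos c4 hK
  generalize hN : g.1.2.length / (M * K) = N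
  have d1 : N * (M * K) ≤ g.1.2.length := by rw [← hN]; exact Nat.div_mul_le_self _ _
  have d2 : g.1.2.length < (N + 1) * (M * K) := by
    have := Nat.lt_div_mul_add (a := g.1.2.length) hMK
    rw [hN] at this
    rw [add_mul, one_mul]
    exact this
  have hlen : (g.1.2.take (N * (M * K))).length = N * (M * K) := by
    rw [List.length_take, min_eq_left d1]
  have e1 : ∀ i ∈ range N, (b : ℝ) * M / 2 ≤ costL n (fun e => (ω e : ℝ))
      (wst n (M * K) g.1.1 (g.1.2.take (N * (M * K))) i)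
      (win (M * K) (g.1.2.take (N * (M * K))) i) := by
    intro i hi
    have h4 := win_length hlen (Finset.mem_range.1 hi)
    exact seg_cost _ _ h4 (h3 M c2 c1 _ _ h4 (SA_win (SA_take hSA _) _ _))
  have e2 : (N : ℝ) * ((b : ℝ) * M / 2) ≤
      costL n (fun e => (ω e : ℝ)) g.1.1 (g.1.2.take (N * (M * K))) := by
    rw [cost_win _ g.1.1 hlen]
    have h5 := Finset.card_nsmul_le_sum (range N) _ _ e1
    rw [Finset.card_range, nsmul_eq_mul] at h5
    exact h5
  have e3 : costL n (fun e => (ω e : ℝ)) g.1.1 (g.1.2.take (N * (M * K))) ≤ T n ω := by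
    rw [T_eq_least hg]
    unfold cw
    conv_rhs => rw [← List.take_append_drop (N * (M * K)) g.1.2]
    rw [costL_append]
    have := costL_nonneg n (fun e => (ω e : ℝ)) (fun e => (ω e).2)
      (g.1.1 + proj n (tot (g.1.2.take (N * (M * K))))) (g.1.2.drop (N * (M * K)))
    linarith
  have e4 : (N : ℝ) * M ≤ 2 * C1 * n / b := by
    rw [le_div_iff₀ hb']
    linarith
  have hK' : (0 : ℝ) < K := by exact_mod_cast hK
  have e5 : (g.1.2.length : ℝ) ≤ (N + 1) * (M * K) := by exact_mod_cast d2.le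
  have e6 : (M : ℝ) * K ≤ n := by exact_mod_cast c1.le
  calc (g.1.2.length : ℝ) ≤ N * M * K + M * K := by linarith
    _ ≤ 2 * C1 * n / b * K + n := add_le_add (mul_le_mul_of_nonneg_right e4 hK'.le) e6
    _ = (1 + 2 * C1 * K / b) * n := by ring

end Pool.Agent.TVR
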