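import Pool.Agent.TVR.BDefs
import Pool.Agent.TVR.Law

/-!
# TVR / Pw: connection at a cost, straight segments, transposition

`Pw.symm`: the reversed word: for `w = s1 ... sL` take `opp sL ... opp s1` (`opp` of Good.lean of Tor, or `![1, 0, 3, 2]`); by induction on `w`:
`tot = -tot w`, and its edges from the end point are the edges of `w` in reversed order (`edgesL_append`, `Sym2.eq_swap`, `vec s + vec (opp s) = 0`), so the costs
are equal. `Pw.trans`: `w ++ w'`, `costL_append`, `tot_append`, `proj_add`. `Pw.shift`: the same word, `proj n (n z1, n z2) = 0`.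
`T_le_of_Pw`: `T_le_cw` for the winding word. `Pw_sub`: for `i ≤ j` the word `(w.drop i).take (j - i)` (the costs of the three parts add up, all are `≥ 0`);
for `j < i` use `Pw.symm`. `measurableSet_Pw`: countable union over words, `measurable_cw`.
`Pw_row`: WLOG `a ≤ b` (`symm`): the word `List.replicate (b - a) 0`, its cost is the sum of the weights between `a` and `b`, a sub-sum of `hc`; induction.
`tp`: `Pw_tp`: exchange the letters `0 ↔ 2`, `1 ↔ 3` in the word; `(w.map σ)`, `tot (w.map σ) = (tot w).swap`, `edgesL n x.swap (w.map σ) = (edgesL n x w).map (Sym2.map swap)`.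
`tp_mp`: composition with a permutation of the coordinates; `iid_pi` and `mix_mp` with `I = univ`, or `measurePreserving_piCongrLeft`.
-/

set_option autoImplicit false

namespace Pool.Agent.TVR

open Finset Pool.Agent.Helper46.Tor MeasureTheory
open scoped NNReal ENNReal

/-- `u` and `v` are joined by a path of cost at most `c` -/
def Pw (n : ℕ) (ω : Sym2 (ZMod n × ZMod n) → ℝ≥0) (u v : ℤ × ℤ) (c : ℝ) : Prop :=
  ∃ w : List (Fin 4), tot w = v - u ∧ cw n ω (proj n u) w ≤ c

variable {n : ℕ} {ω ω' : Sym2 (ZMod n × ZMod n) → ℝ≥0} {u v z : ℤ × ℤ} {c c' : ℝ}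

private theorem cw_nil (x : ZMod n × ZMod n) : cw n ω x [] = 0 := by
  simp [cw, costL, edgesL]

private theorem cw_cons (x : ZMod n × ZMod n) (s : Fin 4) (w : List (Fin 4)) :
    cw n ω x (s :: w) = (ω s(x, x + proj n (vec s)) : ℝ) + cw n ω (x + proj n (vec s)) w := by
  simp [cw, costL, edgesL]

private theorem cw_append (x : ZMod n × ZMod n) (w w' : List (Fin 4)) :
    cw n ω x (w ++ w') = cw n ω x w + cw n ω (x + proj n (tot w)) w' := by
  unfold cw
  exact costL_append _ _ _ _ _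

private theorem cw_nonneg (x : ZMod n × ZMod n) (w : List (Fin 4)) : 0 ≤ cw n ω x w := by
  induction w generalizing x with
  | nil => rw [cw_nil]
  | cons s w ih =>
    rw [cw_cons]
    exact add_nonneg (ω _).2 (ih _)

private theorem cw_mono (hω : ∀ e, ω' e ≤ ω e) (x : ZMod n × ZMod n) (w : List (Fin 4)) :
    cw n ω' x w ≤ cw n ω x w := by
  induction w generalizing x with
  | nil => rw [cw_nil, cw_nil]
  | cons s w ih =>
    rw [cw_cons, cw_cons]
    exact add_le_add (NNReal.coe_le_coe.2 (hω _)) (ih _)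

theorem Pw.refl (hc : 0 ≤ c) : Pw n ω u u c := by
  refine ⟨[], ?_, ?_⟩
  · rw [tot_nil, sub_self]
  · rw [cw_nil]
    exact hc

theorem Pw.mono (h : Pw n ω u v c) (hc : c ≤ c') (hω : ∀ e, ω' e ≤ ω e) : Pw n ω' u v c' := by
  obtain ⟨w, h1, h2⟩ := h
  exact ⟨w, h1, (cw_mono hω _ _).trans (h2.trans hc)⟩

private theorem vec_opp (s : Fin 4) : vec s + vec (opp s) = 0 := by
  fin_cases s <;> decide

private theorem rev_word (w : List (Fin 4)) : tot (w.map opp).reverse = -tot w ∧
    ∀ x : ZMod n × ZMod n, cw n ω (x + proj n (tot w)) (w.map opp).reverse = cw n ω x w := by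
  induction w with
  | nil =>
    refine ⟨by simp [tot_nil], fun x => ?_⟩
    simp only [List.map_nil, List.reverse_nil]
    rw [cw_nil, cw_nil]
  | cons s w ih =>
    obtain ⟨ih1, ih2⟩ := ih
    have hv : vec (opp s) = -vec s := by
      rw [eq_neg_iff_add_eq_zero, add_comm]
      exact vec_opp s
    have e1 : ((s :: w).map opp).reverse = (w.map opp).reverse ++ [opp s] := by simp
    rw [e1]
    constructor
    · rw [tot_append, ih1, tot_cons, tot_cons, tot_nil, hv]
      abel
    · intro x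
      rw [cw_append, ih1, tot_cons, proj_add, ← add_assoc, ih2, cw_cons x s w, add_comm]
      congr 1
      rw [cw_cons, cw_nil, add_zero, hv]
      have e2 : x + proj n (vec s) + proj n (tot w) + proj n (-tot w) = x + proj n (vec s) := by
        rw [add_assoc, ← proj_add, add_neg_cancel, proj_zero, add_zero]
      have e3 : x + proj n (vec s) + proj n (-vec s) = x := by
        rw [add_assoc, ← proj_add, add_neg_cancel, proj_zero, add_zero]
      rw [e2, e3, Sym2.eq_swap]

private theorem proj_of_tot {w : List (Fin 4)} (h : tot w = v - u) :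
    proj n v = proj n u + proj n (tot w) := by
  rw [h, ← proj_add, add_sub_cancel]

theorem Pw.symm (h : Pw n ω u v c) : Pw n ω v u c := by
  obtain ⟨w, h1, h2⟩ := h
  obtain ⟨k1, k2⟩ := rev_word (n := n) (ω := ω) w
  refine ⟨(w.map opp).reverse, ?_, ?_⟩
  · rw [k1, h1]
    abel
  · rw [proj_of_tot h1, k2]
    exact h2

theorem Pw.trans (h : Pw n ω u v c) (h' : Pw n ω v z c') : Pw n ω u z (c + c') := by
  obtain ⟨w, h1, h2⟩ := h
  obtain ⟨w', k1, k2⟩ := h'
  refine ⟨w ++ w', ?_, ?_⟩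
  · rw [tot_append, h1, k1]
    abel
  · rw [cw_append, ← proj_of_tot h1]
    exact add_le_add h2 k2

theorem Pw.shift (z : ℤ × ℤ) (h : Pw n ω u v c) :
    Pw n ω (u + ((n : ℤ) * z.1, (n : ℤ) * z.2)) (v + ((n : ℤ) * z.1, (n : ℤ) * z.2)) c := by
  obtain ⟨w, h1, h2⟩ := h
  refine ⟨w, ?_, ?_⟩
  · rw [h1]
    abel
  · rw [proj_add]
    have : proj n ((n : ℤ) * z.1, (n : ℤ) * z.2) = 0 := by simp [proj]
    rw [this, add_zero]
    exact h2

theorem T_le_of_Pw [NeZero n] (h : Pw n ω u (u + ((n : ℤ), 0)) c) : T n ω ≤ c := by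
  obtain ⟨w, h1, h2⟩ := h
  have h3 : tot w = ((n : ℤ), 0) := by rw [h1, add_sub_cancel_left]
  exact (T_le_cw ω ⟨(proj n u, w), h3⟩).trans h2

private theorem Pw_sub_le (w : List (Fin 4)) (h : cw n ω (proj n u) w ≤ c) {i j : ℕ} (hij : i ≤ j) :
    Pw n ω (u + tot (w.take i)) (u + tot (w.take j)) c := by
  have e1 : w.take j = w.take i ++ (w.drop i).take (j - i) := by
    have := List.take_add (l := w) (i := i) (j := j - i)
    rwa [Nat.add_sub_cancel' hij] at this
  refine ⟨(w.drop i).take (j - i), ?_, ?_⟩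
  · rw [e1, tot_append]
    abel
  · have h1 : cw n ω (proj n u) w = cw n ω (proj n u) (w.take j) +
        cw n ω (proj n u + proj n (tot (w.take j))) (w.drop j) := by
      rw [← cw_append, List.take_append_drop]
    have h2 : cw n ω (proj n u) (w.take j) = cw n ω (proj n u) (w.take i) +
        cw n ω (proj n u + proj n (tot (w.take i))) ((w.drop i).take (j - i)) := by
      rw [← cw_append, ← e1]
    have h3 := cw_nonneg (ω := ω) (proj n u + proj n (tot (w.take j))) (w.drop j)
    have h4 := cw_nonneg (ω := ω) (proj n u) (w.take i)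
    rw [proj_add]
    linarith

theorem Pw_sub (w : List (Fin 4)) (h : cw n ω (proj n u) w ≤ c) {i j : ℕ} (hi : i ≤ w.length)
    (hj : j ≤ w.length) : Pw n ω (u + tot (w.take i)) (u + tot (w.take j)) c := by
  rcases le_total i j with hij | hij
  · exact Pw_sub_le w h hij
  · exact (Pw_sub_le w h hij).symm

theorem measurableSet_Pw (n : ℕ) (u v : ℤ × ℤ) (c : ℝ) :
    MeasurableSet {ω : Sym2 (ZMod n × ZMod n) → ℝ≥0 | Pw n ω u v c} := by
  have h1 : {ω : Sym2 (ZMod n × ZMod n) → ℝ≥0 | Pw n ω u v c} =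
      ⋃ w : List (Fin 4), {ω : Sym2 (ZMod n × ZMod n) → ℝ≥0 |
        tot w = v - u ∧ cw n ω (proj n u) w ≤ c} := by
    ext ω
    rw [Set.mem_iUnion]
    exact Iff.rfl
  rw [h1]
  refine MeasurableSet.iUnion fun w => ?_
  by_cases hw : tot w = v - u
  · have h2 : {ω : Sym2 (ZMod n × ZMod n) → ℝ≥0 | tot w = v - u ∧ cw n ω (proj n u) w ≤ c} =
        {ω : Sym2 (ZMod n × ZMod n) → ℝ≥0 | cw n ω (proj n u) w ≤ c} := by
      ext ω
      exact ⟨fun h => h.2, fun h => ⟨hw, h⟩⟩
    rw [h2]
    exact measurableSet_le (measurable_cw n _ _) measurable_const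
  · have h2 : {ω : Sym2 (ZMod n × ZMod n) → ℝ≥0 | tot w = v - u ∧ cw n ω (proj n u) w ≤ c} = ∅ := by
      ext ω
      exact ⟨fun h => absurd h.1 hw, fun h => absurd h (Set.notMem_empty _)⟩
    rw [h2]
    exact MeasurableSet.empty

/-- cost of the horizontal segment from `(x, y)` to `(x + L, y)` -/
noncomputable def hc (n : ℕ) (ω : Sym2 (ZMod n × ZMod n) → ℝ≥0) (x y : ℤ) (L : ℕ) : ℝ≥0 :=
  ∑ j ∈ range L, ω s(proj n (x + j, y), proj n (x + j + 1, y))

/-- cost of the vertical segment from `(x, y)` to `(x, y + L)` -/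
noncomputable def vc (n : ℕ) (ω : Sym2 (ZMod n × ZMod n) → ℝ≥0) (x y : ℤ) (L : ℕ) : ℝ≥0 :=
  ∑ j ∈ range L, ω s(proj n (x, y + j), proj n (x, y + j + 1))

private theorem rep_row (n : ℕ) (ω : Sym2 (ZMod n × ZMod n) → ℝ≥0) (a y : ℤ) (m : ℕ) :
    tot (List.replicate m (0 : Fin 4)) = ((m : ℤ), 0) ∧
    cw n ω (proj n (a, y)) (List.replicate m (0 : Fin 4)) = (hc n ω a y m : ℝ) := by
  induction m with
  | zero =>
    refine ⟨by simp [tot_nil]; rfl, ?_⟩
    simp only [List.replicate_zero]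
    rw [cw_nil]
    simp [hc]
  | succ m ih =>
    obtain ⟨ih1, ih2⟩ := ih
    rw [List.replicate_succ']
    constructor
    · rw [tot_append, ih1, tot_cons, tot_nil]
      simp [vec]
    · rw [cw_append, ih2, ih1, cw_cons, cw_nil, add_zero, ← proj_add, ← proj_add]
      unfold hc
      rw [Finset.sum_range_succ]
      push_cast
      congr 3
      simp [vec]

private theorem rep_col (n : ℕ) (ω : Sym2 (ZMod n × ZMod n) → ℝ≥0) (x a : ℤ) (m : ℕ) :
    tot (List.replicate m (2 : Fin 4)) = (0, (m : ℤ)) ∧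
    cw n ω (proj n (x, a)) (List.replicate m (2 : Fin 4)) = (vc n ω x a m : ℝ) := by
  induction m with
  | zero =>
    refine ⟨by simp [tot_nil]; rfl, ?_⟩
    simp only [List.replicate_zero]
    rw [cw_nil]
    simp [vc]
  | succ m ih =>
    obtain ⟨ih1, ih2⟩ := ih
    rw [List.replicate_succ']
    constructor
    · rw [tot_append, ih1, tot_cons, tot_nil]
      simp [vec]
    · rw [cw_append, ih2, ih1, cw_cons, cw_nil, add_zero, ← proj_add, ← proj_add]
      unfold vc
      rw [Finset.sum_range_succ]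
      push_cast
      congr 3
      simp [vec]

private theorem hc_sub (n : ℕ) (ω : Sym2 (ZMod n × ZMod n) → ℝ≥0) (x y : ℤ) {p m L : ℕ}
    (h : p + m ≤ L) : hc n ω (x + p) y m ≤ hc n ω x y L := by
  unfold hc
  calc ∑ j ∈ range m, ω s(proj n (x + p + j, y), proj n (x + p + j + 1, y))
      = ∑ j ∈ range m, ω s(proj n (x + ((p + j : ℕ) : ℤ), y), proj n (x + ((p + j : ℕ) : ℤ) + 1, y)) := by
        refine Finset.sum_congr rfl fun j _ => ?_
        push_cast
        rw [add_assoc x (p : ℤ) (j : ℤ)]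
    _ ≤ ∑ j ∈ range (p + m), ω s(proj n (x + (j : ℤ), y), proj n (x + (j : ℤ) + 1, y)) := by
        rw [Finset.sum_range_add]
        exact le_add_of_nonneg_left (zero_le)
    _ ≤ ∑ j ∈ range L, ω s(proj n (x + (j : ℤ), y), proj n (x + (j : ℤ) + 1, y)) :=
        Finset.sum_le_sum_of_subset (Finset.range_subset_range.2 h)

private theorem vc_sub (n : ℕ) (ω : Sym2 (ZMod n × ZMod n) → ℝ≥0) (x y : ℤ) {p m L : ℕ}
    (h : p + m ≤ L) : vc n ω x (y + p) m ≤ vc n ω x y L := by
  unfold vc
  calc ∑ j ∈ range m, ω s(proj n (x, y + p + j), proj n (x, y + p + j + 1))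
      = ∑ j ∈ range m, ω s(proj n (x, y + ((p + j : ℕ) : ℤ)), proj n (x, y + ((p + j : ℕ) : ℤ) + 1)) := by
        refine Finset.sum_congr rfl fun j _ => ?_
        push_cast
        rw [add_assoc y (p : ℤ) (j : ℤ)]
    _ ≤ ∑ j ∈ range (p + m), ω s(proj n (x, y + (j : ℤ)), proj n (x, y + (j : ℤ) + 1)) := by
        rw [Finset.sum_range_add]
        exact le_add_of_nonneg_left (zero_le)
    _ ≤ ∑ j ∈ range L, ω s(proj n (x, y + (j : ℤ)), proj n (x, y + (j : ℤ) + 1)) :=
        Finset.sum_le_sum_of_subset (Finset.range_subset_range.2 h)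

private theorem Pw_row_le (n : ℕ) (ω : Sym2 (ZMod n × ZMod n) → ℝ≥0) {x y a b : ℤ} {L : ℕ}
    (ha : x ≤ a) (hb' : b ≤ x + L) (hab : a ≤ b) : Pw n ω (a, y) (b, y) (hc n ω x y L) := by
  obtain ⟨p, rfl⟩ := Int.le.dest ha
  obtain ⟨m, rfl⟩ := Int.le.dest hab
  obtain ⟨h1, h2⟩ := rep_row n ω (x + p) y m
  refine ⟨List.replicate m 0, ?_, ?_⟩
  · rw [h1]
    simp
  · rw [h2]
    exact NNReal.coe_le_coe.2 (hc_sub n ω x y (by omega))

private theorem Pw_col_le (n : ℕ) (ω : Sym2 (ZMod n × ZMod n) → ℝ≥0) {x y a b : ℤ} {L : ℕ}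
    (ha : y ≤ a) (hb' : b ≤ y + L) (hab : a ≤ b) : Pw n ω (x, a) (x, b) (vc n ω x y L) := by
  obtain ⟨p, rfl⟩ := Int.le.dest ha
  obtain ⟨m, rfl⟩ := Int.le.dest hab
  obtain ⟨h1, h2⟩ := rep_col n ω x (y + p) m
  refine ⟨List.replicate m 2, ?_, ?_⟩
  · rw [h1]
    simp
  · rw [h2]
    exact NNReal.coe_le_coe.2 (vc_sub n ω x y (by omega))

theorem Pw_row (n : ℕ) (ω : Sym2 (ZMod n × ZMod n) → ℝ≥0) {x y a b : ℤ} {L : ℕ} (ha : x ≤ a)
    (ha' : a ≤ x + L) (hb : x ≤ b) (hb' : b ≤ x + L) :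
    Pw n ω (a, y) (b, y) (hc n ω x y L) := by
  rcases le_total a b with h | h
  · exact Pw_row_le n ω ha hb' h
  · exact (Pw_row_le n ω hb ha' h).symm

theorem Pw_col (n : ℕ) (ω : Sym2 (ZMod n × ZMod n) → ℝ≥0) {x y a b : ℤ} {L : ℕ} (ha : y ≤ a)
    (ha' : a ≤ y + L) (hb : y ≤ b) (hb' : b ≤ y + L) :
    Pw n ω (x, a) (x, b) (vc n ω x y L) := by
  rcases le_total a b with h | h
  · exact Pw_col_le n ω ha hb' h
  · exact (Pw_col_le n ω hb ha' h).symm

/-- the transposed environment -/
def tp (n : ℕ) (ω : Sym2 (ZMod n × ZMod n) → ℝ≥0) : Sym2 (ZMod n × ZMod n) → ℝ≥0 :=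
  fun e => ω (e.map Prod.swap)

/-- exchange of the letters -/
private def sg : Fin 4 → Fin 4 := ![2, 3, 0, 1]

private theorem vec_sg (s : Fin 4) : vec (sg s) = (vec s).swap := by
  fin_cases s <;> decide

private theorem tot_sg (w : List (Fin 4)) : tot (w.map sg) = (tot w).swap := by
  induction w with
  | nil => simp [tot_nil]
  | cons s w ih =>
    rw [List.map_cons, tot_cons, tot_cons, ih, vec_sg]
    rfl

private theorem cw_sg (x : ZMod n × ZMod n) (w : List (Fin 4)) :
    cw n ω x.swap (w.map sg) = cw n (tp n ω) x w := by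
  induction w generalizing x with
  | nil => rw [List.map_nil, cw_nil, cw_nil]
  | cons s w ih =>
    have e1 : x.swap + proj n (vec (sg s)) = (x + proj n (vec s)).swap := by
      rw [vec_sg]
      rfl
    rw [List.map_cons, cw_cons, cw_cons, e1, ih]
    rfl

theorem Pw_tp (h : Pw n (tp n ω) u v c) : Pw n ω u.swap v.swap c := by
  obtain ⟨w, h1, h2⟩ := h
  refine ⟨w.map sg, ?_, ?_⟩
  · rw [tot_sg, h1]
    rfl
  · have e1 : proj n u.swap = (proj n u).swap := rfl
    rw [e1, cw_sg]
    exact h2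

theorem measurable_tp (n : ℕ) : Measurable (tp n) := by
  rw [measurable_pi_iff]
  intro e
  exact measurable_pi_apply _

private theorem swap_inv (n : ℕ) : Function.Involutive
    (fun e : Sym2 (ZMod n × ZMod n) => e.map Prod.swap) := by
  intro e
  simp only
  rw [Sym2.map_map]
  have : (Prod.swap ∘ Prod.swap : ZMod n × ZMod n → ZMod n × ZMod n) = id := by
    funext x
    simp
  rw [this, Sym2.map_id, id]

theorem tp_mp (n : ℕ) [NeZero n] (F : Measure ℝ≥0) [IsProbabilityMeasure F] :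
    MeasurePreserving (tp n) (Measure.pi fun _ : Sym2 (ZMod n × ZMod n) => F)
      (Measure.pi fun _ : Sym2 (ZMod n × ZMod n) => F) := by
  refine ⟨measurable_tp n, (Measure.pi_eq fun s hs => ?_).symm⟩
  rw [Measure.map_apply (measurable_tp n) (MeasurableSet.univ_pi hs)]
  have h1 : tp n ⁻¹' (Set.univ.pi s) = Set.univ.pi (fun e => s (e.map Prod.swap)) := by
    ext ω
    simp only [Set.mem_preimage, Set.mem_pi, Set.mem_univ, true_imp_iff]
    constructor
    · intro h e
      have h2 := h (e.map Prod.swap)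
      unfold tp at h2
      have hs : (Sym2.map Prod.swap (Sym2.map Prod.swap e)) = e := swap_inv n e
      rw [hs] at h2
      exact h2
    · intro h e
      have h2 := h (e.map Prod.swap)
      have hs : (Sym2.map Prod.swap (Sym2.map Prod.swap e)) = e := swap_inv n e
      simp only [hs] at h2
      exact h2
  rw [h1, Measure.pi_pi]
  exact Equiv.prod_comp (swap_inv n).toPerm (fun e => F (s e))

end Pool.Agent.TVR
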