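import Pool.Agent.TVR.Law

/-!
# TVR / Xfer: transfer of events along an injection

`mix_mp I ι hι : MeasurePreserving (mixf I ι) ((iid A F).prod (iid B F)) (iid B F)`, so
`iid B F E = (prod) (mixf I ι ⁻¹' E)` (`measure_preimage`). By `hdep` (both directions) `mixf I ι p ∈ E ↔ (fun q => p.1 (ι q)) ∈ E`, so the preimage is
`{ω | (fun q => ω (ι q)) ∈ E} ×ˢ univ` with measure `iid A F {..} * 1`; `iid_pi`.
`transfer_le`: `E` only needs to be measurable and `E' ⊆` the preimage.
-/

set_option autoImplicit false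

namespace Pool.Agent.TVR

open MeasureTheory Set
open scoped NNReal ENNReal

theorem transfer {A B : Type} [Fintype A] (F : Measure ℝ≥0) [IsProbabilityMeasure F] (I : Set B)
    (ι : B → A) (hι : InjOn ι I) {E : Set (B → ℝ≥0)} (hE : MeasurableSet E)
    (hdep : ∀ η η' : B → ℝ≥0, (∀ q ∈ I, η q = η' q) → η ∈ E → η' ∈ E) :
    iid B F E = (Measure.pi fun _ : A => F) {ω | (fun q => ω (ι q)) ∈ E} := by
  have h := mix_mp (F := F) I ι hι
  have hpre : (mixf I ι : (A → ℝ≥0) × (B → ℝ≥0) → B → ℝ≥0) ⁻¹' E =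
      {ω : A → ℝ≥0 | (fun q => ω (ι q)) ∈ E} ×ˢ (univ : Set (B → ℝ≥0)) := by
    ext p
    have heq : ∀ q ∈ I, mixf I ι p q = (fun q => p.1 (ι q)) q := fun q hq => by
      unfold mixf
      rw [if_pos hq]
    rw [mem_prod]
    constructor
    · intro hp
      exact ⟨hdep _ _ heq hp, mem_univ _⟩
    · rintro ⟨hp, -⟩
      exact hdep _ _ (fun q hq => (heq q hq).symm) hp
  rw [← h.measure_preimage hE.nullMeasurableSet, hpre, Measure.prod_prod, measure_univ, mul_one,
    iid_pi]

end Pool.Agent.TVR
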