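import Pool.Agent.TVR.Cut
import Pool.Agent.TVR.Emb
import Pool.Agent.TVR.Xfer
import Pool.Agent.TVR.Pw

/-!
# TVR / HalfT: crossings of half of the torus, to the right and to the left

`transfer` with `I = Bx h (s - h)` (`emb_inj`, `h < n`, `s - h < n`), `ι = emb n y 0 2` (right) or `emb n y 1 2` (left), `y = proj n (0, -a w)`, `E = Cr h s w a b C` (`measurableSet_Cr`,
`Cr_congr`). If `(fun q => ω (emb n y 0 2 q)) ∈ Cr`, with `i0, d`: the word `d.map (ltr 0 2)` started at `y + proj n (qpt 0 2 i0 0) = proj n (0, i0 - a w)` has the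
cost `costD .. ≤ C` (`cost_emb`) and displacement `(h, |d| - h)` (`tot_map`; `-h` instead of `h` for the letters `1, 2`). So `Pw n ω (0, y0) (h, y1) C` with `y0 = i0 - a w ∈ [0, w)`,
`y1 = i0 + |d| - h - a w ∈ [A, A + w)`, `A = (b - a) w`. Left: `proj n (n, y0) = proj n (0, y0)`.
`half_meas`: countable union of the measurable sets `measurableSet_Pw`. `half_low`: `Pw.mono`.
-/

set_option autoImplicit false

namespace Pool.Agent.TVR

open Finset Pool.Agent.Helper46.Tor MeasureTheory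
open scoped NNReal ENNReal

/-- a crossing to the right of the left half -/
def HR (n h w : ℕ) (A : ℤ) (C : ℝ) : Set (Sym2 (ZMod n × ZMod n) → ℝ≥0) :=
  {ω | ∃ y0 y1 : ℤ, 0 ≤ y0 ∧ y0 < w ∧ A ≤ y1 ∧ y1 < A + w ∧ Pw n ω (0, y0) (h, y1) C}

/-- a crossing to the left of the right half -/
def HL (n h w : ℕ) (A : ℤ) (C : ℝ) : Set (Sym2 (ZMod n × ZMod n) → ℝ≥0) :=
  {ω | ∃ y0 y1 : ℤ, 0 ≤ y0 ∧ y0 < w ∧ A ≤ y1 ∧ y1 < A + w ∧
    Pw n ω ((n : ℤ), y0) ((n : ℤ) - h, y1) C}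

private theorem proj_n_zero (n : ℕ) (t : ℤ) : proj n ((n : ℤ), t) = proj n (0, t) := by
  unfold proj
  simp

theorem half_right (F : Measure ℝ≥0) [IsProbabilityMeasure F] {n h s w : ℕ} [NeZero n]
    (hn : h < n) (hs : s < n + h) (a b : ℕ) (C : ℝ) :
    iid OE F (Cr h s w a b C) ≤ (Measure.pi fun _ : Sym2 (ZMod n × ZMod n) => F)
      (HR n h w (((b : ℤ) - a) * w) C) := by
  have hA : (h : ℤ) < n := by exact_mod_cast hn
  have hB : (s : ℤ) - h < n := by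
    have : (s : ℤ) < n + h := by exact_mod_cast hs
    linarith
  rw [transfer (A := Sym2 (ZMod n × ZMod n)) F (Bx (h : ℤ) ((s : ℤ) - h))
    (emb n (proj n (0, -((a : ℤ) * w))) 0 2)
    (emb_inj (Or.inl ⟨by decide, by decide⟩) _ hA hB) (measurableSet_Cr h s w a b C)
    (fun η η' hq hE => Cr_congr (fun q h1 h2 h3 h4 => hq q ⟨h1, h2, h3, h4⟩) hE)]
  refine measure_mono ?_
  rintro ω ⟨i0, d, h1, h2, h3, h4, h5, h6, h7⟩
  rw [← cost_emb] at h7
  have e1 : proj n (0, -((a : ℤ) * w)) + proj n (qpt 0 2 i0 0) =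
      proj n (0, (i0 : ℤ) - a * w) := by
    rw [← proj_add]
    congr 1
    simp [qpt, vec]
    ring
  rw [e1] at h7
  have h1' : (a : ℤ) * w ≤ i0 := by exact_mod_cast h1
  have h2' : (i0 : ℤ) < a * w + w := by exact_mod_cast h2
  have h4' : (b : ℤ) * w + h ≤ i0 + d.length := by exact_mod_cast h4
  have h5' : (i0 : ℤ) + d.length < b * w + w + h := by exact_mod_cast h5
  refine ⟨(i0 : ℤ) - a * w, (i0 : ℤ) + d.length - h - a * w, by linarith, by linarith,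
    by linarith, by linarith, d.map (ltr 0 2), ?_, h7⟩
  rw [tot_map, h3]
  simp [vec]
  ring

theorem half_left (F : Measure ℝ≥0) [IsProbabilityMeasure F] {n h s w : ℕ} [NeZero n]
    (hn : h < n) (hs : s < n + h) (a b : ℕ) (C : ℝ) :
    iid OE F (Cr h s w a b C) ≤ (Measure.pi fun _ : Sym2 (ZMod n × ZMod n) => F)
      (HL n h w (((b : ℤ) - a) * w) C) := by
  have hA : (h : ℤ) < n := by exact_mod_cast hn
  have hB : (s : ℤ) - h < n := by
    have : (s : ℤ) < n + h := by exact_mod_cast hs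
    linarith
  rw [transfer (A := Sym2 (ZMod n × ZMod n)) F (Bx (h : ℤ) ((s : ℤ) - h))
    (emb n (proj n (0, -((a : ℤ) * w))) 1 2)
    (emb_inj (Or.inl ⟨by decide, by decide⟩) _ hA hB) (measurableSet_Cr h s w a b C)
    (fun η η' hq hE => Cr_congr (fun q h1 h2 h3 h4 => hq q ⟨h1, h2, h3, h4⟩) hE)]
  refine measure_mono ?_
  rintro ω ⟨i0, d, h1, h2, h3, h4, h5, h6, h7⟩
  rw [← cost_emb] at h7
  have e1 : proj n (0, -((a : ℤ) * w)) + proj n (qpt 1 2 i0 0) =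
      proj n ((n : ℤ), (i0 : ℤ) - a * w) := by
    rw [proj_n_zero, ← proj_add]
    congr 1
    simp [qpt, vec]
    ring
  rw [e1] at h7
  have h1' : (a : ℤ) * w ≤ i0 := by exact_mod_cast h1
  have h2' : (i0 : ℤ) < a * w + w := by exact_mod_cast h2
  have h4' : (b : ℤ) * w + h ≤ i0 + d.length := by exact_mod_cast h4
  have h5' : (i0 : ℤ) + d.length < b * w + w + h := by exact_mod_cast h5
  refine ⟨(i0 : ℤ) - a * w, (i0 : ℤ) + d.length - h - a * w, by linarith, by linarith,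
    by linarith, by linarith, d.map (ltr 1 2), ?_, h7⟩
  rw [tot_map, h3]
  simp [vec]
  ring

theorem half_meas (n h w : ℕ) (A : ℤ) (C : ℝ) :
    MeasurableSet (HR n h w A C) ∧ MeasurableSet (HL n h w A C) := by
  have e1 : HR n h w A C = ⋃ (y0 : ℤ) (y1 : ℤ) (_ : 0 ≤ y0 ∧ y0 < w ∧ A ≤ y1 ∧ y1 < A + w),
      {ω : Sym2 (ZMod n × ZMod n) → ℝ≥0 | Pw n ω (0, y0) (h, y1) C} := by
    ext ω
    simp only [Set.mem_iUnion]
    constructor
    · rintro ⟨y0, y1, h1, h2, h3, h4, h5⟩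
      exact ⟨y0, y1, ⟨h1, h2, h3, h4⟩, h5⟩
    · rintro ⟨y0, y1, ⟨h1, h2, h3, h4⟩, h5⟩
      exact ⟨y0, y1, h1, h2, h3, h4, h5⟩
  have e2 : HL n h w A C = ⋃ (y0 : ℤ) (y1 : ℤ) (_ : 0 ≤ y0 ∧ y0 < w ∧ A ≤ y1 ∧ y1 < A + w),
      {ω : Sym2 (ZMod n × ZMod n) → ℝ≥0 | Pw n ω ((n : ℤ), y0) ((n : ℤ) - h, y1) C} := by
    ext ω
    simp only [Set.mem_iUnion]
    constructor
    · rintro ⟨y0, y1, h1, h2, h3, h4, h5⟩
      exact ⟨y0, y1, ⟨h1, h2, h3, h4⟩, h5⟩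
    · rintro ⟨y0, y1, ⟨h1, h2, h3, h4⟩, h5⟩
      exact ⟨y0, y1, h1, h2, h3, h4, h5⟩
  rw [e1, e2]
  exact ⟨MeasurableSet.iUnion fun y0 => MeasurableSet.iUnion fun y1 => MeasurableSet.iUnion
      fun _ => measurableSet_Pw n _ _ C,
    MeasurableSet.iUnion fun y0 => MeasurableSet.iUnion fun y1 => MeasurableSet.iUnion
      fun _ => measurableSet_Pw n _ _ C⟩

theorem half_low {n h w : ℕ} {A : ℤ} {C : ℝ} {ω ω' : Sym2 (ZMod n × ZMod n) → ℝ≥0}
    (h1 : ∀ e, ω' e ≤ ω e) : (ω ∈ HR n h w A C → ω' ∈ HR n h w A C) ∧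
      (ω ∈ HL n h w A C → ω' ∈ HL n h w A C) := by
  constructor
  · rintro ⟨y0, y1, h2, h3, h4, h5, h6⟩
    exact ⟨y0, y1, h2, h3, h4, h5, h6.mono le_rfl h1⟩
  · rintro ⟨y0, y1, h2, h3, h4, h5, h6⟩
    exact ⟨y0, y1, h2, h3, h4, h5, h6.mono le_rfl h1⟩

end Pool.Agent.TVR
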