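import Mathlib

/-!
# TVR / Quant: quantiles and variance

`exists_quant`: as `Tor.exists_mu` (Fin1.lean) with `1/2` replaced by `1 - δ`: `S = {x | ofReal (1 - δ) ≤ P {X ≤ x}}` is nonempty
(`P {X ≤ k} → 1 > 1 - δ`), bounded below by `0` (`1 - δ > 0`), `μ ∈ S` with `μ - 1 ∉ S`.

`evariance_ge'`: as `Tor.evariance_ge` (Fin1.lean), the same proof (`e0 = ∫ X` is at distance at least `D/4` from one of the two half lines).
-/

set_option autoImplicit false

namespace Pool.Agent.TVR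

open MeasureTheory ProbabilityTheory
open scoped NNReal ENNReal

theorem exists_quant {Ω : Type*} [MeasurableSpace Ω] (P : Measure Ω) [IsProbabilityMeasure P]
    (X : Ω → ℝ) (hX : Measurable X) (h0 : ∀ ω, 0 ≤ X ω) {δ : ℝ} (hδ : 0 < δ) (hδ1 : δ < 1) :
    ∃ μ : ℝ, ENNReal.ofReal (1 - δ) ≤ P {ω | X ω ≤ μ} ∧
      ENNReal.ofReal δ ≤ P {ω | μ - 1 < X ω} := by
  set S : Set ℝ := {x | ENNReal.ofReal (1 - δ) ≤ P {ω | X ω ≤ x}} with hS
  have hne : S.Nonempty := by
    have h1 : Filter.Tendsto (fun k : ℕ => P {ω | X ω ≤ k}) Filter.atTop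
        (nhds (P (⋃ k : ℕ, {ω | X ω ≤ k}))) := by
      apply tendsto_measure_iUnion_atTop
      intro i j hij ω hω
      have h2 : X ω ≤ i := hω
      have h3 : (i : ℝ) ≤ j := by exact_mod_cast hij
      exact h2.trans h3
    have h2 : (⋃ k : ℕ, {ω | X ω ≤ (k:ℝ)}) = Set.univ := by
      ext ω
      simp only [Set.mem_iUnion, Set.mem_univ, iff_true]
      exact exists_nat_ge (X ω)
    rw [h2, measure_univ] at h1
    obtain ⟨k, hk⟩ := ((tendsto_order.mp h1).1 (ENNReal.ofReal (1 - δ)) (by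
      rw [← ENNReal.ofReal_one]
      exact (ENNReal.ofReal_lt_ofReal_iff one_pos).2 (by linarith))).exists
    exact ⟨k, hk.le⟩
  have hbdd : BddBelow S := by
    refine ⟨0, ?_⟩
    intro x hx
    by_contra hcon
    push Not at hcon
    have : {ω | X ω ≤ x} = ∅ := by
      ext ω
      simp only [Set.mem_empty_iff_false, iff_false]
      intro h
      have h' : X ω ≤ x := h
      linarith [h0 ω]
    have hx' : ENNReal.ofReal (1 - δ) ≤ P {ω | X ω ≤ x} := hx
    rw [this, measure_empty] at hx'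
    have h3 : (0 : ℝ≥0∞) < ENNReal.ofReal (1 - δ) := ENNReal.ofReal_pos.2 (by linarith)
    exact absurd hx' (not_le.2 h3)
  obtain ⟨μ, hμ1, hμ2⟩ := exists_lt_of_csInf_lt hne (lt_add_one (sInf S))
  refine ⟨μ, hμ1, ?_⟩
  have h3 : μ - 1 ∉ S := by
    intro h
    have := csInf_le hbdd h
    linarith
  have h4 : P {ω | X ω ≤ μ - 1} < ENNReal.ofReal (1 - δ) := not_le.mp h3
  have h5 : {ω | μ - 1 < X ω} = {ω | X ω ≤ μ - 1}ᶜ := by
    ext ω; simp
  rw [h5, prob_compl_eq_one_sub (measurableSet_le hX measurable_const)]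
  have h6 : ENNReal.ofReal δ = 1 - ENNReal.ofReal (1 - δ) := by
    rw [← ENNReal.ofReal_one, ← ENNReal.ofReal_sub _ (by linarith)]
    congr 1
    ring
  rw [h6]
  exact tsub_le_tsub_left h4.le 1

theorem evariance_ge' {Ω : Type*} [MeasurableSpace Ω] (P : Measure Ω) [IsProbabilityMeasure P]
    (X : Ω → ℝ) (hX : Measurable X) (μ D : ℝ) (hD : 2 ≤ D) (p : ℝ≥0∞)
    (h1 : p ≤ P {ω | X ω ≤ μ - D}) (h2 : p ≤ P {ω | μ - 1 < X ω}) :
    ENNReal.ofReal ((D / 4) ^ 2) * p ≤ evariance X P := by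
  set e0 := ∫ ω, X ω ∂P with he0
  have key : ∀ S : Set Ω, MeasurableSet S → (∀ ω ∈ S, D / 4 ≤ |X ω - e0|) → p ≤ P S →
      ENNReal.ofReal ((D / 4) ^ 2) * p ≤ evariance X P := by
    intro S hS hd hpS
    calc ENNReal.ofReal ((D / 4) ^ 2) * p ≤ ENNReal.ofReal ((D / 4) ^ 2) * P S := by gcongr
      _ = ∫⁻ _ω in S, ENNReal.ofReal ((D / 4) ^ 2) ∂P := by
          rw [setLIntegral_const]
      _ ≤ ∫⁻ ω in S, ‖X ω - e0‖ₑ ^ 2 ∂P := by
          apply setLIntegral_mono' hS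
          intro ω hω
          have h3 := hd ω hω
          rw [← ofReal_norm, ← ENNReal.ofReal_pow (norm_nonneg _), Real.norm_eq_abs]
          apply ENNReal.ofReal_le_ofReal
          gcongr
      _ ≤ ∫⁻ ω, ‖X ω - e0‖ₑ ^ 2 ∂P := setLIntegral_le_lintegral _ _
      _ = evariance X P := rfl
  rcases le_or_gt (μ - 3 * D / 4) e0 with h | h
  · apply key {ω | X ω ≤ μ - D} (measurableSet_le hX measurable_const) _ h1
    intro ω hω
    have h3 : X ω ≤ μ - D := hω
    rw [abs_sub_comm]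
    refine le_trans ?_ (le_abs_self _)
    linarith
  · apply key {ω | μ - 1 < X ω} (measurableSet_lt measurable_const hX) _ h2
    intro ω hω
    have h3 : μ - 1 < X ω := hω
    refine le_trans ?_ (le_abs_self _)
    linarith

end Pool.Agent.TVR
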