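import Pool.Agent.TVR.BDefs

/-!
# TVR / Shift: a good shift of the partition into boxes

`inbox_count` (`D = 4 K`). For a coordinate `s : ZMod n` (`s = v.1 - a.1`) put `p = s.val`, `q = p % D`. If `K ≤ q`, `q + K < D` and
`p + K < n` then for every integer `|z| ≤ K`: `(s + z).val = p + z` (as `0 ≤ p + z < n`) and `(p + z) % D = q + z`, so
`(v.1 + z) - ((s+z).val % D) = v.1 - q`. So `InBox` holds if both coordinates satisfy this. The number of `p ∈ [0, n)` with these
properties is at least `(n / D) * (2 K)` (blocks `[j D, (j+1) D)`, `j < n / D`, `q ∈ [K, 3K)`, then `p + K < (j+1) D ≤ n`), and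
`(n / D) * 2K ≥ (n - D) / D * 2K = (n - 4K)/2 ≥ n/4` as reals, because `n / D ≥ (n - D)/D` and `n ≥ 8 K`. `a ↦ v - a` is a bijection; the
set of good `a` contains the product of two sets with `≥ n/4` elements. So `≥ n^2/16`.

`shift_count`. `seg = (w.drop i0).take (M K)`, `x' = x + proj n (tot (w.take i0))`; `seg` is self-avoiding (`SA_drop`, `SA_take`) of length `M K < n`.
For `j < M`: `wst n K x' seg j = x + proj n (tot (w.take (i0 + j K)))` and `win K seg j = (w.drop (i0 + j K)).take K` (list computations).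
`J = {j < M | ¬ Pft ..}`, `#J = M - cPft ≥ η n`; the start vertices `v j` are distinct (`wst_ne`). For a shift `a` let
`J_a = {j ∈ J | InBox n K D a (v j)}`. Double counting: `∑ a, #J_a = ∑ j ∈ J, #{a | InBox (v j)} ≥ η n * n^2/16`; `#J_a ≤ M ≤ n`. So
`η n^3/16 ≤ ∑ a, #J_a ≤ n * #{a | η n/32 ≤ #J_a} + n^2 * (η n/32)` and `#{a | η n/32 ≤ #J_a} ≥ η n^2/32`. For each `a`:
`#J_a ≤ D^2 * #(Sbox a)`: the map `j ↦ (bx (v j), rl (v j))` is injective (`bx_rl_inj`) into `Sbox a × (Fin D × Fin D)`.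

`exists_shift`: for a shift `a` let `E_a` be the event of the conclusion (measurable, as in BlockCore; do it here:
countable union over `g`, the function `#(Sbox)` is measurable). `∑ a, P(E_a) = ∫⁻ #{a | ω ∈ E_a}` and by `shift_count` (`least_SA`)
`GoodSeg ⊆ {ω | η n^2/32 ≤ #{a | ω ∈ E_a}}`, so by Markov's inequality (`mul_meas_ge_le_lintegral`; the function is measurable)
`∑ a, P(E_a) ≥ (η n^2/32) c0`. There are `n^2` shifts, so some `a` has `P(E_a) ≥ c0 η/32`.
-/

set_option autoImplicit false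

namespace Pool.Agent.TVR

open Finset Pool.Agent.Helper46.Tor MeasureTheory
open scoped NNReal ENNReal

private theorem coord_bx (n K D : ℕ) [NeZero n] (v a : ZMod n) (h1 : K ≤ (v - a).val % D)
    (h2 : (v - a).val % D + K < D) (h3 : (v - a).val + K < n) (z : ℤ) (hz : |z| ≤ K) :
    (v + (z : ZMod n)) - ((((v + (z : ZMod n)) - a).val % D : ℕ) : ZMod n) =
      v - (((v - a).val % D : ℕ) : ZMod n) := by
  obtain ⟨hz1, hz2⟩ := abs_le.1 hz
  obtain ⟨p, hp⟩ : ∃ p, p = (v - a).val := ⟨_, rfl⟩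
  obtain ⟨q, hq⟩ : ∃ q, q = (v - a).val % D := ⟨_, rfl⟩
  have hva : v - a = (p : ZMod n) := by
    rw [hp, ZMod.natCast_zmod_val]
  rw [← hq] at h1 h2 ⊢
  rw [← hp] at h3 hq
  obtain ⟨d, hdm⟩ : ∃ d, d * D + q = p := ⟨p / D, by
    rw [hq, mul_comm]
    exact Nat.div_add_mod p D⟩
  obtain ⟨m', hm'⟩ : ∃ m' : ℕ, (m' : ℤ) = q + z := ⟨((q : ℤ) + z).toNat, by
    apply Int.toNat_of_nonneg
    have : (K : ℤ) ≤ q := by exact_mod_cast h1
    linarith⟩
  have hm1 : m' < D := by
    have h4 : (m' : ℤ) < D := by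
      rw [hm']
      have : (q : ℤ) + K < D := by exact_mod_cast h2
      linarith
    exact_mod_cast h4
  have hpz : ((d * D + m' : ℕ) : ℤ) = p + z := by
    rw [← hdm]
    push_cast
    rw [hm']
    ring
  have hlt : d * D + m' < n := by
    have h4 : ((d * D + m' : ℕ) : ℤ) < n := by
      rw [hpz]
      have : (p : ℤ) + K < n := by exact_mod_cast h3
      linarith
    exact_mod_cast h4
  have hcast : (v + (z : ZMod n)) - a = ((d * D + m' : ℕ) : ZMod n) := by
    have h4 : ((d * D + m' : ℕ) : ZMod n) = (((p : ℤ) + z : ℤ) : ZMod n) := by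
      rw [← hpz]
      push_cast
      rfl
    rw [h4]
    push_cast
    rw [← hva]
    ring
  rw [hcast, ZMod.val_cast_of_lt hlt, Nat.mul_add_mod_of_lt hm1]
  have h7 : (m' : ZMod n) = (q : ZMod n) + (z : ZMod n) := by
    have h8 : ((m' : ℤ) : ZMod n) = (((q : ℤ) + z : ℤ) : ZMod n) := by rw [hm']
    push_cast at h8
    exact h8
  rw [h7]
  ring

open Classical in
private theorem coord_count (n K D : ℕ) [NeZero n] (hK : 0 < K) (hD : D = 4 * K)
    (hn : 8 * K ≤ n) :
    (n : ℝ) / 4 ≤ #(univ.filter fun s : ZMod n =>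
      K ≤ s.val % D ∧ s.val % D + K < D ∧ s.val + K < n) := by
  have hDpos : 0 < D := by omega
  have hblk : ∀ j r : ℕ, j < n / D → r < 2 * K → j * D + K + r + K < n := by
    intro j r hj hr
    have h1 : (j + 1) * D ≤ n := (Nat.mul_le_mul_right D hj).trans (Nat.div_mul_le_self n D)
    rw [add_mul, one_mul] at h1
    omega
  have hmod : ∀ j r : ℕ, r < 2 * K → (j * D + K + r) % D = K + r := by
    intro j r hr
    rw [add_assoc, Nat.mul_add_mod_of_lt]
    omega
  have hdiv : ∀ j r : ℕ, r < 2 * K → (j * D + K + r) / D = j := by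
    intro j r hr
    rw [add_assoc, mul_comm, Nat.mul_add_div hDpos, Nat.div_eq_of_lt (by omega), add_zero]
  have hcard : #(range (n / D) ×ˢ range (2 * K)) ≤ #(univ.filter fun s : ZMod n =>
      K ≤ s.val % D ∧ s.val % D + K < D ∧ s.val + K < n) := by
    apply Finset.card_le_card_of_injOn (fun q : ℕ × ℕ => ((q.1 * D + K + q.2 : ℕ) : ZMod n))
    · rintro ⟨j, r⟩ hjr
      simp only [Finset.coe_product, Finset.coe_range, Set.mem_prod, Set.mem_Iio] at hjr
      have h1 := hblk j r hjr.1 hjr.2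
      have h2 := hmod j r hjr.2
      simp only [Finset.coe_filter, Finset.mem_univ, true_and, Set.mem_ofPred_eq]
      rw [ZMod.val_cast_of_lt (by omega), h2]
      omega
    · rintro ⟨j, r⟩ hjr ⟨j', r'⟩ hjr' h
      simp only [Finset.coe_product, Finset.coe_range, Set.mem_prod, Set.mem_Iio] at hjr hjr'
      have h1 := hblk j r hjr.1 hjr.2
      have h1' := hblk j' r' hjr'.1 hjr'.2
      have h2 := congrArg ZMod.val h
      simp only at h2
      rw [ZMod.val_cast_of_lt (by omega), ZMod.val_cast_of_lt (by omega)] at h2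
      have h3 := hmod j r hjr.2
      have h3' := hmod j' r' hjr'.2
      have h4 := hdiv j r hjr.2
      have h4' := hdiv j' r' hjr'.2
      rw [h2] at h3 h4
      rw [h4'] at h4
      rw [h3'] at h3
      exact Prod.ext h4.symm (by simp only; omega)
  rw [Finset.card_product, Finset.card_range, Finset.card_range] at hcard
  have h5 : n ≤ 4 * (n / D * (2 * K)) := by
    have h6 := Nat.div_add_mod n D
    have h7 := Nat.mod_lt n hDpos
    have h8 : 4 * (n / D * (2 * K)) = 2 * (D * (n / D)) := by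
      rw [hD]
      ring
    rw [h8]
    omega
  have h9 : n ≤ 4 * #(univ.filter fun s : ZMod n =>
      K ≤ s.val % D ∧ s.val % D + K < D ∧ s.val + K < n) :=
    h5.trans (Nat.mul_le_mul_left 4 hcard)
  have h10 : (n : ℝ) ≤ 4 * (#(univ.filter fun s : ZMod n =>
      K ≤ s.val % D ∧ s.val % D + K < D ∧ s.val + K < n) : ℝ) := by exact_mod_cast h9
  linarith

open Classical in
theorem inbox_count (n K D : ℕ) [NeZero n] (hK : 0 < K) (hD : D = 4 * K) (hn : 8 * K ≤ n)
    (v : ZMod n × ZMod n) :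
    (n : ℝ) ^ 2 / 16 ≤ #(univ.filter fun a : ZMod n × ZMod n => InBox n K D a v) := by
  obtain ⟨A, hA⟩ : ∃ A : Finset (ZMod n), A = univ.filter fun s : ZMod n =>
      K ≤ s.val % D ∧ s.val % D + K < D ∧ s.val + K < n := ⟨_, rfl⟩
  have hAc : (n : ℝ) / 4 ≤ #A := by
    rw [hA]
    exact coord_count n K D hK hD hn
  have hcard : #(A ×ˢ A) ≤ #(univ.filter fun a : ZMod n × ZMod n => InBox n K D a v) := by
    apply Finset.card_le_card_of_injOn
      (fun s : ZMod n × ZMod n => ((v.1 - s.1, v.2 - s.2) : ZMod n × ZMod n))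
    · rintro ⟨s1, s2⟩ hs
      simp only [hA, Finset.coe_product, Finset.coe_filter, Finset.mem_univ, true_and,
        Set.mem_prod, Set.mem_ofPred_eq] at hs
      simp only [Finset.coe_filter, Finset.mem_univ, true_and, Set.mem_ofPred_eq]
      intro u hu
      obtain ⟨z, hz, rfl⟩ := hu
      have hz1 : |z.1| ≤ K := by
        have := abs_nonneg z.2
        linarith
      have hz2 : |z.2| ≤ K := by
        have := abs_nonneg z.1
        linarith
      have e1 : v.1 - (v.1 - s1) = s1 := by ring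
      have e2 : v.2 - (v.2 - s2) = s2 := by ring
      have c1 := coord_bx n K D v.1 (v.1 - s1) (by rw [e1]; exact hs.1.1)
        (by rw [e1]; exact hs.1.2.1) (by rw [e1]; exact hs.1.2.2) z.1 hz1
      have c2 := coord_bx n K D v.2 (v.2 - s2) (by rw [e2]; exact hs.2.1)
        (by rw [e2]; exact hs.2.2.1) (by rw [e2]; exact hs.2.2.2) z.2 hz2
      exact Prod.ext c1 c2
    · rintro ⟨s1, s2⟩ _ ⟨t1, t2⟩ _ h
      have h1 := congrArg Prod.fst h
      have h2 := congrArg Prod.snd h
      simp only [sub_right_inj] at h1 h2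
      exact Prod.ext h1 h2
  rw [Finset.card_product] at hcard
  have h1 : ((#A : ℝ) * #A) ≤ #(univ.filter fun a : ZMod n × ZMod n => InBox n K D a v) := by
    exact_mod_cast hcard
  have h2 : (0 : ℝ) ≤ n := Nat.cast_nonneg n
  nlinarith

open Classical in
theorem shift_count (n K D : ℕ) [NeZero n] (hK : 0 < K) (hD : D = 4 * K) (hn : 8 * K ≤ n)
    (Cond : List (Fin 4) → Prop) (b : ℝ≥0) (ω : Sym2 (ZMod n × ZMod n) → ℝ≥0)
    (x : ZMod n × ZMod n) (w : List (Fin 4)) (hSA : SA w) (i0 M : ℕ) (hM : M * K < n)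
    (hi : i0 + M * K ≤ w.length) {η : ℝ} (hη0 : 0 ≤ η)
    (hη : η * n ≤ (M : ℝ) - cPft n K Cond b ω (x + proj n (tot (w.take i0)))
        ((w.drop i0).take (M * K)) M) :
    η * n ^ 2 / 32 ≤ #(univ.filter fun a : ZMod n × ZMod n =>
      η * n / (32 * D ^ 2) ≤ #(Sbox n K D Cond b a ω x w)) := by
  have hDpos : 0 < D := by omega
  have : NeZero D := ⟨by omega⟩
  have hnpos : 0 < n := by omega
  have hn0 : (0 : ℝ) < n := by exact_mod_cast hnpos
  obtain ⟨x', hx'⟩ : ∃ x', x' = x + proj n (tot (w.take i0)) := ⟨_, rfl⟩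
  obtain ⟨seg, hseg⟩ : ∃ seg, seg = (w.drop i0).take (M * K) := ⟨_, rfl⟩
  rw [← hx', ← hseg] at hη
  have hsegSA : SA seg := by
    rw [hseg]
    exact SA_take (SA_drop hSA _) _
  have hseglen : seg.length = M * K := by
    rw [hseg, List.length_take, List.length_drop]
    omega
  have hv : ∀ j, j < M → wst n K x' seg j = x + proj n (tot (w.take (i0 + j * K))) := by
    intro j hj
    have h1 : j * K ≤ M * K := Nat.mul_le_mul_right K hj.le
    unfold wst
    rw [hx', hseg, List.take_take, min_eq_left h1, List.take_add, tot_append, proj_add,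
      add_assoc]
  have hw : ∀ j, j < M → win K seg j = (w.drop (i0 + j * K)).take K := by
    intro j hj
    have h1 : (j + 1) * K ≤ M * K := Nat.mul_le_mul_right K hj
    rw [add_mul, one_mul] at h1
    unfold win
    rw [hseg, List.drop_take, List.take_take, List.drop_drop, min_eq_left (by omega)]
  obtain ⟨J, hJ⟩ : ∃ J : Finset ℕ, J = (range M).filter fun j =>
      ¬ Pft n Cond b ω (wst n K x' seg j) (win K seg j) := ⟨_, rfl⟩
  have hJcard : η * n ≤ (#J : ℝ) := by
    have h1 : cPft n K Cond b ω x' seg M + #J = M := by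
      unfold cPft
      rw [hJ]
      have h2 := Finset.card_filter_add_card_filter_not (s := range M)
        (fun j => Pft n Cond b ω (wst n K x' seg j) (win K seg j))
      rw [Finset.card_range] at h2
      convert h2 using 2
    have h3 : (cPft n K Cond b ω x' seg M : ℝ) + #J = M := by exact_mod_cast h1
    linarith
  have hJM : ∀ j ∈ J, j < M := by
    intro j hj
    rw [hJ] at hj
    exact Finset.mem_range.1 (Finset.mem_filter.1 hj).1
  have hMn : M ≤ n := by
    have : M * 1 ≤ M * K := Nat.mul_le_mul_left M hK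
    omega
  -- the number of imperfect windows well inside of the boxes of the shift
  obtain ⟨N, hN⟩ : ∃ N : ZMod n × ZMod n → ℕ, N = fun a =>
      #(J.filter fun j => InBox n K D a (wst n K x' seg j)) := ⟨_, rfl⟩
  have hNM : ∀ a, (N a : ℝ) ≤ n := by
    intro a
    have h1 : N a ≤ #(range M) := by
      rw [hN]
      apply Finset.card_le_card
      intro j hj
      exact Finset.mem_range.2 (hJM j (Finset.mem_filter.1 hj).1)
    rw [Finset.card_range] at h1
    exact_mod_cast h1.trans hMn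
  have hNS : ∀ a, (N a : ℝ) ≤ D ^ 2 * #(Sbox n K D Cond b a ω x w) := by
    intro a
    have h1 : N a ≤ #(Sbox n K D Cond b a ω x w ×ˢ (univ : Finset (Fin D × Fin D))) := by
      rw [hN]
      apply Finset.card_le_card_of_injOn
        (fun j => (bx n D a (wst n K x' seg j), rl n D a (wst n K x' seg j)))
      · intro j hj
        have hj' := Finset.mem_filter.1 (Finset.mem_coe.1 hj)
        have hjM := hJM j hj'.1
        have hjJ := hj'.1
        rw [hJ] at hjJ
        have hnp := (Finset.mem_filter.1 hjJ).2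
        rw [Finset.coe_product, Set.mem_prod]
        refine ⟨?_, Finset.mem_coe.2 (Finset.mem_univ _)⟩
        apply Finset.mem_coe.2
        unfold Sbox
        rw [Finset.mem_filter]
        refine ⟨Finset.mem_univ _, i0 + j * K, ?_, ?_, ?_, ?_⟩
        · have h1 : (j + 1) * K ≤ M * K := Nat.mul_le_mul_right K hjM
          rw [add_mul, one_mul] at h1
          omega
        · rw [← hv j hjM]
          exact hj'.2
        · rw [← hv j hjM]
        · rw [← hv j hjM, ← hw j hjM]
          exact hnp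
      · intro i hi' j hj' h
        have hiM := hJM i (Finset.mem_filter.1 (Finset.mem_coe.1 hi')).1
        have hjM := hJM j (Finset.mem_filter.1 (Finset.mem_coe.1 hj')).1
        have h1 := congrArg Prod.fst h
        have h2 := congrArg Prod.snd h
        have h3 := bx_rl_inj a h1 h2
        by_contra hne
        exact wst_ne hK x' hsegSA hseglen (by rw [hseglen]; exact hM) hiM hjM hne h3
    rw [Finset.card_product, Finset.card_univ, Fintype.card_prod, Fintype.card_fin] at h1
    have h2 : (N a : ℝ) ≤ #(Sbox n K D Cond b a ω x w) * (D * D) := by exact_mod_cast h1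
    calc (N a : ℝ) ≤ #(Sbox n K D Cond b a ω x w) * (D * D) := h2
      _ = D ^ 2 * #(Sbox n K D Cond b a ω x w) := by ring
  -- double counting
  have hsum : (η * n) * ((n : ℝ) ^ 2 / 16) ≤ ∑ a, (N a : ℝ) := by
    have h1 : ∑ a, (N a : ℝ) = ∑ j ∈ J, (#(univ.filter fun a : ZMod n × ZMod n =>
        InBox n K D a (wst n K x' seg j)) : ℝ) := by
      rw [hN]
      simp only [Finset.card_filter]
      push_cast
      rw [Finset.sum_comm]
    rw [h1]
    calc (η * n) * ((n : ℝ) ^ 2 / 16) ≤ #J * ((n : ℝ) ^ 2 / 16) := by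
          apply mul_le_mul_of_nonneg_right hJcard
          positivity
      _ = ∑ j ∈ J, ((n : ℝ) ^ 2 / 16) := by rw [Finset.sum_const, nsmul_eq_mul]
      _ ≤ _ := by
          apply Finset.sum_le_sum
          intro j _
          exact inbox_count n K D hK hD hn _
  obtain ⟨G, hG⟩ : ∃ G : Finset (ZMod n × ZMod n), G = univ.filter fun a =>
      η * n / 32 ≤ (N a : ℝ) := ⟨_, rfl⟩
  have hup : ∑ a, (N a : ℝ) ≤ #G * (n : ℝ) + (n : ℝ) ^ 2 * (η * n / 32) := by
    have h1 : ∀ a : ZMod n × ZMod n, (N a : ℝ) ≤ (if a ∈ G then (n : ℝ) else 0) + η * n / 32 := by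
      intro a
      by_cases ha : a ∈ G
      · rw [if_pos ha]
        have h2 := hNM a
        have h3 : 0 ≤ η * n / 32 := by positivity
        linarith
      · rw [if_neg ha]
        rw [hG, Finset.mem_filter] at ha
        have h4 : ¬ (η * n / 32 ≤ (N a : ℝ)) := fun h => ha ⟨Finset.mem_univ _, h⟩
        have h5 := not_le.1 h4
        linarith
    calc ∑ a, (N a : ℝ) ≤ ∑ a : ZMod n × ZMod n,
          ((if a ∈ G then (n : ℝ) else 0) + η * n / 32) := Finset.sum_le_sum fun a _ => h1 a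
      _ = #G * (n : ℝ) + (n : ℝ) ^ 2 * (η * n / 32) := by
          rw [Finset.sum_add_distrib, Finset.sum_ite_mem, Finset.univ_inter, Finset.sum_const,
            Finset.sum_const, Finset.card_univ, Fintype.card_prod, ZMod.card, nsmul_eq_mul,
            nsmul_eq_mul]
          push_cast
          ring
  have hGcard : η * n ^ 2 / 32 ≤ (#G : ℝ) := by
    have h1 : (η * n ^ 2 / 32) * n ≤ #G * (n : ℝ) := by
      have h2 := hsum.trans hup
      nlinarith
    exact le_of_mul_le_mul_right h1 hn0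
  refine hGcard.trans ?_
  have hsub : G ⊆ univ.filter fun a : ZMod n × ZMod n =>
      η * n / (32 * D ^ 2) ≤ #(Sbox n K D Cond b a ω x w) := by
    intro a ha
    rw [hG, Finset.mem_filter] at ha
    rw [Finset.mem_filter]
    refine ⟨Finset.mem_univ _, ?_⟩
    have h1 := ha.2.trans (hNS a)
    have hD2 : (0 : ℝ) < 32 * D ^ 2 := by
      have : (0 : ℝ) < D := by exact_mod_cast hDpos
      positivity
    rw [div_le_iff₀ hD2]
    linarith
  exact_mod_cast Finset.card_le_card hsub

private theorem measurableSet_pft (n : ℕ) (Cond : List (Fin 4) → Prop) (b : ℝ≥0)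
    (x : ZMod n × ZMod n) (w : List (Fin 4)) :
    MeasurableSet {ω : Sym2 (ZMod n × ZMod n) → ℝ≥0 | Pft n Cond b ω x w} := by
  have h : {ω : Sym2 (ZMod n × ZMod n) → ℝ≥0 | Pft n Cond b ω x w} =
      {_ω : Sym2 (ZMod n × ZMod n) → ℝ≥0 | Cond w} ∩
        ⋂ e ∈ {e | e ∈ edgesL n x w}, {ω : Sym2 (ZMod n × ZMod n) → ℝ≥0 | ω e < b} := by
    ext ω
    simp only [Set.mem_inter_iff, Set.mem_iInter]
    exact Iff.rfl
  rw [h]
  refine (MeasurableSet.const _).inter (MeasurableSet.biInter ?_ fun e _ => ?_)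
  · exact (edgesL n x w).finite_toSet.countable
  · exact measurableSet_lt (measurable_pi_apply e) measurable_const

open Classical in
private theorem measurable_sbox (n K D : ℕ) [NeZero n] (Cond : List (Fin 4) → Prop) (b : ℝ≥0)
    (a x : ZMod n × ZMod n) (w : List (Fin 4)) :
    Measurable fun ω : Sym2 (ZMod n × ZMod n) → ℝ≥0 => (#(Sbox n K D Cond b a ω x w) : ℝ) := by
  unfold Sbox
  simp only [Finset.card_filter, Nat.cast_sum]
  apply Finset.measurable_sum
  intro β _
  have h : MeasurableSet {ω : Sym2 (ZMod n × ZMod n) → ℝ≥0 |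
      ∃ i, i + K ≤ w.length ∧ InBox n K D a (x + proj n (tot (w.take i))) ∧
        bx n D a (x + proj n (tot (w.take i))) = β ∧
        ¬ Pft n Cond b ω (x + proj n (tot (w.take i))) ((w.drop i).take K)} := by
    have h1 : {ω : Sym2 (ZMod n × ZMod n) → ℝ≥0 |
      ∃ i, i + K ≤ w.length ∧ InBox n K D a (x + proj n (tot (w.take i))) ∧
        bx n D a (x + proj n (tot (w.take i))) = β ∧
        ¬ Pft n Cond b ω (x + proj n (tot (w.take i))) ((w.drop i).take K)} =
        ⋃ i : ℕ, ({_ω : Sym2 (ZMod n × ZMod n) → ℝ≥0 | i + K ≤ w.length ∧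
          InBox n K D a (x + proj n (tot (w.take i))) ∧
          bx n D a (x + proj n (tot (w.take i))) = β} ∩
          {ω : Sym2 (ZMod n × ZMod n) → ℝ≥0 |
            Pft n Cond b ω (x + proj n (tot (w.take i))) ((w.drop i).take K)}ᶜ) := by
      ext ω
      simp only [Set.mem_iUnion, Set.mem_inter_iff, Set.mem_compl_iff]
      constructor
      · rintro ⟨i, h1, h2, h3, h4⟩
        exact ⟨i, ⟨h1, h2, h3⟩, h4⟩
      · rintro ⟨i, ⟨h1, h2, h3⟩, h4⟩
        exact ⟨i, h1, h2, h3, h4⟩
    rw [h1]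
    exact MeasurableSet.iUnion fun i =>
      (MeasurableSet.const _).inter (measurableSet_pft n Cond b _ _).compl
  have h2 : Measurable fun k : ℕ => (k : ℝ) := measurable_from_top
  exact h2.comp (Measurable.ite h measurable_const measurable_const)

theorem exists_shift (n K D : ℕ) [NeZero n] (hK : 0 < K) (hD : D = 4 * K) (hn : 8 * K ≤ n)
    (Cond : List (Fin 4) → Prop) (r b : ℝ≥0) (F : Measure ℝ≥0) [IsProbabilityMeasure F]
    {C η c0 : ℝ} (hη : 0 < η) (hc0 : 0 < c0)
    (hP : ENNReal.ofReal c0 ≤ (Measure.pi fun _ : Sym2 (ZMod n × ZMod n) => F)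
      {ω | GoodSeg n K Cond r b C η ω}) :
    ∃ a : ZMod n × ZMod n, ENNReal.ofReal (c0 * η / 32) ≤
      (Measure.pi fun _ : Sym2 (ZMod n × ZMod n) => F) {ω | (∀ e, r ≤ ω e) ∧
        ∃ g : Wind n, Least n ω g ∧ (g.1.2.length : ℝ) ≤ C * n ∧
          η * n / (32 * D ^ 2) ≤ #(Sbox n K D Cond b a ω g.1.1 g.1.2)} := by
  classical
  have hnpos : 0 < n := by omega
  have hn0 : (0 : ℝ) < n := by exact_mod_cast hnpos
  obtain ⟨P, hPdef⟩ : ∃ P : Measure (Sym2 (ZMod n × ZMod n) → ℝ≥0),
      P = Measure.pi fun _ : Sym2 (ZMod n × ZMod n) => F := ⟨_, rfl⟩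
  obtain ⟨E, hE⟩ : ∃ E : ZMod n × ZMod n → Set (Sym2 (ZMod n × ZMod n) → ℝ≥0),
      E = fun a => {ω | (∀ e, r ≤ ω e) ∧
        ∃ g : Wind n, Least n ω g ∧ (g.1.2.length : ℝ) ≤ C * n ∧
          η * n / (32 * D ^ 2) ≤ #(Sbox n K D Cond b a ω g.1.1 g.1.2)} := ⟨_, rfl⟩
  rw [← hPdef] at hP ⊢
  suffices hs : ∃ a, ENNReal.ofReal (c0 * η / 32) ≤ P (E a) by
    obtain ⟨a, ha⟩ := hs
    refine ⟨a, ?_⟩
    rw [hE] at ha
    convert ha using 3
  have hEm : ∀ a, MeasurableSet (E a) := by
    intro a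
    have h1 : E a = (⋂ e, {ω : Sym2 (ZMod n × ZMod n) → ℝ≥0 | r ≤ ω e}) ∩
        ⋃ g : Wind n, ({ω | Least n ω g} ∩
          ({_ω : Sym2 (ZMod n × ZMod n) → ℝ≥0 | (g.1.2.length : ℝ) ≤ C * n} ∩
          {ω | η * n / (32 * D ^ 2) ≤ (#(Sbox n K D Cond b a ω g.1.1 g.1.2) : ℝ)})) := by
      rw [hE]
      ext ω
      simp only [Set.mem_iUnion, Set.mem_inter_iff, Set.mem_iInter]
      exact Iff.rfl
    rw [h1]
    refine (MeasurableSet.iInter fun e => ?_).inter (MeasurableSet.iUnion fun g => ?_)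
    · exact measurableSet_le measurable_const (measurable_pi_apply e)
    · refine (measurableSet_least n g).inter ((MeasurableSet.const _).inter ?_)
      exact measurableSet_le measurable_const (measurable_sbox n K D Cond b a _ _)
  by_contra hcon
  push Not at hcon
  have hfm : ∀ a, Measurable ((E a).indicator (fun _ => (1 : ℝ≥0∞))) := fun a =>
    measurable_const.indicator (hEm a)
  have hint : ∫⁻ ω, ∑ a, (E a).indicator (fun _ => (1 : ℝ≥0∞)) ω ∂P = ∑ a, P (E a) := by
    rw [lintegral_finsetSum _ fun a _ => hfm a]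
    apply Finset.sum_congr rfl
    intro a _
    rw [lintegral_indicator (hEm a), lintegral_const, one_mul, Measure.restrict_apply_univ]
  have hsub : {ω | GoodSeg n K Cond r b C η ω} ⊆ {ω | ENNReal.ofReal (η * n ^ 2 / 32) ≤
      ∑ a, (E a).indicator (fun _ => (1 : ℝ≥0∞)) ω} := by
    intro ω hω
    obtain ⟨h1, h2⟩ := hω
    obtain ⟨g, hg⟩ := least_exists n ω
    obtain ⟨h3, i0, M, h4, h5, h6⟩ := h2 g hg
    have h7 := shift_count n K D hK hD hn Cond b ω g.1.1 g.1.2 (least_SA hg) i0 M h4 h5 hη.le h6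
    have h8 : ∑ a, (E a).indicator (fun _ => (1 : ℝ≥0∞)) ω =
        ((#(univ.filter fun a => ω ∈ E a) : ℕ) : ℝ≥0∞) := by
      rw [Finset.card_filter]
      push_cast
      apply Finset.sum_congr rfl
      intro a _
      rw [Set.indicator_apply]
    have h9 : #(univ.filter fun a : ZMod n × ZMod n =>
        η * n / (32 * D ^ 2) ≤ #(Sbox n K D Cond b a ω g.1.1 g.1.2)) ≤
        #(univ.filter fun a => ω ∈ E a) := by
      apply Finset.card_le_card
      intro a ha
      rw [Finset.mem_filter] at ha ⊢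
      refine ⟨Finset.mem_univ _, ?_⟩
      rw [hE]
      exact ⟨h1, g, hg, h3, ha.2⟩
    show ENNReal.ofReal (η * n ^ 2 / 32) ≤ ∑ a, (E a).indicator (fun _ => (1 : ℝ≥0∞)) ω
    rw [h8]
    have h10 : η * n ^ 2 / 32 ≤ ((#(univ.filter fun a => ω ∈ E a) : ℕ) : ℝ) :=
      h7.trans (by exact_mod_cast h9)
    calc ENNReal.ofReal (η * n ^ 2 / 32)
        ≤ ENNReal.ofReal ((#(univ.filter fun a => ω ∈ E a) : ℕ) : ℝ) :=
          ENNReal.ofReal_le_ofReal h10
      _ = _ := ENNReal.ofReal_natCast _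
  have hmarkov := mul_meas_ge_le_lintegral (μ := P)
    (Finset.measurable_sum (s := univ) (f := fun a ω => (E a).indicator (fun _ => (1 : ℝ≥0∞)) ω)
      fun a _ => hfm a) (ENNReal.ofReal (η * n ^ 2 / 32))
  have h1 : ENNReal.ofReal (η * n ^ 2 / 32) * ENNReal.ofReal c0 ≤ ∑ a, P (E a) := by
    calc ENNReal.ofReal (η * n ^ 2 / 32) * ENNReal.ofReal c0
        ≤ ENNReal.ofReal (η * n ^ 2 / 32) * P {ω | GoodSeg n K Cond r b C η ω} := by
          gcongr
      _ ≤ ENNReal.ofReal (η * n ^ 2 / 32) * P {ω | ENNReal.ofReal (η * n ^ 2 / 32) ≤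
          ∑ a, (E a).indicator (fun _ => (1 : ℝ≥0∞)) ω} := by
          gcongr
      _ ≤ _ := hmarkov
      _ = _ := hint
  have h2 : ∑ a, P (E a) < ∑ _a : ZMod n × ZMod n, ENNReal.ofReal (c0 * η / 32) := by
    apply ENNReal.sum_lt_sum_of_nonempty Finset.univ_nonempty
    intro a _
    exact hcon a
  have h3 : ∑ _a : ZMod n × ZMod n, ENNReal.ofReal (c0 * η / 32) =
      ENNReal.ofReal (η * n ^ 2 / 32) * ENNReal.ofReal c0 := by
    rw [Finset.sum_const, Finset.card_univ, Fintype.card_prod, ZMod.card, nsmul_eq_mul,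
      ← ENNReal.ofReal_natCast, ← ENNReal.ofReal_mul (by positivity),
      ← ENNReal.ofReal_mul (by positivity)]
    congr 1
    push_cast
    ring
  rw [h3] at h2
  exact absurd h2 (not_lt.2 h1)

end Pool.Agent.TVR
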