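import Pool.Agent.TVR.BlockCore
import Pool.Agent.TVR.Shift
import Pool.Agent.TVR.Quant

/-!
# TVR / MainA: many improvable windows force a large variance

Notation: `P_n = Measure.pi fun _ : Sym2 (ZMod n × ZMod n) => F`.
WLOG `C ≥ 1`: `GoodSeg` is monotone in `C`, replace `C` by `max C 1`. `hgood` for one `n ≥ max n0 1` gives `c0 ≤ 1` (`P ≤ 1`) and `η ≤ 1` (there is
an `ω` with `GoodSeg`, and `η n ≤ M ≤ n` because `M K < n`, `K ≥ 1`; a least `g` exists by `least_exists`).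
Constants: `D = 4 K` (`NeZero D`), `q = F (Iic a0)`, `α = q.toReal ^ card (Sl D) ∈ (0, 1]`, `c2 = c0 η / 64 ∈ (0, 1/64]`, `C0 ≥ 4` with `2 exp (-C0) ≤ c2 / 2`,
`p0 = c2 / (4 exp C0) ≤ c2`. For `k`: `X_k = sqrt (α 2^k / (7488 k)) * η / (64 D^2 C)`; `X_k → ∞` (`2^k / k → ∞`). Choose `k ≥ 3` with
`X_k ≥ 5`, `c1 X_k / 2 ≥ 2`, `(c1 X_k / 8)^2 p0 ≥ Q`. Put `S = sqrt (α 2^k / (7488 k))`.
For `n` large let `m` be least with `C n ≤ 2^m` (`Nat.clog 2 ⌈C n⌉`, or `Nat.find`): `n ≤ 2^m`, `2^m < 2 C n`; `ε = S / 2^m`, `h = η n / (32 D^2)`.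
* `7488 k 4^m ε^2 = 7488 k S^2 = α 2^k`.
* `4^k k ≤ m`, `ε ≤ 1`, `pex k l * ε ≤ α` (`pex k l ≤ 8 k 2^(4^k k)`) for `n` large because `2^m ≥ n`.
* `ε h = S η n / (32 D^2 2^m) ≥ X_k ≥ 5`.
`exists_shift` (`n ≥ 8 K`, `n ≥ n0`): a shift `a` with `P(E_a) ≥ c0 η/32 = 2 c2`. `exists_quant` with `X = T n`, `δ = c2`: `μ` with `P(T > μ) ≤ c2` (complement of
`P(T ≤ μ) ≥ 1 - c2`) and `P(T > μ - 1) ≥ c2`. `E_a ∩ {T ≤ μ} ⊆ EvA n m K D Cond r b a h μ` (`|g| ≤ C n ≤ 2^m`), so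
`P(EvA) ≥ 2 c2 - c2 = c2` (`E_a ⊆ (E_a ∩ {T ≤ μ}) ∪ {T > μ}`, subadditivity). `block_core`: `c2 ≤ 2 exp C0 * P(T ≤ μ - D') + c2/2` with
`D' = c1 (ε h/2) ≥ c1 X_k/2 ≥ 2`; so `P(T ≤ μ - D') ≥ p0`. `evariance_ge'` with `p = ofReal p0`: `evariance ≥ (D'/4)^2 p0 ≥ (c1 X_k/8)^2 p0 ≥ Q`.
-/

set_option autoImplicit false

namespace Pool.Agent.TVR

open Finset Pool.Agent.Helper46.Tor MeasureTheory ProbabilityTheory
open scoped NNReal ENNReal

private theorem ma_C0 {c2 : ℝ} (hc : 0 < c2) :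
    ∃ C0 : ℝ, 4 ≤ C0 ∧ 2 * Real.exp (-C0) ≤ c2 / 2 := by
  refine ⟨max 4 (Real.log (4 / c2)), le_max_left _ _, ?_⟩
  have h1 : Real.exp (-max 4 (Real.log (4 / c2))) ≤ Real.exp (-Real.log (4 / c2)) :=
    Real.exp_le_exp.2 (neg_le_neg (le_max_right _ _))
  rw [Real.exp_neg (Real.log (4 / c2)), Real.exp_log (by positivity)] at h1
  have h2 : (4 / c2)⁻¹ = c2 / 4 := by
    rw [inv_div]
  rw [h2] at h1
  linarith

private theorem ma_R {c1 p0 Q : ℝ} (hc1 : 0 < c1) (hp : 0 < p0) :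
    ∃ R : ℝ, 5 ≤ R ∧ 2 ≤ c1 * R / 2 ∧ Q ≤ (c1 * R / 8) ^ 2 * p0 := by
  have h0 : 0 ≤ |Q| / p0 := by positivity
  refine ⟨5 + 4 / c1 + 8 / c1 * (|Q| / p0 + 1), ?_, ?_, ?_⟩
  · have : 0 < 4 / c1 := by positivity
    have : 0 < 8 / c1 * (|Q| / p0 + 1) := by positivity
    linarith
  · have e : c1 * (5 + 4 / c1 + 8 / c1 * (|Q| / p0 + 1)) / 2 =
        5 * c1 / 2 + 2 + 4 * (|Q| / p0 + 1) := by
      field_simp
      ring
    rw [e]
    nlinarith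
  · have e : c1 * (5 + 4 / c1 + 8 / c1 * (|Q| / p0 + 1)) / 8 =
        5 * c1 / 8 + 1 / 2 + (|Q| / p0 + 1) := by
      field_simp
      ring
    rw [e]
    have h1 : |Q| / p0 + 1 ≤ 5 * c1 / 8 + 1 / 2 + (|Q| / p0 + 1) := by nlinarith
    have h2 : |Q| / p0 ≤ (5 * c1 / 8 + 1 / 2 + (|Q| / p0 + 1)) ^ 2 := by nlinarith
    have h3 := mul_le_mul_of_nonneg_right h2 hp.le
    rw [div_mul_cancel₀ _ hp.ne'] at h3
    exact (le_abs_self Q).trans h3

private theorem ma_k {α B : ℝ} (hα : 0 < α) :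
    ∃ k : ℕ, 3 ≤ k ∧ B ≤ α * 2 ^ k / (7488 * k) := by
  have h1 := tendsto_pow_const_div_const_pow_of_one_lt 1 (one_lt_two (α := ℝ))
  have h2 : (0 : ℝ) < α / (7488 * (|B| + 1)) := by positivity
  have h3 := (h1.eventually (gt_mem_nhds h2)).and (Filter.eventually_ge_atTop 3)
  obtain ⟨k, hk1, hk2⟩ := h3.exists
  refine ⟨k, hk2, ?_⟩
  have hk0 : (0 : ℝ) < k := by
    have : 0 < k := by omega
    exact_mod_cast this
  rw [pow_one, div_lt_div_iff₀ (by positivity) (by positivity)] at hk1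
  rw [le_div_iff₀ (by positivity)]
  have h4 : B ≤ |B| := le_abs_self B
  nlinarith

private theorem ma_m {C : ℝ} (hC : 1 ≤ C) {n : ℕ} (hn : 2 ≤ n) :
    ∃ m : ℕ, C * n ≤ 2 ^ m ∧ (2 : ℝ) ^ m < 2 * (C * n) := by
  classical
  have hex : ∃ m : ℕ, C * n ≤ 2 ^ m := by
    obtain ⟨m, hm⟩ := pow_unbounded_of_one_lt (C * n) (one_lt_two (α := ℝ))
    exact ⟨m, hm.le⟩
  refine ⟨Nat.find hex, Nat.find_spec hex, ?_⟩
  have hn' : (2 : ℝ) ≤ n := by exact_mod_cast hn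
  have h2 : (2 : ℝ) ≤ C * n := by nlinarith
  rcases Nat.eq_zero_or_pos (Nat.find hex) with h0 | h0
  · rw [h0, pow_zero]
    linarith
  · obtain ⟨m', hm'⟩ : ∃ m', Nat.find hex = m' + 1 := ⟨Nat.find hex - 1, by omega⟩
    have h3 := Nat.find_min hex (m := m') (by omega)
    push Not at h3
    rw [hm', pow_succ]
    linarith

private theorem ma_mono {n K : ℕ} [NeZero n] {Cond : List (Fin 4) → Prop} {r b : ℝ≥0} {C C' η : ℝ}
    (hC : C ≤ C') {ω : Sym2 (ZMod n × ZMod n) → ℝ≥0} (h : GoodSeg n K Cond r b C η ω) :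
    GoodSeg n K Cond r b C' η ω := by
  refine ⟨h.1, fun g hg => ⟨(h.2 g hg).1.trans ?_, (h.2 g hg).2⟩⟩
  exact mul_le_mul_of_nonneg_right hC (Nat.cast_nonneg n)

private theorem ma_eta {n K : ℕ} [NeZero n] (hK : 0 < K) {Cond : List (Fin 4) → Prop} {r b : ℝ≥0}
    {C η : ℝ} {ω : Sym2 (ZMod n × ZMod n) → ℝ≥0} (h : GoodSeg n K Cond r b C η ω) : η ≤ 1 := by
  obtain ⟨g, hg⟩ := least_exists n ω
  obtain ⟨-, i0, M, hM, -, hη⟩ := h.2 g hg
  have h1 : M ≤ M * K := Nat.le_mul_of_pos_right M hK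
  have h2 : (M : ℝ) ≤ n := by exact_mod_cast h1.trans hM.le
  have h3 : (0 : ℝ) ≤ (cPft n K Cond b ω (g.1.1 + proj n (tot (g.1.2.take i0)))
        ((g.1.2.drop i0).take (M * K)) M : ℝ) := Nat.cast_nonneg _
  have hn : (0 : ℝ) < n := by
    have := NeZero.pos n
    exact_mod_cast this
  have h4 : η * n ≤ 1 * n := by linarith
  exact le_of_mul_le_mul_right h4 hn

private theorem ma_fin {c2 p0 C0 : ℝ} (hp0 : p0 = c2 / (4 * Real.exp C0))
    (hC : 2 * Real.exp (-C0) ≤ c2 / 2) {Y : ℝ≥0∞} (hY : Y ≠ ⊤)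
    (h : ENNReal.ofReal c2 ≤ ENNReal.ofReal (2 * Real.exp C0) * Y +
      ENNReal.ofReal (2 * Real.exp (-C0))) : ENNReal.ofReal p0 ≤ Y := by
  have hE : 0 < Real.exp C0 := Real.exp_pos _
  have e : Y = ENNReal.ofReal Y.toReal := (ENNReal.ofReal_toReal hY).symm
  have hy : 0 ≤ Y.toReal := ENNReal.toReal_nonneg
  rw [e] at h ⊢
  rw [← ENNReal.ofReal_mul (by positivity), ← ENNReal.ofReal_add (by positivity) (by positivity),
    ENNReal.ofReal_le_ofReal_iff (by positivity)] at h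
  refine ENNReal.ofReal_le_ofReal ?_
  rw [hp0, div_le_iff₀ (by positivity)]
  nlinarith

theorem mainA (F : Measure ℝ≥0) [IsProbabilityMeasure F] {K : ℕ} (hK : 0 < K)
    {Cond : List (Fin 4) → Prop} {r b a0 : ℝ≥0} {c1 : ℝ} (hc1 : 0 < c1)
    (himp : Impr K Cond r b a0 c1) (hF0 : F (Set.Iic a0) ≠ 0) (hF1 : F (Set.Ioi a0) ≠ 0)
    {C η c0 : ℝ} (hη : 0 < η) (hc0 : 0 < c0) {n0 : ℕ}
    (hgood : ∀ n : ℕ, n0 ≤ n → ∀ [NeZero n], ENNReal.ofReal c0 ≤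
      (Measure.pi fun _ : Sym2 (ZMod n × ZMod n) => F) {ω | GoodSeg n K Cond r b C η ω})
    (Q : ℝ) :
    ∃ N : ℕ, ∀ n : ℕ, N ≤ n → ∀ [NeZero n], ENNReal.ofReal Q ≤
      evariance (T n) (Measure.pi fun _ : Sym2 (ZMod n × ZMod n) => F) := by
  -- bounds for `c0` and `η`
  obtain ⟨hc01, hη1⟩ : c0 ≤ 1 ∧ η ≤ 1 := by
    have hz : NeZero (max n0 1) := ⟨by omega⟩
    have h1 := hgood (max n0 1) (le_max_left _ _)
    have h2 : (Measure.pi fun _ : Sym2 (ZMod (max n0 1) × ZMod (max n0 1)) => F)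
        {ω | GoodSeg (max n0 1) K Cond r b C η ω} ≤ 1 := prob_le_one
    refine ⟨?_, ?_⟩
    · have h3 := h1.trans h2
      rwa [ENNReal.ofReal_le_one] at h3
    · have h3 : {ω : Sym2 (ZMod (max n0 1) × ZMod (max n0 1)) → ℝ≥0 |
          GoodSeg (max n0 1) K Cond r b C η ω}.Nonempty := by
        by_contra hne
        rw [Set.not_nonempty_iff_eq_empty] at hne
        rw [hne, measure_empty, nonpos_iff_eq_zero, ENNReal.ofReal_eq_zero] at h1
        linarith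
      obtain ⟨ω, hω⟩ := h3
      exact ma_eta hK hω
  obtain ⟨C', hC', hCC'⟩ : ∃ C' : ℝ, 1 ≤ C' ∧ C ≤ C' := ⟨max C 1, le_max_right _ _, le_max_left _ _⟩
  have hgood' : ∀ n : ℕ, n0 ≤ n → ∀ [NeZero n], ENNReal.ofReal c0 ≤
      (Measure.pi fun _ : Sym2 (ZMod n × ZMod n) => F) {ω | GoodSeg n K Cond r b C' η ω} := by
    intro n hn _
    exact (hgood n hn).trans (measure_mono fun ω hω => ma_mono hCC' hω)
  -- constants
  have hz4 : NeZero (4 * K) := ⟨by omega⟩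
  obtain ⟨D, hD⟩ : ∃ D : ℕ, D = 4 * K := ⟨_, rfl⟩
  have hzD : NeZero D := ⟨by omega⟩
  obtain ⟨α, hα⟩ : ∃ α : ℝ, α = (F (Set.Iic a0)).toReal ^ Fintype.card (Sl D) := ⟨_, rfl⟩
  have hq0 : 0 < (F (Set.Iic a0)).toReal := ENNReal.toReal_pos hF0 (measure_ne_top _ _)
  have hα0 : 0 < α := by rw [hα]; positivity
  obtain ⟨c2, hc2⟩ : ∃ c2 : ℝ, c2 = c0 * η / 64 := ⟨_, rfl⟩
  have hc20 : 0 < c2 := by rw [hc2]; positivity
  have hc21 : c2 < 1 := by rw [hc2]; nlinarith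
  obtain ⟨C0, hC0, hC0e⟩ := ma_C0 hc20
  obtain ⟨p0, hp0⟩ : ∃ p0 : ℝ, p0 = c2 / (4 * Real.exp C0) := ⟨_, rfl⟩
  have hp00 : 0 < p0 := by rw [hp0]; positivity
  have hp0c : p0 ≤ c2 := by
    rw [hp0, div_le_iff₀ (by positivity)]
    have : 1 ≤ Real.exp C0 := Real.one_le_exp (by linarith)
    nlinarith
  obtain ⟨R, hR5, hR2, hRQ⟩ := ma_R (Q := Q) hc1 hp00
  have hDr : (0 : ℝ) < D := by
    have := NeZero.pos D
    exact_mod_cast this
  obtain ⟨k, hk, hkB⟩ := ma_k (α := α) (B := (R * (64 * D ^ 2 * C') / η) ^ 2) hα0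
  have hk0 : (0 : ℝ) < k := by
    have : 0 < k := by omega
    exact_mod_cast this
  obtain ⟨S, hS⟩ : ∃ S : ℝ, S = Real.sqrt (α * 2 ^ k / (7488 * k)) := ⟨_, rfl⟩
  have hS2 : S ^ 2 = α * 2 ^ k / (7488 * k) := by
    rw [hS]
    exact Real.sq_sqrt (by positivity)
  have hS0 : 0 < S := by
    rw [hS]
    exact Real.sqrt_pos.2 (by positivity)
  have hSR : R * (64 * D ^ 2 * C') / η ≤ S := by
    rw [← hS2] at hkB
    exact le_of_sq_le_sq hkB hS0.le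
  -- the threshold
  obtain ⟨N1, hN1⟩ := exists_nat_ge S
  obtain ⟨N2, hN2⟩ := exists_nat_ge (8 * k * 2 ^ (4 ^ k * k) * S / α)
  have hpw : (0 : ℕ) < 2 ^ (4 ^ k * k) := by positivity
  refine ⟨n0 + 8 * K + 2 + N1 + N2 + 2 ^ (4 ^ k * k), fun n hn _ => ?_⟩
  obtain ⟨m, hm1, hm2⟩ := ma_m hC' (n := n) (by omega)
  have hnr : (0 : ℝ) < n := by
    have := NeZero.pos n
    exact_mod_cast this
  have hnm : (n : ℝ) ≤ 2 ^ m := by nlinarith
  have hnm' : n ≤ 2 ^ m := by exact_mod_cast hnm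
  have hkm : 4 ^ k * k ≤ m := by
    have h1 : 2 ^ (4 ^ k * k) ≤ 2 ^ m := by omega
    exact (Nat.pow_le_pow_iff_right (by norm_num)).1 h1
  have h2m : (0 : ℝ) < 2 ^ m := by positivity
  obtain ⟨ε, hε⟩ : ∃ ε : ℝ, ε = S / 2 ^ m := ⟨_, rfl⟩
  obtain ⟨h, hh⟩ : ∃ h : ℝ, h = η * n / (32 * D ^ 2) := ⟨_, rfl⟩
  have hh0 : 0 ≤ h := by rw [hh]; positivity
  have hε0 : 0 ≤ ε := by rw [hε]; positivity
  have hN1n : (N1 : ℝ) ≤ n := by
    have : N1 ≤ n := by omega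
    exact_mod_cast this
  have hN2n : (N2 : ℝ) ≤ n := by
    have : N2 ≤ n := by omega
    exact_mod_cast this
  have hε1 : ε ≤ 1 := by
    rw [hε, div_le_one h2m]
    linarith
  have hε2 : 7488 * k * 4 ^ m * ε ^ 2 ≤ α * 2 ^ k := by
    have e1 : ((4 : ℝ)) ^ m = 2 ^ m * 2 ^ m := by
      rw [← mul_pow]
      norm_num
    have e2 : 7488 * k * 4 ^ m * ε ^ 2 = 7488 * k * S ^ 2 := by
      rw [e1, hε]
      field_simp
    rw [e2, hS2]
    refine le_of_eq ?_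
    field_simp
  have hε3 : ∀ l : Lb k, (pex k l : ℝ) * ε ≤ α := by
    intro l
    have h1 : l.1.1 * k ≤ 4 ^ k * k := Nat.mul_le_mul_right k l.1.2.le
    have h2 : (pex k l : ℝ) ≤ 8 * k * 2 ^ (4 ^ k * k) := by
      unfold pex
      push_cast
      have h3 : (2 : ℝ) ^ (l.1.1 * k) ≤ 2 ^ (4 ^ k * k) :=
        pow_le_pow_right₀ (by norm_num) h1
      exact mul_le_mul_of_nonneg_left h3 (by positivity)
    have h4 : 8 * k * 2 ^ (4 ^ k * k) * S / α ≤ 2 ^ m := hN2.trans (hN2n.trans hnm)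
    rw [div_le_iff₀ hα0] at h4
    calc (pex k l : ℝ) * ε ≤ 8 * k * 2 ^ (4 ^ k * k) * ε := mul_le_mul_of_nonneg_right h2 hε0
      _ = 8 * k * 2 ^ (4 ^ k * k) * S / 2 ^ m := by rw [hε]; ring
      _ ≤ α := by
        rw [div_le_iff₀ h2m]
        linarith
  have hX : R ≤ ε * h := by
    have e1 : ε * h = S * η * n / (32 * D ^ 2 * 2 ^ m) := by
      rw [hε, hh]
      field_simp
    rw [e1, le_div_iff₀ (by positivity)]
    have h1 : R * (64 * D ^ 2 * C') ≤ S * η := by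
      rwa [div_le_iff₀ hη] at hSR
    have h2 : R * (32 * D ^ 2 * 2 ^ m) ≤ R * (32 * D ^ 2 * (2 * (C' * n))) := by
      have : (0 : ℝ) ≤ R * (32 * D ^ 2) := by positivity
      nlinarith
    have h3 := mul_le_mul_of_nonneg_right h1 hnr.le
    calc R * (32 * D ^ 2 * 2 ^ m) ≤ R * (32 * D ^ 2 * (2 * (C' * n))) := h2
      _ = R * (64 * D ^ 2 * C') * n := by ring
      _ ≤ S * η * n := h3
  -- the shift and the quantile
  obtain ⟨P, hP⟩ : ∃ P : Measure (Sym2 (ZMod n × ZMod n) → ℝ≥0),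
    P = Measure.pi fun _ : Sym2 (ZMod n × ZMod n) => F := ⟨_, rfl⟩
  have hPp : IsProbabilityMeasure P := by
    rw [hP]
    infer_instance
  obtain ⟨a, ha⟩ := exists_shift n K D hK hD (by omega) Cond r b F hη hc0
    (hgood' n (by omega))
  obtain ⟨μ, hμ1, hμ2⟩ := exists_quant P (T n) (measurable_T n) (T_nonneg n) hc20 hc21
  rw [← hP] at ha ⊢
  have hEv : ENNReal.ofReal c2 ≤ P {ω | EvA n m K D Cond r b a h μ ω} := by
    have h1 : P {ω | μ < T n ω} ≤ ENNReal.ofReal c2 := by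
      have h2 : {ω | μ < T n ω} = {ω | T n ω ≤ μ}ᶜ := by
        ext ω
        rw [Set.mem_compl_iff]
        exact (not_le (a := T n ω) (b := μ)).symm
      rw [h2, prob_compl_eq_one_sub (measurableSet_le (measurable_T n) measurable_const)]
      refine (tsub_le_tsub_left hμ1 1).trans (le_of_eq ?_)
      rw [← ENNReal.ofReal_one, ← ENNReal.ofReal_sub _ (by linarith)]
      congr 1
      ring
    have h3 : ENNReal.ofReal c2 + ENNReal.ofReal c2 ≤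
        P {ω | EvA n m K D Cond r b a h μ ω} + ENNReal.ofReal c2 := by
      have e : ENNReal.ofReal c2 + ENNReal.ofReal c2 = ENNReal.ofReal (c0 * η / 32) := by
        rw [← ENNReal.ofReal_add hc20.le hc20.le, hc2]
        congr 1
        ring
      rw [e]
      refine ha.trans ?_
      refine le_trans (measure_mono ?_) ((measure_union_le _ _).trans (add_le_add_right h1 _))
      rintro ω ⟨hω1, g, hg, hgl, hgS⟩
      by_cases hT : T n ω ≤ μ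
      · left
        refine ⟨hω1, hT, g, hg, ?_, ?_⟩
        · have : (g.1.2.length : ℝ) ≤ 2 ^ m := hgl.trans hm1
          exact_mod_cast this
        · rw [hh]
          exact hgS
      · right
        exact not_le.1 hT
    exact (ENNReal.add_le_add_iff_right ENNReal.ofReal_ne_top).1 h3
  have hbc := block_core n m k K D hnm' hk hkm hc1 himp F hF0 hF1 hα hε0 hε1 hC0 hε2 hε3 a h μ hh0
    (hR5.trans hX)
  rw [← hP] at hbc
  have hY := ma_fin hp0 hC0e (measure_ne_top P _) (hEv.trans hbc)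
  have hD2 : 2 ≤ c1 * (ε * h / 2) := by
    have : c1 * R ≤ c1 * (ε * h) := mul_le_mul_of_nonneg_left hX hc1.le
    linarith
  have hfin := evariance_ge' P (T n) (measurable_T n) μ (c1 * (ε * h / 2)) hD2
    (ENNReal.ofReal p0) hY ((ENNReal.ofReal_le_ofReal hp0c).trans hμ2)
  refine le_trans ?_ hfin
  rw [← ENNReal.ofReal_mul (by positivity)]
  refine ENNReal.ofReal_le_ofReal (hRQ.trans ?_)
  refine mul_le_mul_of_nonneg_right ?_ hp00.le
  refine pow_le_pow_left₀ (by positivity) ?_ 2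
  have : c1 * R ≤ c1 * (ε * h) := mul_le_mul_of_nonneg_left hX hc1.le
  linarith

end Pool.Agent.TVR
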