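import Pool.Agent.TVR.Chain

/-!
# TVR / MeanA: the cheapest row and the cheapest column have finite mean

Choose `W ≥ 1` with `κ W ≥ 2`. Fix `n > 3 W`, `X, Y`, `P = Measure.pi fun _ => F`.
For real `z ≥ 1`: `{hmin > 3 W z} ⊆ ⋃ over functions j : Fin W → Fin (3W) of {∀ k, z < ω (e k (j k))}`, `e k j = s(proj (X + j, Y + k), proj (X + j + 1, Y + k))`: if `hmin > 3 W z`
then every row `k` has cost `> 3 W z`, hence an edge of weight `> z`. The `W` edges `e k (j k)` are different for different `k` (the second coordinates `Y + k`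
of both end points are different mod `n`, `W ≤ n`), so the probability of `{∀ k, z < ω (e k (j k))}` is `F (Ioi z) ^ W` (`Measure.pi_pi` on the box with sides `Ioi z` on the image
of the injective map and `univ` elsewhere; `Finset.prod` over the image). Union bound: `P(hmin > 3 W z) ≤ (3W)^W F(Ioi z)^W ≤ (3 W B)^W z^{-κ W} ≤ Cst z^{-2}` with `Cst = (3 W |B|)^W`.
Mean: pointwise `hmin / (3 W) ≤ 1 + ∑ k ≥ 1, 1[hmin / (3W) > k]`, so `E hmin ≤ 3 W (1 + Cst ∑ k ≥ 1, k^{-2}) < ∞` (or `lintegral_eq_lintegral_meas_lt`), a bound that depends only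
on `W, B, κ`. The same for `vmin` (columns `X + k`, `k < W`, edges `s(proj (X + k, Y + j), proj (X + k, Y + j + 1))`, `j < W`).
(Measurability of `hmin`, `vmin`: `Measurable.iInf`, finite sums of coordinates.)
-/

set_option autoImplicit false

namespace Pool.Agent.TVR

open Finset Pool.Agent.Helper46.Tor MeasureTheory
open scoped NNReal ENNReal

namespace MeanAPriv

theorem measurable_H {E : Type} {W L : ℕ} (e : Fin W → ℕ → E) :
    Measurable fun ω : E → ℝ≥0 => ⨅ k : Fin W, ∑ j ∈ range L, ω (e k j) :=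
  Measurable.iInf fun k => Finset.measurable_sum _ fun j _ => measurable_pi_apply (e k j)

theorem measure_box {E : Type} [Fintype E] (F : Measure ℝ≥0) [IsProbabilityMeasure F] {W : ℕ}
    (g : Fin W → E) (hg : Function.Injective g) (A : Set ℝ≥0) :
    (Measure.pi fun _ : E => F) {ω | ∀ k, ω (g k) ∈ A} = F A ^ W := by
  classical
  have h1 : {ω : E → ℝ≥0 | ∀ k, ω (g k) ∈ A} =
      Set.pi Set.univ (fun i => if i ∈ Finset.univ.image g then A else Set.univ) := by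
    ext ω
    simp only [Set.mem_ofPred_eq, Set.mem_pi, Set.mem_univ, true_imp_iff]
    constructor
    · intro h i
      split_ifs with hi
      · obtain ⟨k, -, rfl⟩ := Finset.mem_image.1 hi
        exact h k
      · exact Set.mem_univ _
    · intro h k
      have := h (g k)
      rwa [if_pos (Finset.mem_image_of_mem g (Finset.mem_univ k))] at this
  rw [h1, Measure.pi_pi]
  have h2 : ∀ i : E, F (if i ∈ Finset.univ.image g then A else Set.univ)
      = if i ∈ Finset.univ.image g then F A else 1 := by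
    intro i
    split_ifs
    · rfl
    · exact measure_univ
  simp_rw [h2]
  rw [Finset.prod_ite_mem, Finset.univ_inter, Finset.prod_const,
    Finset.card_image_of_injective _ hg, Finset.card_univ, Fintype.card_fin]

theorem tail {E : Type} [Fintype E] (F : Measure ℝ≥0) [IsProbabilityMeasure F] {W L : ℕ}
    (e : Fin W → ℕ → E)
    (he : ∀ k k' j j', e k j = e k' j' → k = k') (z : ℝ) :
    (Measure.pi fun _ : E => F)
      {ω | (L : ℝ) * z < ((⨅ k : Fin W, ∑ j ∈ range L, ω (e k j) : ℝ≥0) : ℝ)}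
      ≤ (L : ℝ≥0∞) ^ W * F {x | z < (x : ℝ)} ^ W := by
  have hsub : {ω : E → ℝ≥0 | (L : ℝ) * z < ((⨅ k : Fin W, ∑ j ∈ range L, ω (e k j) : ℝ≥0) : ℝ)} ⊆
      ⋃ f : Fin W → Fin L, {ω | ∀ k, ω (e k (f k : ℕ)) ∈ {x : ℝ≥0 | z < (x : ℝ)}} := by
    intro ω hω
    have h1 : ∀ k : Fin W, ∃ j : Fin L, z < (ω (e k (j : ℕ)) : ℝ) := by
      intro k
      by_contra hcon
      push Not at hcon
      have h2 : (⨅ k : Fin W, ∑ j ∈ range L, ω (e k j)) ≤ ∑ j ∈ range L, ω (e k j) :=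
        ciInf_le (Set.finite_range _).bddBelow k
      have h3 : ((∑ j ∈ range L, ω (e k j) : ℝ≥0) : ℝ) ≤ L * z := by
        rw [NNReal.coe_sum]
        calc ∑ j ∈ range L, ((ω (e k j) : ℝ≥0) : ℝ) ≤ ∑ _j ∈ range L, z :=
              Finset.sum_le_sum fun j hj => hcon ⟨j, Finset.mem_range.1 hj⟩
          _ = L * z := by rw [Finset.sum_const, Finset.card_range, nsmul_eq_mul]
      have h4 : ((⨅ k : Fin W, ∑ j ∈ range L, ω (e k j) : ℝ≥0) : ℝ) ≤ L * z :=
        (NNReal.coe_le_coe.2 h2).trans h3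
      exact absurd hω (not_lt.2 h4)
    choose f hf using h1
    rw [Set.mem_iUnion]
    exact ⟨f, fun k => hf k⟩
  refine (measure_mono hsub).trans ?_
  refine (measure_iUnion_fintype_le _ _).trans ?_
  have h5 : ∀ f : Fin W → Fin L, (Measure.pi fun _ : E => F)
      {ω | ∀ k, ω (e k (f k : ℕ)) ∈ {x : ℝ≥0 | z < (x : ℝ)}} = F {x | z < (x : ℝ)} ^ W := by
    intro f
    exact measure_box F (fun k => e k (f k : ℕ)) (fun k k' h => he _ _ _ _ h) _
  simp_rw [h5]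
  rw [Finset.sum_const, Finset.card_univ, nsmul_eq_mul, Fintype.card_fun, Fintype.card_fin,
    Fintype.card_fin]
  push_cast
  exact le_rfl

theorem pointwise (L : ℕ) (hL : 0 < L) (x : ℝ≥0) :
    (x : ℝ≥0∞) ≤ L + L * ∑' k : ℕ, (if (L : ℝ) * (k + 1 : ℕ) < (x : ℝ) then (1 : ℝ≥0∞) else 0) := by
  set m := ⌈(x : ℝ) / L⌉₊ with hm
  have hL' : (0 : ℝ) < L := by exact_mod_cast hL
  have h1 : (x : ℝ) ≤ L * m := by
    have := Nat.le_ceil ((x : ℝ) / L)
    rw [div_le_iff₀ hL'] at this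
    rw [mul_comm]; exact this
  have h2 : ((m - 1 : ℕ) : ℝ≥0∞) ≤
      ∑' k : ℕ, (if (L : ℝ) * (k + 1 : ℕ) < (x : ℝ) then (1 : ℝ≥0∞) else 0) := by
    calc ((m - 1 : ℕ) : ℝ≥0∞) = ∑ k ∈ range (m - 1), (1 : ℝ≥0∞) := by simp
      _ = ∑ k ∈ range (m - 1), (if (L : ℝ) * (k + 1 : ℕ) < (x : ℝ) then (1 : ℝ≥0∞) else 0) := by
          apply Finset.sum_congr rfl
          intro k hk
          rw [if_pos]
          have hk' : k + 1 < m := by
            have := Finset.mem_range.1 hk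
            omega
          have h3 := (Nat.lt_ceil (a := (x : ℝ) / L) (n := k + 1)).1 hk'
          rw [lt_div_iff₀ hL'] at h3
          rw [mul_comm]; exact h3
      _ ≤ _ := ENNReal.sum_le_tsum _
  calc (x : ℝ≥0∞) ≤ ((L * m : ℕ) : ℝ≥0∞) := by
        have h4 : x ≤ ((L * m : ℕ) : ℝ≥0) := by
          rw [← NNReal.coe_le_coe]
          push_cast
          exact h1
        exact_mod_cast h4
    _ ≤ ((L + L * (m - 1) : ℕ) : ℝ≥0∞) := by
        have h5 : L * m ≤ L + L * (m - 1) := by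
          rcases Nat.eq_zero_or_pos m with h | h
          · rw [h]; simp
          · obtain ⟨q, hq⟩ : ∃ q, m = q + 1 := ⟨m - 1, by omega⟩
            rw [hq]
            simp only [Nat.add_sub_cancel]
            ring_nf
            exact le_rfl
        exact_mod_cast h5
    _ = (L : ℝ≥0∞) + L * ((m - 1 : ℕ) : ℝ≥0∞) := by push_cast; rfl
    _ ≤ _ := by gcongr

theorem mean (F : Measure ℝ≥0) [IsProbabilityMeasure F] {B κ : ℝ}
    (hB : ∀ z : ℝ, 1 ≤ z → F {x | z < (x : ℝ)} ≤ ENNReal.ofReal (B * z ^ (-κ)))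
    (W L : ℕ) (hL : 0 < L) (hκW : 2 ≤ κ * W) :
    ∃ m0 : ℝ≥0, ∀ (E : Type) [Fintype E] (e : Fin W → ℕ → E),
      (∀ k k' j j', e k j = e k' j' → k = k') →
      ∫⁻ ω, ((⨅ k : Fin W, ∑ j ∈ range L, ω (e k j) : ℝ≥0) : ℝ≥0∞) ∂(Measure.pi fun _ : E => F)
        ≤ m0 := by
  set C : ℝ := (L * |B|) ^ W with hC
  have hC0 : 0 ≤ C := by positivity
  set S : ℝ≥0∞ := ∑' k : ℕ, ENNReal.ofReal (C * (1 / ((k : ℝ) + 1) ^ 2)) with hS
  have hStop : S ≠ ⊤ := by
    have hsum : Summable fun k : ℕ => C * (1 / ((k : ℝ) + 1) ^ 2) := by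
      apply Summable.mul_left
      have h1 : Summable fun k : ℕ => 1 / ((k : ℝ)) ^ 2 := Real.summable_one_div_nat_pow.2 (by norm_num)
      have h2 := (summable_nat_add_iff 1).2 h1
      simpa using h2
    rw [hS, ← ENNReal.ofReal_tsum_of_nonneg (fun k => by positivity) hsum]
    exact ENNReal.ofReal_ne_top
  have htop : (L : ℝ≥0∞) + L * S ≠ ⊤ := by
    apply ENNReal.add_ne_top.2 ⟨ENNReal.natCast_ne_top L, ENNReal.mul_ne_top (ENNReal.natCast_ne_top L) hStop⟩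
  refine ⟨((L : ℝ≥0∞) + L * S).toNNReal, ?_⟩
  intro E _ e he
  rw [ENNReal.coe_toNNReal htop]
  set P := Measure.pi fun _ : E => F with hP
  set H : (E → ℝ≥0) → ℝ≥0 := fun ω => ⨅ k : Fin W, ∑ j ∈ range L, ω (e k j) with hH
  have hHm : Measurable H := measurable_H e
  have hset : ∀ k : ℕ, MeasurableSet {ω : E → ℝ≥0 | (L : ℝ) * (k + 1 : ℕ) < (H ω : ℝ)} := by
    intro k
    exact measurableSet_lt measurable_const hHm.coe_nnreal_real
  have hind : ∀ k : ℕ, Measurable fun ω : E → ℝ≥0 =>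
      (if (L : ℝ) * (k + 1 : ℕ) < (H ω : ℝ) then (1 : ℝ≥0∞) else 0) := by
    intro k
    exact Measurable.ite (hset k) measurable_const measurable_const
  have hterm : ∀ k : ℕ, ∫⁻ ω, (if (L : ℝ) * (k + 1 : ℕ) < (H ω : ℝ) then (1 : ℝ≥0∞) else 0) ∂P
      ≤ ENNReal.ofReal (C * (1 / ((k : ℝ) + 1) ^ 2)) := by
    intro k
    have h1 : ∫⁻ ω, (if (L : ℝ) * (k + 1 : ℕ) < (H ω : ℝ) then (1 : ℝ≥0∞) else 0) ∂P
        = P {ω : E → ℝ≥0 | (L : ℝ) * (k + 1 : ℕ) < (H ω : ℝ)} := by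
      rw [← lintegral_indicator_one (hset k)]
      apply lintegral_congr
      intro ω
      simp only [Set.indicator_apply, Set.mem_ofPred_eq, Pi.one_apply]
    rw [h1]
    set z : ℝ := ((k + 1 : ℕ) : ℝ) with hz
    have hz1 : 1 ≤ z := by
      rw [hz]; push_cast
      have : (0 : ℝ) ≤ k := Nat.cast_nonneg k
      linarith
    have hz0 : 0 < z := by linarith
    refine (tail F e he z).trans ?_
    have h2 : F {x | z < (x : ℝ)} ≤ ENNReal.ofReal (|B| * z ^ (-κ)) :=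
      (hB z hz1).trans (ENNReal.ofReal_le_ofReal
        (mul_le_mul_of_nonneg_right (le_abs_self B) (Real.rpow_nonneg hz0.le _)))
    have h3 : (L : ℝ≥0∞) ^ W * F {x | z < (x : ℝ)} ^ W ≤
        ENNReal.ofReal ((L * (|B| * z ^ (-κ))) ^ W) := by
      rw [← mul_pow, ENNReal.ofReal_pow (by positivity), ENNReal.ofReal_mul (Nat.cast_nonneg L),
        ENNReal.ofReal_natCast]
      gcongr
    refine h3.trans (ENNReal.ofReal_le_ofReal ?_)
    have h4 : (z ^ (-κ)) ^ W ≤ 1 / ((k : ℝ) + 1) ^ 2 := by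
      have h5 : (z ^ (-κ)) ^ W = z ^ (-κ * W) := by
        rw [Real.rpow_mul hz0.le, Real.rpow_natCast]
      have h6 : z ^ (-κ * W) ≤ z ^ (-2 : ℝ) :=
        Real.rpow_le_rpow_of_exponent_le hz1 (by linarith)
      have h7 : z ^ (-2 : ℝ) = 1 / ((k : ℝ) + 1) ^ 2 := by
        rw [Real.rpow_neg hz0.le, hz]
        push_cast
        norm_num
      rw [h5, ← h7]
      exact h6
    calc (L * (|B| * z ^ (-κ))) ^ W = C * (z ^ (-κ)) ^ W := by
          rw [hC, ← mul_pow]; ring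
      _ ≤ C * (1 / ((k : ℝ) + 1) ^ 2) := mul_le_mul_of_nonneg_left h4 hC0
  calc ∫⁻ ω, ((H ω : ℝ≥0) : ℝ≥0∞) ∂P
      ≤ ∫⁻ ω, ((L : ℝ≥0∞) + L * ∑' k : ℕ,
          (if (L : ℝ) * (k + 1 : ℕ) < (H ω : ℝ) then (1 : ℝ≥0∞) else 0)) ∂P :=
        lintegral_mono fun ω => pointwise L hL (H ω)
    _ = (L : ℝ≥0∞) + L * ∑' k : ℕ, ∫⁻ ω,
          (if (L : ℝ) * (k + 1 : ℕ) < (H ω : ℝ) then (1 : ℝ≥0∞) else 0) ∂P := by
        rw [lintegral_add_left measurable_const, lintegral_const, measure_univ, mul_one,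
          lintegral_const_mul _ (Measurable.tsum hind),
          lintegral_tsum fun k => (hind k).aemeasurable]
    _ ≤ (L : ℝ≥0∞) + L * S := by
        gcongr
        exact ENNReal.tsum_le_tsum hterm

theorem cast_inj {n W : ℕ} (hW : W ≤ n) (Y : ℤ) {k k' : Fin W}
    (h : ((Y + (k : ℕ) : ℤ) : ZMod n) = ((Y + (k' : ℕ) : ℤ) : ZMod n)) : k = k' := by
  push_cast at h
  have h1 := add_left_cancel h
  rw [ZMod.natCast_eq_natCast_iff'] at h1
  rw [Nat.mod_eq_of_lt (lt_of_lt_of_le k.2 hW), Nat.mod_eq_of_lt (lt_of_lt_of_le k'.2 hW)] at h1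
  exact Fin.ext h1

end MeanAPriv

theorem measurable_hmin (n W : ℕ) (X Y : ℤ) :
    Measurable fun ω : Sym2 (ZMod n × ZMod n) → ℝ≥0 => hmin n W ω X Y := by
  unfold hmin hc
  exact Measurable.iInf fun k => Finset.measurable_sum _ fun j _ => measurable_pi_apply _

theorem measurable_vmin (n W : ℕ) (X Y : ℤ) :
    Measurable fun ω : Sym2 (ZMod n × ZMod n) → ℝ≥0 => vmin n W ω X Y := by
  unfold vmin vc
  exact Measurable.iInf fun k => Finset.measurable_sum _ fun j _ => measurable_pi_apply _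

theorem exists_mean (F : Measure ℝ≥0) [IsProbabilityMeasure F] {B κ : ℝ} (hκ : 0 < κ)
    (hB : ∀ z : ℝ, 1 ≤ z → F {x | z < (x : ℝ)} ≤ ENNReal.ofReal (B * z ^ (-κ))) :
    ∃ W : ℕ, 0 < W ∧ ∃ m0 : ℝ≥0, ∀ (n : ℕ) [NeZero n], 3 * W < n → ∀ X Y : ℤ,
      ∫⁻ ω, (hmin n W ω X Y : ℝ≥0∞) ∂(Measure.pi fun _ : Sym2 (ZMod n × ZMod n) => F) ≤ m0 ∧
      ∫⁻ ω, (vmin n W ω X Y : ℝ≥0∞) ∂(Measure.pi fun _ : Sym2 (ZMod n × ZMod n) => F) ≤ m0 := by
  set W : ℕ := ⌈2 / κ⌉₊ + 1 with hW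
  have hW0 : 0 < W := Nat.succ_pos _
  have hκW : 2 ≤ κ * W := by
    have h1 : 2 / κ ≤ (W : ℝ) := by
      rw [hW]; push_cast
      have := Nat.le_ceil (2 / κ)
      linarith
    rw [div_le_iff₀ hκ] at h1
    linarith
  obtain ⟨m1, hm1⟩ := MeanAPriv.mean F hB W (3 * W) (by omega) hκW
  obtain ⟨m2, hm2⟩ := MeanAPriv.mean F hB W W hW0 hκW
  refine ⟨W, hW0, max m1 m2, fun n _ hn X Y => ⟨?_, ?_⟩⟩
  · refine (hm1 (Sym2 (ZMod n × ZMod n)) (fun k j =>
      s(proj n (X + j, Y + (k : ℕ)), proj n (X + j + 1, Y + (k : ℕ)))) ?_).trans ?_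
    · intro k k' j j' h
      rw [Sym2.eq_iff] at h
      rcases h with ⟨h1, -⟩ | ⟨h1, -⟩
      · exact MeanAPriv.cast_inj (by omega) Y (congrArg Prod.snd h1)
      · exact MeanAPriv.cast_inj (by omega) Y (congrArg Prod.snd h1)
    · exact_mod_cast le_max_left m1 m2
  · refine (hm2 (Sym2 (ZMod n × ZMod n)) (fun k j =>
      s(proj n (X + (k : ℕ), Y + j), proj n (X + (k : ℕ), Y + j + 1))) ?_).trans ?_
    · intro k k' j j' h
      rw [Sym2.eq_iff] at h
      rcases h with ⟨h1, -⟩ | ⟨h1, -⟩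
      · exact MeanAPriv.cast_inj (by omega) X (congrArg Prod.fst h1)
      · exact MeanAPriv.cast_inj (by omega) X (congrArg Prod.fst h1)
    · exact_mod_cast le_max_right m1 m2

end Pool.Agent.TVR
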