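import Pool.Agent.TVR.DPath

/-!
# TVR / Opp: opportunities (one defect edge, a wall and an open triangle behind it)

`Opp r K0 τ R η`: the east edge at `R` on level `0` is a defect (weight in `(r, K0]`), the east edges at `R`
on the levels `1, ..., τ-1` are closed (weight `> r`), and all edges of the triangle with vertices
`(i, x)`, `1 ≤ i ≤ τ`, `R + 1 ≤ x ≤ R + i`, are open (weight `≤ r`).

* `opp_prob`: the event is a box: `s = {(0,R,true)} ∪ {(i,R,true) : 1 ≤ i < τ} ∪
  {(i,x,d) : 1 ≤ i < τ, R+1 ≤ x ≤ R+i}` (a `Finset` of `OE`), `iid_box`; the three parts are disjoint, the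
  last one has `∑_{i<τ} 2 i = τ (τ-1)` elements.
* `opp_reach`: by induction on `t ≤ τ`, all points of `reach (Iic r) η W t` are `≤ R`: a point `R + 1` could only come from
  `R` through the east edge at `R`, which has weight `> r` on the levels `< τ`.
* `opp_path`: the path: east edge at `R`, then in the triangle `τ - 1` steps, `y - (R+1)` of them east (first
  all east steps, then all north steps): word `true :: (replicate (y-R-1) true ++ replicate (τ-1-(y-R-1)) false)`.
  Its cost is at most `K0 + r (τ-1) ≤ K0 + r τ`.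
* `blk`, `run`, `used`: `run_path` by induction on `ℓ` with `W` and `η` general: a point of
  `run η W (ℓ+1) = run (sh τ η) (blk η W) ℓ` comes from a point `y` of `blk η W`; either `y ∈ reach ..`
  (`mem_reach_iff`, cost `≤ r τ`) or `Hit` holds and `opp_path` (cost `≤ r τ + K0`). Use `costD_append`, `costD_sh`.
* `bddAbove_blk`, `run_le`: each block increases the maximum by at most `τ`.
-/

set_option autoImplicit false

namespace Pool.Agent.TVR

open MeasureTheory Set
open scoped NNReal ENNReal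

/-- an opportunity at the point `R` of level `0` -/
def Opp (r K0 : ℝ≥0) (τ : ℕ) (R : ℤ) (η : Env) : Prop :=
  η (0, R, true) ∈ Ioc r K0 ∧ (∀ i : ℕ, 1 ≤ i → i < τ → r < η (i, R, true)) ∧
  (∀ i : ℕ, 1 ≤ i → i < τ → ∀ x : ℤ, R + 1 ≤ x → x ≤ R + i → ∀ d : Bool, η (i, x, d) ≤ r)

/-- the probability of an opportunity -/
noncomputable def kap (F : Measure ℝ≥0) (r K0 : ℝ≥0) (τ : ℕ) : ℝ≥0∞ :=
  F (Ioc r K0) * F (Ioi r) ^ (τ - 1) * F (Iic r) ^ (τ * (τ - 1))

/-- the rightmost point of `W` has an opportunity -/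
def Hit (r K0 : ℝ≥0) (τ : ℕ) (η : Env) (W : Set ℤ) : Prop :=
  ∃ R, IsGreatest W R ∧ Opp r K0 τ R η

/-- the points reached after one block of `τ` levels, when an opportunity at the rightmost point is used -/
def blk (r K0 : ℝ≥0) (τ : ℕ) (η : Env) (W : Set ℤ) : Set ℤ :=
  reach (Iic r) η W τ ∪ {y | ∃ R, IsGreatest W R ∧ Opp r K0 τ R η ∧ R + 1 ≤ y ∧ y ≤ R + τ}

/-- `j` blocks -/
def run (r K0 : ℝ≥0) (τ : ℕ) : Env → Set ℤ → ℕ → Set ℤ
  | _, W, 0 => W
  | η, W, j + 1 => run r K0 τ (sh τ η) (blk r K0 τ η W) j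

open Classical in
/-- the number of opportunities used in `j` blocks -/
noncomputable def used (r K0 : ℝ≥0) (τ : ℕ) : Env → Set ℤ → ℕ → ℕ
  | _, _, 0 => 0
  | η, W, j + 1 => (if Hit r K0 τ η W then 1 else 0) + used r K0 τ (sh τ η) (blk r K0 τ η W) j

variable {F : Measure ℝ≥0} [IsProbabilityMeasure F] {r K0 : ℝ≥0} {τ : ℕ} {η : Env} {W : Set ℤ}

/-! ### the box of an opportunity -/

private noncomputable def oppRow (R : ℤ) (i : ℕ) : Finset OE :=
  ((Finset.Icc (R + 1) (R + i)) ×ˢ (Finset.univ : Finset Bool)).image (fun p => ((i, p) : OE))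

private noncomputable def oppS (τ : ℕ) (R : ℤ) : Finset OE :=
  insert (0, R, true) ((Finset.Ico 1 τ).image (fun i : ℕ => ((i, R, true) : OE)) ∪
    (Finset.range τ).biUnion (oppRow R))

private def oppT (r K0 : ℝ≥0) (R : ℤ) (q : OE) : Set ℝ≥0 :=
  if q.2.1 = R then (if q.1 = 0 then Ioc r K0 else Ioi r) else Iic r

private theorem mem_oppRow {R : ℤ} {i : ℕ} {q : OE} :
    q ∈ oppRow R i ↔ ∃ x : ℤ, ∃ d : Bool, (R + 1 ≤ x ∧ x ≤ R + i) ∧ (i, x, d) = q := by
  unfold oppRow
  rw [Finset.mem_image]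
  constructor
  · rintro ⟨⟨x, d⟩, hp, rfl⟩
    rw [Finset.mem_product, Finset.mem_Icc] at hp
    exact ⟨x, d, hp.1, rfl⟩
  · rintro ⟨x, d, hx, rfl⟩
    refine ⟨(x, d), ?_, rfl⟩
    rw [Finset.mem_product, Finset.mem_Icc]
    exact ⟨hx, Finset.mem_univ _⟩

private theorem opp_iff (R : ℤ) : Opp r K0 τ R η ↔ ∀ q ∈ oppS τ R, η q ∈ oppT r K0 R q := by
  constructor
  · rintro ⟨h0, h1, h2⟩ q hq
    unfold oppS at hq
    rw [Finset.mem_insert, Finset.mem_union, Finset.mem_image, Finset.mem_biUnion] at hq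
    rcases hq with rfl | ⟨i, hi, rfl⟩ | ⟨i, hi, hq⟩
    · unfold oppT
      rw [if_pos rfl, if_pos rfl]
      exact h0
    · rw [Finset.mem_Ico] at hi
      unfold oppT
      rw [if_pos rfl, if_neg (by dsimp only; omega)]
      exact h1 i hi.1 hi.2
    · rw [mem_oppRow] at hq
      obtain ⟨x, d, hx, rfl⟩ := hq
      rw [Finset.mem_range] at hi
      unfold oppT
      rw [if_neg (by dsimp only; omega)]
      exact h2 i (by omega) hi x hx.1 hx.2 d
  · intro h
    refine ⟨?_, ?_, ?_⟩
    · have h1 := h (0, R, true) (Finset.mem_insert_self _ _)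
      unfold oppT at h1
      rw [if_pos rfl, if_pos rfl] at h1
      exact h1
    · intro i hi1 hi2
      have h1 := h (i, R, true) (by
        unfold oppS
        rw [Finset.mem_insert, Finset.mem_union, Finset.mem_image]
        exact Or.inr (Or.inl ⟨i, Finset.mem_Ico.2 ⟨hi1, hi2⟩, rfl⟩))
      unfold oppT at h1
      rw [if_pos rfl, if_neg (by dsimp only; omega)] at h1
      exact h1
    · intro i hi1 hi2 x hx1 hx2 d
      have h1 := h (i, x, d) (by
        unfold oppS
        rw [Finset.mem_insert, Finset.mem_union, Finset.mem_biUnion]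
        exact Or.inr (Or.inr ⟨i, Finset.mem_range.2 hi2, mem_oppRow.2 ⟨x, d, ⟨hx1, hx2⟩, rfl⟩⟩))
      unfold oppT at h1
      rw [if_neg (by dsimp only; omega)] at h1
      exact h1

private theorem oppT_meas (R : ℤ) (q : OE) : MeasurableSet (oppT r K0 R q) := by
  unfold oppT
  split_ifs
  · exact measurableSet_Ioc
  · exact measurableSet_Ioi
  · exact measurableSet_Iic

private theorem opp_set (R : ℤ) : {η : Env | Opp r K0 τ R η} = Set.pi (oppS τ R) (oppT r K0 R) := by
  ext η
  rw [Set.mem_pi]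
  exact opp_iff R

theorem measurableSet_Opp (R : ℤ) : MeasurableSet {η : Env | Opp r K0 τ R η} := by
  rw [opp_set]
  exact MeasurableSet.pi (Finset.countable_toSet _) fun q _ => oppT_meas R q

private theorem card_oppRow (R : ℤ) (i : ℕ) : (oppRow R i).card = i * 2 := by
  unfold oppRow
  rw [Finset.card_image_of_injective _ (Prod.mk_right_injective i), Finset.card_product, Int.card_Icc]
  simp

theorem opp_prob (R : ℤ) : iid OE F {η | Opp r K0 τ R η} = kap F r K0 τ := by
  rw [opp_set, iid_box _ _ fun q _ => oppT_meas R q]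
  unfold oppS kap
  have hd1 : Disjoint ((Finset.Ico 1 τ).image (fun i : ℕ => ((i, R, true) : OE)))
      ((Finset.range τ).biUnion (oppRow R)) := by
    rw [Finset.disjoint_left]
    intro q hq hq'
    rw [Finset.mem_image] at hq
    rw [Finset.mem_biUnion] at hq'
    obtain ⟨i, -, rfl⟩ := hq
    obtain ⟨i', -, hq'⟩ := hq'
    rw [mem_oppRow] at hq'
    obtain ⟨x, d, hx, he⟩ := hq'
    have h1 : x = R := congrArg (fun q : OE => q.2.1) he
    omega
  have hn : ((0, R, true) : OE) ∉ (Finset.Ico 1 τ).image (fun i : ℕ => ((i, R, true) : OE)) ∪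
      (Finset.range τ).biUnion (oppRow R) := by
    rw [Finset.mem_union, Finset.mem_image, Finset.mem_biUnion]
    rintro (⟨i, hi, he⟩ | ⟨i, -, hq⟩)
    · rw [Finset.mem_Ico] at hi
      have h1 : i = 0 := congrArg (fun q : OE => q.1) he
      omega
    · rw [mem_oppRow] at hq
      obtain ⟨x, d, hx, he⟩ := hq
      have h1 : x = R := congrArg (fun q : OE => q.2.1) he
      omega
  have hd2 : ((Finset.range τ : Finset ℕ) : Set ℕ).PairwiseDisjoint (oppRow R) := by
    intro i _ i' _ hne
    change Disjoint (oppRow R i) (oppRow R i')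
    rw [Finset.disjoint_left]
    intro q hq hq'
    rw [mem_oppRow] at hq hq'
    obtain ⟨x, d, -, rfl⟩ := hq
    obtain ⟨x', d', -, he⟩ := hq'
    exact hne (congrArg (fun q : OE => q.1) he).symm
  rw [Finset.prod_insert hn, Finset.prod_union hd1, Finset.prod_biUnion hd2, Finset.prod_image
    (fun i _ i' _ he => congrArg (fun q : OE => q.1) he)]
  have e0 : F (oppT r K0 R (0, R, true)) = F (Ioc r K0) := by
    unfold oppT
    rw [if_pos rfl, if_pos rfl]
  have e1 : ∏ i ∈ Finset.Ico 1 τ, F (oppT r K0 R (i, R, true)) = F (Ioi r) ^ (τ - 1) := by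
    have e : ∀ i ∈ Finset.Ico 1 τ, F (oppT r K0 R (i, R, true)) = F (Ioi r) := by
      intro i hi
      rw [Finset.mem_Ico] at hi
      unfold oppT
      rw [if_pos rfl, if_neg (by dsimp only; omega)]
    rw [Finset.prod_congr rfl e, Finset.prod_const, Nat.card_Ico]
  have e2 : ∏ i ∈ Finset.range τ, ∏ q ∈ oppRow R i, F (oppT r K0 R q) = F (Iic r) ^ (τ * (τ - 1)) := by
    have e : ∀ i ∈ Finset.range τ, ∏ q ∈ oppRow R i, F (oppT r K0 R q) = F (Iic r) ^ (i * 2) := by
      intro i _
      have e' : ∀ q ∈ oppRow R i, F (oppT r K0 R q) = F (Iic r) := by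
        intro q hq
        rw [mem_oppRow] at hq
        obtain ⟨x, d, hx, rfl⟩ := hq
        unfold oppT
        rw [if_neg (by dsimp only; omega)]
      rw [Finset.prod_congr rfl e', Finset.prod_const, card_oppRow]
    rw [Finset.prod_congr rfl e, Finset.prod_pow_eq_pow_sum, ← Finset.sum_mul, Finset.sum_range_id_mul_two]
  rw [e0, e1, e2, mul_assoc]

theorem opp_congr {η' : Env} (R : ℤ) (h : ∀ q : OE, q.1 < τ → η q = η' q) (hτ : 0 < τ) :
    Opp r K0 τ R η ↔ Opp r K0 τ R η' := by
  unfold Opp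
  rw [h (0, R, true) hτ]
  refine and_congr Iff.rfl (and_congr ?_ ?_)
  · refine forall_congr' fun i => forall_congr' fun _ => forall_congr' fun hi => ?_
    rw [h (i, R, true) hi]
  · refine forall_congr' fun i => forall_congr' fun _ => forall_congr' fun hi => forall_congr' fun x =>
      forall_congr' fun _ => forall_congr' fun _ => forall_congr' fun d => ?_
    rw [h (i, x, d) hi]

theorem opp_reach {R : ℤ} (h : Opp r K0 τ R η) (hW : ∀ y ∈ W, y ≤ R) :
    ∀ y ∈ reach (Iic r) η W τ, y ≤ R := by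
  have key : ∀ t ≤ τ, ∀ y ∈ reach (Iic r) η W t, y ≤ R := by
    intro t
    induction t with
    | zero => exact fun _ => hW
    | succ t ih =>
      intro ht y hy
      have hy' : (y ∈ reach (Iic r) η W t ∧ η (t, y, false) ∈ Iic r) ∨
        (y - 1 ∈ reach (Iic r) η W t ∧ η (t, y - 1, true) ∈ Iic r) := hy
      rcases hy' with ⟨h1, -⟩ | ⟨h1, h2⟩
      · exact ih (by omega) y h1
      · have h3 := ih (by omega) _ h1
        by_contra h4
        have h5 : y - 1 = R := by omega
        rw [h5] at h2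
        have h6 : η (t, R, true) ≤ r := h2
        rcases Nat.eq_zero_or_pos t with rfl | h7
        · exact absurd h6 (not_le.2 h.1.1)
        · exact absurd h6 (not_le.2 (h.2.1 t h7 (by omega)))
  exact key τ le_rfl

private theorem opp_allD {R : ℤ} (h : Opp r K0 τ R η) (d : List Bool) : ∀ (i : ℕ) (x : ℤ), 1 ≤ i →
    i + d.length ≤ τ → R + 1 ≤ x → x ≤ R + i → allD (Iic r) η i x d := by
  induction d with
  | nil =>
    intro i x _ _ _ _
    trivial
  | cons c d ih =>
    intro i x hi hl h1 h2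
    rw [List.length_cons] at hl
    refine ⟨h.2.2 i hi (by omega) x h1 h2 c, ih _ _ (by omega) (by omega) ?_ ?_⟩
    · split_ifs <;> omega
    · split_ifs <;> push_cast <;> omega

theorem opp_path {R : ℤ} (hτ : 0 < τ) (h : Opp r K0 τ R η) (y : ℤ) (h1 : R + 1 ≤ y)
    (h2 : y ≤ R + τ) :
    ∃ d : List Bool, d.length = τ ∧ y = R + (d.count true : ℤ) ∧ costD η 0 R d ≤ r * τ + K0 := by
  obtain ⟨a, ha⟩ : ∃ a : ℕ, y = R + 1 + a := ⟨(y - R - 1).toNat, by omega⟩
  obtain ⟨b, hb⟩ : ∃ b : ℕ, τ = 1 + a + b := ⟨τ - 1 - a, by omega⟩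
  obtain ⟨e, he⟩ : ∃ e : List Bool, e = List.replicate a true ++ List.replicate b false := ⟨_, rfl⟩
  have hel : e.length = a + b := by
    rw [he, List.length_append, List.length_replicate, List.length_replicate]
  have hec : e.count true = a := by
    rw [he, List.count_append, List.count_replicate, List.count_replicate]
    simp
  refine ⟨true :: e, ?_, ?_, ?_⟩
  · rw [List.length_cons, hel]
    omega
  · rw [List.count_cons_self, hec]
    push_cast
    omega
  · change (η (0, R, true) : ℝ) + costD η (0 + 1) (R + if true then 1 else 0) e ≤ r * τ + K0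
    have h3 : allD (Iic r) η (0 + 1) (R + if true then 1 else 0) e :=
      opp_allD h e _ _ (by omega) (by omega) (by simp) (by simp)
    have h4 := costD_le_of_allD _ _ _ h3
    have h5 : (η (0, R, true) : ℝ) ≤ K0 := by exact_mod_cast h.1.2
    have h6 : (r : ℝ) * e.length ≤ r * τ := by
      refine mul_le_mul_of_nonneg_left ?_ r.2
      have : e.length ≤ τ := by omega
      exact_mod_cast this
    linarith

/-- if the rightmost point has an opportunity then the block reaches `R + 1, ..., R + τ` and nothing between -/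
theorem blk_le {R : ℤ} (hW : ∀ y ∈ W, y ≤ R) : ∀ y ∈ blk r K0 τ η W, y ≤ R + τ := by
  rintro y (hy | ⟨R', hR', -, -, h2⟩)
  · exact reach_le hW τ y hy
  · have := hW R' hR'.1
    omega

theorem run_le {R : ℤ} (hW : ∀ y ∈ W, y ≤ R) (j : ℕ) :
    ∀ y ∈ run r K0 τ η W j, y ≤ R + (j * τ : ℕ) := by
  induction j generalizing η W R with
  | zero =>
    intro y hy
    have := hW y hy
    simpa using this
  | succ j ih =>
    intro y hy
    have h1 := ih (η := sh τ η) (blk_le (r := r) (K0 := K0) (τ := τ) (η := η) hW) y hy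
    rw [Nat.succ_mul]
    push_cast at h1 ⊢
    linarith

theorem run_path (hτ : 0 < τ) (j : ℕ) (y : ℤ) (hy : y ∈ run r K0 τ η W j) :
    ∃ x ∈ W, ∃ d : List Bool, d.length = j * τ ∧ y = x + (d.count true : ℤ) ∧
      costD η 0 x d ≤ r * (j * τ : ℕ) + K0 * used r K0 τ η W j := by
  induction j generalizing η W with
  | zero =>
    refine ⟨y, hy, [], by simp, by simp, ?_⟩
    have e : used r K0 τ η W 0 = 0 := by
      rw [used]
    rw [e]
    simp [costD]
  | succ j ih =>
    obtain ⟨x', hx', d', hl', hc', hd'⟩ := ih (η := sh τ η) (W := blk r K0 τ η W) hy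
    have eu : used r K0 τ η W (j + 1) =
      (open Classical in if Hit r K0 τ η W then 1 else 0) + used r K0 τ (sh τ η) (blk r K0 τ η W) j := by
      rw [used]
    rw [costD_sh, Nat.zero_add] at hd'
    have hfin : ∀ x ∈ W, ∀ d0 : List Bool, ∀ n : ℕ, d0.length = τ → x' = x + (d0.count true : ℤ) →
        costD η 0 x d0 ≤ r * τ + K0 * n →
        n ≤ (open Classical in if Hit r K0 τ η W then 1 else 0) →
        ∃ x ∈ W, ∃ d : List Bool, d.length = (j + 1) * τ ∧ y = x + (d.count true : ℤ) ∧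
          costD η 0 x d ≤ r * ((j + 1) * τ : ℕ) + K0 * used r K0 τ η W (j + 1) := by
      intro x hx d0 n hl0 hc0 hd0 hn
      refine ⟨x, hx, d0 ++ d', ?_, ?_, ?_⟩
      · rw [List.length_append, hl0, hl', Nat.succ_mul, add_comm]
      · rw [List.count_append, hc', hc0]
        push_cast
        ring
      · rw [costD_append, hl0, Nat.zero_add, ← hc0, eu]
        have h1 : (K0 : ℝ) * n ≤ K0 * ((open Classical in if Hit r K0 τ η W then 1 else 0 : ℕ) : ℝ) := by
          refine mul_le_mul_of_nonneg_left ?_ K0.2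
          exact_mod_cast hn
        push_cast at h1 hd' ⊢
        nlinarith
    rcases hx' with hx' | ⟨R, hR, hO, h1, h2⟩
    · rw [mem_reach_iff] at hx'
      obtain ⟨x, hx, d0, hl0, hc0, ha0⟩ := hx'
      refine hfin x hx d0 0 hl0 hc0 ?_ (Nat.zero_le _)
      have := costD_le_of_allD _ _ _ ha0
      rw [hl0] at this
      simpa using this
    · obtain ⟨d0, hl0, hc0, hd0⟩ := opp_path hτ hO x' h1 h2
      refine hfin R hR.1 d0 1 hl0 hc0 ?_ ?_
      · simpa using hd0
      · rw [if_pos ⟨R, hR, hO⟩]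

/-! ### measurability -/

private theorem meas_greatest {Ω : Type*} [MeasurableSpace Ω]
    {U : Ω → Set ℤ} (hU : ∀ y, MeasurableSet {ω | y ∈ U ω}) (R : ℤ) :
    MeasurableSet {ω | IsGreatest (U ω) R} := by
  have e : {ω | IsGreatest (U ω) R} = {ω | R ∈ U ω} ∩ ⋂ y : ℤ, {ω | y ∈ U ω → y ≤ R} := by
    ext ω
    rw [Set.mem_inter_iff, Set.mem_iInter]
    exact Iff.rfl
  rw [e]
  refine (hU R).inter (MeasurableSet.iInter fun y => ?_)
  by_cases h : y ≤ R
  · have e2 : {ω | y ∈ U ω → y ≤ R} = Set.univ := by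
      ext ω
      simp [h]
    rw [e2]
    exact MeasurableSet.univ
  · have e2 : {ω | y ∈ U ω → y ≤ R} = {ω | y ∈ U ω}ᶜ := by
      ext ω
      simp [h]
    rw [e2]
    exact (hU y).compl

/-- measurability, for random starting sets -/
theorem measurableSet_Hit {Ω : Type*} [MeasurableSpace Ω] {e : Ω → Env} (he : Measurable e)
    {U : Ω → Set ℤ} (hU : ∀ y, MeasurableSet {ω | y ∈ U ω}) :
    MeasurableSet {ω | Hit r K0 τ (e ω) (U ω)} := by
  have e1 : {ω | Hit r K0 τ (e ω) (U ω)} =
      ⋃ R : ℤ, {ω | IsGreatest (U ω) R} ∩ e ⁻¹' {η | Opp r K0 τ R η} := by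
    ext ω
    rw [Set.mem_iUnion]
    exact Iff.rfl
  rw [e1]
  exact MeasurableSet.iUnion fun R => (meas_greatest hU R).inter (he (measurableSet_Opp R))

theorem measurableSet_blk {Ω : Type*} [MeasurableSpace Ω] {e : Ω → Env} (he : Measurable e)
    {U : Ω → Set ℤ} (hU : ∀ y, MeasurableSet {ω | y ∈ U ω}) (y : ℤ) :
    MeasurableSet {ω | y ∈ blk r K0 τ (e ω) (U ω)} := by
  have e1 : {ω | y ∈ blk r K0 τ (e ω) (U ω)} = {ω | y ∈ reach (Iic r) (e ω) (U ω) τ} ∪
      ⋃ R : ℤ, {ω | IsGreatest (U ω) R} ∩ (e ⁻¹' {η | Opp r K0 τ R η} ∩ {_ω | R + 1 ≤ y ∧ y ≤ R + τ}) := by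
    ext ω
    rw [Set.mem_union, Set.mem_iUnion]
    exact Iff.rfl
  rw [e1]
  exact (measurableSet_reach' measurableSet_Iic he hU τ y).union (MeasurableSet.iUnion fun R =>
    (meas_greatest hU R).inter ((he (measurableSet_Opp R)).inter (MeasurableSet.const _)))

theorem measurableSet_run {Ω : Type*} [MeasurableSpace Ω] {e : Ω → Env} (he : Measurable e)
    {U : Ω → Set ℤ} (hU : ∀ y, MeasurableSet {ω | y ∈ U ω}) (j : ℕ) (y : ℤ) :
    MeasurableSet {ω | y ∈ run r K0 τ (e ω) (U ω) j} := by
  induction j generalizing e U with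
  | zero => exact hU y
  | succ j ih => exact ih ((measurable_sh τ).comp he) (measurableSet_blk he hU)

theorem measurable_used {Ω : Type*} [MeasurableSpace Ω] {e : Ω → Env} (he : Measurable e)
    {U : Ω → Set ℤ} (hU : ∀ y, MeasurableSet {ω | y ∈ U ω}) (j : ℕ) :
    Measurable fun ω => used r K0 τ (e ω) (U ω) j := by
  classical
  induction j generalizing e U with
  | zero =>
    have e1 : (fun ω => used r K0 τ (e ω) (U ω) 0) = fun _ => 0 := by
      funext ω
      rw [used]
    rw [e1]
    exact measurable_const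
  | succ j ih =>
    have e1 : (fun ω => used r K0 τ (e ω) (U ω) (j + 1)) = fun ω =>
        (if Hit r K0 τ (e ω) (U ω) then 1 else 0) +
          used r K0 τ (sh τ (e ω)) (blk r K0 τ (e ω) (U ω)) j := by
      funext ω
      rw [used]
    rw [e1]
    exact (Measurable.ite (measurableSet_Hit he hU) measurable_const measurable_const).add
      (ih ((measurable_sh τ).comp he) (measurableSet_blk he hU))

end Pool.Agent.TVR
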