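import Pool.Agent.TVR.Win
import Pool.Agent.TVR.BKb

/-!
# TVR / Skel: few perfect windows, by a union bound over skeletons and BK

`fam n K Cond y v`: edge sets of self-avoiding words of length `K` with displacement `v` and `Cond`, started at `y`.

`skel_one`. Suppose `w` is self-avoiding of length `M K < n` and has at least `φ M` perfect windows. Let
`v j = tot (win K w j)` (`|(v j).1|, |(v j).2| ≤ K` by `tot_abs`), `J` = set of perfect windows, `|J| ≥ φ M`,
`A j = (edgesL n (wst j) (win j)).toFinset`, `wst j = x + proj n (∑ i < j, v i)` (`tot_take_win`). For `j ∈ J`: `A j ∈ fam (wst j) (v j)` and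
all weights of `A j` are `< b`; the `A j` are pairwise disjoint (`win_disjoint`). So the event is contained in the union
over `x` (`n^2` values), `v : Fin M → Icc (-K) K × Icc (-K) K` (`(2K+1)^{2M}` values), `J ∈ (range M).powerset` with `φ M ≤ #J` (at most `2^M`) of
the events of `bk_pi` with `𝒜 j = fam n K Cond (x + proj n (∑ i < j, v i)) (v j)`, `S = Iio b`. By `bk_pi` and `hΛ` each has
probability at most `exp(-Λ)^{#J} ≤ exp(-Λ φ M)` (`Λ ≥ 0`). Union bound (`measure_iUnion_le`, `measure_biUnion_finset_le`, `tsum_fintype`).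

`few_prob`: `{¬ Few} ⊆ ⋃ M ≥ M0, M K < n, skel event of M`; each has probability at most
`n^2 (2 (2K+1)^2 exp(-Λ φ))^M ≤ n^2 (1/2)^M`; sum of the geometric series `≤ n^2 * 2 * (1/2)^{M0}` (finite sum over `M ∈ Ico M0 n`; `K ≥ 1`).
-/

set_option autoImplicit false

namespace Pool.Agent.TVR

open Finset Pool.Agent.Helper46.Tor MeasureTheory
open scoped NNReal ENNReal

/-- edge sets of self-avoiding words of length `K`, displacement `v`, with `Cond`, started at `y` -/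
def fam (n K : ℕ) (Cond : List (Fin 4) → Prop) (y : ZMod n × ZMod n) (v : ℤ × ℤ) :
    Set (Finset (Sym2 (ZMod n × ZMod n))) :=
  {A | ∃ w : List (Fin 4), w.length = K ∧ SA w ∧ tot w = v ∧ Cond w ∧
    A = (edgesL n y w).toFinset}

/-- the probability that a window with displacement `v` can be perfect is at most `q` -/
def WinBound (n K : ℕ) [NeZero n] (F : Measure ℝ≥0) (Cond : List (Fin 4) → Prop) (b : ℝ≥0)
    (q : ℝ) : Prop :=
  ∀ (y : ZMod n × ZMod n) (v : ℤ × ℤ),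
    (Measure.pi fun _ : Sym2 (ZMod n × ZMod n) => F)
      {ω | ∃ w : List (Fin 4), w.length = K ∧ SA w ∧ tot w = v ∧ Cond w ∧
        ∀ e ∈ edgesL n y w, ω e < b} ≤ ENNReal.ofReal q

/-- extension of a finite sequence by zero -/
private def ve {M : ℕ} (v : Fin M → ℤ × ℤ) (j : ℕ) : ℤ × ℤ := if h : j < M then v ⟨j, h⟩ else 0

private theorem ve_eq {M : ℕ} (v : ℕ → ℤ × ℤ) {j : ℕ} (hj : j < M) :
    ve (fun i : Fin M => v i) j = v j := by
  unfold ve
  rw [dif_pos hj]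

/-- the event for a given skeleton -/
private def skelEv (n K : ℕ) (Cond : List (Fin 4) → Prop) (b : ℝ≥0)
    (x : ZMod n × ZMod n) {M : ℕ} (v : Fin M → ℤ × ℤ) (J : Finset ℕ) :
    Set (Sym2 (ZMod n × ZMod n) → ℝ≥0) :=
  {ω | ∃ A : ℕ → Finset (Sym2 (ZMod n × ZMod n)),
    (∀ i ∈ J, A i ∈ fam n K Cond (x + proj n (∑ l ∈ range i, ve v l)) (ve v i) ∧
      ∀ e ∈ A i, ω e ∈ Set.Iio b) ∧
    (∀ i ∈ J, ∀ j ∈ J, i ≠ j → Disjoint (A i) (A j))}

private theorem skelEv_le (F : Measure ℝ≥0) [IsProbabilityMeasure F] {n K M : ℕ} [NeZero n]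
    {Cond : List (Fin 4) → Prop} {b : ℝ≥0} {Λ φ : ℝ} (hΛ0 : 0 ≤ Λ)
    (hΛ : WinBound n K F Cond b (Real.exp (-Λ))) (x : ZMod n × ZMod n)
    (v : Fin M → ℤ × ℤ) (J : Finset ℕ) (hJ : φ * M ≤ (J.card : ℝ)) :
    (Measure.pi fun _ : Sym2 (ZMod n × ZMod n) => F) (skelEv n K Cond b x v J) ≤
      ENNReal.ofReal (Real.exp (-(Λ * φ)) ^ M) := by
  have h1 := bk_pi (E := Sym2 (ZMod n × ZMod n)) F (measurableSet_Iio (a := b)) J
    (fun i => fam n K Cond (x + proj n (∑ l ∈ range i, ve v l)) (ve v i))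
  have h2 : ∏ i ∈ J, (Measure.pi fun _ : Sym2 (ZMod n × ZMod n) => F)
      {ω | ∃ A ∈ fam n K Cond (x + proj n (∑ l ∈ range i, ve v l)) (ve v i),
        ∀ e ∈ A, ω e ∈ Set.Iio b} ≤ ∏ i ∈ J, ENNReal.ofReal (Real.exp (-Λ)) := by
    refine Finset.prod_le_prod' fun i _ => ?_
    refine (measure_mono ?_).trans (hΛ (x + proj n (∑ l ∈ range i, ve v l)) (ve v i))
    rintro ω ⟨A, ⟨w, h3, h4, h5, h6, h7⟩, h8⟩
    refine ⟨w, h3, h4, h5, h6, fun e he => ?_⟩
    refine h8 e ?_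
    rw [h7, List.mem_toFinset]
    exact he
  refine (h1.trans h2).trans ?_
  rw [Finset.prod_const, ← ENNReal.ofReal_pow (Real.exp_pos _).le]
  apply ENNReal.ofReal_le_ofReal
  rw [← Real.exp_nat_mul, ← Real.exp_nat_mul]
  apply Real.exp_le_exp.2
  nlinarith [mul_le_mul_of_nonneg_left hJ hΛ0]

theorem skel_one (F : Measure ℝ≥0) [IsProbabilityMeasure F] {n K M : ℕ} [NeZero n] (hn : 2 ≤ n)
    (hK : 0 < K) (hM : M * K < n) {Cond : List (Fin 4) → Prop} {b : ℝ≥0} {Λ φ : ℝ} (hΛ0 : 0 ≤ Λ)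
    (hΛ : WinBound n K F Cond b (Real.exp (-Λ))) :
    (Measure.pi fun _ : Sym2 (ZMod n × ZMod n) => F)
      {ω | ∃ (x : ZMod n × ZMod n) (w : List (Fin 4)), w.length = M * K ∧ SA w ∧
        φ * M ≤ (cPft n K Cond b ω x w M : ℝ)} ≤
      ENNReal.ofReal ((n : ℝ) ^ 2 * (2 * (2 * K + 1) ^ 2 * Real.exp (-(Λ * φ))) ^ M) := by
  classical
  obtain ⟨V, hV⟩ : ∃ V : Finset (Fin M → ℤ × ℤ), V = Fintype.piFinset
    (fun _ : Fin M => (Finset.Icc (-(K : ℤ)) K ×ˢ Finset.Icc (-(K : ℤ)) K)) := ⟨_, rfl⟩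
  obtain ⟨P, hP⟩ : ∃ P : Finset (Finset ℕ), P =
    ((range M).powerset.filter fun J => φ * M ≤ (J.card : ℝ)) := ⟨_, rfl⟩
  have hVc : V.card = ((2 * K + 1) ^ 2) ^ M := by
    rw [hV, Fintype.card_piFinset]
    simp only [Finset.card_product, Int.card_Icc, Finset.prod_const, Finset.card_univ,
      Fintype.card_fin]
    congr 1
    have : ((K : ℤ) + 1 - -(K : ℤ)).toNat = 2 * K + 1 := by omega
    rw [this]
    ring
  have hPc : P.card ≤ 2 ^ M := by
    rw [hP]
    refine (Finset.card_filter_le _ _).trans ?_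
    rw [Finset.card_powerset, Finset.card_range]
  have hsub : {ω | ∃ (x : ZMod n × ZMod n) (w : List (Fin 4)), w.length = M * K ∧ SA w ∧
        φ * M ≤ (cPft n K Cond b ω x w M : ℝ)} ⊆
      ⋃ T ∈ (Finset.univ : Finset (ZMod n × ZMod n)) ×ˢ V ×ˢ P,
        skelEv n K Cond b T.1 T.2.1 T.2.2 := by
    rintro ω ⟨x, w, hlen, hSA, hφ⟩
    have hl : w.length < n := by rw [hlen]; exact hM
    obtain ⟨J, hJ⟩ : ∃ J : Finset ℕ, J = (range M).filter
      (fun j => Pft n Cond b ω (wst n K x w j) (win K w j)) := ⟨_, rfl⟩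
    have hJc : cPft n K Cond b ω x w M = J.card := by
      rw [hJ]
      unfold cPft
      congr
    rw [Set.mem_iUnion₂]
    refine ⟨(x, fun i : Fin M => tot (win K w i), J), ?_, ?_⟩
    · rw [Finset.mem_product, Finset.mem_product]
      refine ⟨Finset.mem_univ _, ?_, ?_⟩
      · rw [hV, Fintype.mem_piFinset]
        intro i
        have h1 := tot_abs (win K w i)
        rw [win_length hlen i.2] at h1
        have h2 := abs_nonneg (tot (win K w i)).1
        have h3 := abs_nonneg (tot (win K w i)).2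
        rw [Finset.mem_product, Finset.mem_Icc, Finset.mem_Icc]
        exact ⟨abs_le.1 (by linarith), abs_le.1 (by linarith)⟩
      · rw [hP, Finset.mem_filter, Finset.mem_powerset]
        refine ⟨?_, ?_⟩
        · rw [hJ]; exact Finset.filter_subset _ _
        · change φ * M ≤ (J.card : ℝ)
          rw [← hJc]; exact hφ
    · refine ⟨fun j => (edgesL n (wst n K x w j) (win K w j)).toFinset, fun i hi => ?_,
        fun i _ j _ hij => ?_⟩
      · have hi' : i ∈ J := hi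
        rw [hJ, Finset.mem_filter, Finset.mem_range] at hi'
        obtain ⟨hiM, hP1, hP2⟩ := hi'
        have e1 : ve (fun i : Fin M => tot (win K w i)) i = tot (win K w i) :=
          ve_eq (fun j => tot (win K w j)) hiM
        have e2 : ∑ l ∈ range i, ve (fun i : Fin M => tot (win K w i)) l =
            tot (w.take (i * K)) := by
          rw [tot_take_win]
          refine Finset.sum_congr rfl fun l hl => ?_
          exact ve_eq (fun j => tot (win K w j)) ((Finset.mem_range.1 hl).trans hiM)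
        refine ⟨?_, fun e he => hP2 e (List.mem_toFinset.1 he)⟩
        change _ ∈ fam n K Cond (x + proj n (∑ l ∈ range i,
          ve (fun i : Fin M => tot (win K w i)) l)) (ve (fun i : Fin M => tot (win K w i)) i)
        rw [e1, e2]
        exact ⟨win K w i, win_length hlen hiM, SA_win hSA K i, rfl, hP1, rfl⟩
      · exact win_disjoint hn x hSA hl hij
  refine (measure_mono hsub).trans ((measure_biUnion_finset_le _ _).trans ?_)
  have hb : ∀ T ∈ (Finset.univ : Finset (ZMod n × ZMod n)) ×ˢ V ×ˢ P,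
      (Measure.pi fun _ : Sym2 (ZMod n × ZMod n) => F) (skelEv n K Cond b T.1 T.2.1 T.2.2) ≤
        ENNReal.ofReal (Real.exp (-(Λ * φ)) ^ M) := by
    intro T hT
    rw [Finset.mem_product, Finset.mem_product] at hT
    have h1 := hT.2.2
    rw [hP, Finset.mem_filter] at h1
    exact skelEv_le F hΛ0 hΛ T.1 T.2.1 T.2.2 h1.2
  refine (Finset.sum_le_sum hb).trans ?_
  rw [Finset.sum_const, nsmul_eq_mul, ← ENNReal.ofReal_natCast,
    ← ENNReal.ofReal_mul (Nat.cast_nonneg _)]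
  apply ENNReal.ofReal_le_ofReal
  have hc : ((Finset.univ : Finset (ZMod n × ZMod n)) ×ˢ V ×ˢ P).card ≤
      n ^ 2 * (((2 * K + 1) ^ 2) ^ M * 2 ^ M) := by
    rw [Finset.card_product, Finset.card_product, hVc, Finset.card_univ, Fintype.card_prod,
      ZMod.card, ← sq]
    gcongr
  have hc' : (((Finset.univ : Finset (ZMod n × ZMod n)) ×ˢ V ×ˢ P).card : ℝ) ≤
      (n : ℝ) ^ 2 * (((2 * (K : ℝ) + 1) ^ 2) ^ M * 2 ^ M) := by
    exact_mod_cast hc
  calc _ ≤ (n : ℝ) ^ 2 * (((2 * (K : ℝ) + 1) ^ 2) ^ M * 2 ^ M) * Real.exp (-(Λ * φ)) ^ M :=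
        mul_le_mul_of_nonneg_right hc' (by positivity)
    _ = (n : ℝ) ^ 2 * (2 * (2 * K + 1) ^ 2 * Real.exp (-(Λ * φ))) ^ M := by
        rw [mul_pow, mul_pow]; ring

theorem few_prob (F : Measure ℝ≥0) [IsProbabilityMeasure F] {n K : ℕ} [NeZero n] (hn : 2 ≤ n)
    (hK : 0 < K) {Cond : List (Fin 4) → Prop} {b : ℝ≥0} {Λ φ : ℝ} (hΛ0 : 0 ≤ Λ)
    (hΛ : WinBound n K F Cond b (Real.exp (-Λ)))
    (hφ : 2 * (2 * (K : ℝ) + 1) ^ 2 * Real.exp (-(Λ * φ)) ≤ 1 / 2) (M0 : ℕ) :
    (Measure.pi fun _ : Sym2 (ZMod n × ZMod n) => F) {ω | ¬ Few n K Cond b φ M0 ω} ≤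
      ENNReal.ofReal ((n : ℝ) ^ 2 * 2 * (1 / 2) ^ M0) := by
  classical
  have hsub : {ω | ¬ Few n K Cond b φ M0 ω} ⊆ ⋃ M ∈ (Finset.Ico M0 n).filter (fun M => M * K < n),
      {ω | ∃ (x : ZMod n × ZMod n) (w : List (Fin 4)), w.length = M * K ∧ SA w ∧
        φ * M ≤ (cPft n K Cond b ω x w M : ℝ)} := by
    intro ω hω
    have hω' : ¬ Few n K Cond b φ M0 ω := hω
    unfold Few at hω'
    push Not at hω'
    obtain ⟨M, h1, h2, x, w, h3, h4, h5⟩ := hω'
    rw [Set.mem_iUnion₂]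
    refine ⟨M, ?_, x, w, h3, h4, h5⟩
    rw [Finset.mem_filter, Finset.mem_Ico]
    exact ⟨⟨h1, (Nat.le_mul_of_pos_right M hK).trans_lt h2⟩, h2⟩
  refine (measure_mono hsub).trans ((measure_biUnion_finset_le _ _).trans ?_)
  have hb : ∀ M ∈ (Finset.Ico M0 n).filter (fun M => M * K < n),
      (Measure.pi fun _ : Sym2 (ZMod n × ZMod n) => F)
        {ω | ∃ (x : ZMod n × ZMod n) (w : List (Fin 4)), w.length = M * K ∧ SA w ∧
          φ * M ≤ (cPft n K Cond b ω x w M : ℝ)} ≤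
        ENNReal.ofReal ((n : ℝ) ^ 2 * (1 / 2) ^ M) := by
    intro M hM
    rw [Finset.mem_filter] at hM
    refine (skel_one F hn hK hM.2 hΛ0 hΛ).trans (ENNReal.ofReal_le_ofReal ?_)
    gcongr
  refine (Finset.sum_le_sum hb).trans ?_
  refine (Finset.sum_le_sum_of_subset (Finset.filter_subset _ _)).trans ?_
  rw [← ENNReal.ofReal_sum_of_nonneg (fun M _ => by positivity)]
  apply ENNReal.ofReal_le_ofReal
  rw [← Finset.mul_sum, mul_assoc]
  refine mul_le_mul_of_nonneg_left ?_ (by positivity)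
  rw [Finset.sum_Ico_eq_sum_range]
  have h1 : ∑ i ∈ range (n - M0), (1 / 2 : ℝ) ^ (M0 + i) =
      (1 / 2) ^ M0 * ∑ i ∈ range (n - M0), (1 / 2 : ℝ) ^ i := by
    rw [Finset.mul_sum]
    refine Finset.sum_congr rfl fun i _ => pow_add _ _ _
  rw [h1]
  have h2 := sum_geometric_two_le (n - M0)
  have h3 : (0 : ℝ) ≤ (1 / 2) ^ M0 := by positivity
  nlinarith

end Pool.Agent.TVR
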