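import Pool.Agent.Helper46.Tor.Prob

/-!
# TVR / Win: windows of words

`win_edges`: `edgesL n x w` for `w` of length `M K` is the concatenation of the windows
(`edgesL_append` at `w = w.take (j K) ++ win K w j ++ w.drop ((j+1) K)`), so by `edgesL_nodup` (`SA w`, length `< n`) the edges of
different windows are different. `SA_win`: `SA_take`, `SA_drop`.
`tot_take_win`: `tot (w.take (j K)) = ∑ i < j, tot (win K w i)` by induction on `j`.
-/

set_option autoImplicit false

namespace Pool.Agent.TVR

open Finset Pool.Agent.Helper46.Tor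
open scoped NNReal

/-- the `j`-th window of length `K` -/
def win (K : ℕ) (w : List (Fin 4)) (j : ℕ) : List (Fin 4) := (w.drop (j * K)).take K

/-- the starting vertex of the `j`-th window -/
def wst (n K : ℕ) (x : ZMod n × ZMod n) (w : List (Fin 4)) (j : ℕ) : ZMod n × ZMod n :=
  x + proj n (tot (w.take (j * K)))

/-- a perfect window: it satisfies `Cond` and all its weights are `< b` -/
def Pft (n : ℕ) (Cond : List (Fin 4) → Prop) (b : ℝ≥0) (ω : Sym2 (ZMod n × ZMod n) → ℝ≥0)
    (x : ZMod n × ZMod n) (w : List (Fin 4)) : Prop :=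
  Cond w ∧ ∀ e ∈ edgesL n x w, ω e < b

open Classical in
/-- the number of perfect windows among the first `M` -/
noncomputable def cPft (n K : ℕ) (Cond : List (Fin 4) → Prop) (b : ℝ≥0)
    (ω : Sym2 (ZMod n × ZMod n) → ℝ≥0) (x : ZMod n × ZMod n) (w : List (Fin 4)) (M : ℕ) : ℕ :=
  #((range M).filter fun j => Pft n Cond b ω (wst n K x w j) (win K w j))

/-- self-avoiding words of length `M K < n` have less than `φ M` perfect windows, for all `M ≥ M0` -/
def Few (n K : ℕ) (Cond : List (Fin 4) → Prop) (b : ℝ≥0) (φ : ℝ) (M0 : ℕ)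
    (ω : Sym2 (ZMod n × ZMod n) → ℝ≥0) : Prop :=
  ∀ M : ℕ, M0 ≤ M → M * K < n → ∀ (x : ZMod n × ZMod n) (w : List (Fin 4)),
    w.length = M * K → SA w → (cPft n K Cond b ω x w M : ℝ) < φ * M

theorem win_length {K M : ℕ} {w : List (Fin 4)} (hw : w.length = M * K) {j : ℕ} (hj : j < M) :
    (win K w j).length = K := by
  unfold win
  rw [List.length_take, List.length_drop, hw]
  have h1 : (j + 1) * K ≤ M * K := Nat.mul_le_mul_right K hj
  rw [add_mul, one_mul] at h1
  omega

theorem SA_win {w : List (Fin 4)} (h : SA w) (K j : ℕ) : SA (win K w j) :=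
  SA_take (SA_drop h _) _

private theorem take_succ_win (K : ℕ) (w : List (Fin 4)) (j : ℕ) :
    w.take ((j + 1) * K) = w.take (j * K) ++ win K w j := by
  rw [add_mul, one_mul, List.take_add, win]

theorem tot_take_win (K : ℕ) (w : List (Fin 4)) (j : ℕ) :
    tot (w.take (j * K)) = ∑ i ∈ range j, tot (win K w i) := by
  induction j with
  | zero => simp [tot_nil]
  | succ j ih => rw [take_succ_win, tot_append, ih, sum_range_succ]

private theorem edgesL_split (n K : ℕ) (x : ZMod n × ZMod n) (w : List (Fin 4)) (j : ℕ) :
    ∃ l, edgesL n x w = edgesL n x (w.take (j * K)) ++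
      (edgesL n (wst n K x w j) (win K w j) ++ l) := by
  refine ⟨edgesL n (wst n K x w j + proj n (tot (win K w j))) ((w.drop (j * K)).drop K), ?_⟩
  have h1 : win K w j ++ (w.drop (j * K)).drop K = w.drop (j * K) := List.take_append_drop _ _
  rw [← edgesL_append, h1, wst, ← edgesL_append, List.take_append_drop]

/-- the edges of a window are edges of the word -/
theorem edges_win_subset (n K : ℕ) (x : ZMod n × ZMod n) (w : List (Fin 4)) (j : ℕ) :
    ∀ e ∈ edgesL n (wst n K x w j) (win K w j), e ∈ edgesL n x w := by
  intro e he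
  obtain ⟨l, hl⟩ := edgesL_split n K x w j
  rw [hl]
  exact List.mem_append_right _ (List.mem_append_left _ he)

private theorem win_disjoint_lt {n K : ℕ} (x : ZMod n × ZMod n) {w : List (Fin 4)} (hw : SA w)
    (hl : w.length < n) {i j : ℕ} (hij : i < j) :
    Disjoint (edgesL n (wst n K x w i) (win K w i)).toFinset
      (edgesL n (wst n K x w j) (win K w j)).toFinset := by
  classical
  have hK : (i + 1) * K ≤ j * K := Nat.mul_le_mul_right K hij
  rw [add_mul, one_mul] at hK
  have h1 : win K (w.take (j * K)) i = win K w i := by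
    unfold win
    rw [List.drop_take, List.take_take, min_eq_left (by omega)]
  have h2 : wst n K x (w.take (j * K)) i = wst n K x w i := by
    unfold wst
    rw [List.take_take, min_eq_left (by omega)]
  have h3 : ∀ e ∈ edgesL n (wst n K x w i) (win K w i), e ∈ edgesL n x (w.take (j * K)) := by
    have := edges_win_subset n K x (w.take (j * K)) i
    rwa [h1, h2] at this
  obtain ⟨l, hs⟩ := edgesL_split n K x w j
  have h4 := edgesL_nodup x w (SA_verts hw hl)
  rw [hs] at h4
  have h5 := List.disjoint_of_nodup_append h4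
  rw [Finset.disjoint_left]
  intro e he he'
  exact h5 (h3 e (List.mem_toFinset.1 he)) (List.mem_append_left _ (List.mem_toFinset.1 he'))

/-- different windows of a self-avoiding word have different edges -/
theorem win_disjoint {n K : ℕ} (hn : 2 ≤ n) (x : ZMod n × ZMod n) {w : List (Fin 4)} (hw : SA w)
    (hl : w.length < n) {i j : ℕ} (hij : i ≠ j) :
    Disjoint (edgesL n (wst n K x w i) (win K w i)).toFinset
      (edgesL n (wst n K x w j) (win K w j)).toFinset := by
  have _ := hn
  rcases lt_or_gt_of_ne hij with h | h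
  · exact win_disjoint_lt x hw hl h
  · exact (win_disjoint_lt x hw hl h).symm

private theorem wst_ne_lt {n K M : ℕ} (hK : 0 < K) (x : ZMod n × ZMod n) {w : List (Fin 4)}
    (hw : SA w) (hlen : w.length = M * K) (hl : w.length < n) {i j : ℕ} (hj : j < M)
    (hij : i < j) : wst n K x w i ≠ wst n K x w j := by
  intro h
  have h1 : proj n (tot (w.take (i * K))) = proj n (tot (w.take (j * K))) := add_left_cancel h
  refine SA_verts hw hl (i * K) (j * K) (Nat.mul_lt_mul_of_pos_right hij hK) ?_ h1
  rw [hlen]
  exact Nat.mul_le_mul_right K hj.le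

/-- different windows of a self-avoiding word have different starting vertices -/
theorem wst_ne {n K M : ℕ} (hK : 0 < K) (x : ZMod n × ZMod n) {w : List (Fin 4)} (hw : SA w)
    (hlen : w.length = M * K) (hl : w.length < n) {i j : ℕ} (hi : i < M) (hj : j < M)
    (hij : i ≠ j) : wst n K x w i ≠ wst n K x w j := by
  rcases lt_or_gt_of_ne hij with h | h
  · exact wst_ne_lt hK x hw hlen hl hj h
  · exact (wst_ne_lt hK x hw hlen hl hi h).symm

/-- cost of a word of length `M K` = sum of the costs of its windows -/
theorem cost_win {n K M : ℕ} (t : Sym2 (ZMod n × ZMod n) → ℝ) (x : ZMod n × ZMod n)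
    {w : List (Fin 4)} (hlen : w.length = M * K) :
    costL n t x w = ∑ j ∈ range M, costL n t (wst n K x w j) (win K w j) := by
  have h : ∀ j, costL n t x (w.take (j * K)) =
      ∑ i ∈ range j, costL n t (wst n K x w i) (win K w i) := by
    intro j
    induction j with
    | zero => simp [costL, edgesL]
    | succ j ih => rw [take_succ_win, costL_append, ih, sum_range_succ, wst]
  rw [← h M, ← hlen, List.take_length]

end Pool.Agent.TVR
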