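import Pool.Agent.TVR.Emb
import Pool.Agent.TVR.Xfer
import Pool.Agent.TVR.WDefs

/-!
# TVR / WinReach: staircases on the torus and oriented percolation

`stc_word`: induction on `w` is awkward because `v` changes; instead: `tot w` has `#0 - #1` and `#2 - #3` as coordinates (counts of letters,
`tot w = ∑`), `|w| = #0 + #1 + #2 + #3`, and `|#0 - #1| + |#2 - #3| = |w|` forces (`min (#0, #1) = 0`, `min (#2, #3) = 0`) that the only letters are
`a = if 0 ≤ v.1 then 0 else 1` and `b = if 0 ≤ v.2 then 2 else 3`. Take `d = w.map (· = a)`; `d.count true = w.count a = |v.1|`.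
`stc_word2`: take `d.map not`.

`win_reach`: the letters `a, b` depend only on `v`. `{ω | ∃ w, ..} ⊆ {ω | |v.1| ∈ reach (Iio b) (fun q => ω (emb n y a b q)) {0} K}` by `stc_word`, `all_emb`
(with `i = 0`, `x = 0`: `qpt a b 0 0 = 0`), `mem_reach_iff` (with `x = 0`). Then `transfer` with `I = Bx K K`, `ι = emb n y a b` (`emb_inj`, `K < n`),
`E = {η | |v.1| ∈ reach (Iio b) η {0} K}` (`measurableSet_reach`). It depends only on the edges in `Bx K K`: by `mem_reach_iff` membership is
witnessed by a path from `0` of length `K`, whose edges `(i, x, d)` have `0 ≤ x ≤ i < K` (a lemma `allD_congr` in the style of `costD_congr`;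
see DPath). `win_reach2`: the same with the letters `b, a`.
-/

set_option autoImplicit false

namespace Pool.Agent.TVR

open Finset Pool.Agent.Helper46.Tor MeasureTheory
open scoped NNReal ENNReal

private theorem tot_count (w : List (Fin 4)) :
    tot w = ((w.count 0 : ℤ) - w.count 1, (w.count 2 : ℤ) - w.count 3) ∧
      (w.length : ℤ) = w.count 0 + w.count 1 + w.count 2 + w.count 3 := by
  induction w with
  | nil => exact ⟨by simp only [tot_nil, List.count_nil]; rfl, by simp⟩
  | cons s w ih =>
    obtain ⟨h1, h2⟩ := ih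
    rw [tot_cons, h1, List.length_cons]
    push_cast
    rw [h2]
    have hc : s = 0 ∨ s = 1 ∨ s = 2 ∨ s = 3 := by
      fin_cases s <;> simp
    rcases hc with rfl | rfl | rfl | rfl
    · rw [List.count_cons_self, List.count_cons_of_ne (by decide), List.count_cons_of_ne (by decide),
        List.count_cons_of_ne (by decide)]
      refine ⟨?_, by push_cast; ring⟩
      have e : vec 0 = (1, 0) := rfl
      rw [e, Prod.mk_add_mk]
      push_cast
      exact Prod.ext (by ring) (by ring)
    · rw [List.count_cons_self, List.count_cons_of_ne (by decide), List.count_cons_of_ne (by decide),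
        List.count_cons_of_ne (by decide)]
      refine ⟨?_, by push_cast; ring⟩
      have e : vec 1 = (-1, 0) := rfl
      rw [e, Prod.mk_add_mk]
      push_cast
      exact Prod.ext (by ring) (by ring)
    · rw [List.count_cons_self, List.count_cons_of_ne (by decide), List.count_cons_of_ne (by decide),
        List.count_cons_of_ne (by decide)]
      refine ⟨?_, by push_cast; ring⟩
      have e : vec 2 = (0, 1) := rfl
      rw [e, Prod.mk_add_mk]
      push_cast
      exact Prod.ext (by ring) (by ring)
    · rw [List.count_cons_self, List.count_cons_of_ne (by decide), List.count_cons_of_ne (by decide),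
        List.count_cons_of_ne (by decide)]
      refine ⟨?_, by push_cast; ring⟩
      have e : vec 3 = (0, -1) := rfl
      rw [e, Prod.mk_add_mk]
      push_cast
      exact Prod.ext (by ring) (by ring)

private theorem stc_zero (w : List (Fin 4)) (hw : Stc w) :
    (0 ≤ (tot w).1 → w.count 1 = 0) ∧ (¬ 0 ≤ (tot w).1 → w.count 0 = 0) ∧
      (0 ≤ (tot w).2 → w.count 3 = 0) ∧ (¬ 0 ≤ (tot w).2 → w.count 2 = 0) := by
  obtain ⟨h1, h2⟩ := tot_count w
  unfold Stc at hw
  rw [h1] at hw
  rw [h1]
  simp only at hw ⊢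
  have e1 := abs_sub_abs_le_abs_sub ((w.count 0 : ℤ)) (w.count 1)
  have a0 : (0 : ℤ) ≤ w.count 0 := Int.natCast_nonneg _
  have a1 : (0 : ℤ) ≤ w.count 1 := Int.natCast_nonneg _
  have a2 : (0 : ℤ) ≤ w.count 2 := Int.natCast_nonneg _
  have a3 : (0 : ℤ) ≤ w.count 3 := Int.natCast_nonneg _
  have key : ∀ p q : ℤ, 0 ≤ p → 0 ≤ q → |p - q| ≤ p + q := by
    intro p q hp hq
    rw [abs_le]
    constructor <;> linarith
  have k1 := key _ _ a0 a1
  have k2 := key _ _ a2 a3
  have f1 : |(w.count 0 : ℤ) - w.count 1| = w.count 0 + w.count 1 := by linarith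
  have f2 : |(w.count 2 : ℤ) - w.count 3| = w.count 2 + w.count 3 := by linarith
  refine ⟨fun h => ?_, fun h => ?_, fun h => ?_, fun h => ?_⟩
  · rw [abs_of_nonneg h] at f1
    have : (w.count 1 : ℤ) = 0 := by linarith
    exact_mod_cast this
  · rw [abs_of_neg (not_le.1 h)] at f1
    have : (w.count 0 : ℤ) = 0 := by linarith
    exact_mod_cast this
  · rw [abs_of_nonneg h] at f2
    have : (w.count 3 : ℤ) = 0 := by linarith
    exact_mod_cast this
  · rw [abs_of_neg (not_le.1 h)] at f2
    have : (w.count 2 : ℤ) = 0 := by linarith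
    exact_mod_cast this

private theorem map_back {a b : Fin 4} (hne : a ≠ b) (w : List (Fin 4))
    (h : ∀ s ∈ w, s = a ∨ s = b) :
    w = (w.map fun s => decide (s = a)).map (ltr a b) ∧
      (w.map fun s => decide (s = a)).count true = w.count a := by
  induction w with
  | nil => simp
  | cons s w ih =>
    obtain ⟨h1, h2⟩ := ih (fun t ht => h t (List.mem_cons_of_mem s ht))
    rw [List.map_cons, List.map_cons]
    rcases h s List.mem_cons_self with rfl | rfl
    · constructor
      · conv_lhs => rw [h1]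
        simp [ltr]
      · rw [List.count_cons_self]
        simp only [decide_true, List.count_cons_self, h2]
    · constructor
      · conv_lhs => rw [h1]
        have : decide (s = a) = false := by
          rw [decide_eq_false_iff_not]
          exact fun h => hne h.symm
        rw [this]
        simp [ltr]
      · have : decide (s = a) = false := by
          rw [decide_eq_false_iff_not]
          exact fun h => hne h.symm
        rw [this, List.count_cons_of_ne (by decide), List.count_cons_of_ne (fun h => hne h.symm), h2]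

private theorem allD_congr' {S : Set ℝ≥0} {η η' : Env} (i : ℕ) (x : ℤ) (d : List Bool)
    (hx : 0 ≤ x) (hxi : x ≤ i)
    (h : ∀ q : OE, q.1 < i + d.length → 0 ≤ q.2.1 → q.2.1 ≤ q.1 → η q = η' q)
    (ha : allD S η i x d) : allD S η' i x d := by
  induction d generalizing i x with
  | nil => trivial
  | cons c ds ih =>
    rw [List.length_cons] at h
    refine ⟨?_, ih (i + 1) (x + if c then 1 else 0) ?_ ?_ ?_ ha.2⟩
    · rw [← h (i, x, c) (by simp only; omega) hx hxi]
      exact ha.1
    · cases c <;> simp <;> linarith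
    · push_cast
      cases c <;> simp <;> linarith
    · intro q hq
      exact h q (by omega)

private theorem qpt_zero (n : ℕ) (y : ZMod n × ZMod n) (a b : Fin 4) :
    y + proj n (qpt a b ((0 : ℕ) : ℤ) 0) = y := by
  have e : qpt a b ((0 : ℕ) : ℤ) 0 = 0 := by
    unfold qpt
    simp
  rw [e, proj_zero, add_zero]

/-- the general form of the last two theorems -/
private theorem win_gen (F : Measure ℝ≥0) [IsProbabilityMeasure F] {n K : ℕ} [NeZero n]
    (hn : 2 * K < n) (b0 : ℝ≥0) (y : ZMod n × ZMod n) {a b : Fin 4} (hab : Perp a b) (z : ℤ)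
    {T : Set (Sym2 (ZMod n × ZMod n) → ℝ≥0)}
    (hT : ∀ ω ∈ T, ∃ d : List Bool, d.length = K ∧ (d.count true : ℤ) = z ∧
      ∀ e ∈ edgesL n y (d.map (ltr a b)), ω e < b0) :
    (Measure.pi fun _ : Sym2 (ZMod n × ZMod n) => F) T ≤
      iid OE F {η | z ∈ reach (Set.Iio b0) η {0} K} := by
  have hKn : (K : ℤ) < n := by
    have : K < n := by omega
    exact_mod_cast this
  rw [transfer F (Bx K K) (emb n y a b) (emb_inj hab y hKn hKn)
    (measurableSet_reach measurableSet_Iio {0} K z) (by
      intro η η' hη hz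
      have hz' : z ∈ reach (Set.Iio b0) η {0} K := hz
      change z ∈ reach (Set.Iio b0) η' {0} K
      rw [mem_reach_iff] at hz' ⊢
      obtain ⟨x, hx, d, hd, hy, ha⟩ := hz'
      refine ⟨x, hx, d, hd, hy, ?_⟩
      have hx0 : x = 0 := hx
      subst hx0
      refine allD_congr' 0 0 d le_rfl (by simp) (fun q hq1 hq2 hq3 => hη q ?_) ha
      rw [hd, zero_add] at hq1
      have hq1' : (q.1 : ℤ) + 1 ≤ K := by exact_mod_cast hq1
      refine ⟨hq2, ?_, hq3, ?_⟩
      · have : (if q.2.2 then (1 : ℤ) else 0) ≤ 1 := by split_ifs <;> norm_num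
        linarith
      · have : (if q.2.2 then (0 : ℤ) else 1) ≤ 1 := by split_ifs <;> norm_num
        linarith)]
  refine measure_mono fun ω hω => ?_
  obtain ⟨d, hd, hz, he⟩ := hT ω hω
  change z ∈ reach (Set.Iio b0) (fun q => ω (emb n y a b q)) {0} K
  rw [mem_reach_iff]
  refine ⟨0, rfl, d, hd, by rw [zero_add, hz], ?_⟩
  rw [← all_emb n y a b (Set.Iio b0) ω 0 0 d, qpt_zero]
  exact he

theorem stc_word (v : ℤ × ℤ) (w : List (Fin 4)) (hv : tot w = v) (hw : Stc w) :
    ∃ d : List Bool, w = d.map (ltr (if 0 ≤ v.1 then 0 else 1) (if 0 ≤ v.2 then 2 else 3)) ∧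
      (d.count true : ℤ) = |v.1| := by
  obtain ⟨z1, z2, z3, z4⟩ := stc_zero w hw
  obtain ⟨h1, h2⟩ := tot_count w
  rw [hv] at z1 z2 z3 z4
  set a : Fin 4 := if 0 ≤ v.1 then 0 else 1 with ha
  set b : Fin 4 := if 0 ≤ v.2 then 2 else 3 with hb
  have hmem : ∀ s ∈ w, s = a ∨ s = b := by
    intro s hs
    have hc : s = 0 ∨ s = 1 ∨ s = 2 ∨ s = 3 := by
      fin_cases s <;> simp
    have hpos := List.count_pos_iff.2 hs
    rcases hc with rfl | rfl | rfl | rfl
    · left
      by_cases h : 0 ≤ v.1
      · rw [ha, if_pos h]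
      · rw [z2 h] at hpos
        exact absurd hpos (lt_irrefl 0)
    · left
      by_cases h : 0 ≤ v.1
      · rw [z1 h] at hpos
        exact absurd hpos (lt_irrefl 0)
      · rw [ha, if_neg h]
    · right
      by_cases h : 0 ≤ v.2
      · rw [hb, if_pos h]
      · rw [z4 h] at hpos
        exact absurd hpos (lt_irrefl 0)
    · right
      by_cases h : 0 ≤ v.2
      · rw [z3 h] at hpos
        exact absurd hpos (lt_irrefl 0)
      · rw [hb, if_neg h]
  have hne : a ≠ b := by
    rw [ha, hb]
    split_ifs <;> decide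
  obtain ⟨m1, m2⟩ := map_back hne w hmem
  refine ⟨_, m1, ?_⟩
  rw [m2]
  have hv1 : v.1 = (w.count 0 : ℤ) - w.count 1 := by rw [← hv, h1]
  by_cases h : 0 ≤ v.1
  · rw [ha, if_pos h, abs_of_nonneg h, hv1, z1 h]
    simp
  · rw [ha, if_neg h, abs_of_neg (not_le.1 h), hv1, z2 h]
    simp

theorem stc_word2 (v : ℤ × ℤ) (w : List (Fin 4)) (hv : tot w = v) (hw : Stc w) :
    ∃ d : List Bool, w = d.map (ltr (if 0 ≤ v.2 then 2 else 3) (if 0 ≤ v.1 then 0 else 1)) ∧
      (d.count true : ℤ) = |v.2| := by
  obtain ⟨d, hd, hc⟩ := stc_word v w hv hw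
  refine ⟨d.map not, ?_, ?_⟩
  · rw [List.map_map]
    conv_lhs => rw [hd]
    refine List.map_congr_left fun c _ => ?_
    cases c <;> simp [ltr]
  · have e : ((d.map not).count true : ℤ) = d.length - d.count true := by
      clear hd hc
      induction d with
      | nil => simp
      | cons c ds ih =>
        rw [List.map_cons, List.length_cons]
        cases c
        · simp only [Bool.not_false, List.count_cons_self]
          rw [List.count_cons_of_ne (by decide)]
          push_cast
          rw [ih]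
          ring
        · simp only [Bool.not_true, List.count_cons_self]
          rw [List.count_cons_of_ne (by decide)]
          push_cast
          rw [ih]
          ring
    have e2 : (w.length : ℤ) = d.length := by
      rw [hd, List.length_map]
    unfold Stc at hw
    rw [hv] at hw
    rw [e, hc, ← e2, ← hw]
    ring

theorem win_reach (F : Measure ℝ≥0) [IsProbabilityMeasure F] {n K : ℕ} [NeZero n]
    (hn : 2 * K < n) (b : ℝ≥0) (y : ZMod n × ZMod n) (v : ℤ × ℤ) :
    (Measure.pi fun _ : Sym2 (ZMod n × ZMod n) => F) {ω | ∃ w : List (Fin 4), w.length = K ∧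
      tot w = v ∧ Stc w ∧ ∀ e ∈ edgesL n y w, ω e < b} ≤
      iid OE F {η | |v.1| ∈ reach (Set.Iio b) η {0} K} := by
  refine win_gen F hn b y (a := if 0 ≤ v.1 then 0 else 1) (b := if 0 ≤ v.2 then 2 else 3) ?_ |v.1|
    ?_
  · left
    constructor
    · split_ifs <;> decide
    · split_ifs <;> decide
  · rintro ω ⟨w, hwK, hwv, hst, hwe⟩
    obtain ⟨d, hd, hc⟩ := stc_word v w hwv hst
    refine ⟨d, ?_, hc, ?_⟩
    · rw [← hwK, hd, List.length_map]
    · rw [← hd]
      exact hwe

theorem win_reach2 (F : Measure ℝ≥0) [IsProbabilityMeasure F] {n K : ℕ} [NeZero n]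
    (hn : 2 * K < n) (b : ℝ≥0) (y : ZMod n × ZMod n) (v : ℤ × ℤ) :
    (Measure.pi fun _ : Sym2 (ZMod n × ZMod n) => F) {ω | ∃ w : List (Fin 4), w.length = K ∧
      tot w = v ∧ Stc w ∧ ∀ e ∈ edgesL n y w, ω e < b} ≤
      iid OE F {η | |v.2| ∈ reach (Set.Iio b) η {0} K} := by
  refine win_gen F hn b y (a := if 0 ≤ v.2 then 2 else 3) (b := if 0 ≤ v.1 then 0 else 1) ?_ |v.2|
    ?_
  · right
    constructor
    · split_ifs <;> decide
    · split_ifs <;> decide
  · rintro ω ⟨w, hwK, hwv, hst, hwe⟩
    obtain ⟨d, hd, hc⟩ := stc_word2 v w hwv hst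
    refine ⟨d, ?_, hc, ?_⟩
    · rw [← hwK, hd, List.length_map]
    · rw [← hd]
      exact hwe

end Pool.Agent.TVR
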